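import Pool.Agent.Y508.FP.Stm

/-!
# A cyclic sequence with four alternating values has a first order deformation
-/

set_option autoImplicit false

namespace Pool.Agent.Y508.FP

namespace AltAux

/-- cyclic order of four indices -/
def Cyc (n p q r s : ℕ) : Prop :=
  p < n ∧ q < n ∧ r < n ∧ s < n ∧
    ((p < q ∧ q < r ∧ r < s) ∨ (q < r ∧ r < s ∧ s < p) ∨ (r < s ∧ s < p ∧ p < q) ∨
      (s < p ∧ p < q ∧ q < r))

/-- closed cyclic interval -/
def In (s t j : ℕ) : Prop := (s ≤ t ∧ s ≤ j ∧ j ≤ t) ∨ (t < s ∧ (s ≤ j ∨ j ≤ t))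

/-- four alternating points such that all the values of an arc are between those of its ends -/
structure Dat (n : ℕ) (v : ℕ → ℝ) (p q r s : ℕ) : Prop where
  cyc : Cyc n p q r s
  h1 : v p < v q
  h2 : v r < v q
  h3 : v r < v s
  h4 : v p < v s
  b1 : ∀ j < n, In p q j → v p ≤ v j ∧ v j ≤ v q
  b2 : ∀ j < n, In q r j → v r ≤ v j ∧ v j ≤ v q
  b3 : ∀ j < n, In r s j → v r ≤ v j ∧ v j ≤ v s
  b4 : ∀ j < n, In s p j → v p ≤ v j ∧ v j ≤ v s

open Classical in
/-- piecewise linear function of `v` with the slopes `a1, …, a4` on the four arcs -/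
noncomputable def pl (v : ℕ → ℝ) (p q r s : ℕ) (a1 a2 a3 a4 : ℝ) (j : ℕ) : ℝ :=
  if In p q j then a1 * (v j - v p) else if In q r j then a1 * (v q - v p) + a2 * (v j - v q)
  else if In r s j then a1 * (v q - v p) + a2 * (v r - v q) + a3 * (v j - v r)
  else a4 * (v j - v p)

section

variable {n : ℕ} {v : ℕ → ℝ} {p q r s : ℕ} {a1 a2 a3 a4 : ℝ}

theorem cover (hc : Cyc n p q r s) {j : ℕ} (hj : j < n) :
    In p q j ∨ In q r j ∨ In r s j ∨ In s p j := by
  unfold Cyc In at *; omega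

theorem consec (hc : Cyc n p q r s) {i j : ℕ} (hi : i < n) (hj : j < n)
    (h : i = j + 1 ∨ (i = 0 ∧ j + 1 = n)) : (In p q i ∧ In p q j) ∨ (In q r i ∧ In q r j) ∨
      (In r s i ∧ In r s j) ∨ (In s p i ∧ In s p j) := by
  obtain ⟨_, _, _, _, hc⟩ := hc
  unfold In
  rcases hc with hc | hc | hc | hc <;> rcases h with h | h <;> omega

theorem pl1 {j : ℕ} (h : In p q j) : pl v p q r s a1 a2 a3 a4 j = a1 * (v j - v p) := by
  unfold pl
  rw [if_pos h]

theorem pl2 (hc : Cyc n p q r s) {j : ℕ} (_hj : j < n) (h : In q r j) :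
    pl v p q r s a1 a2 a3 a4 j = a1 * (v q - v p) + a2 * (v j - v q) := by
  by_cases k : In p q j
  · have e : j = q := by unfold Cyc In at *; omega
    rw [pl1 k, e]; ring
  · unfold pl
    rw [if_neg k, if_pos h]

theorem pl3 (hc : Cyc n p q r s) {j : ℕ} (hj : j < n) (h : In r s j) :
    pl v p q r s a1 a2 a3 a4 j =
      a1 * (v q - v p) + a2 * (v r - v q) + a3 * (v j - v r) := by
  by_cases k : In q r j
  · have e : j = r := by unfold Cyc In at *; omega
    rw [pl2 hc hj k, e]; ring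
  · have k' : ¬ In p q j := by unfold Cyc In at *; omega
    unfold pl
    rw [if_neg k', if_neg k, if_pos h]

theorem pl4 (hc : Cyc n p q r s) {j : ℕ} (hj : j < n) (h : In s p j)
    (ha : a1 * (v q - v p) + a2 * (v r - v q) + a3 * (v s - v r) = a4 * (v s - v p)) :
    pl v p q r s a1 a2 a3 a4 j = a4 * (v j - v p) := by
  by_cases k : In p q j
  · have e : j = p := by unfold Cyc In at *; omega
    rw [pl1 k, e]; ring
  · by_cases k' : In r s j
    · have e : j = s := by unfold Cyc In at *; omega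
      rw [pl3 hc hj k', e]; exact ha
    · have k'' : ¬ In q r j := by unfold Cyc In at *; omega
      unfold pl
      rw [if_neg k, if_neg k'', if_neg k']

end

theorem slopes {A1 A2 A3 A4 : ℝ} (h1 : 0 < A1) (h2 : 0 < A2) (h3 : 0 < A3) (h4 : 0 < A4) :
    ∃ m1 m2 m3 m4 : ℝ, m1 < 0 ∧ 0 < m2 ∧ A1 * m1 ^ 2 = A3 ∧ A3 * m3 ^ 2 = A1 ∧
      A2 * m2 ^ 2 = A4 ∧ A4 * m4 ^ 2 = A2 ∧ A1 * m1 + A3 * m3 = 0 ∧ A2 * m2 + A4 * m4 = 0 := by
  have s1 : 0 < Real.sqrt (A1 * A3) := Real.sqrt_pos.mpr (by positivity)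
  have s2 : 0 < Real.sqrt (A2 * A4) := Real.sqrt_pos.mpr (by positivity)
  have e1 : Real.sqrt (A1 * A3) ^ 2 = A1 * A3 := Real.sq_sqrt (by positivity)
  have e2 : Real.sqrt (A2 * A4) ^ 2 = A2 * A4 := Real.sq_sqrt (by positivity)
  refine ⟨-(Real.sqrt (A1 * A3) / A1), Real.sqrt (A2 * A4) / A2, Real.sqrt (A1 * A3) / A3,
    -(Real.sqrt (A2 * A4) / A4), ?_, by positivity, ?_, ?_, ?_, ?_, ?_, ?_⟩
  · rw [neg_lt_zero]; positivity
  · rw [neg_sq, div_pow, e1]; field_simp
  · rw [div_pow, e1]; field_simp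
  · rw [div_pow, e2]; field_simp
  · rw [neg_sq, div_pow, e2]; field_simp
  · field_simp; ring
  · field_simp; ring

theorem ident {A1 A2 A3 A4 m1 m2 m3 : ℝ} (t : A1 + A3 = A2 + A4) (e1 : A1 * m1 ^ 2 = A3)
    (e3 : A3 * m3 ^ 2 = A1) (z : A1 * m1 + A3 * m3 = 0) (e2 : A2 * m2 ^ 2 = A4) :
    A1 * A2 * (m1 - m2) ^ 2 + A2 * A3 * (m2 - m3) ^ 2 = A1 * A3 * (m1 - m3) ^ 2 := by
  linear_combination A2 * e1 + A2 * e3 - 2 * A2 * m2 * z + (A1 + A3) * e2 -
    (A3 * e1 + A1 * e3 - 2 * (A1 * m1 * z - A1 * e1)) - (A1 + A3) * t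

theorem adj (m m' X Y : ℝ) (h : 0 ≤ X * Y) :
    (X - Y) * (m ^ 2 * X - m' ^ 2 * Y) ≤ (m * X - m' * Y) ^ 2 := by
  have e : (m * X - m' * Y) ^ 2 - (X - Y) * (m ^ 2 * X - m' ^ 2 * Y) = X * Y * (m - m') ^ 2 := by
    ring
  have := mul_nonneg h (sq_nonneg (m - m'))
  linarith

theorem opp {A1 A2 A3 m1 m2 m3 X Z : ℝ} (hX : 0 ≤ X) (hX' : X ≤ A1) (hZ : 0 ≤ Z) (hZ' : Z ≤ A3)
    (h1 : 0 < A1) (h2 : 0 < A2) (h3 : 0 < A3)
    (h0 : A1 * A2 * (m1 - m2) ^ 2 + A2 * A3 * (m2 - m3) ^ 2 = A1 * A3 * (m1 - m3) ^ 2) :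
    (X - A2 + Z) * (m1 ^ 2 * X - m2 ^ 2 * A2 + m3 ^ 2 * Z) ≤ (m1 * X - m2 * A2 + m3 * Z) ^ 2 := by
  have e : (m1 * X - m2 * A2 + m3 * Z) ^ 2 -
      (X - A2 + Z) * (m1 ^ 2 * X - m2 ^ 2 * A2 + m3 ^ 2 * Z) =
      X * A2 * (m1 - m2) ^ 2 + A2 * Z * (m2 - m3) ^ 2 - X * Z * (m1 - m3) ^ 2 := by ring
  have e' : (A1 * A3) * (X * A2 * (m1 - m2) ^ 2 + A2 * Z * (m2 - m3) ^ 2 - X * Z * (m1 - m3) ^ 2) =
      A1 * X * A2 * (m1 - m2) ^ 2 * (A3 - Z) + A3 * Z * A2 * (m2 - m3) ^ 2 * (A1 - X) := by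
    linear_combination (X * Z) * h0
  have p1 : 0 ≤ A1 * X * A2 * (m1 - m2) ^ 2 * (A3 - Z) :=
    mul_nonneg (by positivity) (by linarith)
  have p2 : 0 ≤ A3 * Z * A2 * (m2 - m3) ^ 2 * (A1 - X) :=
    mul_nonneg (by positivity) (by linarith)
  have p3 : 0 ≤ X * A2 * (m1 - m2) ^ 2 + A2 * Z * (m2 - m3) ^ 2 - X * Z * (m1 - m3) ^ 2 := by
    by_contra hn
    have := mul_neg_of_pos_of_neg (mul_pos h1 h3) (not_le.mp hn)
    linarith
  linarith

theorem core {n : ℕ} {v : ℕ → ℝ} {p q r s : ℕ} (D : Dat n v p q r s) :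
    ∃ (f g : ℕ → ℝ) (C : ℝ), 0 ≤ C ∧
    (∀ i, i + 1 < n → (f (i + 1) - f i) ^ 2 = (v (i + 1) - v i) * (g (i + 1) - g i) ∧
      |g (i + 1) - g i| ≤ C * |v (i + 1) - v i|) ∧
    (f 0 - f (n - 1)) ^ 2 = (v 0 - v (n - 1)) * (g 0 - g (n - 1)) ∧
    |g 0 - g (n - 1)| ≤ C * |v 0 - v (n - 1)| ∧
    (∀ i < n, ∀ j < n, (v i - v j) * (g i - g j) ≤ (f i - f j) ^ 2) ∧
    ∃ i j, i + 1 < j ∧ j < n ∧ ¬ (i = 0 ∧ j + 1 = n) ∧
      (v i - v j) * (g i - g j) < (f i - f j) ^ 2 := by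
  obtain ⟨cyc, h1, h2, h3, h4, b1, b2, b3, b4⟩ := D
  obtain ⟨m1, m2, m3, m4, n1, n2, e1, e3, e2, e4, z1, z2⟩ := slopes (A1 := v q - v p)
    (A2 := v q - v r) (A3 := v s - v r) (A4 := v s - v p) (by linarith) (by linarith)
    (by linarith) (by linarith)
  have hcf : m1 * (v q - v p) + m2 * (v r - v q) + m3 * (v s - v r) = m4 * (v s - v p) := by
    linear_combination z1 - z2
  have hcg : m1 ^ 2 * (v q - v p) + m2 ^ 2 * (v r - v q) + m3 ^ 2 * (v s - v r) =
      m4 ^ 2 * (v s - v p) := by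
    linear_combination e1 - e2 + e3 - e4
  obtain ⟨f, hf⟩ : ∃ f, f = pl v p q r s m1 m2 m3 m4 := ⟨_, rfl⟩
  obtain ⟨g, hg⟩ : ∃ g, g = pl v p q r s (m1 ^ 2) (m2 ^ 2) (m3 ^ 2) (m4 ^ 2) := ⟨_, rfl⟩
  have f1 : ∀ j, In p q j → f j = m1 * (v j - v p) := fun j h => by rw [hf, pl1 h]
  have f2 : ∀ j < n, In q r j → f j = m1 * (v q - v p) + m2 * (v j - v q) := fun j hj h => by
    rw [hf, pl2 cyc hj h]
  have f3 : ∀ j < n, In r s j → f j = m1 * (v q - v p) + m2 * (v r - v q) + m3 * (v j - v r) :=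
    fun j hj h => by rw [hf, pl3 cyc hj h]
  have f4 : ∀ j < n, In s p j → f j = m4 * (v j - v p) := fun j hj h => by
    rw [hf, pl4 cyc hj h hcf]
  have g1 : ∀ j, In p q j → g j = m1 ^ 2 * (v j - v p) := fun j h => by rw [hg, pl1 h]
  have g2 : ∀ j < n, In q r j → g j = m1 ^ 2 * (v q - v p) + m2 ^ 2 * (v j - v q) :=
    fun j hj h => by rw [hg, pl2 cyc hj h]
  have g3 : ∀ j < n, In r s j →
      g j = m1 ^ 2 * (v q - v p) + m2 ^ 2 * (v r - v q) + m3 ^ 2 * (v j - v r) :=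
    fun j hj h => by rw [hg, pl3 cyc hj h]
  have g4 : ∀ j < n, In s p j → g j = m4 ^ 2 * (v j - v p) := fun j hj h => by
    rw [hg, pl4 cyc hj h hcg]
  clear hf hg
  -- indices of a common arc
  have same : ∀ i < n, ∀ j < n, (In p q i ∧ In p q j) ∨ (In q r i ∧ In q r j) ∨
      (In r s i ∧ In r s j) ∨ (In s p i ∧ In s p j) →
      ∃ m : ℝ, (m = m1 ∨ m = m2 ∨ m = m3 ∨ m = m4) ∧ f i - f j = m * (v i - v j) ∧
        g i - g j = m ^ 2 * (v i - v j) := by
    intro i hi j hj h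
    rcases h with ⟨k, k'⟩ | ⟨k, k'⟩ | ⟨k, k'⟩ | ⟨k, k'⟩
    · exact ⟨m1, by tauto, by rw [f1 i k, f1 j k']; ring, by rw [g1 i k, g1 j k']; ring⟩
    · exact ⟨m2, by tauto, by rw [f2 i hi k, f2 j hj k']; ring,
        by rw [g2 i hi k, g2 j hj k']; ring⟩
    · exact ⟨m3, by tauto, by rw [f3 i hi k, f3 j hj k']; ring,
        by rw [g3 i hi k, g3 j hj k']; ring⟩
    · exact ⟨m4, by tauto, by rw [f4 i hi k, f4 j hj k']; ring,
        by rw [g4 i hi k, g4 j hj k']; ring⟩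
  have nbr : ∀ i < n, ∀ j < n, (In p q i ∧ In p q j) ∨ (In q r i ∧ In q r j) ∨
      (In r s i ∧ In r s j) ∨ (In s p i ∧ In s p j) →
      (f i - f j) ^ 2 = (v i - v j) * (g i - g j) ∧
        |g i - g j| ≤ (m1 ^ 2 + m2 ^ 2 + m3 ^ 2 + m4 ^ 2) * |v i - v j| := by
    intro i hi j hj h
    obtain ⟨m, hm, k1, k2⟩ := same i hi j hj h
    refine ⟨by rw [k1, k2]; ring, ?_⟩
    rw [k2, abs_mul, abs_of_nonneg (sq_nonneg m)]
    refine mul_le_mul_of_nonneg_right ?_ (abs_nonneg _)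
    have s1 := sq_nonneg m1
    have s2 := sq_nonneg m2
    have s3 := sq_nonneg m3
    have s4 := sq_nonneg m4
    rcases hm with rfl | rfl | rfl | rfl <;> linarith
  have symm : ∀ i j, (v i - v j) * (g i - g j) ≤ (f i - f j) ^ 2 →
      (v j - v i) * (g j - g i) ≤ (f j - f i) ^ 2 := by
    intro i j h
    calc (v j - v i) * (g j - g i) = (v i - v j) * (g i - g j) := by ring
      _ ≤ (f i - f j) ^ 2 := h
      _ = _ := by ring
  -- adjacent arcs
  have adjP : ∀ i j (m m' X Y : ℝ), v i - v j = X - Y → f i - f j = m * X - m' * Y →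
      g i - g j = m ^ 2 * X - m' ^ 2 * Y → 0 ≤ X * Y →
      (v i - v j) * (g i - g j) ≤ (f i - f j) ^ 2 := by
    intro i j m m' X Y k1 k2 k3 k4
    rw [k1, k2, k3]
    exact adj m m' X Y k4
  have P12 : ∀ i < n, ∀ j < n, In p q i → In q r j →
      (v i - v j) * (g i - g j) ≤ (f i - f j) ^ 2 := by
    intro i hi j hj ki kj
    refine adjP i j m1 m2 (v i - v q) (v j - v q) (by ring) (by rw [f1 i ki, f2 j hj kj]; ring)
      (by rw [g1 i ki, g2 j hj kj]; ring) (mul_nonneg_of_nonpos_of_nonpos ?_ ?_)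
    · linarith [(b1 i hi ki).2]
    · linarith [(b2 j hj kj).2]
  have P23 : ∀ i < n, ∀ j < n, In q r i → In r s j →
      (v i - v j) * (g i - g j) ≤ (f i - f j) ^ 2 := by
    intro i hi j hj ki kj
    refine adjP i j m2 m3 (v i - v r) (v j - v r) (by ring) (by rw [f2 i hi ki, f3 j hj kj]; ring)
      (by rw [g2 i hi ki, g3 j hj kj]; ring) (mul_nonneg ?_ ?_)
    · linarith [(b2 i hi ki).1]
    · linarith [(b3 j hj kj).1]
  have P34 : ∀ i < n, ∀ j < n, In r s i → In s p j →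
      (v i - v j) * (g i - g j) ≤ (f i - f j) ^ 2 := by
    intro i hi j hj ki kj
    refine adjP i j m3 m4 (v i - v s) (v j - v s) (by ring)
      (by rw [f3 i hi ki, f4 j hj kj]; linear_combination hcf)
      (by rw [g3 i hi ki, g4 j hj kj]; linear_combination hcg)
      (mul_nonneg_of_nonpos_of_nonpos ?_ ?_)
    · linarith [(b3 i hi ki).2]
    · linarith [(b4 j hj kj).2]
  have P41 : ∀ i < n, ∀ j < n, In s p i → In p q j →
      (v i - v j) * (g i - g j) ≤ (f i - f j) ^ 2 := by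
    intro i hi j hj ki kj
    refine adjP i j m4 m1 (v i - v p) (v j - v p) (by ring)
      (by rw [f4 i hi ki, f1 j kj]) (by rw [g4 i hi ki, g1 j kj]) (mul_nonneg ?_ ?_)
    · linarith [(b4 i hi ki).1]
    · linarith [(b1 j hj kj).1]
  -- opposite arcs
  have P13 : ∀ i < n, ∀ j < n, In p q i → In r s j →
      (v i - v j) * (g i - g j) ≤ (f i - f j) ^ 2 := by
    intro i hi j hj ki kj
    apply symm
    have k := opp (A1 := v q - v p) (A2 := v q - v r) (A3 := v s - v r) (m1 := m1) (m2 := m2)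
      (m3 := m3) (X := v q - v i) (Z := v j - v r) (by linarith [(b1 i hi ki).2])
      (by linarith [(b1 i hi ki).1]) (by linarith [(b3 j hj kj).1])
      (by linarith [(b3 j hj kj).2]) (by linarith) (by linarith) (by linarith)
      (ident (A4 := v s - v p) (by ring) e1 e3 z1 e2)
    have k1 : v j - v i = v q - v i - (v q - v r) + (v j - v r) := by ring
    have k2 : f j - f i = m1 * (v q - v i) - m2 * (v q - v r) + m3 * (v j - v r) := by
      rw [f1 i ki, f3 j hj kj]; ring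
    have k3 : g j - g i = m1 ^ 2 * (v q - v i) - m2 ^ 2 * (v q - v r) + m3 ^ 2 * (v j - v r) := by
      rw [g1 i ki, g3 j hj kj]; ring
    rw [k1, k2, k3]
    exact k
  have P24 : ∀ i < n, ∀ j < n, In q r i → In s p j →
      (v i - v j) * (g i - g j) ≤ (f i - f j) ^ 2 := by
    intro i hi j hj ki kj
    have k := opp (A1 := v q - v r) (A2 := v s - v r) (A3 := v s - v p) (m1 := m2) (m2 := m3)
      (m3 := m4) (X := v i - v r) (Z := v s - v j) (by linarith [(b2 i hi ki).1])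
      (by linarith [(b2 i hi ki).2]) (by linarith [(b4 j hj kj).2])
      (by linarith [(b4 j hj kj).1]) (by linarith) (by linarith) (by linarith)
      (ident (A4 := v q - v p) (by ring) e2 e4 z2 e3)
    have k1 : v i - v j = v i - v r - (v s - v r) + (v s - v j) := by ring
    have k2 : f i - f j = m2 * (v i - v r) - m3 * (v s - v r) + m4 * (v s - v j) := by
      rw [f2 i hi ki, f4 j hj kj]; linear_combination hcf
    have k3 : g i - g j = m2 ^ 2 * (v i - v r) - m3 ^ 2 * (v s - v r) + m4 ^ 2 * (v s - v j) := by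
      rw [g2 i hi ki, g4 j hj kj]; linear_combination hcg
    rw [k1, k2, k3]
    exact k
  have hn0 : 0 < n := lt_of_le_of_lt (Nat.zero_le _) cyc.1
  refine ⟨f, g, m1 ^ 2 + m2 ^ 2 + m3 ^ 2 + m4 ^ 2, by positivity, ?_, ?_, ?_, ?_, ?_⟩
  · intro i hi
    exact nbr (i + 1) hi i (by omega) (consec cyc hi (by omega) (Or.inl rfl))
  · exact (nbr 0 (by omega) (n - 1) (by omega) (consec cyc (by omega) (by omega)
      (Or.inr ⟨rfl, by omega⟩))).1
  · exact (nbr 0 (by omega) (n - 1) (by omega) (consec cyc (by omega) (by omega)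
      (Or.inr ⟨rfl, by omega⟩))).2
  · intro i hi j hj
    have eqP : ∀ i < n, ∀ j < n, (In p q i ∧ In p q j) ∨ (In q r i ∧ In q r j) ∨
      (In r s i ∧ In r s j) ∨ (In s p i ∧ In s p j) →
        (v i - v j) * (g i - g j) ≤ (f i - f j) ^ 2 := fun i hi j hj h =>
      (nbr i hi j hj h).1.ge
    rcases cover cyc hi with ki | ki | ki | ki <;> rcases cover cyc hj with kj | kj | kj | kj
    · exact eqP i hi j hj (Or.inl ⟨ki, kj⟩)
    · exact P12 i hi j hj ki kj
    · exact P13 i hi j hj ki kj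
    · exact symm _ _ (P41 j hj i hi kj ki)
    · exact symm _ _ (P12 j hj i hi kj ki)
    · exact eqP i hi j hj (Or.inr (Or.inl ⟨ki, kj⟩))
    · exact P23 i hi j hj ki kj
    · exact P24 i hi j hj ki kj
    · exact symm _ _ (P13 j hj i hi kj ki)
    · exact symm _ _ (P23 j hj i hi kj ki)
    · exact eqP i hi j hj (Or.inr (Or.inr (Or.inl ⟨ki, kj⟩)))
    · exact P34 i hi j hj ki kj
    · exact P41 i hi j hj ki kj
    · exact symm _ _ (P24 j hj i hi kj ki)
    · exact symm _ _ (P34 j hj i hi kj ki)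
    · exact eqP i hi j hj (Or.inr (Or.inr (Or.inr ⟨ki, kj⟩)))
  · -- the strict pair
    have hp : In p q p := by unfold Cyc In at *; omega
    have hr : In q r r := by unfold Cyc In at *; omega
    have hpn : p < n := cyc.1
    have hrn : r < n := cyc.2.2.1
    have strict : (v p - v r) * (g p - g r) < (f p - f r) ^ 2 := by
      have k1 : f p - f r = -(m1 * (v q - v p)) + m2 * (v q - v r) := by
        rw [f1 p hp, f2 r hrn hr]; ring
      have k2 : g p - g r = -(m1 ^ 2 * (v q - v p)) + m2 ^ 2 * (v q - v r) := by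
        rw [g1 p hp, g2 r hrn hr]; ring
      have k3 : (f p - f r) ^ 2 - (v p - v r) * (g p - g r) =
          (v q - v p) * (v q - v r) * (m2 - m1) ^ 2 := by
        rw [k1, k2]; ring
      have k4 : 0 < (v q - v p) * (v q - v r) * (m2 - m1) ^ 2 :=
        mul_pos (mul_pos (by linarith) (by linarith)) (pow_pos (by linarith) 2)
      linarith
    rcases Nat.lt_or_ge p r with hpr | hpr
    · exact ⟨p, r, by unfold Cyc at cyc; omega, hrn, by unfold Cyc at cyc; omega, strict⟩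
    · refine ⟨r, p, by unfold Cyc at cyc; omega, hpn, by unfold Cyc at cyc; omega, ?_⟩
      calc (v r - v p) * (g r - g p) = (v p - v r) * (g p - g r) := by ring
        _ < (f p - f r) ^ 2 := strict
        _ = _ := by ring

theorem repl_low {n l P l' h R : ℕ} (k : Cyc n l P l' h) (hR : R < n) (h1 : R ≠ P)
    (h2 : R ≠ h) : Cyc n R P l' h ∨ Cyc n l P R h := by
  obtain ⟨_, _, _, _, k⟩ := k
  unfold Cyc
  rcases k with k | k | k | k <;> omega

theorem repl_high {n a b c d P : ℕ} (hab : a < b) (hbc : b < c) (hcd : c < d) (hdn : d < n)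
    (hP : P < n) (h1 : P ≠ a) (h2 : P ≠ c) : Cyc n a P c d ∨ Cyc n c P a b := by
  unfold Cyc
  omega

end AltAux

open AltAux in
theorem alt : AltStm := by
  classical
  intro n v a b c d hab hbc hcd hdn h1 h2 h3 h4
  have cyc0 : Cyc n a b c d := by unfold Cyc; omega
  let Q : Finset (ℕ × ℕ × ℕ × ℕ) := ((Finset.range n) ×ˢ (Finset.range n) ×ˢ (Finset.range n) ×ˢ
    (Finset.range n)).filter (fun x => Cyc n x.1 x.2.1 x.2.2.1 x.2.2.2)
  have memQ : ∀ p q r s, Cyc n p q r s → (p, q, r, s) ∈ Q := by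
    intro p q r s h
    simp only [Q, Finset.mem_filter, Finset.mem_product, Finset.mem_range]
    exact ⟨⟨h.1, h.2.1, h.2.2.1, h.2.2.2.1⟩, h⟩
  obtain ⟨⟨p, q, r, s⟩, hx, hmax⟩ := Finset.exists_max_image Q
    (fun x => v x.2.1 + v x.2.2.2 - v x.1 - v x.2.2.1) ⟨_, memQ a b c d cyc0⟩
  have cyc : Cyc n p q r s := (Finset.mem_filter.mp hx).2
  have mx : ∀ p' q' r' s', Cyc n p' q' r' s' →
      v q' + v s' - v p' - v r' ≤ v q + v s - v p - v r := fun p' q' r' s' h =>
    hmax _ (memQ p' q' r' s' h)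
  have hn : (Finset.range n).Nonempty := ⟨a, Finset.mem_range.mpr (by omega)⟩
  obtain ⟨P, hP, hPm⟩ := Finset.exists_max_image (Finset.range n) v hn
  obtain ⟨R, hR, hRm⟩ := Finset.exists_min_image (Finset.range n) v hn
  simp only [Finset.mem_range] at hP hPm hR hRm
  have key : v P - v R < v q + v s - v p - v r := by
    have step : ∀ l l' h : ℕ, Cyc n l P l' h → v l < v h → v l' < v h →
        v P - v R < v q + v s - v p - v r := by
      intro l l' h k k1 k2
      have kl := hRm l k.1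
      have kl' := hPm h k.2.2.2.1
      have ne1 : R ≠ P := by intro e; rw [e] at kl; linarith
      have ne2 : R ≠ h := by intro e; rw [e] at kl; linarith
      have : Cyc n R P l' h ∨ Cyc n l P R h := repl_low k hR ne1 ne2
      rcases this with k3 | k3
      · have := mx _ _ _ _ k3
        linarith
      · have := mx _ _ _ _ k3
        linarith
    have kb := hPm b (by omega)
    have ne1 : P ≠ a := by intro e; rw [e] at kb; linarith
    have ne2 : P ≠ c := by intro e; rw [e] at kb; linarith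
    have : Cyc n a P c d ∨ Cyc n c P a b := repl_high hab hbc hcd hdn hP ne1 ne2
    rcases this with k | k
    · exact step a c d k h4 h3
    · exact step c a b k h2 h1
  have hp := cyc.1
  have hq := cyc.2.1
  have hr := cyc.2.2.1
  have hs := cyc.2.2.2.1
  have w1 := hPm q hq
  have w2 := hPm s hs
  have w3 := hRm p hp
  have w4 := hRm r hr
  have k1 : v p < v q := by linarith
  have k2 : v r < v q := by linarith
  have k3 : v r < v s := by linarith
  have k4 : v p < v s := by linarith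
  clear cyc0
  apply core (p := p) (q := q) (r := r) (s := s)
  refine ⟨cyc, k1, k2, k3, k4, ?_, ?_, ?_, ?_⟩
  · intro j hj hin
    by_cases e1 : j = p
    · rw [e1]; exact ⟨le_rfl, k1.le⟩
    by_cases e2 : j = q
    · rw [e2]; exact ⟨k1.le, le_rfl⟩
    have c1 := mx j q r s (by unfold Cyc In at *; omega)
    have c2 := mx p j r s (by unfold Cyc In at *; omega)
    constructor <;> linarith
  · intro j hj hin
    by_cases e1 : j = q
    · rw [e1]; exact ⟨k2.le, le_rfl⟩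
    by_cases e2 : j = r
    · rw [e2]; exact ⟨le_rfl, k2.le⟩
    have c1 := mx p j r s (by unfold Cyc In at *; omega)
    have c2 := mx p q j s (by unfold Cyc In at *; omega)
    constructor <;> linarith
  · intro j hj hin
    by_cases e1 : j = r
    · rw [e1]; exact ⟨le_rfl, k3.le⟩
    by_cases e2 : j = s
    · rw [e2]; exact ⟨k3.le, le_rfl⟩
    have c1 := mx p q j s (by unfold Cyc In at *; omega)
    have c2 := mx p q r j (by unfold Cyc In at *; omega)
    constructor <;> linarith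
  · intro j hj hin
    by_cases e1 : j = s
    · rw [e1]; exact ⟨k4.le, le_rfl⟩
    by_cases e2 : j = p
    · rw [e2]; exact ⟨le_rfl, k4.le⟩
    have c1 := mx p q r j (by unfold Cyc In at *; omega)
    have c2 := mx j q r s (by unfold Cyc In at *; omega)
    constructor <;> linarith

end Pool.Agent.Y508.FP
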