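import Pool.Agent.Y508.FP.Stm

/-! # Project FP: the comparison inequality on `[0, π/2]` -/

set_option autoImplicit false
open MeasureTheory Metric Set Filter Topology
open Real (sin cos)

namespace Pool.Agent.Y508.FP

theorem cot_deriv {t : ℝ} (h : sin t ≠ 0) :
    HasDerivAt (fun t => cos t / sin t) (-(1 + (cos t / sin t) ^ 2)) t := by
  have h1 := (Real.hasDerivAt_cos t).div (Real.hasDerivAt_sin t) h
  refine h1.congr_deriv ?_
  field_simp
  ring

theorem half : HalfStm := by
  intro q q' y hy0 hy hq hq' hq0 hle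
  have hqc : Continuous q := continuous_iff_continuousAt.2 fun t => (hq t).continuousAt
  have hint : ∀ a b : ℝ, IntegrableOn (fun t => q' t ^ 2 - q t ^ 2) (Icc a b) := fun a b =>
    ((hq'.pow 2).sub (hqc.pow 2)).continuousOn.integrableOn_Icc
  have hii : ∀ a b : ℝ, IntervalIntegrable (fun t => q' t ^ 2 - q t ^ 2) volume a b := fun a b =>
    ((hq'.pow 2).sub (hqc.pow 2)).intervalIntegrable a b
  -- the estimate with a parameter
  have key : ∀ δ : ℝ, 0 < δ → δ < Real.pi / 2 →
      -(y - sin y * cos y) + (q (Real.pi / 2) - sin y) ^ 2 *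
        (cos (Real.pi / 2 + δ) / sin (Real.pi / 2 + δ)) ≤
      ∫ t in (0 : ℝ)..(Real.pi / 2), (q' t ^ 2 - q t ^ 2) := by
    intro δ hδ hδ'
    have hs : ∀ t : ℝ, 0 ≤ t → t ≤ Real.pi / 2 → sin (t + δ) ≠ 0 := fun t h0 h1 =>
      (Real.sin_pos_of_pos_of_lt_pi (by linarith) (by linarith)).ne'
    have hc : ∀ t : ℝ, 0 ≤ t → t ≤ Real.pi / 2 → HasDerivAt
        (fun t => cos (t + δ) / sin (t + δ)) (-(1 + (cos (t + δ) / sin (t + δ)) ^ 2)) t := by
      intro t h0 h1
      have h2 := (cot_deriv (hs t h0 h1)).comp t ((hasDerivAt_id t).add_const δ)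
      simpa [Function.comp_def] using h2
    set c : ℝ → ℝ := fun t => cos (t + δ) / sin (t + δ) with hcdef
    -- the primitives
    set G1 : ℝ → ℝ := fun t => 2 * (cos y * sin t * (q t - (1 - cos y * cos t))) +
      cos y * sin t * (1 - cos y * cos t) + (q t - (1 - cos y * cos t)) ^ 2 * c t -
      (t - cos y * sin t) with hG1
    set G2 : ℝ → ℝ := fun t => 2 * (sin y * cos t * (q t - sin y * sin t)) +
      sin y * cos t * (sin y * sin t) + (q t - sin y * sin t) ^ 2 * c t with hG2
    have d1 : ∀ t, 0 ≤ t → t ≤ Real.pi / 2 → HasDerivAt G1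
        (2 * (cos y * cos t * (q t - (1 - cos y * cos t)) +
          cos y * sin t * (q' t - cos y * sin t)) +
          (cos y * cos t * (1 - cos y * cos t) + cos y * sin t * (cos y * sin t)) +
          (2 * (q t - (1 - cos y * cos t)) * (q' t - cos y * sin t) * c t +
            (q t - (1 - cos y * cos t)) ^ 2 * (-(1 + c t ^ 2))) -
          (1 - cos y * cos t)) t := by
      intro t h0 h1
      have hS := (Real.hasDerivAt_sin t).const_mul (cos y)
      have hC := (Real.hasDerivAt_cos t).const_mul (cos y)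
      have hT : HasDerivAt (fun t => 1 - cos y * cos t) (cos y * sin t) t := by
        refine (hC.const_sub 1).congr_deriv ?_
        ring
      have hr := (hq t).sub hT
      have e1 := (hS.mul hr).const_mul 2
      have e2 := hS.mul hT
      have e3 := (hr.pow 2).mul (hc t h0 h1)
      have e4 := (hasDerivAt_id t).sub hS
      refine (((e1.add e2).add e3).sub e4).congr_deriv ?_
      simp only [hcdef, Nat.cast_ofNat, Nat.add_one_sub_one, pow_one, Pi.sub_apply, Pi.pow_apply]
    have d2 : ∀ t, 0 ≤ t → t ≤ Real.pi / 2 → HasDerivAt G2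
        (2 * (-(sin y * sin t) * (q t - sin y * sin t) +
          sin y * cos t * (q' t - sin y * cos t)) +
          (-(sin y * sin t) * (sin y * sin t) + sin y * cos t * (sin y * cos t)) +
          (2 * (q t - sin y * sin t) * (q' t - sin y * cos t) * c t +
            (q t - sin y * sin t) ^ 2 * (-(1 + c t ^ 2)))) t := by
      intro t h0 h1
      have hS := (Real.hasDerivAt_sin t).const_mul (sin y)
      have hC := (Real.hasDerivAt_cos t).const_mul (sin y)
      have hr := (hq t).sub hS
      have e1 := (hC.mul hr).const_mul 2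
      have e2 := hC.mul hS
      have e3 := (hr.pow 2).mul (hc t h0 h1)
      refine ((e1.add e2).add e3).congr_deriv ?_
      simp only [hcdef, Nat.cast_ofNat, Nat.add_one_sub_one, pow_one, Pi.sub_apply, Pi.pow_apply]
      ring
    have i1 : G1 y - G1 0 ≤ ∫ t in (0 : ℝ)..y, (q' t ^ 2 - q t ^ 2) := by
      refine intervalIntegral.sub_le_integral_of_hasDeriv_right_of_le hy0
        (fun t ht => (d1 t ht.1 (ht.2.trans hy.le)).continuousAt.continuousWithinAt)
        (fun t ht => (d1 t ht.1.le (ht.2.le.trans hy.le)).hasDerivWithinAt) (hint 0 y) ?_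
      intro t ht
      have h1 := hle t ht.1.le ht.2.le
      nlinarith [sq_nonneg ((q' t - cos y * sin t) - (q t - (1 - cos y * cos t)) * c t)]
    have i2 : G2 (Real.pi / 2) - G2 y ≤ ∫ t in y..(Real.pi / 2), (q' t ^ 2 - q t ^ 2) := by
      refine intervalIntegral.sub_le_integral_of_hasDeriv_right_of_le hy.le
        (fun t ht => (d2 t (hy0.trans ht.1) ht.2).continuousAt.continuousWithinAt)
        (fun t ht => (d2 t (hy0.trans ht.1.le) ht.2.le).hasDerivWithinAt)
        (hint y (Real.pi / 2)) ?_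
      intro t ht
      nlinarith [sq_nonneg ((q' t - sin y * cos t) - (q t - sin y * sin t) * c t)]
    have g1 : G1 0 = 0 := by
      simp only [hG1, Real.sin_zero, Real.cos_zero, hq0]
      ring
    have g2 : G2 (Real.pi / 2) = (q (Real.pi / 2) - sin y) ^ 2 *
        (cos (Real.pi / 2 + δ) / sin (Real.pi / 2 + δ)) := by
      simp only [hG2, hcdef, Real.sin_pi_div_two, Real.cos_pi_div_two]
      ring
    have g3 : G1 y - G2 y = -(y - sin y * cos y) := by
      have h1 : (1 : ℝ) - cos y * cos y = sin y * sin y := by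
        have := Real.sin_sq_add_cos_sq y
        nlinarith
      simp only [hG1, hG2, h1]
      ring
    have h1 := intervalIntegral.integral_add_adjacent_intervals (hii 0 y) (hii y (Real.pi / 2))
    linarith
  -- let the parameter tend to zero
  have hlim : Tendsto (fun δ : ℝ => -(y - sin y * cos y) + (q (Real.pi / 2) - sin y) ^ 2 *
        (cos (Real.pi / 2 + δ) / sin (Real.pi / 2 + δ))) (𝓝[>] 0)
        (𝓝 (-(y - sin y * cos y) + (q (Real.pi / 2) - sin y) ^ 2 *
        (cos (Real.pi / 2 + 0) / sin (Real.pi / 2 + 0)))) := by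
    have hca : ContinuousAt (fun δ : ℝ => -(y - sin y * cos y) + (q (Real.pi / 2) - sin y) ^ 2 *
        (cos (Real.pi / 2 + δ) / sin (Real.pi / 2 + δ))) 0 := by
      have h1 : sin (Real.pi / 2 + 0) ≠ 0 := by simp
      have h2 : ContinuousAt (fun δ : ℝ => cos (Real.pi / 2 + δ)) 0 := by fun_prop
      have h3 : ContinuousAt (fun δ : ℝ => sin (Real.pi / 2 + δ)) 0 := by fun_prop
      exact continuousAt_const.add (continuousAt_const.mul (h2.div h3 h1))
    exact hca.tendsto.mono_left nhdsWithin_le_nhds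
  have hfin := le_of_tendsto hlim (by
    have h1 : ∀ᶠ δ : ℝ in 𝓝[>] 0, δ ∈ Ioo (0 : ℝ) (Real.pi / 2) :=
      Ioo_mem_nhdsGT (by positivity)
    filter_upwards [h1] with δ hδ
    exact key δ hδ.1 hδ.2)
  simpa using hfin

theorem half0 : Half0Stm := by
  intro q q' hq hq' hq0 hq'0 hle
  have hqc : Continuous q := continuous_iff_continuousAt.2 fun t => (hq t).continuousAt
  have hfc : Continuous fun t => q' t ^ 2 - q t ^ 2 := (hq'.pow 2).sub (hqc.pow 2)
  have hs : ∀ t : ℝ, 0 < t → t ≤ Real.pi / 2 → 0 < sin t := fun t h0 h1 =>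
    Real.sin_pos_of_pos_of_lt_pi h0 (by linarith)
  -- the quotient by the sine
  have hlim1 : Tendsto (fun t => q t / sin t) (𝓝[>] 0) (𝓝 0) := by
    have h1 := (hasDerivAt_iff_tendsto_slope.1 (hq 0)).mono_left
      (nhdsWithin_mono (0 : ℝ) fun t (ht : t ∈ Ioi (0 : ℝ)) => (ne_of_gt ht : t ≠ 0))
    have h2 := (hasDerivAt_iff_tendsto_slope.1 (Real.hasDerivAt_sin 0)).mono_left
      (nhdsWithin_mono (0 : ℝ) fun t (ht : t ∈ Ioi (0 : ℝ)) => (ne_of_gt ht : t ≠ 0))
    rw [hq'0] at h1
    rw [Real.cos_zero] at h2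
    have h3 := h1.div h2 one_ne_zero
    rw [zero_div] at h3
    refine h3.congr' ?_
    filter_upwards [self_mem_nhdsWithin] with t ht
    have ht' : (t : ℝ) ≠ 0 := ne_of_gt ht
    simp only [Pi.div_apply, slope_def_field, hq0, Real.sin_zero, sub_zero]
    rw [div_div_div_cancel_right₀ ht']
  have hlim2 : Tendsto (fun t => q t ^ 2 * (cos t / sin t)) (𝓝[>] 0) (𝓝 0) := by
    have h1 : Tendsto (fun t => q t * cos t) (𝓝[>] 0) (𝓝 0) := by
      have h2 : ContinuousAt (fun t => q t * cos t) 0 := (hqc.mul Real.continuous_cos).continuousAt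
      have h3 := h2.tendsto.mono_left (nhdsWithin_le_nhds (s := Ioi (0 : ℝ)))
      simpa [hq0] using h3
    have h2 := hlim1.mul h1
    rw [zero_mul] at h2
    refine h2.congr fun t => ?_
    ring
  set H : ℝ → ℝ := fun t => (∫ s in (0 : ℝ)..(Real.pi / 2), (q' s ^ 2 - q s ^ 2)) -
    (∫ s in (0 : ℝ)..t, (q' s ^ 2 - q s ^ 2)) + q t ^ 2 * (cos t / sin t) with hH
  have dH : ∀ t, 0 < t → t ≤ Real.pi / 2 →
      HasDerivAt H (-(q' t - q t * (cos t / sin t)) ^ 2) t := by
    intro t h0 h1
    have e1 := intervalIntegral.integral_hasDerivAt_right (hfc.intervalIntegrable 0 t)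
      hfc.stronglyMeasurable.stronglyMeasurableAtFilter hfc.continuousAt (a := 0) (b := t)
    have e2 := ((hq t).pow 2).mul (cot_deriv (hs t h0 h1).ne')
    refine ((e1.const_sub _).add e2).congr_deriv ?_
    simp only [Nat.cast_ofNat, Nat.add_one_sub_one, pow_one, Pi.pow_apply]
    ring
  have hanti : AntitoneOn H (Ioc 0 (Real.pi / 2)) := by
    refine antitoneOn_of_deriv_nonpos (convex_Ioc _ _)
      (fun t ht => (dH t ht.1 ht.2).continuousAt.continuousWithinAt) ?_ ?_
    · intro t ht
      have ht' := interior_subset ht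
      exact (dH t ht'.1 ht'.2).differentiableAt.differentiableWithinAt
    · intro t ht
      have ht' := interior_subset ht
      rw [(dH t ht'.1 ht'.2).deriv]
      nlinarith [sq_nonneg (q' t - q t * (cos t / sin t))]
  have hpi : (0 : ℝ) < Real.pi / 2 := by positivity
  have hend : H (Real.pi / 2) = 0 := by
    simp only [hH, Real.cos_pi_div_two]
    ring
  have hlimH : Tendsto H (𝓝[>] 0) (𝓝 (∫ s in (0 : ℝ)..(Real.pi / 2), (q' s ^ 2 - q s ^ 2))) := by
    have h1 : ContinuousAt (fun t => ∫ s in (0 : ℝ)..t, (q' s ^ 2 - q s ^ 2)) 0 :=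
      (intervalIntegral.integral_hasDerivAt_right (hfc.intervalIntegrable 0 0)
        hfc.stronglyMeasurable.stronglyMeasurableAtFilter hfc.continuousAt).continuousAt
    have h2 := h1.tendsto.mono_left (nhdsWithin_le_nhds (s := Ioi (0 : ℝ)))
    rw [intervalIntegral.integral_same] at h2
    have h3 := ((tendsto_const_nhds (x := ∫ s in (0 : ℝ)..(Real.pi / 2),
      (q' s ^ 2 - q s ^ 2))).sub h2).add hlim2
    simpa using h3
  have hzero : ∀ t, 0 < t → t ≤ Real.pi / 2 → H t = 0 := by
    intro t h0 h1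
    refine le_antisymm ?_ ?_
    · have h2 : H t ≤ ∫ s in (0 : ℝ)..(Real.pi / 2), (q' s ^ 2 - q s ^ 2) := by
        refine ge_of_tendsto hlimH ?_
        filter_upwards [Ioo_mem_nhdsGT h0] with s hs'
        exact hanti ⟨hs'.1, hs'.2.le.trans h1⟩ ⟨h0, h1⟩ hs'.2.le
      exact h2.trans hle
    · rw [← hend]
      exact hanti ⟨h0, h1⟩ ⟨hpi, le_rfl⟩ h1
  have hode : ∀ t, 0 < t → t < Real.pi / 2 → q' t = q t * (cos t / sin t) := by
    intro t h0 h1
    have h2 : HasDerivAt H 0 t := by
      refine (hasDerivAt_const t (0 : ℝ)).congr_of_eventuallyEq ?_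
      filter_upwards [Ioo_mem_nhds h0 h1] with s hs'
      exact hzero s hs'.1 hs'.2.le
    have h3 := (dH t h0 h1.le).unique h2
    have h4 : (q' t - q t * (cos t / sin t)) ^ 2 = 0 := by linarith
    have h5 := pow_eq_zero_iff (two_ne_zero) |>.1 h4
    linarith
  -- the quotient is constant
  have hconst : ∀ a b : ℝ, 0 < a → a ≤ b → b < Real.pi / 2 → q b / sin b = q a / sin a := by
    intro a b ha hab hb
    have hd : ∀ t, a ≤ t → t ≤ b → HasDerivAt (fun t => q t / sin t) 0 t := by
      intro t h0 h1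
      have ht : 0 < t := ha.trans_le h0
      have hsn := (hs t ht (by linarith)).ne'
      refine ((hq t).div (Real.hasDerivAt_sin t) hsn).congr_deriv ?_
      rw [hode t ht (by linarith)]
      field_simp
      ring
    exact constant_of_has_deriv_right_zero (a := a) (b := b) (f := fun t => q t / sin t)
      (fun t ht => (hd t ht.1 ht.2).continuousAt.continuousWithinAt)
      (fun t ht => (hd t ht.1 ht.2.le).hasDerivWithinAt) b ⟨hab, le_rfl⟩
  have hopen : ∀ t, 0 < t → t < Real.pi / 2 → q t = 0 := by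
    intro t h0 h1
    have h2 : Tendsto (fun s => q s / sin s) (𝓝[>] 0) (𝓝 (q t / sin t)) := by
      refine tendsto_const_nhds.congr' ?_
      filter_upwards [Ioo_mem_nhdsGT h0] with s hs'
      exact hconst s t hs'.1 hs'.2.le h1
    have h3 := tendsto_nhds_unique h2 hlim1
    rcases div_eq_zero_iff.1 h3 with h4 | h4
    · exact h4
    · exact absurd h4 (hs t h0 h1.le).ne'
  intro t h0 h1
  rcases h0.eq_or_lt with rfl | h0
  · exact hq0
  rcases h1.eq_or_lt with rfl | h1
  · have h2 : Tendsto q (𝓝[<] (Real.pi / 2)) (𝓝 (q (Real.pi / 2))) :=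
      hqc.continuousAt.tendsto.mono_left nhdsWithin_le_nhds
    have h3 : Tendsto q (𝓝[<] (Real.pi / 2)) (𝓝 0) := by
      refine tendsto_const_nhds.congr' ?_
      filter_upwards [Ioo_mem_nhdsLT hpi] with s hs'
      exact (hopen s hs'.1 hs'.2).symm
    exact tendsto_nhds_unique h2 h3
  · exact hopen t h0 h1

end Pool.Agent.Y508.FP
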