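import Pool.Agent.Y508.FP.Stm2
import Pool.Agent.Y508.FP.Half

/-! # Project FP: the comparison inequality on `[0, π/2]` with a remainder -/

set_option autoImplicit false
open MeasureTheory Metric Set Filter Topology
open Real (sin cos)

namespace Pool.Agent.Y508.FP

theorem half2 : Half2Stm := by
  intro q q' y t₁ hy0 hy hq hq' hq0 hle ht0 ht1 hyq
  rcases hyq.eq_or_lt with hD0 | hD0
  · have h := half q q' y hy0 hy hq hq' hq0 fun t h0 h1 => hle t h0 (h1.trans hy.le)
    rw [← hD0, sub_self]
    have h1 : (0 : ℝ) ^ 3 / 7 - (y - sin y * cos y) = -(y - sin y * cos y) := by ring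
    rw [h1]
    exact h
  have hpi := Real.pi_pos
  have hpi3 := Real.pi_gt_three
  have hpi4 : Real.pi < 3.15 := Real.pi_lt_d2
  have hqc : Continuous q := continuous_iff_continuousAt.2 fun t => (hq t).continuousAt
  have hint : ∀ a b : ℝ, IntegrableOn (fun t => q' t ^ 2 - q t ^ 2) (Icc a b) := fun a b =>
    ((hq'.pow 2).sub (hqc.pow 2)).continuousOn.integrableOn_Icc
  have hii : ∀ a b : ℝ, IntervalIntegrable (fun t => q' t ^ 2 - q t ^ 2) volume a b := fun a b =>
    ((hq'.pow 2).sub (hqc.pow 2)).intervalIntegrable a b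
  set D : ℝ := q t₁ - y with hD
  have hDp : 0 < D := by
    rw [hD]
    linarith
  have hsy0 : 0 ≤ sin y := Real.sin_nonneg_of_nonneg_of_le_pi hy0 (by linarith)
  have hsy1 : sin y ≤ y := Real.sin_le hy0
  have hsy2 : sin y ≤ 1 := Real.sin_le_one y
  have hcy0 : 0 ≤ cos y := Real.cos_nonneg_of_neg_pi_div_two_le_of_le (by linarith) hy.le
  -- the point `t₁` is beyond `y`
  have hyt : y < t₁ := by
    by_contra hn
    push Not at hn
    have h1 := hle t₁ ht0 ht1
    have h2 : cos y ≤ cos t₁ := Real.cos_le_cos_of_nonneg_of_le_pi ht0 (by linarith) hn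
    have h3 : cos y * cos y ≤ cos y * cos t₁ := mul_le_mul_of_nonneg_left h2 hcy0
    have h4 := Real.sin_sq_add_cos_sq y
    have h5 : sin y * sin y ≤ sin y * 1 := mul_le_mul_of_nonneg_left hsy2 hsy0
    linarith
  have ht1p : 0 < t₁ := hy0.trans_lt hyt
  -- the upper bound for the quotient
  have hup : ∀ t, y ≤ t → 0 < t → t ≤ Real.pi / 2 →
      (q t - sin y * sin t) / sin t ≤ Real.pi / 4 * t := by
    intro t h0 h1 h2
    have h3 := hle t h1.le h2
    have h4 := Real.cos_sub t y
    have h5 := Real.one_sub_sq_div_two_le_cos (x := t - y)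
    have h6 := Real.mul_le_sin h1.le h2
    have h7 : 0 < sin t := Real.sin_pos_of_pos_of_lt_pi h1 (by linarith)
    rw [div_le_iff₀ h7]
    have h8 : q t - sin y * sin t ≤ t ^ 2 / 2 := by
      have h9 : (t - y) ^ 2 ≤ t ^ 2 := by
        apply pow_le_pow_left₀ (by linarith)
        linarith
      rw [h4] at h5
      linarith
    have h10 : Real.pi / 4 * t * (2 / Real.pi * t) = t ^ 2 / 2 := by
      field_simp
      ring
    have h11 : Real.pi / 4 * t * (2 / Real.pi * t) ≤ Real.pi / 4 * t * sin t :=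
      mul_le_mul_of_nonneg_left h6 (by positivity)
    linarith
  -- the lower bound at `t₁`
  have hs1 : 0 < sin t₁ := Real.sin_pos_of_pos_of_lt_pi ht1p (by linarith)
  have hs1' : sin t₁ ≤ 1 := Real.sin_le_one _
  have hlow : D ≤ (q t₁ - sin y * sin t₁) / sin t₁ := by
    rw [le_div_iff₀ hs1]
    have h1 : sin y * sin t₁ ≤ sin y * 1 := mul_le_mul_of_nonneg_left hs1' hsy0
    have h2 : D * sin t₁ ≤ D * 1 := mul_le_mul_of_nonneg_left hs1' hDp.le
    have h3 : q t₁ = D + y := by
      rw [hD]
      ring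
    linarith
  -- the point `s`
  set s₀ : ℝ := 2 * D / Real.pi with hs₀
  have hs₀p : 0 < s₀ := by positivity
  have hs₀D : Real.pi / 4 * s₀ = D / 2 := by
    rw [hs₀]
    field_simp
    ring
  have hs₀t : s₀ < t₁ := by
    by_contra hn
    push Not at hn
    have h1 := hup t₁ hyt.le ht1p ht1
    have h2 : Real.pi / 4 * t₁ ≤ Real.pi / 4 * s₀ := mul_le_mul_of_nonneg_left hn (by positivity)
    linarith
  obtain ⟨s, hys, hs0s, hst, hzs⟩ : ∃ s, y ≤ s ∧ s₀ ≤ s ∧ s < t₁ ∧
      (q s - sin y * sin s) / sin s ≤ D / 2 := by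
    rcases le_or_gt s₀ y with h | h
    · refine ⟨y, le_rfl, h, hyt, ?_⟩
      have h1 : q y - sin y * sin y ≤ 0 := by
        have h2 := hle y hy0 hy.le
        have h3 := Real.sin_sq_add_cos_sq y
        linarith
      have h4 : (q y - sin y * sin y) / sin y ≤ 0 := div_nonpos_of_nonpos_of_nonneg h1 hsy0
      linarith
    · refine ⟨s₀, h.le, le_rfl, hs₀t, ?_⟩
      have h1 := hup s₀ h.le hs₀p (hs₀t.le.trans ht1)
      linarith
  have hsp : 0 < s := hs₀p.trans_le hs0s
  have hspi : s < Real.pi / 2 := hst.trans_le ht1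
  have hss : 0 < sin s := Real.sin_pos_of_pos_of_lt_pi hsp (by linarith)
  have hcs : 0 < cos s := Real.cos_pos_of_mem_Ioo ⟨by linarith, hspi⟩
  have hcot : cos s / sin s ≤ Real.pi / (2 * D) := by
    have h1 : s ≤ Real.tan s := Real.le_tan hsp.le hspi
    rw [Real.tan_eq_sin_div_cos, le_div_iff₀ hcs] at h1
    have h2 : cos s / sin s ≤ 1 / s := by
      rw [div_le_div_iff₀ hss hsp]
      linarith
    have h3 : 1 / s ≤ 1 / s₀ := one_div_le_one_div_of_le hs₀p hs0s
    have h4 : 1 / s₀ = Real.pi / (2 * D) := by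
      rw [hs₀, one_div_div]
    linarith
  have hcot1 : 0 ≤ cos t₁ / sin t₁ :=
    div_nonneg (Real.cos_nonneg_of_neg_pi_div_two_le_of_le (by linarith) ht1) hs1.le
  -- the constant
  set k : ℝ := D ^ 2 / Real.pi with hk
  have hkp : 0 < k := by positivity
  have hrem : D ^ 3 / 7 ≤ 2 * k * ((q t₁ - sin y * sin t₁) / sin t₁ -
      (q s - sin y * sin s) / sin s) + k ^ 2 * (cos t₁ / sin t₁ - cos s / sin s) := by
    have h1 : 2 * k * (D / 2) ≤ 2 * k * ((q t₁ - sin y * sin t₁) / sin t₁ -
      (q s - sin y * sin s) / sin s) := mul_le_mul_of_nonneg_left (by linarith) (by positivity)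
    have h2 : k ^ 2 * (-(Real.pi / (2 * D))) ≤ k ^ 2 * (cos t₁ / sin t₁ - cos s / sin s) :=
      mul_le_mul_of_nonneg_left (by linarith) (by positivity)
    have h3 : 2 * k * (D / 2) + k ^ 2 * (-(Real.pi / (2 * D))) = D ^ 3 / (2 * Real.pi) := by
      rw [hk]
      field_simp
      ring
    have h4 : D ^ 3 / 7 ≤ D ^ 3 / (2 * Real.pi) :=
      div_le_div_of_nonneg_left (by positivity) (by positivity) (by linarith)
    linarith
  -- the derivatives
  have hc : ∀ δ t : ℝ, sin (t + δ) ≠ 0 → HasDerivAt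
      (fun t => cos (t + δ) / sin (t + δ)) (-(1 + (cos (t + δ) / sin (t + δ)) ^ 2)) t := by
    intro δ t h0
    have h2 := (cot_deriv h0).comp t ((hasDerivAt_id t).add_const δ)
    simpa [Function.comp_def] using h2
  have d2 : ∀ δ t : ℝ, sin (t + δ) ≠ 0 → HasDerivAt
      (fun t => 2 * (sin y * cos t * (q t - sin y * sin t)) +
        sin y * cos t * (sin y * sin t) + (q t - sin y * sin t) ^ 2 *
        (cos (t + δ) / sin (t + δ)))
      (2 * (-(sin y * sin t) * (q t - sin y * sin t) +
        sin y * cos t * (q' t - sin y * cos t)) +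
        (-(sin y * sin t) * (sin y * sin t) + sin y * cos t * (sin y * cos t)) +
        (2 * (q t - sin y * sin t) * (q' t - sin y * cos t) * (cos (t + δ) / sin (t + δ)) +
          (q t - sin y * sin t) ^ 2 * (-(1 + (cos (t + δ) / sin (t + δ)) ^ 2)))) t := by
    intro δ t h0
    have hS := (Real.hasDerivAt_sin t).const_mul (sin y)
    have hC := (Real.hasDerivAt_cos t).const_mul (sin y)
    have hr := (hq t).sub hS
    have e1 := (hC.mul hr).const_mul 2
    have e2 := hC.mul hS
    have e3 := (hr.pow 2).mul (hc δ t h0)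
    refine ((e1.add e2).add e3).congr_deriv ?_
    simp only [Nat.cast_ofNat, Nat.add_one_sub_one, pow_one, Pi.sub_apply, Pi.pow_apply]
    ring
  have d3 : ∀ t : ℝ, sin t ≠ 0 → HasDerivAt
      (fun t => (2 * (sin y * cos t * (q t - sin y * sin t)) +
        sin y * cos t * (sin y * sin t) + (q t - sin y * sin t) ^ 2 *
        (cos (t + 0) / sin (t + 0))) + (2 * k * ((q t - sin y * sin t) / sin t) +
        k ^ 2 * (cos t / sin t)))
      ((2 * (-(sin y * sin t) * (q t - sin y * sin t) +
        sin y * cos t * (q' t - sin y * cos t)) +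
        (-(sin y * sin t) * (sin y * sin t) + sin y * cos t * (sin y * cos t)) +
        (2 * (q t - sin y * sin t) * (q' t - sin y * cos t) * (cos (t + 0) / sin (t + 0)) +
          (q t - sin y * sin t) ^ 2 * (-(1 + (cos (t + 0) / sin (t + 0)) ^ 2)))) +
        (2 * k * (((q' t - sin y * cos t) - (q t - sin y * sin t) * (cos t / sin t)) / sin t) +
          k ^ 2 * (-(1 + (cos t / sin t) ^ 2)))) t := by
    intro t h0
    have hS := (Real.hasDerivAt_sin t).const_mul (sin y)
    have hr := (hq t).sub hS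
    have hz : HasDerivAt (fun t => (q t - sin y * sin t) / sin t)
        (((q' t - sin y * cos t) - (q t - sin y * sin t) * (cos t / sin t)) / sin t) t := by
      refine (hr.div (Real.hasDerivAt_sin t) h0).congr_deriv ?_
      simp only [Pi.sub_apply]
      field_simp
    exact (d2 0 t (by rwa [add_zero])).add ((hz.const_mul (2 * k)).add
      ((cot_deriv h0).const_mul (k ^ 2)))
  -- the estimate with a parameter
  have key : ∀ δ : ℝ, 0 < δ → δ < Real.pi / 2 →
      D ^ 3 / 7 - (y - sin y * cos y) + (q s - sin y * sin s) ^ 2 *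
        (cos (s + δ) / sin (s + δ) - cos s / sin s) ≤
      ∫ t in (0 : ℝ)..(Real.pi / 2), (q' t ^ 2 - q t ^ 2) := by
    intro δ hδ hδ'
    have hs : ∀ t : ℝ, 0 ≤ t → t ≤ Real.pi / 2 → sin (t + δ) ≠ 0 := fun t h0 h1 =>
      (Real.sin_pos_of_pos_of_lt_pi (by linarith) (by linarith)).ne'
    have hs' : ∀ t : ℝ, 0 < t → t ≤ Real.pi / 2 → sin t ≠ 0 := fun t h0 h1 =>
      (Real.sin_pos_of_pos_of_lt_pi (by linarith) (by linarith)).ne'
    have hs'' : ∀ t : ℝ, 0 < t → t ≤ Real.pi / 2 → sin (t + 0) ≠ 0 := fun t h0 h1 => by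
      rw [add_zero]
      exact hs' t h0 h1
    set c : ℝ → ℝ := fun t => cos (t + δ) / sin (t + δ) with hcdef
    -- the primitives
    set G1 : ℝ → ℝ := fun t => 2 * (cos y * sin t * (q t - (1 - cos y * cos t))) +
      cos y * sin t * (1 - cos y * cos t) + (q t - (1 - cos y * cos t)) ^ 2 * c t -
      (t - cos y * sin t) with hG1
    set G2 : ℝ → ℝ → ℝ := fun δ t => 2 * (sin y * cos t * (q t - sin y * sin t)) +
        sin y * cos t * (sin y * sin t) + (q t - sin y * sin t) ^ 2 *
        (cos (t + δ) / sin (t + δ)) with hG2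
    have d1 : ∀ t, 0 ≤ t → t ≤ Real.pi / 2 → HasDerivAt G1
        (2 * (cos y * cos t * (q t - (1 - cos y * cos t)) +
          cos y * sin t * (q' t - cos y * sin t)) +
          (cos y * cos t * (1 - cos y * cos t) + cos y * sin t * (cos y * sin t)) +
          (2 * (q t - (1 - cos y * cos t)) * (q' t - cos y * sin t) * c t +
            (q t - (1 - cos y * cos t)) ^ 2 * (-(1 + c t ^ 2))) -
          (1 - cos y * cos t)) t := by
      intro t h0 h1
      have hS := (Real.hasDerivAt_sin t).const_mul (cos y)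
      have hC := (Real.hasDerivAt_cos t).const_mul (cos y)
      have hT : HasDerivAt (fun t => 1 - cos y * cos t) (cos y * sin t) t := by
        refine (hC.const_sub 1).congr_deriv ?_
        ring
      have hr := (hq t).sub hT
      have e1 := (hS.mul hr).const_mul 2
      have e2 := hS.mul hT
      have e3 := (hr.pow 2).mul (hc δ t (hs t h0 h1))
      have e4 := (hasDerivAt_id t).sub hS
      refine (((e1.add e2).add e3).sub e4).congr_deriv ?_
      simp only [hcdef, Nat.cast_ofNat, Nat.add_one_sub_one, pow_one, Pi.sub_apply, Pi.pow_apply]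
    have i1 : G1 y - G1 0 ≤ ∫ t in (0 : ℝ)..y, (q' t ^ 2 - q t ^ 2) := by
      refine intervalIntegral.sub_le_integral_of_hasDeriv_right_of_le hy0
        (fun t ht => (d1 t ht.1 (ht.2.trans hy.le)).continuousAt.continuousWithinAt)
        (fun t ht => (d1 t ht.1.le (ht.2.le.trans hy.le)).hasDerivWithinAt) (hint 0 y) ?_
      intro t ht
      have h1 := hle t ht.1.le (ht.2.le.trans hy.le)
      linarith [sq_nonneg ((q' t - cos y * sin t) - (q t - (1 - cos y * cos t)) * c t)]
    have i2 : G2 δ s - G2 δ y ≤ ∫ t in y..s, (q' t ^ 2 - q t ^ 2) := by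
      refine intervalIntegral.sub_le_integral_of_hasDeriv_right_of_le hys
        (fun t ht => (d2 δ t (hs t (hy0.trans ht.1)
          (ht.2.trans hspi.le))).continuousAt.continuousWithinAt)
        (fun t ht => (d2 δ t (hs t (hy0.trans ht.1.le)
          (ht.2.le.trans hspi.le))).hasDerivWithinAt)
        (hint y s) ?_
      intro t ht
      linarith [sq_nonneg ((q' t - sin y * cos t) - (q t - sin y * sin t) *
        (cos (t + δ) / sin (t + δ)))]
    have i3 : (G2 0 t₁ + (2 * k * ((q t₁ - sin y * sin t₁) / sin t₁) +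
        k ^ 2 * (cos t₁ / sin t₁))) - (G2 0 s + (2 * k * ((q s - sin y * sin s) / sin s) +
        k ^ 2 * (cos s / sin s))) ≤ ∫ t in s..t₁, (q' t ^ 2 - q t ^ 2) := by
      refine intervalIntegral.sub_le_integral_of_hasDeriv_right_of_le (g := fun t => G2 0 t +
          (2 * k * ((q t - sin y * sin t) / sin t) + k ^ 2 * (cos t / sin t))) hst.le
        (fun t ht => (d3 t (hs' t (hsp.trans_le ht.1)
          (ht.2.trans ht1))).continuousAt.continuousWithinAt)
        (fun t ht => (d3 t (hs' t (hsp.trans ht.1)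
          (ht.2.le.trans ht1))).hasDerivWithinAt)
        (hint s t₁) ?_
      intro t ht
      have hst' : sin t ≠ 0 := hs' t (hsp.trans ht.1) (ht.2.le.trans ht1)
      rw [add_zero]
      have hg : (cos t / sin t) ^ 2 = (1 / sin t) ^ 2 - 1 := by
        have h1 := Real.sin_sq_add_cos_sq t
        field_simp
        linarith
      have hsq : ∀ w g : ℝ, 2 * k * (w * g) + -(k * g) ^ 2 ≤ w ^ 2 := fun w g => by
        have := sq_nonneg (w - k * g)
        linarith
      have hdv : ((q' t - sin y * cos t) - (q t - sin y * sin t) * (cos t / sin t)) / sin t =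
          ((q' t - sin y * cos t) - (q t - sin y * sin t) * (cos t / sin t)) * (1 / sin t) := by
        rw [mul_one_div]
      rw [hdv]
      have e5 : q' t ^ 2 - q t ^ 2 = (2 * (-(sin y * sin t) * (q t - sin y * sin t) +
        sin y * cos t * (q' t - sin y * cos t)) +
        (-(sin y * sin t) * (sin y * sin t) + sin y * cos t * (sin y * cos t)) +
        (2 * (q t - sin y * sin t) * (q' t - sin y * cos t) * (cos t / sin t) +
          (q t - sin y * sin t) ^ 2 * (-(1 + (cos t / sin t) ^ 2)))) +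
          ((q' t - sin y * cos t) - (q t - sin y * sin t) * (cos t / sin t)) ^ 2 := by
        ring
      have e6 : k ^ 2 * (-(1 + (cos t / sin t) ^ 2)) = -(k * (1 / sin t)) ^ 2 := by
        rw [hg]
        ring
      rw [e5, e6]
      exact add_le_add le_rfl (hsq _ _)
    have i4 : G2 0 (Real.pi / 2) - G2 0 t₁ ≤ ∫ t in t₁..(Real.pi / 2), (q' t ^ 2 - q t ^ 2) := by
      refine intervalIntegral.sub_le_integral_of_hasDeriv_right_of_le ht1
        (fun t ht => (d2 0 t (hs'' t (ht1p.trans_le ht.1) ht.2)).continuousAt.continuousWithinAt)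
        (fun t ht => (d2 0 t (hs'' t (ht1p.trans ht.1) ht.2.le)).hasDerivWithinAt)
        (hint t₁ (Real.pi / 2)) ?_
      intro t ht
      linarith [sq_nonneg ((q' t - sin y * cos t) - (q t - sin y * sin t) *
        (cos (t + 0) / sin (t + 0)))]
    have g1 : G1 0 = 0 := by
      simp only [hG1, Real.sin_zero, Real.cos_zero, hq0]
      ring
    have g2 : G2 0 (Real.pi / 2) = 0 := by
      simp only [hG2, add_zero, Real.sin_pi_div_two, Real.cos_pi_div_two]
      ring
    have g3 : G1 y - G2 δ y = -(y - sin y * cos y) := by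
      have h1 : (1 : ℝ) - cos y * cos y = sin y * sin y := by
        have := Real.sin_sq_add_cos_sq y
        linarith
      simp only [hG1, hG2, hcdef, h1]
      ring
    have g4 : G2 δ s - G2 0 s = (q s - sin y * sin s) ^ 2 *
        (cos (s + δ) / sin (s + δ) - cos s / sin s) := by
      simp only [hG2, add_zero]
      ring
    have h1 := intervalIntegral.integral_add_adjacent_intervals (hii 0 y) (hii y s)
    have h2 := intervalIntegral.integral_add_adjacent_intervals (hii 0 s) (hii s t₁)
    have h3 := intervalIntegral.integral_add_adjacent_intervals (hii 0 t₁) (hii t₁ (Real.pi / 2))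
    linarith
  -- let the parameter tend to zero
  have hlim : Tendsto (fun δ : ℝ => D ^ 3 / 7 - (y - sin y * cos y) +
      (q s - sin y * sin s) ^ 2 * (cos (s + δ) / sin (s + δ) - cos s / sin s)) (𝓝[>] 0)
        (𝓝 (D ^ 3 / 7 - (y - sin y * cos y) +
      (q s - sin y * sin s) ^ 2 * (cos (s + 0) / sin (s + 0) - cos s / sin s))) := by
    have hca : ContinuousAt (fun δ : ℝ => D ^ 3 / 7 - (y - sin y * cos y) +
      (q s - sin y * sin s) ^ 2 * (cos (s + δ) / sin (s + δ) - cos s / sin s)) 0 := by
      have h1 : sin (s + 0) ≠ 0 := by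
        rw [add_zero]
        exact hss.ne'
      have h2 : ContinuousAt (fun δ : ℝ => cos (s + δ)) 0 := by fun_prop
      have h3 : ContinuousAt (fun δ : ℝ => sin (s + δ)) 0 := by fun_prop
      exact continuousAt_const.add (continuousAt_const.mul ((h2.div h3 h1).sub
        continuousAt_const))
    exact hca.tendsto.mono_left nhdsWithin_le_nhds
  have hfin := le_of_tendsto hlim (by
    have h1 : ∀ᶠ δ : ℝ in 𝓝[>] 0, δ ∈ Ioo (0 : ℝ) (Real.pi / 2) :=
      Ioo_mem_nhdsGT (by positivity)
    filter_upwards [h1] with δ hδ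
    exact key δ hδ.1 hδ.2)
  rw [add_zero, sub_self, mul_zero, add_zero] at hfin
  exact hfin

end Pool.Agent.Y508.FP
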