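import Pool.Agent.Y508.FP.Stm

/-!
Farthest points on closed curves: statements for the quantitative form.
-/

set_option autoImplicit false
open MeasureTheory Metric Set Filter Topology
open Real (sin cos)

namespace Pool.Agent.Y508.FP
open Pool.Agent.Y508

def Half2Stm : Prop := ∀ (q q' : ℝ → ℝ) (y t₁ : ℝ), 0 ≤ y → y < Real.pi / 2 →
  (∀ t, HasDerivAt q (q' t) t) → Continuous q' → q 0 = 1 - cos y →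
  (∀ t, 0 ≤ t → t ≤ Real.pi / 2 → q t ≤ 1 - cos y * cos t) → 0 ≤ t₁ → t₁ ≤ Real.pi / 2 →
  y ≤ q t₁ →
  (q t₁ - y) ^ 3 / 7 - (y - sin y * cos y) ≤ ∫ t in (0 : ℝ)..(Real.pi / 2), (q' t ^ 2 - q t ^ 2)

/-- plane convex bodies, quantitative form -/
def Plane2Stm : Prop := ∀ K : Set E2, IsCompact K → Convex ℝ K → K.Nonempty →
  (∃ (m : E2) (r : ℝ), r < 1 ∧ K ⊆ closedBall m r) → (∀ x ∈ frontier K, ∃ y ∈ K, 1 ≤ dist x y) →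
  ∀ θ, |hs K θ + hs K (θ + Real.pi) - 1| ^ 5 ≤ 16384 * (W K - Real.pi)

/-- as `ApxStm`, the points `w i` being moreover dense up to `ε` -/
def Apx2Stm : Prop := ∀ (d : ℕ) (γ : ℝ → EuclideanSpace ℝ (Fin d)) (ℓ : ℝ), 0 ≤ ℓ →
  ContinuousOn γ (Icc 0 1) → γ 0 = γ 1 → eVariationOn γ (Icc 0 1) ≤ ENNReal.ofReal ℓ →
  (∀ s ∈ Icc (0 : ℝ) 1, ∃ t ∈ Icc (0 : ℝ) 1, 1 ≤ dist (γ s) (γ t)) →
  ∀ ε > 0, ∃ (n : ℕ) (z : ℕ → E2) (w : ℕ → EuclideanSpace ℝ (Fin d)),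
    Apx d (γ '' Icc 0 1) ℓ ε n z w ∧ ∀ v ∈ γ '' Icc 0 1, ∃ i < n, dist v (w i) ≤ ε

/-- as `LimStm`, the map `c` being moreover onto `C` -/
def Lim2Stm : Prop := ∀ (d : ℕ) (C : Set (EuclideanSpace ℝ (Fin d))) (ℓ : ℝ), 0 ≤ ℓ → IsCompact C →
  (∀ ε > 0, ∃ (n : ℕ) (z : ℕ → E2) (w : ℕ → EuclideanSpace ℝ (Fin d)), Apx d C ℓ ε n z w ∧
    ∀ v ∈ C, ∃ i < n, dist v (w i) ≤ ε) →
  ∃ (T : Set E2) (c : E2 → EuclideanSpace ℝ (Fin d)), Lim d C ℓ T c ∧ ∀ v ∈ C, ∃ p ∈ T, c p = v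

end Pool.Agent.Y508.FP
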