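import Pool.Agent.Y508.FP.Lm
import Pool.Agent.Y508.FP.Stm2

/-!
# FP2-LIM (helper467 for helper508): limit of the approximating polygons, with surjectivity

Uses `Pool/Agent/Y508/FP/Lm.lean` (helper256).
-/

set_option autoImplicit false
open MeasureTheory Metric Set Filter Topology

namespace Pool.Agent.Y508.FP.Lm2
open Pool.Agent.Y508 Pool.Agent.Y508.FP Pool.Agent.Y508.FP.Lm

section
variable {d : ℕ} {C : Set (EuclideanSpace ℝ (Fin d))} {ℓ : ℝ} {n : ℕ → ℕ} {z : ℕ → ℕ → E2}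
  {w : ℕ → ℕ → EuclideanSpace ℝ (Fin d)}

theorem limT2 (U : Ultrafilter ℕ) (hU : (U : Filter ℕ) ≤ atTop) (hC : IsCompact C)
    (h : ∀ k : ℕ, Apx d C ℓ (1 / ((k : ℝ) + 1)) (n k) (z k) (w k))
    (hd : ∀ k : ℕ, ∀ v ∈ C, ∃ i < n k, dist v (w k i) ≤ 1 / ((k : ℝ) + 1)) :
    ∃ c : E2 → EuclideanSpace ℝ (Fin d), Lim d C ℓ (TT U n z) c ∧
      ∀ v ∈ C, ∃ p ∈ TT U n z, c p = v := by
  classical
  have hc : ∀ p : E2, ∃ a : EuclideanSpace ℝ (Fin d), p ∈ TT U n z → a ∈ C ∧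
      ∃ i : ℕ → ℕ, (∀ k, i k < n k) ∧ Tendsto (fun k => z k (i k)) U (𝓝 p) ∧
        Tendsto (fun k => w k (i k)) U (𝓝 a) := by
    intro p
    by_cases hp : p ∈ TT U n z
    · obtain ⟨i, hi, hi2⟩ := hp
      obtain ⟨a, ha, ha2⟩ := wlim U hC h i hi
      exact ⟨a, fun _ => ⟨ha, i, hi, hi2, ha2⟩⟩
    · exact ⟨0, fun h => absurd h hp⟩
  choose c hc using hc
  refine ⟨c, ⟨cptT U hU h, neT U h, frT U hU h, ?_, ?_, fun p hp => (hc p hp).1, bdT U hU h,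
    perT U hU h⟩, ?_⟩
  · intro p hp q hq
    obtain ⟨-, i, hi, hi1, hi2⟩ := hc p hp
    obtain ⟨-, j, hj, hj1, hj2⟩ := hc q hq
    exact lipseq U hU h i j hi hj p q _ _ hi1 hj1 hi2 hj2
  · intro p hp
    obtain ⟨-, i, hi, hi1, hi2⟩ := hc p hp
    have h1 : ∀ k, ∃ j < n k, 1 - 1 / ((k : ℝ) + 1) ≤ dist (w k (i k)) (w k j) := fun k =>
      (h k).far (i k) (hi k)
    choose j hj hj2 using h1
    obtain ⟨q, hqT, hq⟩ := ilim U h j hj
    obtain ⟨b, -, hb⟩ := wlim U hC h j hj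
    obtain ⟨-, j', hj', hj1', hj2'⟩ := hc q hqT
    have h2 := lipseq U hU h j' j hj' hj q q _ _ hj1' hq hj2' hb
    rw [dist_self] at h2
    have h3 : c q = b := dist_le_zero.1 h2
    refine ⟨q, hqT, ?_⟩
    rw [h3]
    have h4 := (tendsto_const_nhds (x := (1 : ℝ))).sub (eps_lim U hU)
    rw [sub_zero] at h4
    exact le_of_tendsto_of_tendsto' h4 (hi2.dist hb) hj2
  · intro v hv
    have h1 : ∀ k, ∃ i < n k, dist v (w k i) ≤ 1 / ((k : ℝ) + 1) := fun k => hd k v hv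
    choose j hj hj2 using h1
    obtain ⟨q, hqT, hq⟩ := ilim U h j hj
    have hb : Tendsto (fun k => w k (j k)) U (𝓝 v) := by
      rw [tendsto_iff_dist_tendsto_zero]
      refine squeeze_zero (fun _ => dist_nonneg) (fun k => ?_) (eps_lim U hU)
      rw [dist_comm]
      exact hj2 k
    obtain ⟨-, j', hj', hj1', hj2'⟩ := hc q hqT
    have h2 := lipseq U hU h j' j hj' hj q q _ _ hj1' hq hj2' hb
    rw [dist_self] at h2
    exact ⟨q, hqT, dist_le_zero.1 h2⟩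

end

end Pool.Agent.Y508.FP.Lm2

namespace Pool.Agent.Y508.FP
open Pool.Agent.Y508

/-- FP2-LIM -/
theorem lim2 : Lim2Stm := by
  intro d C ℓ _ hC h
  have h1 : ∀ k : ℕ, ∃ (n : ℕ) (z : ℕ → E2) (w : ℕ → EuclideanSpace ℝ (Fin d)),
      Apx d C ℓ (1 / ((k : ℝ) + 1)) n z w ∧ ∀ v ∈ C, ∃ i < n, dist v (w i) ≤ 1 / ((k : ℝ) + 1) :=
    fun k => h _ (by positivity)
  choose n z w hnzw hd using h1
  obtain ⟨c, hc⟩ := Lm2.limT2 (hyperfilter ℕ) Nat.hyperfilter_le_atTop hC hnzw hd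
  exact ⟨_, c, hc⟩

end Pool.Agent.Y508.FP
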