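import Pool.Agent.Y508.FP.AllA
import Pool.Agent.Y508.FP.Alt
import Pool.Agent.Y508.FP.Half2
import Pool.Agent.Y508.FP.Lm2

/-!
Farthest points on closed curves of length `π`: the two main theorems.
-/

set_option autoImplicit false
open MeasureTheory Metric Set Filter Topology

namespace Pool.Agent.Y508.FP
open Pool.Agent.Y508

theorem main : MainStm := mainA alt

theorem main2 (d : ℕ) (γ : ℝ → EuclideanSpace ℝ (Fin d)) (hc : ContinuousOn γ (Icc 0 1))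
    (h01 : γ 0 = γ 1)
    (hlen : eVariationOn γ (Icc 0 1) = ENNReal.ofReal Real.pi) (m : ℝ) (hm0 : 0 ≤ m)
    (hm1 : m ≤ 1) (hm : ∀ x ∈ γ '' Icc 0 1, ∃ y ∈ γ '' Icc 0 1, m ≤ dist x y) :
    ∀ x ∈ γ '' Icc 0 1, ∀ y ∈ γ '' Icc 0 1, m ≤ dist x y → m + ((dist x y - m) / 4) ^ 5 ≤ 1 :=
  quantA alt half2 lim2 d γ hc h01 hlen m hm0 hm1 hm

end Pool.Agent.Y508.FP
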