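import Pool.Agent.Y508.FP.Stm

/-!
# Farthest points on closed curves: Crofton inequality for closed plane curves
-/

set_option autoImplicit false
open MeasureTheory Metric Set Filter Topology
open Real (sin cos)

namespace Pool.Agent.Y508.FP
open Pool.Agent.Y508

/-- the length of an inscribed polygon -/
theorem cro_len (ζ : ℝ → E2) (ℓ : ℝ) (hℓ : 0 ≤ ℓ) (h01 : ζ 0 = ζ 1)
    (hv : eVariationOn ζ (Icc 0 1) ≤ ENNReal.ofReal ℓ) (n : ℕ) (hn : 1 ≤ n) :
    len n (fun i : ℕ => ζ ((i : ℝ) / n)) ≤ ℓ := by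
  have hn' : (0 : ℝ) < n := by exact_mod_cast hn
  have e1 : len n (fun i : ℕ => ζ ((i : ℝ) / n))
      = ∑ i ∈ Finset.range n, dist (ζ (((i + 1 : ℕ) : ℝ) / n)) (ζ ((i : ℝ) / n)) := by
    unfold len
    obtain ⟨k, rfl⟩ : ∃ k, n = k + 1 := ⟨n - 1, by omega⟩
    rw [Finset.sum_range_succ]
    have h2 : ((k + 1 : ℕ) : ℝ) / ((k + 1 : ℕ) : ℝ) = 1 := div_self hn'.ne'
    congr 1
    · refine Finset.sum_congr rfl fun i _ => dist_comm _ _
    · simp only [Nat.add_sub_cancel]
      rw [h2, ← h01, dist_comm]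
      simp
  have hu : Monotone (fun i : ℕ => min ((i : ℝ) / n) 1) := by
    intro i j hij
    refine min_le_min_right _ ?_
    exact div_le_div_of_nonneg_right (by exact_mod_cast hij) hn'.le
  have hus : ∀ i : ℕ, min ((i : ℝ) / n) 1 ∈ Icc (0 : ℝ) 1 := fun i =>
    ⟨le_min (by positivity) zero_le_one, min_le_right _ _⟩
  have h3 := eVariationOn.sum_le (f := ζ) (s := Icc (0 : ℝ) 1) (n := n) hu hus
  have h4 : ∑ i ∈ Finset.range n, edist (ζ (min (((i + 1 : ℕ) : ℝ) / n) 1)) (ζ (min ((i : ℝ) / n) 1))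
      = ∑ i ∈ Finset.range n, edist (ζ (((i + 1 : ℕ) : ℝ) / n)) (ζ ((i : ℝ) / n)) := by
    refine Finset.sum_congr rfl fun i hi => ?_
    have hi' : i + 1 ≤ n := Finset.mem_range.mp hi
    have a1 : ((i + 1 : ℕ) : ℝ) / n ≤ 1 := by
      rw [div_le_one hn']; exact_mod_cast hi'
    have a2 : (i : ℝ) / n ≤ 1 := by
      rw [div_le_one hn']; exact_mod_cast (by omega : i ≤ n)
    rw [min_eq_left a1, min_eq_left a2]
  rw [e1]
  have h5 : ENNReal.ofReal (∑ i ∈ Finset.range n, dist (ζ (((i + 1 : ℕ) : ℝ) / n)) (ζ ((i : ℝ) / n)))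
      ≤ ENNReal.ofReal ℓ := by
    rw [ENNReal.ofReal_sum_of_nonneg (fun i _ => dist_nonneg)]
    have h6 : ∑ i ∈ Finset.range n, ENNReal.ofReal (dist (ζ (((i + 1 : ℕ) : ℝ) / n)) (ζ ((i : ℝ) / n)))
        = ∑ i ∈ Finset.range n, edist (ζ (((i + 1 : ℕ) : ℝ) / n)) (ζ ((i : ℝ) / n)) :=
      Finset.sum_congr rfl fun i _ => (edist_dist _ _).symm
    rw [h6, ← h4]
    exact h3.trans hv
  exact (ENNReal.ofReal_le_ofReal_iff hℓ).mp h5

theorem cro (h : PolyStm) : CroStm := by
  intro ζ ℓ hℓ hc h01 hv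
  have hK : IsCompact (ζ '' Icc 0 1) := isCompact_Icc.image_of_continuousOn hc
  have hne : (ζ '' Icc 0 1).Nonempty := ⟨ζ 0, mem_image_of_mem _ ⟨le_rfl, zero_le_one⟩⟩
  have huc : UniformContinuousOn ζ (Icc 0 1) := isCompact_Icc.uniformContinuousOn_of_continuous hc
  have hpi := Real.pi_pos
  refine le_of_forall_pos_le_add fun ε hε => ?_
  set η : ℝ := ε / (2 * Real.pi) with hη
  have hηp : 0 < η := by positivity
  obtain ⟨δ, hδ, hδ'⟩ := Metric.uniformContinuousOn_iff.mp huc η hηp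
  obtain ⟨n, hn⟩ := exists_nat_gt (max 1 (1 / δ))
  have hn1 : 1 ≤ n := by
    have : (1 : ℝ) < n := (le_max_left _ _).trans_lt hn
    exact_mod_cast this.le
  have hn0 : (0 : ℝ) < n := by exact_mod_cast hn1
  have hnδ : 1 / (n : ℝ) < δ := by
    have : 1 / δ < n := (le_max_right _ _).trans_lt hn
    rw [div_lt_iff₀ hδ] at this
    rw [div_lt_iff₀ hn0]
    linarith
  set z : ℕ → E2 := fun i : ℕ => ζ ((i : ℝ) / n) with hz
  -- a bound for the edges
  obtain ⟨B, hB⟩ := hK.isBounded.exists_norm_le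
  have hzmem : ∀ i ≤ n, z i ∈ ζ '' Icc 0 1 := by
    intro i hi
    refine mem_image_of_mem _ ⟨by positivity, ?_⟩
    rw [div_le_one hn0]
    exact_mod_cast hi
  have hdist : ∀ i ≤ n, ∀ j ≤ n, dist (z i) (z j) ≤ 2 * B := by
    intro i hi j hj
    rw [dist_eq_norm]
    refine (norm_sub_le _ _).trans ?_
    have := hB _ (hzmem i hi)
    have := hB _ (hzmem j hj)
    linarith
  have h1 := (h n z (2 * B) hn1 (fun i hi => hdist i (by omega) (i + 1) (by omega))
    (hdist _ (by omega) _ (by omega))).1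
  have h2 := cro_len ζ ℓ hℓ h01 hv n hn1
  have hfin : (z '' Iio n).Finite := (Set.finite_Iio n).image z
  have hne' : (z '' Iio n).Nonempty := ⟨z 0, mem_image_of_mem _ (by
    show 0 < n
    omega)⟩
  -- comparison of the support functions
  have h3 : ∀ θ, hs (ζ '' Icc 0 1) θ ≤ hs (z '' Iio n) θ + η := by
    intro θ
    refine hs_le hne ?_
    rintro _ ⟨t, ht, rfl⟩
    have key : ∃ i < n, dist (ζ t) (z i) ≤ η := by
      rcases eq_or_lt_of_le ht.2 with h1t | h1t
      · refine ⟨0, by omega, ?_⟩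
        have : z 0 = ζ t := by
          rw [h1t, ← h01, hz]
          simp
        rw [this, dist_self]
        exact hηp.le
      · refine ⟨⌊t * n⌋₊, ?_, ?_⟩
        · rw [Nat.floor_lt (by have := ht.1; positivity)]
          nlinarith
        · refine (hδ' t ht _ ?_ ?_).le
          · refine ⟨by positivity, ?_⟩
            rw [div_le_one hn0]
            refine (Nat.floor_le (by have := ht.1; positivity)).trans ?_
            nlinarith
          · refine lt_of_le_of_lt ?_ hnδ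
            have a1 : (⌊t * n⌋₊ : ℝ) ≤ t * n := Nat.floor_le (by have := ht.1; positivity)
            have a2 : t * n < (⌊t * n⌋₊ : ℝ) + 1 := Nat.lt_floor_add_one _
            rw [Real.dist_eq, abs_le]
            have a3 : (⌊t * n⌋₊ : ℝ) / n ≤ t := by
              rw [div_le_iff₀ hn0]; exact a1
            have a4 : t ≤ (⌊t * n⌋₊ : ℝ) / n + 1 / n := by
              rw [← add_div, le_div_iff₀ hn0]; exact a2.le
            have a5 : (0 : ℝ) < 1 / n := by positivity
            constructor <;> linarith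
    obtain ⟨i, hi, hd⟩ := key
    have h4 : ip (z i) θ ≤ hs (z '' Iio n) θ := le_hs hfin.isCompact (mem_image_of_mem _ hi) θ
    have h5 : ip (ζ t) θ - ip (z i) θ ≤ η := by
      rw [← ip_sub]
      refine (le_abs_self _).trans ((abs_ip_le _ _).trans ?_)
      rwa [← dist_eq_norm]
    linarith
  have h4 : W (ζ '' Icc 0 1) ≤ W (z '' Iio n) + 2 * Real.pi * η := by
    unfold W
    have h5 : (∫ θ in (0 : ℝ)..(2 * Real.pi), (hs (z '' Iio n) θ + η))
        = (∫ θ in (0 : ℝ)..(2 * Real.pi), hs (z '' Iio n) θ) + 2 * Real.pi * η := by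
      rw [intervalIntegral.integral_add ((cont_hs hfin.isCompact).intervalIntegrable _ _)
        (continuous_const.intervalIntegrable _ _), intervalIntegral.integral_const]
      simp
    rw [← h5]
    refine intervalIntegral.integral_mono_on (by positivity) ((cont_hs hK).intervalIntegrable _ _)
      (((cont_hs hfin.isCompact).add continuous_const).intervalIntegrable _ _) fun θ _ => h3 θ
  have h5 : 2 * Real.pi * η = ε := by
    rw [hη]; field_simp
  calc W (ζ '' Icc 0 1) ≤ W (z '' Iio n) + 2 * Real.pi * η := h4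
    _ ≤ ℓ + ε := by rw [h5]; linarith

end Pool.Agent.Y508.FP
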