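import Pool.Agent.Y508.FP.Stm
import Pool.Agent.Y508.PerimLow

/-!
Equality in the Crofton inequality for closed plane curves.
-/

set_option autoImplicit false
open MeasureTheory Metric Set Filter Topology
open Real (sin cos)

namespace Pool.Agent.Y508.FP.C2
open Pool.Agent.Y508

/-! ### cyclic sequences of real numbers -/

/-- the variation of a sequence up to an index -/
noncomputable def vr (v : ℕ → ℝ) (k : ℕ) : ℝ := ∑ i ∈ Finset.range k, |v (i + 1) - v i|

theorem vr_zero (v : ℕ → ℝ) : vr v 0 = 0 := by simp [vr]

theorem vr_le (v : ℕ → ℝ) {i j : ℕ} (h : i ≤ j) : |v j - v i| ≤ vr v j - vr v i := by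
  induction j, h using Nat.le_induction with
  | base => simp
  | succ j hj ih =>
    have h1 : vr v (j + 1) = vr v j + |v (j + 1) - v j| := by
      unfold vr
      rw [Finset.sum_range_succ]
    have h2 : |v (j + 1) - v i| ≤ |v (j + 1) - v j| + |v j - v i| := abs_sub_le _ _ _
    linarith

theorem vr_le1 (v : ℕ → ℝ) {i j : ℕ} (h : i ≤ j) : v j - v i ≤ vr v j - vr v i :=
  (le_abs_self _).trans (vr_le v h)

theorem vr_le2 (v : ℕ → ℝ) {i j : ℕ} (h : i ≤ j) : v i - v j ≤ vr v j - vr v i := by
  have := (neg_le_abs (v j - v i)).trans (vr_le v h)
  linarith

/-- six points -/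
theorem six (v : ℕ → ℝ) {N : ℕ} (hN : v 0 = v N) {a b c d e f : ℕ} (h1 : a ≤ b) (h2 : b ≤ c)
    (h3 : c ≤ d) (h4 : d ≤ e) (h5 : e ≤ f) (h6 : f ≤ N) :
    |v b - v a| + |v c - v b| + |v d - v c| + |v e - v d| + |v f - v e| + |v f - v a| ≤ vr v N := by
  have g0 := vr_le v (Nat.zero_le a)
  have g1 := vr_le v h1
  have g2 := vr_le v h2
  have g3 := vr_le v h3
  have g4 := vr_le v h4
  have g5 := vr_le v h5
  have g6 := vr_le v h6
  rw [vr_zero] at g0
  have g7 : |v f - v a| ≤ |v N - v f| + |v a - v 0| := by
    have : v f - v a = -(v N - v f) - (v a - v 0) := by rw [hN]; ring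
    rw [this]
    refine (abs_sub _ _).trans ?_
    rw [abs_neg]
  linarith

/-- a cyclic sequence with an alternation has a large variation -/
theorem alt1 (v : ℕ → ℝ) {N : ℕ} (hN : v 0 = v N) {a b c d x y : ℕ} {L H : ℝ} (hLH : L ≤ H)
    (h1 : a ≤ b) (h2 : b ≤ c) (h3 : c ≤ d) (h4 : d ≤ N) (hx : x ≤ N) (hy : y ≤ N)
    (ha : v a ≤ L) (hb : H ≤ v b) (hc : v c ≤ L) (hd : H ≤ v d)
    (hX : ∀ i, i ≤ N → v i ≤ v x) (hY : ∀ i, i ≤ N → v y ≤ v i) :
    2 * (v x - v y) + 2 * (H - L) ≤ vr v N := by
  have xa := hX a (by omega)
  have xb := hX b (by omega)
  have xc := hX c (by omega)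
  have xd := hX d (by omega)
  have xy := hX y hy
  have ya := hY a (by omega)
  have yb := hY b (by omega)
  have yc := hY c (by omega)
  have yd := hY d (by omega)
  rcases le_total x a with hx0 | hx0
  · rcases le_total y x with hy0 | hy0
    · have k := six v hN (a := y) (b := x) (c := a) (d := b) (e := c) (f := d) (by omega) (by omega) (by omega) (by omega) (by omega) (by omega)
      have p0 := le_abs_self (v x - v y)
      have q0 := neg_le_abs (v x - v y)
      have p1 := le_abs_self (v a - v x)
      have q1 := neg_le_abs (v a - v x)
      have p2 := le_abs_self (v b - v a)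
      have q2 := neg_le_abs (v b - v a)
      have p3 := le_abs_self (v c - v b)
      have q3 := neg_le_abs (v c - v b)
      have p4 := le_abs_self (v d - v c)
      have q4 := neg_le_abs (v d - v c)
      have p5 := le_abs_self (v d - v y)
      have q5 := neg_le_abs (v d - v y)
      linarith
    · rcases le_total y a with hy1 | hy1
      · have k := six v hN (a := x) (b := y) (c := a) (d := b) (e := c) (f := d) (by omega) (by omega) (by omega) (by omega) (by omega) (by omega)
        have p0 := le_abs_self (v y - v x)
        have q0 := neg_le_abs (v y - v x)
        have p1 := le_abs_self (v a - v y)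
        have q1 := neg_le_abs (v a - v y)
        have p2 := le_abs_self (v b - v a)
        have q2 := neg_le_abs (v b - v a)
        have p3 := le_abs_self (v c - v b)
        have q3 := neg_le_abs (v c - v b)
        have p4 := le_abs_self (v d - v c)
        have q4 := neg_le_abs (v d - v c)
        have p5 := le_abs_self (v d - v x)
        have q5 := neg_le_abs (v d - v x)
        linarith
      · rcases le_total y b with hy2 | hy2
        · have k := six v hN (a := x) (b := a) (c := y) (d := b) (e := c) (f := d) (by omega) (by omega) (by omega) (by omega) (by omega) (by omega)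
          have p0 := le_abs_self (v a - v x)
          have q0 := neg_le_abs (v a - v x)
          have p1 := le_abs_self (v y - v a)
          have q1 := neg_le_abs (v y - v a)
          have p2 := le_abs_self (v b - v y)
          have q2 := neg_le_abs (v b - v y)
          have p3 := le_abs_self (v c - v b)
          have q3 := neg_le_abs (v c - v b)
          have p4 := le_abs_self (v d - v c)
          have q4 := neg_le_abs (v d - v c)
          have p5 := le_abs_self (v d - v x)
          have q5 := neg_le_abs (v d - v x)
          linarith
        · rcases le_total y c with hy3 | hy3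
          · have k := six v hN (a := x) (b := a) (c := b) (d := y) (e := c) (f := d) (by omega) (by omega) (by omega) (by omega) (by omega) (by omega)
            have p0 := le_abs_self (v a - v x)
            have q0 := neg_le_abs (v a - v x)
            have p1 := le_abs_self (v b - v a)
            have q1 := neg_le_abs (v b - v a)
            have p2 := le_abs_self (v y - v b)
            have q2 := neg_le_abs (v y - v b)
            have p3 := le_abs_self (v c - v y)
            have q3 := neg_le_abs (v c - v y)
            have p4 := le_abs_self (v d - v c)
            have q4 := neg_le_abs (v d - v c)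
            have p5 := le_abs_self (v d - v x)
            have q5 := neg_le_abs (v d - v x)
            linarith
          · rcases le_total y d with hy4 | hy4
            · have k := six v hN (a := x) (b := a) (c := b) (d := c) (e := y) (f := d) (by omega) (by omega) (by omega) (by omega) (by omega) (by omega)
              have p0 := le_abs_self (v a - v x)
              have q0 := neg_le_abs (v a - v x)
              have p1 := le_abs_self (v b - v a)
              have q1 := neg_le_abs (v b - v a)
              have p2 := le_abs_self (v c - v b)
              have q2 := neg_le_abs (v c - v b)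
              have p3 := le_abs_self (v y - v c)
              have q3 := neg_le_abs (v y - v c)
              have p4 := le_abs_self (v d - v y)
              have q4 := neg_le_abs (v d - v y)
              have p5 := le_abs_self (v d - v x)
              have q5 := neg_le_abs (v d - v x)
              linarith
            · have k := six v hN (a := x) (b := a) (c := b) (d := c) (e := d) (f := y) (by omega) (by omega) (by omega) (by omega) (by omega) (by omega)
              have p0 := le_abs_self (v a - v x)
              have q0 := neg_le_abs (v a - v x)
              have p1 := le_abs_self (v b - v a)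
              have q1 := neg_le_abs (v b - v a)
              have p2 := le_abs_self (v c - v b)
              have q2 := neg_le_abs (v c - v b)
              have p3 := le_abs_self (v d - v c)
              have q3 := neg_le_abs (v d - v c)
              have p4 := le_abs_self (v y - v d)
              have q4 := neg_le_abs (v y - v d)
              have p5 := le_abs_self (v y - v x)
              have q5 := neg_le_abs (v y - v x)
              linarith
  · rcases le_total x b with hx1 | hx1
    · rcases le_total y a with hy0 | hy0
      · have k := six v hN (a := y) (b := a) (c := x) (d := b) (e := c) (f := d) (by omega) (by omega) (by omega) (by omega) (by omega) (by omega)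
        have p0 := le_abs_self (v a - v y)
        have q0 := neg_le_abs (v a - v y)
        have p1 := le_abs_self (v x - v a)
        have q1 := neg_le_abs (v x - v a)
        have p2 := le_abs_self (v b - v x)
        have q2 := neg_le_abs (v b - v x)
        have p3 := le_abs_self (v c - v b)
        have q3 := neg_le_abs (v c - v b)
        have p4 := le_abs_self (v d - v c)
        have q4 := neg_le_abs (v d - v c)
        have p5 := le_abs_self (v d - v y)
        have q5 := neg_le_abs (v d - v y)
        linarith
      · rcases le_total y x with hy1 | hy1
        · have k := six v hN (a := a) (b := y) (c := x) (d := b) (e := c) (f := d) (by omega) (by omega) (by omega) (by omega) (by omega) (by omega)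
          have p0 := le_abs_self (v y - v a)
          have q0 := neg_le_abs (v y - v a)
          have p1 := le_abs_self (v x - v y)
          have q1 := neg_le_abs (v x - v y)
          have p2 := le_abs_self (v b - v x)
          have q2 := neg_le_abs (v b - v x)
          have p3 := le_abs_self (v c - v b)
          have q3 := neg_le_abs (v c - v b)
          have p4 := le_abs_self (v d - v c)
          have q4 := neg_le_abs (v d - v c)
          have p5 := le_abs_self (v d - v a)
          have q5 := neg_le_abs (v d - v a)
          linarith
        · rcases le_total y b with hy2 | hy2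
          · have k := six v hN (a := a) (b := x) (c := y) (d := b) (e := c) (f := d) (by omega) (by omega) (by omega) (by omega) (by omega) (by omega)
            have p0 := le_abs_self (v x - v a)
            have q0 := neg_le_abs (v x - v a)
            have p1 := le_abs_self (v y - v x)
            have q1 := neg_le_abs (v y - v x)
            have p2 := le_abs_self (v b - v y)
            have q2 := neg_le_abs (v b - v y)
            have p3 := le_abs_self (v c - v b)
            have q3 := neg_le_abs (v c - v b)
            have p4 := le_abs_self (v d - v c)
            have q4 := neg_le_abs (v d - v c)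
            have p5 := le_abs_self (v d - v a)
            have q5 := neg_le_abs (v d - v a)
            linarith
          · rcases le_total y c with hy3 | hy3
            · have k := six v hN (a := a) (b := x) (c := b) (d := y) (e := c) (f := d) (by omega) (by omega) (by omega) (by omega) (by omega) (by omega)
              have p0 := le_abs_self (v x - v a)
              have q0 := neg_le_abs (v x - v a)
              have p1 := le_abs_self (v b - v x)
              have q1 := neg_le_abs (v b - v x)
              have p2 := le_abs_self (v y - v b)
              have q2 := neg_le_abs (v y - v b)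
              have p3 := le_abs_self (v c - v y)
              have q3 := neg_le_abs (v c - v y)
              have p4 := le_abs_self (v d - v c)
              have q4 := neg_le_abs (v d - v c)
              have p5 := le_abs_self (v d - v a)
              have q5 := neg_le_abs (v d - v a)
              linarith
            · rcases le_total y d with hy4 | hy4
              · have k := six v hN (a := a) (b := x) (c := b) (d := c) (e := y) (f := d) (by omega) (by omega) (by omega) (by omega) (by omega) (by omega)
                have p0 := le_abs_self (v x - v a)
                have q0 := neg_le_abs (v x - v a)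
                have p1 := le_abs_self (v b - v x)
                have q1 := neg_le_abs (v b - v x)
                have p2 := le_abs_self (v c - v b)
                have q2 := neg_le_abs (v c - v b)
                have p3 := le_abs_self (v y - v c)
                have q3 := neg_le_abs (v y - v c)
                have p4 := le_abs_self (v d - v y)
                have q4 := neg_le_abs (v d - v y)
                have p5 := le_abs_self (v d - v a)
                have q5 := neg_le_abs (v d - v a)
                linarith
              · have k := six v hN (a := a) (b := x) (c := b) (d := c) (e := d) (f := y) (by omega) (by omega) (by omega) (by omega) (by omega) (by omega)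
                have p0 := le_abs_self (v x - v a)
                have q0 := neg_le_abs (v x - v a)
                have p1 := le_abs_self (v b - v x)
                have q1 := neg_le_abs (v b - v x)
                have p2 := le_abs_self (v c - v b)
                have q2 := neg_le_abs (v c - v b)
                have p3 := le_abs_self (v d - v c)
                have q3 := neg_le_abs (v d - v c)
                have p4 := le_abs_self (v y - v d)
                have q4 := neg_le_abs (v y - v d)
                have p5 := le_abs_self (v y - v a)
                have q5 := neg_le_abs (v y - v a)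
                linarith
    · rcases le_total x c with hx2 | hx2
      · rcases le_total y a with hy0 | hy0
        · have k := six v hN (a := y) (b := a) (c := b) (d := x) (e := c) (f := d) (by omega) (by omega) (by omega) (by omega) (by omega) (by omega)
          have p0 := le_abs_self (v a - v y)
          have q0 := neg_le_abs (v a - v y)
          have p1 := le_abs_self (v b - v a)
          have q1 := neg_le_abs (v b - v a)
          have p2 := le_abs_self (v x - v b)
          have q2 := neg_le_abs (v x - v b)
          have p3 := le_abs_self (v c - v x)
          have q3 := neg_le_abs (v c - v x)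
          have p4 := le_abs_self (v d - v c)
          have q4 := neg_le_abs (v d - v c)
          have p5 := le_abs_self (v d - v y)
          have q5 := neg_le_abs (v d - v y)
          linarith
        · rcases le_total y b with hy1 | hy1
          · have k := six v hN (a := a) (b := y) (c := b) (d := x) (e := c) (f := d) (by omega) (by omega) (by omega) (by omega) (by omega) (by omega)
            have p0 := le_abs_self (v y - v a)
            have q0 := neg_le_abs (v y - v a)
            have p1 := le_abs_self (v b - v y)
            have q1 := neg_le_abs (v b - v y)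
            have p2 := le_abs_self (v x - v b)
            have q2 := neg_le_abs (v x - v b)
            have p3 := le_abs_self (v c - v x)
            have q3 := neg_le_abs (v c - v x)
            have p4 := le_abs_self (v d - v c)
            have q4 := neg_le_abs (v d - v c)
            have p5 := le_abs_self (v d - v a)
            have q5 := neg_le_abs (v d - v a)
            linarith
          · rcases le_total y x with hy2 | hy2
            · have k := six v hN (a := a) (b := b) (c := y) (d := x) (e := c) (f := d) (by omega) (by omega) (by omega) (by omega) (by omega) (by omega)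
              have p0 := le_abs_self (v b - v a)
              have q0 := neg_le_abs (v b - v a)
              have p1 := le_abs_self (v y - v b)
              have q1 := neg_le_abs (v y - v b)
              have p2 := le_abs_self (v x - v y)
              have q2 := neg_le_abs (v x - v y)
              have p3 := le_abs_self (v c - v x)
              have q3 := neg_le_abs (v c - v x)
              have p4 := le_abs_self (v d - v c)
              have q4 := neg_le_abs (v d - v c)
              have p5 := le_abs_self (v d - v a)
              have q5 := neg_le_abs (v d - v a)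
              linarith
            · rcases le_total y c with hy3 | hy3
              · have k := six v hN (a := a) (b := b) (c := x) (d := y) (e := c) (f := d) (by omega) (by omega) (by omega) (by omega) (by omega) (by omega)
                have p0 := le_abs_self (v b - v a)
                have q0 := neg_le_abs (v b - v a)
                have p1 := le_abs_self (v x - v b)
                have q1 := neg_le_abs (v x - v b)
                have p2 := le_abs_self (v y - v x)
                have q2 := neg_le_abs (v y - v x)
                have p3 := le_abs_self (v c - v y)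
                have q3 := neg_le_abs (v c - v y)
                have p4 := le_abs_self (v d - v c)
                have q4 := neg_le_abs (v d - v c)
                have p5 := le_abs_self (v d - v a)
                have q5 := neg_le_abs (v d - v a)
                linarith
              · rcases le_total y d with hy4 | hy4
                · have k := six v hN (a := a) (b := b) (c := x) (d := c) (e := y) (f := d) (by omega) (by omega) (by omega) (by omega) (by omega) (by omega)
                  have p0 := le_abs_self (v b - v a)
                  have q0 := neg_le_abs (v b - v a)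
                  have p1 := le_abs_self (v x - v b)
                  have q1 := neg_le_abs (v x - v b)
                  have p2 := le_abs_self (v c - v x)
                  have q2 := neg_le_abs (v c - v x)
                  have p3 := le_abs_self (v y - v c)
                  have q3 := neg_le_abs (v y - v c)
                  have p4 := le_abs_self (v d - v y)
                  have q4 := neg_le_abs (v d - v y)
                  have p5 := le_abs_self (v d - v a)
                  have q5 := neg_le_abs (v d - v a)
                  linarith
                · have k := six v hN (a := a) (b := b) (c := x) (d := c) (e := d) (f := y) (by omega) (by omega) (by omega) (by omega) (by omega) (by omega)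
                  have p0 := le_abs_self (v b - v a)
                  have q0 := neg_le_abs (v b - v a)
                  have p1 := le_abs_self (v x - v b)
                  have q1 := neg_le_abs (v x - v b)
                  have p2 := le_abs_self (v c - v x)
                  have q2 := neg_le_abs (v c - v x)
                  have p3 := le_abs_self (v d - v c)
                  have q3 := neg_le_abs (v d - v c)
                  have p4 := le_abs_self (v y - v d)
                  have q4 := neg_le_abs (v y - v d)
                  have p5 := le_abs_self (v y - v a)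
                  have q5 := neg_le_abs (v y - v a)
                  linarith
      · rcases le_total x d with hx3 | hx3
        · rcases le_total y a with hy0 | hy0
          · have k := six v hN (a := y) (b := a) (c := b) (d := c) (e := x) (f := d) (by omega) (by omega) (by omega) (by omega) (by omega) (by omega)
            have p0 := le_abs_self (v a - v y)
            have q0 := neg_le_abs (v a - v y)
            have p1 := le_abs_self (v b - v a)
            have q1 := neg_le_abs (v b - v a)
            have p2 := le_abs_self (v c - v b)
            have q2 := neg_le_abs (v c - v b)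
            have p3 := le_abs_self (v x - v c)
            have q3 := neg_le_abs (v x - v c)
            have p4 := le_abs_self (v d - v x)
            have q4 := neg_le_abs (v d - v x)
            have p5 := le_abs_self (v d - v y)
            have q5 := neg_le_abs (v d - v y)
            linarith
          · rcases le_total y b with hy1 | hy1
            · have k := six v hN (a := a) (b := y) (c := b) (d := c) (e := x) (f := d) (by omega) (by omega) (by omega) (by omega) (by omega) (by omega)
              have p0 := le_abs_self (v y - v a)
              have q0 := neg_le_abs (v y - v a)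
              have p1 := le_abs_self (v b - v y)
              have q1 := neg_le_abs (v b - v y)
              have p2 := le_abs_self (v c - v b)
              have q2 := neg_le_abs (v c - v b)
              have p3 := le_abs_self (v x - v c)
              have q3 := neg_le_abs (v x - v c)
              have p4 := le_abs_self (v d - v x)
              have q4 := neg_le_abs (v d - v x)
              have p5 := le_abs_self (v d - v a)
              have q5 := neg_le_abs (v d - v a)
              linarith
            · rcases le_total y c with hy2 | hy2
              · have k := six v hN (a := a) (b := b) (c := y) (d := c) (e := x) (f := d) (by omega) (by omega) (by omega) (by omega) (by omega) (by omega)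
                have p0 := le_abs_self (v b - v a)
                have q0 := neg_le_abs (v b - v a)
                have p1 := le_abs_self (v y - v b)
                have q1 := neg_le_abs (v y - v b)
                have p2 := le_abs_self (v c - v y)
                have q2 := neg_le_abs (v c - v y)
                have p3 := le_abs_self (v x - v c)
                have q3 := neg_le_abs (v x - v c)
                have p4 := le_abs_self (v d - v x)
                have q4 := neg_le_abs (v d - v x)
                have p5 := le_abs_self (v d - v a)
                have q5 := neg_le_abs (v d - v a)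
                linarith
              · rcases le_total y x with hy3 | hy3
                · have k := six v hN (a := a) (b := b) (c := c) (d := y) (e := x) (f := d) (by omega) (by omega) (by omega) (by omega) (by omega) (by omega)
                  have p0 := le_abs_self (v b - v a)
                  have q0 := neg_le_abs (v b - v a)
                  have p1 := le_abs_self (v c - v b)
                  have q1 := neg_le_abs (v c - v b)
                  have p2 := le_abs_self (v y - v c)
                  have q2 := neg_le_abs (v y - v c)
                  have p3 := le_abs_self (v x - v y)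
                  have q3 := neg_le_abs (v x - v y)
                  have p4 := le_abs_self (v d - v x)
                  have q4 := neg_le_abs (v d - v x)
                  have p5 := le_abs_self (v d - v a)
                  have q5 := neg_le_abs (v d - v a)
                  linarith
                · rcases le_total y d with hy4 | hy4
                  · have k := six v hN (a := a) (b := b) (c := c) (d := x) (e := y) (f := d) (by omega) (by omega) (by omega) (by omega) (by omega) (by omega)
                    have p0 := le_abs_self (v b - v a)
                    have q0 := neg_le_abs (v b - v a)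
                    have p1 := le_abs_self (v c - v b)
                    have q1 := neg_le_abs (v c - v b)
                    have p2 := le_abs_self (v x - v c)
                    have q2 := neg_le_abs (v x - v c)
                    have p3 := le_abs_self (v y - v x)
                    have q3 := neg_le_abs (v y - v x)
                    have p4 := le_abs_self (v d - v y)
                    have q4 := neg_le_abs (v d - v y)
                    have p5 := le_abs_self (v d - v a)
                    have q5 := neg_le_abs (v d - v a)
                    linarith
                  · have k := six v hN (a := a) (b := b) (c := c) (d := x) (e := d) (f := y) (by omega) (by omega) (by omega) (by omega) (by omega) (by omega)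
                    have p0 := le_abs_self (v b - v a)
                    have q0 := neg_le_abs (v b - v a)
                    have p1 := le_abs_self (v c - v b)
                    have q1 := neg_le_abs (v c - v b)
                    have p2 := le_abs_self (v x - v c)
                    have q2 := neg_le_abs (v x - v c)
                    have p3 := le_abs_self (v d - v x)
                    have q3 := neg_le_abs (v d - v x)
                    have p4 := le_abs_self (v y - v d)
                    have q4 := neg_le_abs (v y - v d)
                    have p5 := le_abs_self (v y - v a)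
                    have q5 := neg_le_abs (v y - v a)
                    linarith
        · rcases le_total y a with hy0 | hy0
          · have k := six v hN (a := y) (b := a) (c := b) (d := c) (e := d) (f := x) (by omega) (by omega) (by omega) (by omega) (by omega) (by omega)
            have p0 := le_abs_self (v a - v y)
            have q0 := neg_le_abs (v a - v y)
            have p1 := le_abs_self (v b - v a)
            have q1 := neg_le_abs (v b - v a)
            have p2 := le_abs_self (v c - v b)
            have q2 := neg_le_abs (v c - v b)
            have p3 := le_abs_self (v d - v c)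
            have q3 := neg_le_abs (v d - v c)
            have p4 := le_abs_self (v x - v d)
            have q4 := neg_le_abs (v x - v d)
            have p5 := le_abs_self (v x - v y)
            have q5 := neg_le_abs (v x - v y)
            linarith
          · rcases le_total y b with hy1 | hy1
            · have k := six v hN (a := a) (b := y) (c := b) (d := c) (e := d) (f := x) (by omega) (by omega) (by omega) (by omega) (by omega) (by omega)
              have p0 := le_abs_self (v y - v a)
              have q0 := neg_le_abs (v y - v a)
              have p1 := le_abs_self (v b - v y)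
              have q1 := neg_le_abs (v b - v y)
              have p2 := le_abs_self (v c - v b)
              have q2 := neg_le_abs (v c - v b)
              have p3 := le_abs_self (v d - v c)
              have q3 := neg_le_abs (v d - v c)
              have p4 := le_abs_self (v x - v d)
              have q4 := neg_le_abs (v x - v d)
              have p5 := le_abs_self (v x - v a)
              have q5 := neg_le_abs (v x - v a)
              linarith
            · rcases le_total y c with hy2 | hy2
              · have k := six v hN (a := a) (b := b) (c := y) (d := c) (e := d) (f := x) (by omega) (by omega) (by omega) (by omega) (by omega) (by omega)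
                have p0 := le_abs_self (v b - v a)
                have q0 := neg_le_abs (v b - v a)
                have p1 := le_abs_self (v y - v b)
                have q1 := neg_le_abs (v y - v b)
                have p2 := le_abs_self (v c - v y)
                have q2 := neg_le_abs (v c - v y)
                have p3 := le_abs_self (v d - v c)
                have q3 := neg_le_abs (v d - v c)
                have p4 := le_abs_self (v x - v d)
                have q4 := neg_le_abs (v x - v d)
                have p5 := le_abs_self (v x - v a)
                have q5 := neg_le_abs (v x - v a)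
                linarith
              · rcases le_total y d with hy3 | hy3
                · have k := six v hN (a := a) (b := b) (c := c) (d := y) (e := d) (f := x) (by omega) (by omega) (by omega) (by omega) (by omega) (by omega)
                  have p0 := le_abs_self (v b - v a)
                  have q0 := neg_le_abs (v b - v a)
                  have p1 := le_abs_self (v c - v b)
                  have q1 := neg_le_abs (v c - v b)
                  have p2 := le_abs_self (v y - v c)
                  have q2 := neg_le_abs (v y - v c)
                  have p3 := le_abs_self (v d - v y)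
                  have q3 := neg_le_abs (v d - v y)
                  have p4 := le_abs_self (v x - v d)
                  have q4 := neg_le_abs (v x - v d)
                  have p5 := le_abs_self (v x - v a)
                  have q5 := neg_le_abs (v x - v a)
                  linarith
                · rcases le_total y x with hy4 | hy4
                  · have k := six v hN (a := a) (b := b) (c := c) (d := d) (e := y) (f := x) (by omega) (by omega) (by omega) (by omega) (by omega) (by omega)
                    have p0 := le_abs_self (v b - v a)
                    have q0 := neg_le_abs (v b - v a)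
                    have p1 := le_abs_self (v c - v b)
                    have q1 := neg_le_abs (v c - v b)
                    have p2 := le_abs_self (v d - v c)
                    have q2 := neg_le_abs (v d - v c)
                    have p3 := le_abs_self (v y - v d)
                    have q3 := neg_le_abs (v y - v d)
                    have p4 := le_abs_self (v x - v y)
                    have q4 := neg_le_abs (v x - v y)
                    have p5 := le_abs_self (v x - v a)
                    have q5 := neg_le_abs (v x - v a)
                    linarith
                  · have k := six v hN (a := a) (b := b) (c := c) (d := d) (e := x) (f := y) (by omega) (by omega) (by omega) (by omega) (by omega) (by omega)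
                    have p0 := le_abs_self (v b - v a)
                    have q0 := neg_le_abs (v b - v a)
                    have p1 := le_abs_self (v c - v b)
                    have q1 := neg_le_abs (v c - v b)
                    have p2 := le_abs_self (v d - v c)
                    have q2 := neg_le_abs (v d - v c)
                    have p3 := le_abs_self (v x - v d)
                    have q3 := neg_le_abs (v x - v d)
                    have p4 := le_abs_self (v y - v x)
                    have q4 := neg_le_abs (v y - v x)
                    have p5 := le_abs_self (v y - v a)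
                    have q5 := neg_le_abs (v y - v a)
                    linarith

theorem vr_neg (v : ℕ → ℝ) (k : ℕ) : vr (fun i => -v i) k = vr v k := by
  unfold vr
  refine Finset.sum_congr rfl fun i _ => ?_
  rw [← abs_neg]
  congr 1
  ring

/-- the two pairs of indices alternate -/
inductive Inter (p q r s : ℕ) : Prop
  | i1 : r ≤ p → p ≤ s → s ≤ q → Inter p q r s
  | i2 : r ≤ q → q ≤ s → s ≤ p → Inter p q r s
  | i3 : s ≤ p → p ≤ r → r ≤ q → Inter p q r s
  | i4 : s ≤ q → q ≤ r → r ≤ p → Inter p q r s
  | i5 : p ≤ r → r ≤ q → q ≤ s → Inter p q r s
  | i6 : p ≤ s → s ≤ q → q ≤ r → Inter p q r s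
  | i7 : q ≤ r → r ≤ p → p ≤ s → Inter p q r s
  | i8 : q ≤ s → s ≤ p → p ≤ r → Inter p q r s

theorem Inter.symm {p q r s : ℕ} (h : Inter p q r s) : Inter p q s r := by
  cases h with
  | i1 a b c => exact .i3 a b c
  | i2 a b c => exact .i4 a b c
  | i3 a b c => exact .i1 a b c
  | i4 a b c => exact .i2 a b c
  | i5 a b c => exact .i6 a b c
  | i6 a b c => exact .i5 a b c
  | i7 a b c => exact .i8 a b c
  | i8 a b c => exact .i7 a b c

theorem inter3s (p : ℕ) {a b c : ℕ} (h1 : a ≤ b) (h2 : b ≤ c) :
    Inter p a b c ∨ Inter p b c a ∨ Inter p c a b := by
  rcases le_total p a with h | h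
  · exact Or.inr (Or.inl (.i6 h h1 h2))
  · rcases le_total p b with h3 | h3
    · exact Or.inr (Or.inr (.i1 h h3 h2))
    · rcases le_total p c with h4 | h4
      · exact Or.inl (.i7 h1 h3 h4)
      · exact Or.inr (Or.inl (.i4 h1 h2 h4))

theorem inter3 (p a b c : ℕ) : Inter p a b c ∨ Inter p b c a ∨ Inter p c a b := by
  rcases le_total a b with h1 | h1 <;> rcases le_total b c with h2 | h2 <;>
    rcases le_total a c with h3 | h3
  · exact inter3s p h1 h2
  · exact inter3s p h1 h2
  · rcases inter3s p h3 h2 with h | h | h
    · exact Or.inl h.symm
    · exact Or.inr (Or.inr h.symm)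
    · exact Or.inr (Or.inl h.symm)
  · rcases inter3s p h3 h1 with h | h | h
    · exact Or.inr (Or.inr h)
    · exact Or.inl h
    · exact Or.inr (Or.inl h)
  · rcases inter3s p h1 h3 with h | h | h
    · exact Or.inr (Or.inl h.symm)
    · exact Or.inl h.symm
    · exact Or.inr (Or.inr h.symm)
  · rcases inter3s p h2 h3 with h | h | h
    · exact Or.inr (Or.inl h)
    · exact Or.inr (Or.inr h)
    · exact Or.inl h
  · rcases inter3s p h2 h1 with h | h | h
    · exact Or.inr (Or.inr h.symm)
    · exact Or.inr (Or.inl h.symm)
    · exact Or.inl h.symm
  · rcases inter3s p h2 h1 with h | h | h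
    · exact Or.inr (Or.inr h.symm)
    · exact Or.inr (Or.inl h.symm)
    · exact Or.inl h.symm

theorem alt2 (v : ℕ → ℝ) {N : ℕ} (hN : v 0 = v N) {p q r s x y : ℕ} {L H : ℝ} (hLH : L ≤ H)
    (hI : Inter p q r s) (hp : p ≤ N) (hq : q ≤ N) (hr : r ≤ N) (hs : s ≤ N) (hx : x ≤ N)
    (hy : y ≤ N) (vp : H ≤ v p) (vq : H ≤ v q) (vr' : v r ≤ L) (vs : v s ≤ L)
    (hX : ∀ i, i ≤ N → v i ≤ v x) (hY : ∀ i, i ≤ N → v y ≤ v i) :
    2 * (v x - v y) + 2 * (H - L) ≤ vr v N := by
  have hN' : (fun i => -v i) 0 = (fun i => -v i) N := by simp [hN]
  have hneg : ∀ {a b c d : ℕ}, a ≤ b → b ≤ c → c ≤ d → d ≤ N → H ≤ v a → v b ≤ L → H ≤ v c →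
      v d ≤ L → 2 * (v x - v y) + 2 * (H - L) ≤ vr v N := by
    intro a b c d h1 h2 h3 h4 ha hb hc hd
    have := alt1 (fun i => -v i) hN' (L := -H) (H := -L) (x := y) (y := x) (by linarith) h1 h2 h3 h4
      hy hx (by simpa using ha) (by simpa using hb) (by simpa using hc) (by simpa using hd)
      (fun i hi => by simpa using hY i hi) (fun i hi => by simpa using hX i hi)
    rw [vr_neg] at this
    linarith
  cases hI with
  | i1 h1 h2 h3 => exact alt1 v hN hLH h1 h2 h3 hq hx hy vr' vp vs vq hX hY
  | i2 h1 h2 h3 => exact alt1 v hN hLH h1 h2 h3 hp hx hy vr' vq vs vp hX hY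
  | i3 h1 h2 h3 => exact alt1 v hN hLH h1 h2 h3 hq hx hy vs vp vr' vq hX hY
  | i4 h1 h2 h3 => exact alt1 v hN hLH h1 h2 h3 hp hx hy vs vq vr' vp hX hY
  | i5 h1 h2 h3 => exact hneg h1 h2 h3 hs vp vr' vq vs
  | i6 h1 h2 h3 => exact hneg h1 h2 h3 hr vp vs vq vr'
  | i7 h1 h2 h3 => exact hneg h1 h2 h3 hs vq vr' vp vs
  | i8 h1 h2 h3 => exact hneg h1 h2 h3 hr vq vs vp vr'

theorem alt0 (v : ℕ → ℝ) {N : ℕ} (hN : v 0 = v N) {x y : ℕ} (hx : x ≤ N) (hy : y ≤ N) :
    2 * (v x - v y) ≤ vr v N := by
  rcases le_total x y with h | h
  · have := six v hN (le_refl x) (le_refl x) (le_refl x) (le_refl x) h hy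
    have h1 := neg_le_abs (v y - v x)
    simp only [sub_self, abs_zero] at this
    linarith
  · have := six v hN (le_refl y) (le_refl y) (le_refl y) (le_refl y) h hx
    have h1 := le_abs_self (v x - v y)
    simp only [sub_self, abs_zero] at this
    linarith

/-! ### the plane -/

/-- every ray from an interior point meets the frontier -/
theorem ray {K : Set E2} (hK : Bornology.IsBounded K) {p : E2} (hp : p ∈ interior K) (α : ℝ) :
    ∃ r : ℝ, 0 < r ∧ p + r • ev α ∈ frontier K := by
  have hcont : Continuous fun r : ℝ => p + r • ev α := by fun_prop
  have hopen : IsOpen ((fun r : ℝ => p + r • ev α) ⁻¹' interior K) := isOpen_interior.preimage hcont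
  have step : ∀ r : ℝ, p + r • ev α ∈ interior K → ∃ r' > r, p + r' • ev α ∈ interior K := by
    intro r hr
    obtain ⟨η, hη, hb⟩ := Metric.isOpen_iff.1 hopen r hr
    refine ⟨r + η / 2, by linarith, hb ?_⟩
    rw [mem_ball, Real.dist_eq, add_sub_cancel_left, abs_of_pos (by linarith)]
    linarith
  set T : Set ℝ := {r | 0 ≤ r ∧ p + r • ev α ∈ closure K} with hT
  obtain ⟨B, hB⟩ := hK.closure.subset_closedBall p
  have hTB : ∀ r ∈ T, r ≤ B := by
    rintro r ⟨h0, hr⟩
    have := hB hr
    rw [mem_closedBall, dist_eq_norm, add_sub_cancel_left, norm_smul, norm_ev, mul_one,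
      Real.norm_eq_abs, abs_of_nonneg h0] at this
    exact this
  have hTc : IsClosed T := isClosed_Ici.inter (isClosed_closure.preimage hcont)
  have h0T : (0 : ℝ) ∈ T := ⟨le_rfl, by simpa using subset_closure (interior_subset hp)⟩
  have hmem : sSup T ∈ T := hTc.csSup_mem ⟨0, h0T⟩ ⟨B, hTB⟩
  have hmax : ∀ r ∈ T, r ≤ sSup T := fun r hr => le_csSup ⟨B, hTB⟩ hr
  obtain ⟨r1, h1, h2⟩ := step 0 (by simpa using hp)
  have hpos : 0 < sSup T :=
    h1.trans_le (hmax r1 ⟨h1.le, subset_closure (interior_subset h2)⟩)
  refine ⟨sSup T, hpos, hmem.2, fun h3 => ?_⟩
  obtain ⟨r2, h4, h5⟩ := step _ h3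
  exact absurd (hmax r2 ⟨hpos.le.trans h4.le, subset_closure (interior_subset h5)⟩) (not_le.2 h4)

/-- integral of a nonnegative function which is large on an interval -/
theorem int_ge {G : ℝ → ℝ} (hG : Continuous G) {α β c : ℝ} (h1 : 0 ≤ α) (h2 : α ≤ β)
    (h3 : β ≤ 2 * Real.pi) (h0 : ∀ θ, 0 ≤ G θ) (hc : ∀ θ ∈ Icc α β, c ≤ G θ) :
    c * (β - α) ≤ ∫ θ in (0 : ℝ)..(2 * Real.pi), G θ := by
  have i : ∀ a b : ℝ, IntervalIntegrable G volume a b := fun a b => hG.intervalIntegrable a b
  rw [← intervalIntegral.integral_add_adjacent_intervals (i 0 α) (i α _),
    ← intervalIntegral.integral_add_adjacent_intervals (i α β) (i β _)]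
  have e1 : 0 ≤ ∫ θ in (0 : ℝ)..α, G θ := intervalIntegral.integral_nonneg h1 fun θ _ => h0 θ
  have e2 : 0 ≤ ∫ θ in β..(2 * Real.pi), G θ := intervalIntegral.integral_nonneg h3 fun θ _ => h0 θ
  have e3 : c * (β - α) ≤ ∫ θ in α..β, G θ := by
    have := intervalIntegral.integral_mono_on (f := fun _ => c) h2 (by simp) (i α β) hc
    rw [intervalIntegral.integral_const, smul_eq_mul] at this
    linarith
  linarith

theorem int_width {R : Set E2} (hR : IsCompact R) :
    ∫ θ in (0 : ℝ)..(2 * Real.pi), (hs R θ + hs R (θ + Real.pi)) = 2 * W R := by
  have hc := cont_hs hR
  have hc2 : Continuous fun θ => hs R (θ + Real.pi) := hc.comp (by fun_prop)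
  rw [intervalIntegral.integral_add (hc.intervalIntegrable _ _) (hc2.intervalIntegrable _ _)]
  have h1 : ∫ θ in (0 : ℝ)..(2 * Real.pi), hs R (θ + Real.pi) = W R := by
    rw [intervalIntegral.integral_comp_add_right (fun θ => hs R θ) Real.pi]
    have hper : Function.Periodic (hs R) (2 * Real.pi) := fun θ => hs_two_pi R θ
    have := hper.intervalIntegral_add_eq (0 + Real.pi) 0
    rw [show 2 * Real.pi + Real.pi = 0 + Real.pi + 2 * Real.pi by ring, this, zero_add]
    rfl
  rw [h1]
  unfold W
  ring

theorem int_comb {F H : ℝ → ℝ} (hF : Continuous F) (hH : Continuous H) (a b c : ℝ) :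
    ∫ θ in a..b, (F θ - 2 * H θ + c) =
      (∫ θ in a..b, F θ) - 2 * (∫ θ in a..b, H θ) + (b - a) * c := by
  have h1 : IntervalIntegrable (fun θ => F θ - 2 * H θ) volume a b :=
    (hF.sub (hH.const_mul 2)).intervalIntegrable _ _
  have h2 : IntervalIntegrable (fun θ => 2 * H θ) volume a b :=
    (hH.const_mul 2).intervalIntegrable _ _
  rw [intervalIntegral.integral_add h1 intervalIntegrable_const,
    intervalIntegral.integral_sub (hF.intervalIntegrable _ _) h2,
    intervalIntegral.integral_const_mul, intervalIntegral.integral_const, smul_eq_mul]

theorem cos_le_of {a b θ : ℝ} (h : cos (a - b) = -(1 / 2)) (h1 : a ≤ θ) (h2 : θ ≤ a + 1 / 4) :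
    cos (θ - b) ≤ -(1 / 4) := by
  have h3 := Real.abs_cos_sub_cos_le (θ - b) (a - b)
  have h4 : |θ - b - (a - b)| ≤ 1 / 4 := by
    rw [show θ - b - (a - b) = θ - a by ring, abs_of_nonneg (by linarith)]
    linarith
  have h5 := (abs_le.1 (h3.trans h4)).2
  linarith

theorem cos_nonneg_of {a θ : ℝ} (h1 : a ≤ θ) (h2 : θ ≤ a + 1 / 4) : 0 ≤ cos (θ - a) := by
  have := Real.pi_gt_three
  exact Real.cos_nonneg_of_mem_Icc ⟨by linarith, by linarith⟩

theorem cro2 : Cro2Stm := by
  intro ζ hc h01 hV hF p hp
  by_contra hfr
  set R := ζ '' Icc 0 1 with hRdef
  have hR : IsCompact R := isCompact_Icc.image_of_continuousOn hc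
  have hRne : R.Nonempty := ⟨p, hp⟩
  have hKb : Bornology.IsBounded (convexHull ℝ R) := isBounded_convexHull.2 hR.isBounded
  have hpi : p ∈ interior (convexHull ℝ R) := by
    by_contra h
    exact hfr ⟨subset_closure (subset_convexHull ℝ R hp), h⟩
  have hπ := Real.pi_gt_three
  have hπ4 := Real.pi_lt_d2
  obtain ⟨r0, hr0, hq0⟩ := ray hKb hpi (Real.pi / 3)
  obtain ⟨r1, hr1, hq1⟩ := ray hKb hpi Real.pi
  obtain ⟨r2, hr2, hq2⟩ := ray hKb hpi (5 * Real.pi / 3)
  obtain ⟨s0, hs0, he0⟩ := hF hq0
  obtain ⟨s1, hs1, he1⟩ := hF hq1
  obtain ⟨s2, hs2, he2⟩ := hF hq2
  obtain ⟨t0, ht0, het⟩ := hp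
  obtain ⟨m, hm, hm0, hm1, hm2⟩ : ∃ m : ℝ, 0 < m ∧ m ≤ r0 ∧ m ≤ r1 ∧ m ≤ r2 :=
    ⟨min r0 (min r1 r2), lt_min hr0 (lt_min hr1 hr2), min_le_left _ _,
      (min_le_right _ _).trans (min_le_left _ _), (min_le_right _ _).trans (min_le_right _ _)⟩
  set ε : ℝ := m / 1000 with hε
  have hε0 : 0 < ε := by positivity
  have huc := isCompact_Icc.uniformContinuousOn_of_continuous hc
  obtain ⟨δ, hδ, hun⟩ := Metric.uniformContinuousOn_iff.1 huc ε hε0
  obtain ⟨n, hn⟩ := exists_nat_one_div_lt hδ
  set N : ℕ := n + 1 with hN
  have hNpos : (0 : ℝ) < N := by positivity
  have hNδ : 1 / (N : ℝ) < δ := by rw [hN]; push_cast; exact hn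
  set g : ℕ → ℝ := fun i => min ((i : ℝ) / N) 1 with hg
  have gmem : ∀ i, g i ∈ Icc (0 : ℝ) 1 := fun i => ⟨le_min (by positivity) zero_le_one, min_le_right _ _⟩
  have gmono : Monotone g := by
    intro i j hij
    refine min_le_min ?_ le_rfl
    have : (i : ℝ) ≤ j := by exact_mod_cast hij
    gcongr
  have g0 : g 0 = 0 := by simp [hg]
  have gN : g N = 1 := by
    rw [hg]
    simp
  set idx : ℝ → ℕ := fun s => ⌊s * N⌋₊ with hidx
  have idx_le : ∀ s ∈ Icc (0 : ℝ) 1, idx s ≤ N := by
    intro s hs
    have : s * N ≤ N := by nlinarith [hs.2]
    exact (Nat.floor_le_floor this).trans (by simp)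
  have idx_near : ∀ s ∈ Icc (0 : ℝ) 1, dist (ζ s) (ζ (g (idx s))) < ε := by
    intro s hs
    refine hun s hs _ (gmem _) ?_
    have h1 : ((idx s : ℕ) : ℝ) ≤ s * N := Nat.floor_le (by have := hs.1; positivity)
    have h2 : s * N < (idx s : ℕ) + 1 := Nat.lt_floor_add_one _
    have h3 : g (idx s) = (idx s : ℕ) / N := by
      refine min_eq_left ?_
      rw [div_le_one hNpos]
      exact_mod_cast idx_le s hs
    have h4 : ((idx s : ℕ) : ℝ) / N ≤ s := by rwa [div_le_iff₀ hNpos]
    have h5 : s - ((idx s : ℕ) : ℝ) / N < 1 / N := by
      rw [lt_div_iff₀ hNpos, sub_mul, div_mul_cancel₀ _ hNpos.ne']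
      linarith
    rw [h3, Real.dist_eq, abs_of_nonneg (by linarith)]
    linarith
  set v : ℝ → ℕ → ℝ := fun θ i => ip (ζ (g i)) θ with hv
  have near : ∀ s ∈ Icc (0 : ℝ) 1, ∀ θ, |ip (ζ s) θ - v θ (idx s)| ≤ ε := by
    intro s hs θ
    rw [hv]
    simp only
    rw [← ip_sub]
    refine (abs_ip_le _ _).trans ?_
    rw [← dist_eq_norm]
    exact (idx_near s hs).le
  have vN : ∀ θ, v θ 0 = v θ N := by
    intro θ
    simp only [hv]
    rw [g0, gN, h01]
  -- the sum of the lengths
  set S : ℝ := ∑ i ∈ Finset.range N, ‖ζ (g (i + 1)) - ζ (g i)‖ with hS
  have hSV : ENNReal.ofReal S ≤ eVariationOn ζ (Icc 0 1) := by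
    rw [hS, ENNReal.ofReal_sum_of_nonneg fun i _ => norm_nonneg _]
    refine le_trans (le_of_eq ?_) (eVariationOn.sum_le (n := N) gmono gmem)
    refine Finset.sum_congr rfl fun i _ => ?_
    rw [edist_dist, dist_eq_norm]
  have hSW := hSV.trans hV
  have hint : ∫ θ in (0 : ℝ)..(2 * Real.pi), vr (v θ) N = 4 * S := by
    unfold vr
    rw [intervalIntegral.integral_finsetSum]
    · rw [hS, Finset.mul_sum]
      refine Finset.sum_congr rfl fun i _ => ?_
      rw [← int_abs_ip]
      refine intervalIntegral.integral_congr fun θ _ => ?_
      simp only [hv]
      rw [ip_sub]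
    · intro i _
      refine Continuous.intervalIntegrable ?_ _ _
      simp only [hv]
      exact ((cont_ip _).sub (cont_ip _)).abs
  have hvc : Continuous fun θ => vr (v θ) N := by
    unfold vr
    refine continuous_finsetSum _ fun i _ => ?_
    simp only [hv]
    exact ((cont_ip _).sub (cont_ip _)).abs
  have hext : ∀ θ, ∃ x ≤ N, ∃ y ≤ N, (∀ i, i ≤ N → v θ i ≤ v θ x) ∧ (∀ i, i ≤ N → v θ y ≤ v θ i) ∧
      hs R θ + hs R (θ + Real.pi) - 2 * ε ≤ v θ x - v θ y := by
    intro θ
    obtain ⟨x, hx, hxm⟩ := Finset.exists_max_image (Finset.range (N + 1)) (v θ)
      ⟨0, by simp⟩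
    obtain ⟨y, hy, hym⟩ := Finset.exists_min_image (Finset.range (N + 1)) (v θ)
      ⟨0, by simp⟩
    have hx' : x ≤ N := Nat.lt_succ_iff.1 (Finset.mem_range.1 hx)
    have hy' : y ≤ N := Nat.lt_succ_iff.1 (Finset.mem_range.1 hy)
    have hX : ∀ i, i ≤ N → v θ i ≤ v θ x := fun i hi =>
      hxm i (Finset.mem_range.2 (Nat.lt_succ_iff.2 hi))
    have hY : ∀ i, i ≤ N → v θ y ≤ v θ i := fun i hi =>
      hym i (Finset.mem_range.2 (Nat.lt_succ_iff.2 hi))
    refine ⟨x, hx', y, hy', hX, hY, ?_⟩
    obtain ⟨_, ⟨s, hs, rfl⟩, h1⟩ := exists_hs hR hRne θ
    obtain ⟨_, ⟨s', hs', rfl⟩, h2⟩ := exists_hs hR hRne (θ + Real.pi)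
    rw [ip_add_pi] at h2
    have h3 := (abs_le.1 (near s hs θ)).2
    have h4 := (abs_le.1 (near s' hs' θ)).1
    have h5 := hX _ (idx_le s hs)
    have h6 := hY _ (idx_le s' hs')
    linarith
  have hlow : ∀ θ, 0 ≤ vr (v θ) N - 2 * (hs R θ + hs R (θ + Real.pi)) + 4 * ε := by
    intro θ
    obtain ⟨x, hx, y, hy, _, _, h⟩ := hext θ
    have := alt0 (v θ) (vN θ) hx hy
    linarith
  have fin : ∀ (aj ai ak rj ri rk sj si sk : ℝ), 0 ≤ aj → aj + 1 / 4 ≤ 2 * Real.pi →
      cos (aj - ai) = -(1 / 2) → cos (aj - ak) = -(1 / 2) → 0 < rj → m ≤ ri → m ≤ rk →
      sj ∈ Icc (0 : ℝ) 1 → si ∈ Icc (0 : ℝ) 1 → sk ∈ Icc (0 : ℝ) 1 → ζ sj = p + rj • ev aj →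
      ζ si = p + ri • ev ai → ζ sk = p + rk • ev ak → Inter (idx t0) (idx sj) (idx si) (idx sk) →
      False := by
    intro aj ai ak rj ri rk sj si sk haj0 haj1 ci ck hrj hri hrk hsj hsi hsk ej ei ek hI
    have hcR := cont_hs hR
    have hcR2 : Continuous fun θ => hs R (θ + Real.pi) := hcR.comp (by fun_prop)
    have hGc : Continuous fun θ => vr (v θ) N - 2 * (hs R θ + hs R (θ + Real.pi)) + 4 * ε := by
      fun_prop
    have hbig : ∀ θ ∈ Icc aj (aj + 1 / 4), m / 4 ≤
        vr (v θ) N - 2 * (hs R θ + hs R (θ + Real.pi)) + 4 * ε := by
      intro θ hθ
      obtain ⟨x, hx, y, hy, hX, hY, h⟩ := hext θ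
      have h1 := (abs_le.1 (near t0 ht0 θ)).2
      have h2 := (abs_le.1 (near sj hsj θ)).2
      have h3 := (abs_le.1 (near si hsi θ)).1
      have h4 := (abs_le.1 (near sk hsk θ)).1
      rw [het] at h1
      rw [ej, ip_add, ip_smul, ip_ev] at h2
      rw [ei, ip_add, ip_smul, ip_ev] at h3
      rw [ek, ip_add, ip_smul, ip_ev] at h4
      have h5 := mul_nonneg hrj.le (cos_nonneg_of hθ.1 hθ.2)
      have h6 := cos_le_of ci hθ.1 hθ.2
      have h7 := cos_le_of ck hθ.1 hθ.2
      have h8 : ri * cos (θ - ai) ≤ -(m / 4) := by nlinarith
      have h9 : rk * cos (θ - ak) ≤ -(m / 4) := by nlinarith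
      have := alt2 (v θ) (vN θ) (L := ip p θ - m / 4 + ε) (H := ip p θ - ε) (by linarith) hI
        (idx_le _ ht0) (idx_le _ hsj) (idx_le _ hsi) (idx_le _ hsk) hx hy (by linarith)
        (by linarith) (by linarith) (by linarith) hX hY
      linarith
    have key := int_ge hGc haj0 (by linarith) haj1 hlow hbig
    have hi1 : ∫ θ in (0 : ℝ)..(2 * Real.pi),
        (vr (v θ) N - 2 * (hs R θ + hs R (θ + Real.pi)) + 4 * ε) =
        4 * S - 2 * (2 * W R) + 2 * Real.pi * (4 * ε) := by
      have hc3 : Continuous fun θ => hs R θ + hs R (θ + Real.pi) := hcR.add hcR2
      rw [int_comb hvc hc3, hint, int_width hR, sub_zero]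
    rw [hi1] at key
    have hW0 : 0 ≤ W R := by
      have h1 : 0 ≤ ∫ θ in (0 : ℝ)..(2 * Real.pi), (hs R θ + hs R (θ + Real.pi)) := by
        refine intervalIntegral.integral_nonneg (by positivity) fun θ _ => ?_
        have h2 := le_hs hR ⟨t0, ht0, het⟩ θ
        have h3 := le_hs hR ⟨t0, ht0, het⟩ (θ + Real.pi)
        rw [ip_add_pi] at h3
        linarith
      rw [int_width hR] at h1
      linarith
    have hSW' : S ≤ W R := by
      rcases le_total S 0 with h | h
      · linarith
      · exact (ENNReal.ofReal_le_ofReal_iff hW0).1 hSW
    have : 2 * Real.pi * (4 * ε) ≤ m * (8 * 3.15 / 1000) := by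
      rw [hε]
      nlinarith
    nlinarith
  have c1 : cos (2 * Real.pi / 3) = -(1 / 2) := by
    rw [show 2 * Real.pi / 3 = Real.pi - Real.pi / 3 by ring, Real.cos_pi_sub, Real.cos_pi_div_three]
  have c2 : cos (4 * Real.pi / 3) = -(1 / 2) := by
    rw [show 4 * Real.pi / 3 = Real.pi / 3 + Real.pi by ring, Real.cos_add_pi,
      Real.cos_pi_div_three]
  rcases inter3 (idx t0) (idx s0) (idx s1) (idx s2) with h | h | h
  · refine fin (Real.pi / 3) Real.pi (5 * Real.pi / 3) r0 r1 r2 s0 s1 s2 (by linarith)
      (by linarith) ?_ ?_ hr0 hm1 hm2 hs0 hs1 hs2 he0 he1 he2 h
    · rw [← Real.cos_neg, ← c1]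
      congr 1
      ring
    · rw [← Real.cos_neg, ← c2]
      congr 1
      ring
  · refine fin Real.pi (5 * Real.pi / 3) (Real.pi / 3) r1 r2 r0 s1 s2 s0 (by linarith)
      (by linarith) ?_ ?_ hr1 hm2 hm0 hs1 hs2 hs0 he1 he2 he0 h
    · rw [← Real.cos_neg, ← c1]
      congr 1
      ring
    · rw [← c1]
      congr 1
      ring
  · refine fin (5 * Real.pi / 3) (Real.pi / 3) Real.pi r2 r0 r1 s2 s0 s1 (by linarith)
      (by linarith) ?_ ?_ hr2 hm0 hm1 hs2 hs0 hs1 he2 he0 he1 h
    · rw [← c2]
      congr 1
      ring
    · rw [← c1]
      congr 1
      ring

end Pool.Agent.Y508.FP.C2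

namespace Pool.Agent.Y508.FP

theorem cro2 : Cro2Stm := C2.cro2

end Pool.Agent.Y508.FP
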