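import Pool.Agent.Y508.FP.Stm

/-!
# Unit speed bound on the sphere
-/

set_option autoImplicit false
open MeasureTheory Metric Set Filter Topology
open Real (sin cos)

namespace Pool.Agent.Y508.FP
open Pool.Agent.Y508

namespace Geo

variable {V : Type*} [NormedAddCommGroup V] [InnerProductSpace ℝ V]

theorem sin_half {u v : V} (hu : ‖u‖ = 1) (hv : ‖v‖ = 1) :
    2 * sin (InnerProductGeometry.angle u v / 2) = ‖u - v‖ := by
  have h0 := InnerProductGeometry.angle_nonneg u v
  have hpi := InnerProductGeometry.angle_le_pi u v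
  have hs : 0 ≤ sin (InnerProductGeometry.angle u v / 2) :=
    Real.sin_nonneg_of_nonneg_of_le_pi (by linarith) (by linarith)
  have hc := InnerProductGeometry.cos_angle_mul_norm_mul_norm u v
  rw [hu, hv, mul_one, mul_one] at hc
  have h1 : ‖u - v‖ ^ 2 = (2 * sin (InnerProductGeometry.angle u v / 2)) ^ 2 := by
    rw [norm_sub_sq_real, hu, hv, ← hc]
    have h2 : cos (InnerProductGeometry.angle u v) =
        1 - 2 * sin (InnerProductGeometry.angle u v / 2) ^ 2 := by
      have := Real.cos_sq_add_sin_sq (InnerProductGeometry.angle u v / 2)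
      have h3 : cos (InnerProductGeometry.angle u v) =
          cos (2 * (InnerProductGeometry.angle u v / 2)) := by ring_nf
      rw [h3, Real.cos_two_mul]
      linarith
    rw [h2]; ring
  have := (sq_eq_sq₀ (norm_nonneg _) (by positivity)).1 h1
  exact this.symm

theorem angle_le {u v : V} (hu : ‖u‖ = 1) (hv : ‖v‖ = 1) {h : ℝ} (hh : ‖u - v‖ ≤ h) :
    InnerProductGeometry.angle u v ≤ h + h ^ 3 := by
  have h0 := InnerProductGeometry.angle_nonneg u v
  have hpi := InnerProductGeometry.angle_le_pi u v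
  set α := InnerProductGeometry.angle u v / 2 with hα
  have e := sin_half hu hv
  rw [← hα] at e
  have hnn := norm_nonneg (u - v)
  have h1 : 2 / Real.pi * α ≤ sin α := Real.mul_le_sin (by linarith) (by linarith)
  have hα0 : 0 ≤ α := by linarith
  have hpos := Real.pi_pos
  have h4 : Real.pi ≤ 4 := Real.pi_le_four
  have h2 : α ≤ ‖u - v‖ := by
    have h5 : α / 2 ≤ 2 / Real.pi * α := by
      rw [div_mul_eq_mul_div, div_le_div_iff₀ (by norm_num) hpos]
      nlinarith
    linarith
  have h3 : α ≤ h := h2.trans hh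
  have h6 : α - α ^ 3 / 6 ≤ sin α := by
    rcases hα0.eq_or_lt with h7 | h7
    · rw [← h7]; simp
    · exact (Real.sin_gt_sub_cube h7).le
  have h7 : α ^ 3 ≤ h ^ 3 := pow_le_pow_left₀ hα0 h3 3
  have h8 : (0 : ℝ) ≤ h ^ 3 := pow_nonneg (hα0.trans h3) 3
  have : InnerProductGeometry.angle u v = 2 * α := by rw [hα]; ring
  rw [this]
  linarith

theorem angle_chain {f : ℝ → V} (h1 : ∀ θ, ‖f θ‖ = 1)
    (h2 : ∀ θ φ : ℝ, dist (f θ) (f φ) ≤ |θ - φ|) (a h : ℝ) (hh : 0 ≤ h) (k : ℕ) :
    InnerProductGeometry.angle (f a) (f (a + k * h)) ≤ k * (h + h ^ 3) := by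
  induction k with
  | zero =>
    simp [InnerProductGeometry.angle_self (by
      intro h0; have := h1 a; rw [h0, norm_zero] at this; exact zero_ne_one this : f a ≠ 0)]
  | succ k ih =>
    have h3 := InnerProductGeometry.angle_le_angle_add_angle (f a) (f (a + k * h))
      (f (a + (k + 1 : ℕ) * h))
    have h4 : InnerProductGeometry.angle (f (a + k * h)) (f (a + (k + 1 : ℕ) * h)) ≤ h + h ^ 3 := by
      apply angle_le (h1 _) (h1 _)
      rw [← dist_eq_norm]
      refine (h2 _ _).trans ?_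
      push_cast
      rw [show a + k * h - (a + (k + 1) * h) = -h by ring, abs_neg, abs_of_nonneg hh]
    push_cast at h3 h4 ⊢
    linarith

theorem angle_le_sub {f : ℝ → V} (h1 : ∀ θ, ‖f θ‖ = 1)
    (h2 : ∀ θ φ : ℝ, dist (f θ) (f φ) ≤ |θ - φ|) {a b : ℝ} (hab : a ≤ b) :
    InnerProductGeometry.angle (f a) (f b) ≤ b - a := by
  have key : ∀ k : ℕ, InnerProductGeometry.angle (f a) (f b) ≤
      (b - a) + (b - a) ^ 3 * (1 / ((k : ℝ) + 1)) := by
    intro k
    have hk : (0 : ℝ) < (k : ℝ) + 1 := by positivity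
    have h3 := angle_chain h1 h2 a ((b - a) / ((k : ℝ) + 1)) (by
      have := sub_nonneg.2 hab; positivity) (k + 1)
    have e1 : a + ((k + 1 : ℕ) : ℝ) * ((b - a) / ((k : ℝ) + 1)) = b := by
      push_cast
      field_simp
      ring
    rw [e1] at h3
    refine h3.trans ?_
    push_cast
    have e2 : ((k : ℝ) + 1) * ((b - a) / ((k : ℝ) + 1) + ((b - a) / ((k : ℝ) + 1)) ^ 3) =
        (b - a) + (b - a) ^ 3 * (1 / ((k : ℝ) + 1)) * (1 / ((k : ℝ) + 1)) := by
      field_simp
    rw [e2]
    have h5 : 0 ≤ (b - a) ^ 3 * (1 / ((k : ℝ) + 1)) := by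
      have := sub_nonneg.2 hab; positivity
    have h6 : 1 / ((k : ℝ) + 1) ≤ 1 := by
      rw [div_le_one hk]
      have : (0 : ℝ) ≤ k := Nat.cast_nonneg k
      linarith
    have := mul_le_mul_of_nonneg_left h6 h5
    linarith
  have lim : Tendsto (fun k : ℕ => (b - a) + (b - a) ^ 3 * (1 / ((k : ℝ) + 1))) atTop
      (𝓝 ((b - a) + (b - a) ^ 3 * 0)) :=
    tendsto_const_nhds.add (tendsto_const_nhds.mul tendsto_one_div_add_atTop_nhds_zero_nat)
  have := ge_of_tendsto' lim key
  linarith

end Geo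

theorem geo : GeoStm := by
  intro d f h1 h2 h3
  have hne : ∀ θ, f θ ≠ 0 := by
    intro θ h0
    have := h1 θ
    rw [h0, norm_zero] at this
    exact zero_ne_one this
  have hin : ∀ a b, inner ℝ (f a) (f b) = cos (InnerProductGeometry.angle (f a) (f b)) := by
    intro a b
    have := InnerProductGeometry.cos_angle_mul_norm_mul_norm (f a) (f b)
    rw [h1, h1, mul_one, mul_one] at this
    exact this.symm
  have hpi : InnerProductGeometry.angle (f 0) (f Real.pi) = Real.pi := by
    rw [h3]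
    exact InnerProductGeometry.angle_self_neg_of_nonzero (hne 0)
  have hpp := Real.pi_pos
  have a0 : ∀ θ, 0 ≤ θ → θ ≤ Real.pi → InnerProductGeometry.angle (f 0) (f θ) = θ := by
    intro θ h4 h5
    have h6 := Geo.angle_le_sub h1 h2 h4
    have h7 := Geo.angle_le_sub h1 h2 h5
    have h8 := InnerProductGeometry.angle_le_angle_add_angle (f 0) (f θ) (f Real.pi)
    rw [hpi] at h8
    linarith
  have a1 : ∀ θ, 0 ≤ θ → θ ≤ Real.pi → inner ℝ (f (Real.pi / 2)) (f θ) = sin θ := by
    intro θ h4 h5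
    rcases le_total θ (Real.pi / 2) with h6 | h6
    · have h7 := Geo.angle_le_sub h1 h2 h6
      have h8 := InnerProductGeometry.angle_le_angle_add_angle (f 0) (f θ) (f (Real.pi / 2))
      rw [a0 _ h4 h5, a0 _ (by linarith) (by linarith)] at h8
      have h9 : InnerProductGeometry.angle (f θ) (f (Real.pi / 2)) = Real.pi / 2 - θ := by
        linarith
      rw [real_inner_comm, hin, h9, Real.cos_pi_div_two_sub]
    · have h7 := Geo.angle_le_sub h1 h2 h6
      have h8 := InnerProductGeometry.angle_le_angle_add_angle (f 0) (f (Real.pi / 2)) (f θ)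
      rw [a0 _ h4 h5, a0 _ (by linarith) (by linarith)] at h8
      have h9 : InnerProductGeometry.angle (f (Real.pi / 2)) (f θ) = θ - Real.pi / 2 := by
        linarith
      rw [hin, h9, ← neg_sub, Real.cos_neg, Real.cos_pi_div_two_sub]
  have a2 : ∀ θ, 0 ≤ θ → θ ≤ Real.pi → inner ℝ (f 0) (f θ) = cos θ := by
    intro θ h4 h5
    rw [hin, a0 θ h4 h5]
  have h0 : inner ℝ (f 0) (f (Real.pi / 2)) = 0 := by
    rw [a2 _ (by linarith) (by linarith), Real.cos_pi_div_two]
  refine ⟨h0, ?_⟩
  rintro θ ⟨h4, h5⟩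
  have h6 : ‖f θ - (cos θ • f 0 + sin θ • f (Real.pi / 2))‖ ^ 2 = 0 := by
    rw [norm_sub_sq_real, norm_add_sq_real, norm_smul, norm_smul, h1, h1, h1, inner_add_right,
      real_inner_smul_right, real_inner_smul_right, real_inner_smul_left, real_inner_smul_right,
      h0, real_inner_comm (f 0) (f θ), real_inner_comm (f (Real.pi / 2)) (f θ), a2 θ h4 h5,
      a1 θ h4 h5, Real.norm_eq_abs, Real.norm_eq_abs, mul_one, mul_one, sq_abs, sq_abs]
    have := Real.sin_sq_add_cos_sq θ
    linarith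
  exact sub_eq_zero.1 (norm_eq_zero.1 (pow_eq_zero_iff (two_ne_zero)|>.1 h6))

end Pool.Agent.Y508.FP

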