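import Pool.Agent.Y508.FP.Stm

/-!
# Relative boundaries of plane bodies of constant width one
-/

set_option autoImplicit false
open MeasureTheory Metric Set Filter Topology
open Real (sin cos)

namespace Pool.Agent.Y508.FP
open Pool.Agent.Y508

namespace IffAux

/-- a boundary point is a support point -/
theorem supp {K : Set E2} (hK : IsCompact K) (hc : Convex ℝ K) {x : E2} (hx : x ∈ frontier K) :
    x ∈ K ∧ ∃ θ : ℝ, ip x θ = hs K θ := by
  rw [hK.isClosed.frontier_eq] at hx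
  obtain ⟨hxK, hxi⟩ := hx
  refine ⟨hxK, ?_⟩
  by_contra hcon
  push Not at hcon
  have hlt : ∀ θ : ℝ, 0 < hs K θ - ip x θ := fun θ =>
    sub_pos.2 (lt_of_le_of_ne (le_hs hK hxK θ) (hcon θ))
  have hcont : Continuous fun θ : ℝ => hs K θ - ip x θ := (cont_hs hK).sub (cont_ip x)
  obtain ⟨θ₀, hθ₀, hmin⟩ := (isCompact_Icc (a := (0 : ℝ)) (b := 2 * Real.pi)).exists_isMinOn
    ⟨0, by constructor <;> positivity⟩ hcont.continuousOn
  set m := hs K θ₀ - ip x θ₀ with hm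
  have hmpos : 0 < m := hlt θ₀
  have hper : Function.Periodic (fun θ : ℝ => hs K θ - ip x θ) (2 * Real.pi) := by
    intro θ
    simp only [hs_two_pi, ip_two_pi]
  have hall : ∀ θ : ℝ, m ≤ hs K θ - ip x θ := by
    intro θ
    obtain ⟨φ, hφ, he⟩ := hper.exists_mem_Ico₀ (by positivity) θ
    have h1 : m ≤ hs K φ - ip x φ := hmin ⟨hφ.1, hφ.2.le⟩
    have h2 : hs K θ - ip x θ = hs K φ - ip x φ := he
    rw [h2]
    exact h1
  apply hxi
  rw [mem_interior]
  refine ⟨ball x m, ?_, isOpen_ball, mem_ball_self hmpos⟩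
  intro y hy
  rw [mem_ball, dist_eq_norm] at hy
  refine mem_of_ip_le hK hc ⟨x, hxK⟩ fun θ => ?_
  have h1 := abs_ip_le (y - x) θ
  rw [ip_sub] at h1
  have h2 := le_abs_self (ip y θ - ip x θ)
  have h3 := hall θ
  linarith

/-- a support point is a boundary point -/
theorem fron {K : Set E2} (hK : IsCompact K) {x : E2} (hx : x ∈ K) {θ : ℝ}
    (h : ip x θ = hs K θ) : x ∈ frontier K := by
  rw [hK.isClosed.frontier_eq]
  refine ⟨hx, fun hi => ?_⟩
  obtain ⟨r, hr, hb⟩ := Metric.isOpen_iff.1 isOpen_interior x hi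
  have h1 : x + (r / 2) • ev θ ∈ K := by
    apply interior_subset
    apply hb
    rw [mem_ball, dist_eq_norm, add_sub_cancel_left, norm_smul, norm_ev, mul_one,
      Real.norm_eq_abs, abs_of_pos (by positivity)]
    linarith
  have h2 := le_hs hK h1 θ
  rw [ip_add, ip_smul, ip_ev, sub_self, Real.cos_zero, mul_one] at h2
  linarith

/-- the width of `K` in the direction `ev θ` -/
theorem width {K : Set E2} (hK : IsCompact K) (hne : K.Nonempty) (θ : ℝ) :
    sSup ((fun x => inner ℝ (ev θ) x) '' K) - sInf ((fun x => inner ℝ (ev θ) x) '' K) =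
      hs K θ + hs K (θ + Real.pi) := by
  have e : (fun x : E2 => inner ℝ (ev θ) x) = fun x => ip x θ := by
    funext x
    rw [real_inner_comm, inner_ev]
  rw [e]
  obtain ⟨y, hy, hye⟩ := exists_hs hK hne (θ + Real.pi)
  have h1 : sInf ((fun x : E2 => ip x θ) '' K) = ip y θ := by
    refine IsLeast.csInf_eq ⟨mem_image_of_mem _ hy, ?_⟩
    rintro _ ⟨x, hx, rfl⟩
    have h2 := le_hs hK hx (θ + Real.pi)
    rw [hye, ip_add_pi, ip_add_pi] at h2
    simp only
    linarith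
  rw [h1, hye, ip_add_pi]
  unfold hs
  ring

end IffAux

open IffAux

theorem ifs : IfStm := by
  rintro d C ⟨ι, K, hK, hc, hw, rfl⟩ _ ⟨x, hx, rfl⟩
  obtain ⟨hxK, θ, hθ⟩ := supp hK hc hx
  have h1 := hw (ev θ) (norm_ev θ)
  have h1' := width hK ⟨x, hxK⟩ θ
  obtain ⟨y, hy, hye⟩ := exists_hs hK ⟨x, hxK⟩ (θ + Real.pi)
  refine ⟨ι y, mem_image_of_mem _ (fron hK hy hye.symm), ?_⟩
  rw [ι.dist_map, dist_eq_norm]
  have h2 := abs_ip_le (x - y) θ
  have h3 := le_abs_self (ip (x - y) θ)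
  have h4 := ip_sub x y θ
  have h5 : hs K θ + hs K (θ + Real.pi) = 1 := by rw [← h1']; exact h1
  rw [hye, ip_add_pi] at h5
  linarith

theorem cwb_diam : ∀ (d : ℕ) (C : Set (EuclideanSpace ℝ (Fin d))), CWB d C →
    ∀ x ∈ C, ∀ y ∈ C, dist x y ≤ 1 := by
  rintro d C ⟨ι, K, hK, hc, hw, rfl⟩ _ ⟨x, hx, rfl⟩ _ ⟨y, hy, rfl⟩
  rw [ι.dist_map, dist_eq_norm]
  obtain ⟨hxK, -⟩ := supp hK hc hx
  obtain ⟨hyK, -⟩ := supp hK hc hy
  by_cases hxy : x - y = 0
  · rw [hxy, norm_zero]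
    exact zero_le_one
  obtain ⟨θ, hθ⟩ := exists_pos_ev (x - y) hxy
  have h1 := hw (ev θ) (norm_ev θ)
  have h1' := width hK ⟨x, hxK⟩ θ
  have h5 : hs K θ + hs K (θ + Real.pi) = 1 := by rw [← h1']; exact h1
  have h2 := le_hs hK hxK θ
  have h3 := le_hs hK hyK (θ + Real.pi)
  rw [ip_add_pi] at h3
  have h4 : ip (x - y) θ = ‖x - y‖ := by
    conv_lhs => rw [hθ]
    rw [ip_smul, ip_ev, sub_self, Real.cos_zero, mul_one]
  rw [ip_sub] at h4
  linarith

end Pool.Agent.Y508.FP
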