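import Pool.Agent.Y508.FP.Stm
import Pool.Agent.TH276.Torsion.Hull

/-!
# FP-LIM (helper256 for helper508): limit of the approximating polygons
-/

set_option autoImplicit false
open MeasureTheory Metric Set Filter Topology

namespace Pool.Agent.Y508.FP.Lm
open Pool.Agent.Y508 Pool.Agent.Y508.FP

/-- discrete intermediate values -/
theorem ivt0 (g : ℕ → ℝ) (L : ℕ) (x η ε : ℝ) (hη : 0 ≤ η) (hε : 0 ≤ ε)
    (hst : ∀ m < L, |g (m + 1) - g m| ≤ ε) (h0 : g 0 ≤ x + η) (hL : x - η ≤ g L) :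
    ∃ m ≤ L, |g m - x| ≤ η + ε := by
  classical
  have hex : ∃ m, x - η ≤ g m := ⟨L, hL⟩
  set m := Nat.find hex with hm
  have h1 : x - η ≤ g m := Nat.find_spec hex
  have h2 : m ≤ L := Nat.find_min' hex hL
  refine ⟨m, h2, ?_⟩
  rcases Nat.eq_zero_or_pos m with h3 | h3
  · rw [abs_le]
    rw [h3] at h1 ⊢
    constructor <;> linarith
  · have h4 : ¬ x - η ≤ g (m - 1) := Nat.find_min hex (by omega)
    push Not at h4
    have h5 := hst (m - 1) (by omega)
    rw [show m - 1 + 1 = m by omega, abs_le] at h5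
    rw [abs_le]
    constructor <;> linarith

theorem ivt (g : ℕ → ℝ) (L : ℕ) (x η ε : ℝ) (hη : 0 ≤ η) (hε : 0 ≤ ε)
    (hst : ∀ m < L, |g (m + 1) - g m| ≤ ε)
    (h : (g 0 ≤ x + η ∧ x - η ≤ g L) ∨ (g L ≤ x + η ∧ x - η ≤ g 0)) :
    ∃ m ≤ L, |g m - x| ≤ η + ε := by
  rcases h with ⟨h0, hL⟩ | ⟨hL, h0⟩
  · exact ivt0 g L x η ε hη hε hst h0 hL
  · obtain ⟨m, h1, h2⟩ := ivt0 (fun m => -g m) L (-x) η ε hη hε
      (fun m hm => by
        have := hst m hm
        rw [abs_le] at this ⊢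
        constructor <;> linarith) (by linarith) (by linarith)
    refine ⟨m, h1, ?_⟩
    rw [abs_le] at h2 ⊢
    constructor <;> linarith

theorem ip_dist (x y : E2) (θ : ℝ) : |ip x θ - ip y θ| ≤ dist x y := by
  rw [← ip_sub, dist_eq_norm]
  exact abs_ip_le _ _

theorem inner_ev' (x : E2) (θ : ℝ) : inner ℝ (ev θ) x = ip x θ := by
  rw [real_inner_comm, inner_ev]

/-- the arc -/
theorem arc {n : ℕ} {z : ℕ → E2} (hna : NoAlt n z) {ε : ℝ} (hε : 0 ≤ ε)
    (hedge : ∀ i, i + 1 < n → dist (z i) (z (i + 1)) ≤ ε) (hedge0 : dist (z (n - 1)) (z 0) ≤ ε)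
    (θ : ℝ) {i j : ℕ} (hij : i ≤ j) (hj : j < n) {t : ℝ} (hti : t < ip (z i) θ) (htj : t < ip (z j) θ)
    (φ x η : ℝ) (hη : 0 ≤ η)
    (hx : (ip (z i) φ ≤ x + η ∧ x - η ≤ ip (z j) φ) ∨ (ip (z j) φ ≤ x + η ∧ x - η ≤ ip (z i) φ)) :
    ∃ m < n, t ≤ ip (z m) θ ∧ |ip (z m) φ - x| ≤ η + ε := by
  by_cases h1 : ∀ m, i < m → m < j → t ≤ ip (z m) θ
  · -- the arc from `i` to `j`
    obtain ⟨m, hm, hm2⟩ := ivt (fun m => ip (z (i + m)) φ) (j - i) x η ε hη hε
      (fun m hm => by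
        refine (ip_dist _ _ _).trans ?_
        rw [dist_comm]
        exact hedge (i + m) (by omega))
      (by
        simp only [add_zero, show i + (j - i) = j by omega]
        exact hx)
    refine ⟨i + m, by omega, ?_, hm2⟩
    rcases Nat.eq_zero_or_pos m with h2 | h2
    · rw [h2, add_zero]; exact hti.le
    · by_cases h3 : i + m = j
      · rw [h3]; exact htj.le
      · exact h1 _ (by omega) (by omega)
  · push Not at h1
    obtain ⟨m₁, hm1, hm2, hm3⟩ := h1
    have h2 : ∀ m, m < n → (j < m ∨ m < i) → t ≤ ip (z m) θ := by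
      intro m hmn hm
      by_contra hcon
      push Not at hcon
      rcases hm with hm | hm
      · refine hna (-ev θ) i m₁ j m (-t) hm1 hm2 hm hmn ?_ ?_ ?_ ?_
        · rw [inner_neg_left, inner_ev']; linarith
        · rw [inner_neg_left, inner_ev']; linarith
        · rw [inner_neg_left, inner_ev']; linarith
        · rw [inner_neg_left, inner_ev']; linarith
      · refine hna (ev θ) m i m₁ j t hm hm1 hm2 hj ?_ ?_ ?_ ?_
        · rw [inner_ev']; exact hcon
        · rw [inner_ev']; exact hti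
        · rw [inner_ev']; exact hm3
        · rw [inner_ev']; exact htj
    -- the arc from `j` to `i`
    set g : ℕ → ℕ := fun m => if j + m < n then j + m else j + m - n with hg
    have hg0 : g 0 = j := by simp [hg, hj]
    have hgL : g (n - j + i) = i := by
      simp only [hg]
      rw [if_neg (by omega)]
      omega
    obtain ⟨m, hm, hm2⟩ := ivt (fun m => ip (z (g m)) φ) (n - j + i) x η ε hη hε
      (fun m hm => by
        refine (ip_dist _ _ _).trans ?_
        rw [dist_comm]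
        simp only [hg]
        by_cases h3 : j + (m + 1) < n
        · rw [if_pos h3, if_pos (by omega)]
          exact hedge (j + m) (by omega)
        · by_cases h4 : j + m < n
          · rw [if_neg h3, if_pos h4]
            have e1 : j + m = n - 1 := by omega
            have e2 : j + (m + 1) - n = 0 := by omega
            rw [e1, e2]
            exact hedge0
          · rw [if_neg h3, if_neg h4]
            have e1 : j + (m + 1) - n = (j + m - n) + 1 := by omega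
            rw [e1]
            exact hedge _ (by omega))
      (by
        simp only [hg0, hgL]
        exact hx.symm)
    have hgm : g m < n ∧ (g m = j ∨ g m = i ∨ j < g m ∨ g m < i) := by
      simp only [hg]
      split_ifs with h3 <;> omega
    refine ⟨g m, hgm.1, ?_, hm2⟩
    rcases hgm.2 with h3 | h3 | h3
    · rw [h3]; exact htj.le
    · rw [h3]; exact hti.le
    · exact h2 _ hgm.1 h3

/-- the same without the order of the indices -/
theorem arc' {n : ℕ} {z : ℕ → E2} (hna : NoAlt n z) {ε : ℝ} (hε : 0 ≤ ε)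
    (hedge : ∀ i, i + 1 < n → dist (z i) (z (i + 1)) ≤ ε) (hedge0 : dist (z (n - 1)) (z 0) ≤ ε)
    (θ : ℝ) {i j : ℕ} (hi : i < n) (hj : j < n) {t : ℝ} (hti : t < ip (z i) θ) (htj : t < ip (z j) θ)
    (φ x η : ℝ) (hη : 0 ≤ η) (h1 : ip (z i) φ ≤ x + η) (h2 : x - η ≤ ip (z j) φ) :
    ∃ m < n, t ≤ ip (z m) θ ∧ |ip (z m) φ - x| ≤ η + ε := by
  rcases le_total i j with h | h
  · exact arc hna hε hedge hedge0 θ h hj hti htj φ x η hη (Or.inl ⟨h1, h2⟩)
  · exact arc hna hε hedge hedge0 θ h hi htj hti φ x η hη (Or.inr ⟨h1, h2⟩)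

/-- coordinates -/
theorem norm_le_ip (x : E2) (θ : ℝ) : ‖x‖ ≤ |ip x θ| + |ip x (θ + Real.pi / 2)| := by
  have h1 : ‖x‖ ^ 2 = ip x θ ^ 2 + ip x (θ + Real.pi / 2) ^ 2 := by
    rw [norm_sq_E2]
    simp only [ip, Real.cos_add_pi_div_two, Real.sin_add_pi_div_two]
    have := Real.sin_sq_add_cos_sq θ
    linear_combination -(x 0 ^ 2 + x 1 ^ 2) * this
  have h2 : ‖x‖ ^ 2 ≤ (|ip x θ| + |ip x (θ + Real.pi / 2)|) ^ 2 := by
    rw [h1, add_sq, sq_abs, sq_abs]
    have : 0 ≤ 2 * |ip x θ| * |ip x (θ + Real.pi / 2)| := by positivity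
    linarith
  exact le_of_sq_le_sq h2 (by positivity) |> fun h => h

/-- the support function of the convex hull -/
theorem hs_hull {T : Set E2} (hT : IsCompact T) (hne : T.Nonempty) (θ : ℝ) : hs (convexHull ℝ T) θ = hs T θ := by
  have h1 : ∀ x ∈ convexHull ℝ T, ip x θ ≤ hs T θ := by
    have h2 : convexHull ℝ T ⊆ {x | ip x θ ≤ hs T θ} := by
      refine convexHull_min (fun x hx => le_hs hT hx θ) ?_
      intro x hx y hy a b ha hb hab
      simp only [Set.mem_ofPred_eq] at hx hy ⊢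
      rw [ip_add, ip_smul, ip_smul]
      calc a * ip x θ + b * ip y θ ≤ a * hs T θ + b * hs T θ := by gcongr
        _ = hs T θ := by rw [← add_mul, hab, one_mul]
    exact fun x hx => h2 hx
  apply le_antisymm
  · exact hs_le hne.convexHull h1
  · obtain ⟨x, hx, hxe⟩ := exists_hs hT hne θ
    rw [hxe]
    refine le_csSup ⟨hs T θ, ?_⟩ (mem_image_of_mem _ (subset_convexHull ℝ T hx))
    rintro _ ⟨y, hy, rfl⟩
    exact h1 y hy

/-- ultralimits -/
theorem ulim {X : Type*} [TopologicalSpace X] (U : Ultrafilter ℕ) {K : Set X} (hK : IsCompact K) (u : ℕ → X)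
    (hu : ∀ k, u k ∈ K) : ∃ x ∈ K, Tendsto u U (𝓝 x) := by
  obtain ⟨x, hx, h⟩ := hK.ultrafilter_le_nhds' (U.map u) (by
    rw [Ultrafilter.mem_map]
    exact Filter.univ_mem' hu)
  exact ⟨x, hx, h⟩

/-- limit set -/
def TT (U : Ultrafilter ℕ) (n : ℕ → ℕ) (z : ℕ → ℕ → E2) : Set E2 :=
  {p | ∃ i : ℕ → ℕ, (∀ k, i k < n k) ∧ Tendsto (fun k => z k (i k)) U (𝓝 p)}

theorem mem_TT (U : Ultrafilter ℕ) (n : ℕ → ℕ) (z : ℕ → ℕ → E2) (hn : ∀ k, 1 ≤ n k) (p : E2)
    (h : ∀ δ > 0, ∀ᶠ k in (U : Filter ℕ), ∃ i < n k, dist (z k i) p < δ) : p ∈ TT U n z := by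
  have h1 : ∀ k, ∃ i < n k, ∀ j < n k, dist (z k i) p ≤ dist (z k j) p := by
    intro k
    obtain ⟨i, hi, hi2⟩ := Finset.exists_min_image (Finset.range (n k)) (fun i => dist (z k i) p)
      ⟨0, Finset.mem_range.2 (hn k)⟩
    exact ⟨i, Finset.mem_range.1 hi, fun j hj => hi2 j (Finset.mem_range.2 hj)⟩
  choose i hi hi2 using h1
  refine ⟨i, hi, ?_⟩
  rw [Metric.tendsto_nhds]
  intro δ hδ
  filter_upwards [h δ hδ] with k hk
  obtain ⟨j, hj, hj2⟩ := hk
  exact (hi2 k j hj).trans_lt hj2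

theorem closed_TT (U : Ultrafilter ℕ) (n : ℕ → ℕ) (z : ℕ → ℕ → E2) (hn : ∀ k, 1 ≤ n k) :
    IsClosed (TT U n z) := by
  rw [← isSeqClosed_iff_isClosed]
  intro x p hx hxp
  apply mem_TT U n z hn
  intro δ hδ
  obtain ⟨m, hm⟩ := ((Metric.tendsto_nhds.1 hxp) (δ / 2) (by positivity)).exists
  obtain ⟨i, hi, hi2⟩ := hx m
  filter_upwards [(Metric.tendsto_nhds.1 hi2) (δ / 2) (by positivity)] with k hk
  refine ⟨i k, hi k, ?_⟩
  have := dist_triangle (z k (i k)) (x m) p
  linarith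

theorem eps_lim (U : Ultrafilter ℕ) (hU : (U : Filter ℕ) ≤ atTop) :
    Tendsto (fun k : ℕ => 1 / ((k : ℝ) + 1)) U (𝓝 0) :=
  tendsto_one_div_add_atTop_nhds_zero_nat.mono_left hU

theorem eps_le (k : ℕ) : 1 / ((k : ℝ) + 1) ≤ 1 := by
  rw [div_le_one (by positivity)]
  have : (0 : ℝ) ≤ k := Nat.cast_nonneg k
  linarith

theorem eps_nn (k : ℕ) : 0 ≤ 1 / ((k : ℝ) + 1) := by positivity

section
variable {d : ℕ} {C : Set (EuclideanSpace ℝ (Fin d))} {ℓ : ℝ} {n : ℕ → ℕ} {z : ℕ → ℕ → E2}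
  {w : ℕ → ℕ → EuclideanSpace ℝ (Fin d)}

theorem zbd (h : ∀ k : ℕ, Apx d C ℓ (1 / ((k : ℝ) + 1)) (n k) (z k) (w k)) (i : ℕ → ℕ)
    (hi : ∀ k, i k < n k) (k : ℕ) : z k (i k) ∈ closedBall (0 : E2) (ℓ / 4 + 1) :=
  closedBall_subset_closedBall (by linarith [eps_le k]) ((h k).bd (i k) (hi k))

/-- limits of index sequences -/
theorem ilim (U : Ultrafilter ℕ) (h : ∀ k : ℕ, Apx d C ℓ (1 / ((k : ℝ) + 1)) (n k) (z k) (w k)) (i : ℕ → ℕ)
    (hi : ∀ k, i k < n k) : ∃ p ∈ TT U n z, Tendsto (fun k => z k (i k)) U (𝓝 p) := by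
  obtain ⟨p, -, hp⟩ := ulim U (isCompact_closedBall (0 : E2) (ℓ / 4 + 1)) (fun k => z k (i k))
    (zbd h i hi)
  exact ⟨p, ⟨i, hi, hp⟩, hp⟩

theorem wlim (U : Ultrafilter ℕ) (hC : IsCompact C)
    (h : ∀ k : ℕ, Apx d C ℓ (1 / ((k : ℝ) + 1)) (n k) (z k) (w k)) (i : ℕ → ℕ)
    (hi : ∀ k, i k < n k) : ∃ a ∈ C, Tendsto (fun k => w k (i k)) U (𝓝 a) :=
  ulim U hC (fun k => w k (i k)) (fun k => (h k).mem (i k) (hi k))

theorem lipseq (U : Ultrafilter ℕ) (hU : (U : Filter ℕ) ≤ atTop)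
    (h : ∀ k : ℕ, Apx d C ℓ (1 / ((k : ℝ) + 1)) (n k) (z k) (w k)) (i j : ℕ → ℕ)
    (hi : ∀ k, i k < n k) (hj : ∀ k, j k < n k) (p q : E2) (a b : EuclideanSpace ℝ (Fin d))
    (h1 : Tendsto (fun k => z k (i k)) U (𝓝 p)) (h2 : Tendsto (fun k => z k (j k)) U (𝓝 q))
    (h3 : Tendsto (fun k => w k (i k)) U (𝓝 a)) (h4 : Tendsto (fun k => w k (j k)) U (𝓝 b)) :
    dist a b ≤ dist p q := by
  have h5 := h3.dist h4
  have h6 := (h1.dist h2).add (eps_lim U hU)
  rw [add_zero] at h6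
  exact le_of_tendsto_of_tendsto' h5 h6 (fun k => (h k).lip (i k) (hi k) (j k) (hj k))

theorem bdT (U : Ultrafilter ℕ) (hU : (U : Filter ℕ) ≤ atTop)
    (h : ∀ k : ℕ, Apx d C ℓ (1 / ((k : ℝ) + 1)) (n k) (z k) (w k)) :
    TT U n z ⊆ closedBall (0 : E2) (ℓ / 4) := by
  rintro p ⟨i, hi, hp⟩
  have h1 := hp.dist (tendsto_const_nhds (x := (0 : E2)))
  have h2 := (tendsto_const_nhds (x := ℓ / 4)).add (eps_lim U hU)
  rw [add_zero] at h2
  rw [mem_closedBall]
  refine le_of_tendsto_of_tendsto' h1 h2 (fun k => ?_)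
  exact mem_closedBall.1 ((h k).bd (i k) (hi k))

theorem cptT (U : Ultrafilter ℕ) (hU : (U : Filter ℕ) ≤ atTop)
    (h : ∀ k : ℕ, Apx d C ℓ (1 / ((k : ℝ) + 1)) (n k) (z k) (w k)) : IsCompact (TT U n z) :=
  (isCompact_closedBall (0 : E2) (ℓ / 4)).of_isClosed_subset
    (closed_TT U n z (fun k => (h k).pos)) (bdT U hU h)

theorem neT (U : Ultrafilter ℕ) (h : ∀ k : ℕ, Apx d C ℓ (1 / ((k : ℝ) + 1)) (n k) (z k) (w k)) :
    (TT U n z).Nonempty := by
  obtain ⟨p, hp, -⟩ := ilim U h (fun _ => 0) (fun k => (h k).pos)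
  exact ⟨p, hp⟩

theorem cptZ (n : ℕ) (z : ℕ → E2) : IsCompact (z '' Iio n) :=
  ((finite_Iio n).image z).isCompact

theorem perT (U : Ultrafilter ℕ) (hU : (U : Filter ℕ) ≤ atTop)
    (h : ∀ k : ℕ, Apx d C ℓ (1 / ((k : ℝ) + 1)) (n k) (z k) (w k)) :
    W (convexHull ℝ (TT U n z)) ≤ ℓ := by
  have hT := cptT U hU h
  have hne := neT U h
  have hW : W (convexHull ℝ (TT U n z)) = ∫ θ in (0 : ℝ)..(2 * Real.pi), hs (TT U n z) θ := by
    unfold W
    congr 1
    funext θ
    exact hs_hull hT hne θ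
  rw [hW]
  have hpi := Real.pi_pos
  apply le_of_forall_pos_le_add
  intro η hη
  set δ := η / (2 * Real.pi) with hδ
  have hδ0 : 0 < δ := by positivity
  obtain ⟨t, htT, htf, htc⟩ := hT.elim_finite_subcover_image (b := TT U n z)
    (c := fun p => ball p (δ / 2)) (fun p _ => isOpen_ball)
    (fun p hp => mem_biUnion hp (mem_ball_self (by positivity)))
  have hev : ∀ᶠ k in (U : Filter ℕ), ∀ p ∈ t, ∃ i < n k, dist (z k i) p < δ / 2 := by
    rw [Filter.eventually_all_finite htf]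
    intro p hp
    obtain ⟨i, hi, hi2⟩ := htT hp
    filter_upwards [(Metric.tendsto_nhds.1 hi2) (δ / 2) (by positivity)] with k hk
    exact ⟨i k, hi k, hk⟩
  obtain ⟨k, hk⟩ := hev.exists
  have hle : ∀ θ, hs (TT U n z) θ ≤ hs (z k '' Iio (n k)) θ + δ := by
    intro θ
    apply hs_le hne
    intro q hq
    obtain ⟨p, hp, hqp⟩ := mem_iUnion₂.1 (htc hq)
    obtain ⟨i, hi, hi2⟩ := hk p hp
    have h1 := ip_dist q (z k i) θ
    have h2 := dist_triangle q p (z k i)
    rw [dist_comm p] at h2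
    have h3 := mem_ball.1 hqp
    have h4 := le_hs (cptZ (n k) (z k)) (mem_image_of_mem _ (mem_Iio.2 hi)) θ
    have h5 := (abs_le.1 h1).2
    linarith
  calc ∫ θ in (0 : ℝ)..(2 * Real.pi), hs (TT U n z) θ
      ≤ ∫ θ in (0 : ℝ)..(2 * Real.pi), (hs (z k '' Iio (n k)) θ + δ) := by
        apply intervalIntegral.integral_mono_on (by positivity)
          ((cont_hs hT).intervalIntegrable _ _)
          (((cont_hs (cptZ (n k) (z k))).add continuous_const).intervalIntegrable _ _)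
        intro θ _
        exact hle θ
    _ = W (z k '' Iio (n k)) + η := by
        rw [intervalIntegral.integral_add ((cont_hs (cptZ (n k) (z k))).intervalIntegrable _ _)
          (continuous_const.intervalIntegrable _ _), intervalIntegral.integral_const, W, hδ]
        simp only [smul_eq_mul, sub_zero]
        congr 1
        field_simp
    _ ≤ ℓ + η := by
        have := (h k).per
        linarith

/-- boundary points of the convex hull have a supporting line -/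
theorem supp {T : Set E2} (hT : IsCompact T) (hne : T.Nonempty) {p : E2}
    (hp : p ∈ frontier (convexHull ℝ T)) : p ∈ convexHull ℝ T ∧ ∃ θ, ip p θ = hs T θ := by
  have hK : IsCompact (convexHull ℝ T) :=
    Pool.Agent.TH276.Torsion.isCompact_convexHull_of_isCompact hT
  have hpK : p ∈ convexHull ℝ T := hK.isClosed.frontier_subset hp
  refine ⟨hpK, ?_⟩
  have hF : Continuous (fun θ => hs T θ - ip p θ) := (cont_hs hT).sub (cont_ip p)
  have hper : Function.Periodic (fun θ => hs T θ - ip p θ) (2 * Real.pi) := by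
    intro θ
    simp only [hs_two_pi, ip_two_pi]
  obtain ⟨_, ⟨⟨θ, rfl⟩, hθ⟩⟩ := (hper.compact_of_continuous (by positivity) hF).exists_isLeast
    (range_nonempty _)
  refine ⟨θ, ?_⟩
  have h1 : ip p θ ≤ hs T θ := by
    rw [← hs_hull hT hne]
    exact le_hs hK hpK θ
  by_contra hcon
  have h2 : 0 < hs T θ - ip p θ := by
    have := lt_of_le_of_ne h1 hcon
    linarith
  apply hp.2
  rw [mem_interior_iff_mem_nhds, Metric.mem_nhds_iff]
  refine ⟨hs T θ - ip p θ, h2, ?_⟩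
  intro y hy
  apply mem_of_ip_le hK (convex_convexHull ℝ T) hne.convexHull
  intro ψ
  rw [hs_hull hT hne]
  have h3 := hθ (mem_range_self ψ)
  simp only at h3
  have h4 := (abs_le.1 (ip_dist y p ψ)).2
  have h5 := mem_ball.1 hy
  linarith

/-- the face of the convex hull -/
theorem face {T : Set E2} (hT : IsCompact T) (hne : T.Nonempty) {p : E2} (hp : p ∈ convexHull ℝ T) {θ : ℝ}
    (hθ : ip p θ = hs T θ) (φ : ℝ) : ∃ a ∈ T, ∃ b ∈ T, ip a θ = hs T θ ∧ ip b θ = hs T θ ∧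
      ip a φ ≤ ip p φ ∧ ip p φ ≤ ip b φ := by
  have hA : IsCompact (T ∩ {x | ip x θ = hs T θ}) :=
    hT.inter_right (isClosed_eq (cont_in θ) continuous_const)
  have hAne : (T ∩ {x | ip x θ = hs T θ}).Nonempty := by
    obtain ⟨x, hx, hxe⟩ := exists_hs hT hne θ
    exact ⟨x, hx, hxe.symm⟩
  obtain ⟨a, ⟨haT, ha1⟩, ha⟩ := hA.exists_isMinOn hAne (cont_in φ).continuousOn
  obtain ⟨b, ⟨hbT, hb1⟩, hb⟩ := hA.exists_isMaxOn hAne (cont_in φ).continuousOn
  refine ⟨a, haT, b, hbT, ha1, hb1, ?_⟩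
  have hS : convexHull ℝ T ⊆ {x | ip x θ < hs T θ ∨ (ip x θ = hs T θ ∧ ip a φ ≤ ip x φ ∧ ip x φ ≤ ip b φ)} := by
    refine convexHull_min ?_ ?_
    · intro x hx
      rcases (le_hs hT hx θ).lt_or_eq with h | h
      · exact Or.inl h
      · exact Or.inr ⟨h, ha ⟨hx, h⟩, hb ⟨hx, h⟩⟩
    · intro x hx y hy α β hα hβ hαβ
      rcases hα.eq_or_lt with h0 | hα'
      · subst h0
        rw [zero_add] at hαβ
        subst hαβ
        simpa using hy
      rcases hβ.eq_or_lt with h0 | hβ'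
      · subst h0
        rw [add_zero] at hαβ
        subst hαβ
        simpa using hx
      simp only [Set.mem_ofPred_eq] at hx hy ⊢
      rw [ip_add, ip_smul, ip_smul, ip_add, ip_smul, ip_smul]
      have e : ∀ c : ℝ, c = α * c + β * c := fun c => by rw [← add_mul, hαβ, one_mul]
      rcases hx with hx | hx
      · left
        have hy' : ip y θ ≤ hs T θ := by
          rcases hy with hy | hy
          · exact hy.le
          · exact hy.1.le
        calc α * ip x θ + β * ip y θ < α * hs T θ + β * hs T θ := by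
              have := mul_lt_mul_of_pos_left hx hα'
              have := mul_le_mul_of_nonneg_left hy' hβ
              linarith
          _ = hs T θ := (e _).symm
      · rcases hy with hy | hy
        · left
          calc α * ip x θ + β * ip y θ < α * hs T θ + β * hs T θ := by
                have := mul_le_mul_of_nonneg_left hx.1.le hα
                have := mul_lt_mul_of_pos_left hy hβ'
                linarith
            _ = hs T θ := (e _).symm
        · right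
          refine ⟨?_, ?_, ?_⟩
          · rw [hx.1, hy.1, ← e]
          · rw [e (ip a φ)]
            have := mul_le_mul_of_nonneg_left hx.2.1 hα
            have := mul_le_mul_of_nonneg_left hy.2.1 hβ
            linarith
          · rw [e (ip b φ)]
            have := mul_le_mul_of_nonneg_left hx.2.2 hα
            have := mul_le_mul_of_nonneg_left hy.2.2 hβ
            linarith
  rcases hS hp with h | h
  · exact absurd hθ h.ne
  · exact h.2

theorem frT (U : Ultrafilter ℕ) (hU : (U : Filter ℕ) ≤ atTop)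
    (h : ∀ k : ℕ, Apx d C ℓ (1 / ((k : ℝ) + 1)) (n k) (z k) (w k)) :
    frontier (convexHull ℝ (TT U n z)) ⊆ TT U n z := by
  intro p hp
  have hT := cptT U hU h
  have hne := neT U h
  obtain ⟨hpK, θ, hθ⟩ := supp hT hne hp
  set φ := θ + Real.pi / 2 with hφ
  obtain ⟨a, haT, b, hbT, ha, hb, hap, hpb⟩ := face hT hne hpK hθ φ
  obtain ⟨i, hi, hia⟩ := haT
  obtain ⟨j, hj, hjb⟩ := hbT
  have hm : ∀ k, ∃ m < n k, min (ip (z k (i k)) θ) (ip (z k (j k)) θ) - 1 / ((k : ℝ) + 1) ≤ ip (z k m) θ ∧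
      |ip (z k m) φ - ip p φ| ≤ (dist (z k (i k)) a + dist (z k (j k)) b) + 1 / ((k : ℝ) + 1) := by
    intro k
    have hε : 0 < 1 / ((k : ℝ) + 1) := by positivity
    refine arc' (h k).noalt (eps_nn k) (h k).edge (h k).edge0 θ (hi k) (hj k) ?_ ?_ φ (ip p φ)
      (dist (z k (i k)) a + dist (z k (j k)) b) (by positivity) ?_ ?_
    · have := min_le_left (ip (z k (i k)) θ) (ip (z k (j k)) θ)
      linarith
    · have := min_le_right (ip (z k (i k)) θ) (ip (z k (j k)) θ)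
      linarith
    · have h1 := (abs_le.1 (ip_dist (z k (i k)) a φ)).2
      have h2 : 0 ≤ dist (z k (j k)) b := dist_nonneg
      linarith
    · have h1 := (abs_le.1 (ip_dist (z k (j k)) b φ)).1
      have h2 : 0 ≤ dist (z k (i k)) a := dist_nonneg
      linarith
  choose m hm1 hm2 hm3 using hm
  obtain ⟨q, hqT, hq⟩ := ilim U h m hm1
  have hzero := eps_lim U hU
  -- the component in the direction `θ`
  have e1 : hs (TT U n z) θ ≤ ip q θ := by
    have h1 : Tendsto (fun k => min (ip (z k (i k)) θ) (ip (z k (j k)) θ) - 1 / ((k : ℝ) + 1)) U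
        (𝓝 (min (ip a θ) (ip b θ) - 0)) :=
      ((((cont_in θ).tendsto a).comp hia).min (((cont_in θ).tendsto b).comp hjb)).sub hzero
    rw [ha, hb, min_self, sub_zero] at h1
    exact le_of_tendsto_of_tendsto' h1 (((cont_in θ).tendsto q).comp hq) hm2
  have e2 : ip q θ ≤ hs (TT U n z) θ := le_hs hT hqT θ
  -- the other component
  have e3 : |ip q φ - ip p φ| ≤ 0 := by
    have h1 : Tendsto (fun k => (dist (z k (i k)) a + dist (z k (j k)) b) + 1 / ((k : ℝ) + 1)) U
        (𝓝 ((dist a a + dist b b) + 0)) :=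
      ((hia.dist tendsto_const_nhds).add (hjb.dist tendsto_const_nhds)).add hzero
    rw [dist_self, dist_self, add_zero, add_zero] at h1
    have h2 : Tendsto (fun k => |ip (z k (m k)) φ - ip p φ|) U (𝓝 |ip q φ - ip p φ|) :=
      ((((cont_in φ).tendsto q).comp hq).sub tendsto_const_nhds).abs
    exact le_of_tendsto_of_tendsto' h2 h1 hm3
  have e4 : q = p := by
    have h1 := norm_le_ip (q - p) θ
    rw [← hφ, ip_sub, ip_sub] at h1
    have h2 : ip q θ - ip p θ = 0 := by linarith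
    rw [h2, abs_zero, zero_add] at h1
    have h3 : ‖q - p‖ = 0 := le_antisymm (h1.trans e3) (norm_nonneg _)
    exact sub_eq_zero.1 (norm_eq_zero.1 h3)
  rw [← e4]
  exact hqT

theorem limT (U : Ultrafilter ℕ) (hU : (U : Filter ℕ) ≤ atTop) (hC : IsCompact C)
    (h : ∀ k : ℕ, Apx d C ℓ (1 / ((k : ℝ) + 1)) (n k) (z k) (w k)) :
    ∃ c : E2 → EuclideanSpace ℝ (Fin d), Lim d C ℓ (TT U n z) c := by
  classical
  have hc : ∀ p : E2, ∃ a : EuclideanSpace ℝ (Fin d), p ∈ TT U n z → a ∈ C ∧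
      ∃ i : ℕ → ℕ, (∀ k, i k < n k) ∧ Tendsto (fun k => z k (i k)) U (𝓝 p) ∧
        Tendsto (fun k => w k (i k)) U (𝓝 a) := by
    intro p
    by_cases hp : p ∈ TT U n z
    · obtain ⟨i, hi, hi2⟩ := hp
      obtain ⟨a, ha, ha2⟩ := wlim U hC h i hi
      exact ⟨a, fun _ => ⟨ha, i, hi, hi2, ha2⟩⟩
    · exact ⟨0, fun h => absurd h hp⟩
  choose c hc using hc
  refine ⟨c, cptT U hU h, neT U h, frT U hU h, ?_, ?_, fun p hp => (hc p hp).1, bdT U hU h,
    perT U hU h⟩
  · intro p hp q hq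
    obtain ⟨-, i, hi, hi1, hi2⟩ := hc p hp
    obtain ⟨-, j, hj, hj1, hj2⟩ := hc q hq
    exact lipseq U hU h i j hi hj p q _ _ hi1 hj1 hi2 hj2
  · intro p hp
    obtain ⟨-, i, hi, hi1, hi2⟩ := hc p hp
    have h1 : ∀ k, ∃ j < n k, 1 - 1 / ((k : ℝ) + 1) ≤ dist (w k (i k)) (w k j) := fun k =>
      (h k).far (i k) (hi k)
    choose j hj hj2 using h1
    obtain ⟨q, hqT, hq⟩ := ilim U h j hj
    obtain ⟨b, -, hb⟩ := wlim U hC h j hj
    obtain ⟨-, j', hj', hj1', hj2'⟩ := hc q hqT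
    have h2 := lipseq U hU h j' j hj' hj q q _ _ hj1' hq hj2' hb
    rw [dist_self] at h2
    have h3 : c q = b := dist_le_zero.1 h2
    refine ⟨q, hqT, ?_⟩
    rw [h3]
    have h4 := (tendsto_const_nhds (x := (1 : ℝ))).sub (eps_lim U hU)
    rw [sub_zero] at h4
    exact le_of_tendsto_of_tendsto' h4 (hi2.dist hb) hj2

end

end Pool.Agent.Y508.FP.Lm

namespace Pool.Agent.Y508.FP
open Pool.Agent.Y508

/-- FP-LIM -/
theorem lim : LimStm := by
  intro d C ℓ _ hC h
  have h1 : ∀ k : ℕ, ∃ (n : ℕ) (z : ℕ → E2) (w : ℕ → EuclideanSpace ℝ (Fin d)),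
      Apx d C ℓ (1 / ((k : ℝ) + 1)) n z w := fun k => h _ (by positivity)
  choose n z w hnzw using h1
  obtain ⟨c, hc⟩ := Lm.limT (hyperfilter ℕ) Nat.hyperfilter_le_atTop hC hnzw
  exact ⟨_, c, hc⟩

end Pool.Agent.Y508.FP
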