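import Pool.Agent.Y508.FP.Plane
import Pool.Agent.Y508.FP.Stm2

/-!
The theorem for plane convex bodies, quantitative form.
-/

set_option autoImplicit false
open MeasureTheory Metric Set Filter Topology
open Real (sin cos)

namespace Pool.Agent.Y508.FP
open Pool.Agent.Y508

theorem nonneg_of_deriv {f f' : ℝ → ℝ} {y : ℝ} (hy : 0 ≤ y) (h0 : f 0 = 0)
    (hd : ∀ t, HasDerivAt f (f' t) t) (h : ∀ t, 0 ≤ t → t ≤ y → 0 ≤ f' t) : 0 ≤ f y := by
  have hm : MonotoneOn f (Icc 0 y) := by
    apply monotoneOn_of_deriv_nonneg (convex_Icc 0 y)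
    · exact fun t _ => (hd t).continuousAt.continuousWithinAt
    · exact fun t _ => (hd t).differentiableAt.differentiableWithinAt
    · intro t ht
      rw [interior_Icc] at ht
      rw [(hd t).deriv]
      exact h t ht.1.le ht.2.le
  have := hm ⟨le_refl 0, hy⟩ ⟨hy, le_refl y⟩ hy
  rwa [h0] at this

theorem sin_low {y : ℝ} (hy : 0 ≤ y) : 0 ≤ sin y - y + y ^ 3 / 6 := by
  apply nonneg_of_deriv (f := fun t => sin t - t + t ^ 3 / 6)
    (f' := fun t => cos t - 1 + (3 * t ^ 2) / 6) hy (by simp)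
  · intro t
    have h1 := ((Real.hasDerivAt_sin t).sub (hasDerivAt_id t)).add ((hasDerivAt_pow 3 t).div_const 6)
    exact h1.congr_deriv (by norm_num)
  · intro t _ _
    have := Real.one_sub_sq_div_two_le_cos (x := t)
    linarith

theorem cos_up {y : ℝ} (hy : 0 ≤ y) : 0 ≤ 1 - y ^ 2 / 2 + y ^ 4 / 24 - cos y := by
  apply nonneg_of_deriv (f := fun t => 1 - t ^ 2 / 2 + t ^ 4 / 24 - cos t)
    (f' := fun t => 0 - (2 * t) / 2 + (4 * t ^ 3) / 24 - (-sin t)) hy (by simp)
  · intro t
    have h1 := (((hasDerivAt_const t (1 : ℝ)).sub ((hasDerivAt_pow 2 t).div_const 2)).add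
      ((hasDerivAt_pow 4 t).div_const 24)).sub (Real.hasDerivAt_cos t)
    exact h1.congr_deriv (by norm_num)
  · intro t ht _
    have := sin_low ht
    linarith

theorem sin_up {y : ℝ} (hy : 0 ≤ y) : 0 ≤ y - y ^ 3 / 6 + y ^ 5 / 120 - sin y := by
  apply nonneg_of_deriv (f := fun t => t - t ^ 3 / 6 + t ^ 5 / 120 - sin t)
    (f' := fun t => 1 - (3 * t ^ 2) / 6 + (5 * t ^ 4) / 120 - cos t) hy (by simp)
  · intro t
    have h1 := (((hasDerivAt_id t).sub ((hasDerivAt_pow 3 t).div_const 6)).add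
      ((hasDerivAt_pow 5 t).div_const 120)).sub (Real.hasDerivAt_sin t)
    exact h1.congr_deriv (by norm_num)
  · intro t ht _
    have := cos_up ht
    linarith

theorem cub_le {y : ℝ} (hy : 0 ≤ y) (h1 : y ≤ Real.pi / 2) : y ^ 3 / 8 ≤ y - sin y := by
  have h2 := sin_up hy
  have h3 := Real.pi_lt_d2
  have h4 : y ≤ 1.575 := by linarith
  have h5 : y ^ 5 ≤ 5 * y ^ 3 := by
    have : 0 ≤ y ^ 3 * (5 - y ^ 2) := by
      apply mul_nonneg (by positivity)
      nlinarith
    nlinarith
  linarith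

theorem psi5 {y : ℝ} (hy : 0 ≤ y) (h1 : y ≤ Real.pi / 2) :
    y ^ 5 / 16 ≤ 4 * (sin y - y * cos y) - 2 * (y - sin y * cos y) := by
  have h : 0 ≤ 4 * (sin y - y * cos y) - 2 * (y - sin y * cos y) - y ^ 5 / 16 := by
    apply nonneg_of_deriv
      (f := fun t => 4 * (sin t - t * cos t) - 2 * (t - sin t * cos t) - t ^ 5 / 16)
      (f' := fun t => 4 * (cos t - (1 * cos t + t * (-sin t))) -
        2 * (1 - (cos t * cos t + sin t * (-sin t))) - (5 * t ^ 4) / 16) hy (by simp)
    · intro t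
      have e1 := ((hasDerivAt_id t).mul (Real.hasDerivAt_cos t))
      have e2 := (Real.hasDerivAt_sin t).mul (Real.hasDerivAt_cos t)
      have e3 := ((((Real.hasDerivAt_sin t).sub e1).const_mul 4).sub
        (((hasDerivAt_id t).sub e2).const_mul 2)).sub ((hasDerivAt_pow 5 t).div_const 16)
      exact e3.congr_deriv (by norm_num)
    · intro t ht hty
      have e1 := cub_le ht (hty.trans h1)
      have e2 : 2 / Real.pi * t ≤ sin t := Real.mul_le_sin ht (hty.trans h1)
      have e3 := Real.pi_lt_d2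
      have e4 := Real.pi_pos
      have e5 : 5 / 8 * t ≤ 2 / Real.pi * t := by
        apply mul_le_mul_of_nonneg_right _ ht
        rw [div_le_div_iff₀ (by norm_num) e4]
        linarith
      have e6 : 5 / 8 * t ≤ sin t := e5.trans e2
      have e7 : 4 * (cos t - (1 * cos t + t * (-sin t))) -
          2 * (1 - (cos t * cos t + sin t * (-sin t))) = 4 * (sin t * (t - sin t)) := by
        have := Real.sin_sq_add_cos_sq t
        nlinarith
      rw [e7]
      have e8 : (5 / 8 * t) * (t ^ 3 / 8) ≤ sin t * (t - sin t) :=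
        mul_le_mul e6 e1 (by positivity) (by nlinarith)
      nlinarith
  linarith

theorem plane2 (hS : SupStm) (hC : CalStm) (hH : HalfStm) (hH2 : Half2Stm) (hR : RStm) :
    ∀ K : Set E2, IsCompact K → Convex ℝ K → K.Nonempty →
      (∃ (m : E2) (r : ℝ), r < 1 ∧ K ⊆ closedBall m r) →
      (∀ x ∈ frontier K, ∃ y ∈ K, 1 ≤ dist x y) →
      ∀ θ, |hs K θ + hs K (θ + Real.pi) - 1| ^ 5 ≤ 320 * (W K - Real.pi) := by
  intro K hK hc hne hball H
  obtain ⟨x, hx⟩ := hS K hK hc hne hball
  obtain ⟨m, r, hr, hKm⟩ := hball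
  have hDK := dual_sub hK hc hne H
  obtain ⟨-, hder, ⟨C, hL⟩, hρd⟩ := hC K x hx
  have hpi := Real.pi_pos
  obtain ⟨h, hh⟩ : ∃ h : ℝ → ℝ, h = fun t => ip (x t) t := ⟨_, rfl⟩
  obtain ⟨h1, hh1⟩ : ∃ h1 : ℝ → ℝ, h1 = fun t => ip (x t) (t + Real.pi / 2) := ⟨_, rfl⟩
  have hd : ∀ t, HasDerivAt h (h1 t) t := by
    intro t
    rw [hh, hh1]
    exact hder t
  rw [← hh1] at hL
  have hp : ∀ t, h (t + 2 * Real.pi) = h t := by
    intro t
    rw [hh]
    exact sup_per hx t
  have hp1 := per_deriv hd hp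
  have hkc := cont_hs hK
  have hhc : Continuous h := continuous_iff_continuousAt.2 fun t => (hd t).continuousAt
  have hpc : Continuous (fun t : ℝ => t + Real.pi) := continuous_id.add continuous_const
  have hhc2 : Continuous (fun t => h (t + Real.pi)) := hhc.comp hpc
  have hc1 : Continuous h1 := hL.continuous
  have hc2 : Continuous (fun t => h1 (t + Real.pi)) := hc1.comp hpc
  have hkc2 : Continuous (fun t => hs K (t + Real.pi)) := hkc.comp hpc
  -- the defect of the width
  obtain ⟨g, hg⟩ : ∃ g : ℝ → ℝ, g = fun t => 1 - h t - h (t + Real.pi) := ⟨_, rfl⟩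
  obtain ⟨g1, hg1⟩ : ∃ g1 : ℝ → ℝ, g1 = fun t => -h1 t - h1 (t + Real.pi) := ⟨_, rfl⟩
  have hgd : ∀ t, HasDerivAt g (g1 t) t := by
    intro t
    have h2 : HasDerivAt (fun s => h (s + Real.pi)) (h1 (t + Real.pi)) t :=
      (hd (t + Real.pi)).comp_add_const t Real.pi
    have h3 := ((hasDerivAt_const t (1 : ℝ)).sub (hd t)).sub h2
    have e : g1 t = 0 - h1 t - h1 (t + Real.pi) := by
      rw [hg1]
      ring
    rw [e, hg]
    exact h3
  have hgc : Continuous g := continuous_iff_continuousAt.2 fun t => (hgd t).continuousAt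
  have hg1c : Continuous g1 := by
    rw [hg1]
    exact hc1.neg.sub hc2
  have hgp : ∀ t, g (t + Real.pi) = g t := by
    intro t
    rw [hg]
    simp only
    rw [show t + Real.pi + Real.pi = t + 2 * Real.pi by ring, hp]
    ring
  have hg1p : ∀ t, g1 (t + Real.pi) = g1 t := per_deriv hgd hgp
  have hin : ∀ t, x t ∈ K := fun t => hDK (hx.mem t)
  have hlk : ∀ t, h t ≤ hs K t := by
    intro t
    rw [hh]
    exact le_hs hK (hin t) t
  have hadd : ∀ t, h t + hs K (t + Real.pi) ≤ 1 := by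
    intro t
    rw [hh]
    exact sup_add hne hx t
  have hg0 : ∀ t, 0 ≤ g t := by
    intro t
    rw [hg]
    simp only
    linarith [hadd t, hlk (t + Real.pi)]
  have hgW : ∀ t, g t < 1 := by
    intro t
    have e1 : ∀ s, ip m s + (1 - r) ≤ h s := by
      intro s
      have h2 : m + (1 - r) • ev s ∈ dual K := by
        intro y hy
        rw [dist_eq_norm]
        have h3 : ‖y - m‖ ≤ r := by
          rw [← dist_eq_norm]
          exact hKm hy
        calc ‖m + (1 - r) • ev s - y‖ = ‖(m - y) + (1 - r) • ev s‖ := by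
              congr 1
              abel
          _ ≤ ‖m - y‖ + ‖(1 - r) • ev s‖ := norm_add_le _ _
          _ ≤ 1 := by
              rw [norm_smul, norm_ev, Real.norm_eq_abs, abs_of_pos (by linarith), norm_sub_rev]
              linarith
      have h4 := sup_le hx s h2
      rw [ip_add, ip_smul, ip_ev, sub_self, Real.cos_zero, mul_one] at h4
      rw [hh]
      exact h4
    have h5 := e1 t
    have h6 := e1 (t + Real.pi)
    rw [ip_add_pi] at h6
    rw [hg]
    simp only
    linarith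
  -- the minimum
  have hg2p : ∀ t, g (t + 2 * Real.pi) = g t := by
    intro t
    rw [two_mul, ← add_assoc, hgp, hgp]
  obtain ⟨θ, hmin⟩ : ∃ θ, ∀ t, g θ ≤ g t := by
    obtain ⟨θ, -, hθ⟩ := (isCompact_Icc (a := (0 : ℝ)) (b := Real.pi)).exists_isMinOn
      ⟨0, le_refl _, hpi.le⟩ hgc.continuousOn
    refine ⟨θ, fun t => ?_⟩
    obtain ⟨s, hs', hst⟩ := Function.Periodic.exists_mem_Ico₀ (f := g) (c := Real.pi) hgp hpi t
    rw [hst]
    exact hθ ⟨hs'.1, hs'.2.le⟩
  have hgθ : g1 θ = 0 := by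
    have h2 : IsLocalMin g θ := Filter.Eventually.of_forall hmin
    exact h2.hasDerivAt_eq_zero (hgd θ)
  obtain ⟨y, hy⟩ : ∃ y, y = Real.arccos (1 - g θ) := ⟨_, rfl⟩
  have hcy : cos y = 1 - g θ := by
    rw [hy, Real.cos_arccos]
    · linarith [hgW θ]
    · linarith [hg0 θ]
  have hy0 : 0 ≤ y := by
    rw [hy]
    exact Real.arccos_nonneg _
  have hy1 : y < Real.pi / 2 := by
    rw [hy]
    exact Real.arccos_lt_pi_div_two.2 (by linarith [hgW θ])
  have hup : ∀ t, g (θ + t) ≤ 1 - cos y * cos t := by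
    intro t
    have h2 := sup_le hx (θ + t) (hx.mem θ)
    have h3 := sup_le hx (θ + Real.pi + t) (hx.mem (θ + Real.pi))
    rw [ip_rot] at h2 h3
    have h4 : h1 θ + h1 (θ + Real.pi) = 0 := by
      have := hgθ
      rw [hg1] at this
      simp only at this
      linarith
    have h5 : h θ + h (θ + Real.pi) = cos y := by
      rw [hcy, hg]
      ring
    have h6 : g (θ + t) = 1 - h (θ + t) - h (θ + Real.pi + t) := by
      rw [hg]
      simp only
      rw [show θ + t + Real.pi = θ + Real.pi + t by ring]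
    have e1 : ip (x (θ + t)) (θ + t) = h (θ + t) := by rw [hh]
    have e2 : ip (x (θ + Real.pi + t)) (θ + Real.pi + t) = h (θ + Real.pi + t) := by rw [hh]
    have e3 : ip (x θ) θ = h θ := by rw [hh]
    have e4 : ip (x θ) (θ + Real.pi / 2) = h1 θ := by rw [hh1]
    have e5 : ip (x (θ + Real.pi)) (θ + Real.pi) = h (θ + Real.pi) := by rw [hh]
    have e6 : ip (x (θ + Real.pi)) (θ + Real.pi + Real.pi / 2) = h1 (θ + Real.pi) := by rw [hh1]
    rw [e1, e3, e4] at h2
    rw [e2, e5, e6] at h3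
    rw [h6, ← h5]
    have h7 : sin t * h1 θ + sin t * h1 (θ + Real.pi) = 0 := by rw [← mul_add, h4, mul_zero]
    linarith
  -- the two halves
  have qp : ∀ t, HasDerivAt (fun s => g (θ + s)) (g1 (θ + t)) t := fun t =>
    (hgd (θ + t)).comp_const_add θ t
  have qm : ∀ t, HasDerivAt (fun s => g (θ - s)) (-g1 (θ - t)) t := fun t =>
    (hgd (θ - t)).comp_const_sub θ t
  have qpc : Continuous (fun t => g1 (θ + t)) := hg1c.comp (continuous_const.add continuous_id)
  have qmc : Continuous (fun t => -g1 (θ - t)) :=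
    (hg1c.comp (continuous_const.sub continuous_id)).neg
  have hq0 : g θ = 1 - cos y := by rw [hcy]; ring
  have Ap := hH (fun s => g (θ + s)) (fun t => g1 (θ + t)) y hy0 hy1 qp qpc
    (by simp only [add_zero]; exact hq0) (fun t _ _ => hup t)
  have Am := hH (fun s => g (θ - s)) (fun t => -g1 (θ - t)) y hy0 hy1 qm qmc
    (by simp only [sub_zero]; exact hq0) (fun t _ _ => by
      have := hup (-t)
      rw [Real.cos_neg] at this
      exact this)
  obtain ⟨F, hF⟩ : ∃ F : ℝ → ℝ, F = fun t => g1 t ^ 2 - g t ^ 2 := ⟨_, rfl⟩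
  have hFc : Continuous F := by
    rw [hF]
    exact (hg1c.pow 2).sub (hgc.pow 2)
  have hFp : ∀ t, F (t + Real.pi) = F t := by
    intro t
    rw [hF]
    simp only [hgp, hg1p]
  have Ip : ∫ t in (0 : ℝ)..(Real.pi / 2), (g1 (θ + t) ^ 2 - g (θ + t) ^ 2) =
      ∫ t in θ..(θ + Real.pi / 2), F t := by
    have := intervalIntegral.integral_comp_add_left (a := 0) (b := Real.pi / 2) F θ
    rw [add_zero] at this
    rw [← this, hF]
  have Im : ∫ t in (0 : ℝ)..(Real.pi / 2), ((-g1 (θ - t)) ^ 2 - g (θ - t) ^ 2) =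
      ∫ t in (θ - Real.pi / 2)..θ, F t := by
    have := intervalIntegral.integral_comp_sub_left (a := 0) (b := Real.pi / 2) F θ
    rw [sub_zero] at this
    rw [← this, hF]
    simp only [neg_sq]
  have hJ : 1 / 2 * ∫ t in (0 : ℝ)..(2 * Real.pi), F t =
      (∫ t in (0 : ℝ)..(Real.pi / 2), ((-g1 (θ - t)) ^ 2 - g (θ - t) ^ 2)) +
      ∫ t in (0 : ℝ)..(Real.pi / 2), (g1 (θ + t) ^ 2 - g (θ + t) ^ 2) := by
    rw [Ip, Im, intervalIntegral.integral_add_adjacent_intervals (hFc.intervalIntegrable _ _)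
      (hFc.intervalIntegrable _ _), per_two hFp hFc θ]
    ring
  -- the curvature
  obtain ⟨ρ, hρ⟩ : ∃ ρ : ℝ → ℝ, ρ = fun t => deriv h1 t + h t := ⟨_, rfl⟩
  obtain ⟨κ, hκ⟩ : ∃ κ : ℝ → ℝ, κ = fun t => 1 - h t - hs K (t + Real.pi) := ⟨_, rfl⟩
  have hκ0 : ∀ t, 0 ≤ κ t := by
    intro t
    rw [hκ]
    simp only
    linarith [hadd t]
  have hκc : Continuous κ := by
    rw [hκ]
    exact (continuous_const.sub hhc).sub hkc2
  have hρae : ∀ᵐ t, 0 ≤ ρ t ∧ ρ t ≤ 1 := by
    filter_upwards [hL.ae_differentiableAt_real] with t ht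
    have h2 := hρd t (by rw [← hh1]; exact ht)
    rw [hρ]
    simp only
    rw [hh1, hh]
    exact h2
  have hgap : ∀ s, κ s ≠ 0 → ∃ a b : ℝ, a < s ∧ s < b ∧ b - a < Real.pi ∧ κ a = 0 ∧ κ b = 0 ∧
      (∀ φ ∈ Ioo a b, κ φ ≠ 0 ∧ ρ φ = 0) ∧
      ∀ φ ∈ Icc a b, κ φ ≤ 1 - cos (φ - a) ∧ κ φ ≤ 1 - cos (b - φ) := by
    intro s hs0
    rw [hκ, hh] at hs0
    rw [hκ, hρ, hh1, hh]
    exact kap_gap hK hne hx s hs0
  have hac : AbsolutelyContinuousOnInterval h1 0 (2 * Real.pi) :=
    (hL.lipschitzOnWith (s := uIcc 0 (2 * Real.pi))).absolutelyContinuousOnInterval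
  have iρ : IntervalIntegrable ρ volume 0 (2 * Real.pi) := by
    rw [hρ]
    exact hac.intervalIntegrable_deriv.add (hhc.intervalIntegrable _ _)
  have hid := pl_ident hd hp hL hkc (hs_two_pi K)
  have hid2 : W K - Real.pi = (∫ t in (0 : ℝ)..(2 * Real.pi), ((hs K (t + Real.pi) -
      h (t + Real.pi)) - ρ t * g t)) + 1 / 2 * ∫ t in (0 : ℝ)..(2 * Real.pi), F t := by
    rw [hF, hg, hg1, hρ]
    exact hid
  have hE : ∫ t in (0 : ℝ)..(2 * Real.pi), (1 - ρ t) * max 0 (g θ - κ t) ≤
      ∫ t in (0 : ℝ)..(2 * Real.pi), ((hs K (t + Real.pi) - h (t + Real.pi)) - ρ t * g t) := by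
    apply intervalIntegral.integral_mono_ae (by positivity)
    · exact ((continuous_const.intervalIntegrable _ _).sub iρ).mul_continuousOn
        (continuous_const.max (continuous_const.sub hκc)).continuousOn
    · exact ((hkc2.sub hhc2).intervalIntegrable _ _).sub (iρ.mul_continuousOn hgc.continuousOn)
    · filter_upwards [hρae] with t ht
      have e1 : hs K (t + Real.pi) - h (t + Real.pi) = g t - κ t := by
        rw [hg, hκ]
        ring
      rw [e1]
      by_cases h0 : κ t = 0
      · rw [h0, sub_zero, sub_zero, max_eq_right (hg0 θ)]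
        nlinarith [hmin t, hg0 t, hg0 θ, ht.1, ht.2]
      · obtain ⟨a, b, ha, hb, -, -, -, hab, -⟩ := hgap t h0
        rw [(hab t ⟨ha, hb⟩).2, sub_zero, one_mul, zero_mul, sub_zero]
        apply max_le
        · rw [← e1]
          linarith [hlk (t + Real.pi)]
        · linarith [hmin t]
  have hE0 : 0 ≤ ∫ t in (0 : ℝ)..(2 * Real.pi), (1 - ρ t) * max 0 (g θ - κ t) := by
    apply intervalIntegral.integral_nonneg_of_ae (by positivity)
    filter_upwards [hρae] with t ht
    exact mul_nonneg (by linarith [ht.2]) (le_max_left _ _)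
  -- the case `y > 0`
  have hEy : 4 * (sin y - y * cos y) ≤ ∫ t in (0 : ℝ)..(2 * Real.pi),
      (1 - ρ t) * max 0 (g θ - κ t) := by
    rcases hy0.lt_or_eq with hy2 | hy2
    swap
    · rw [← hy2, Real.sin_zero, zero_mul, sub_zero, mul_zero]
      exact hE0
    have hmeas : Measurable ρ := by
      rw [hρ]
      exact (measurable_deriv h1).add hhc.measurable
    have hdp : ∀ t, deriv h1 (t + 2 * Real.pi) = deriv h1 t := by
      intro t
      rw [← deriv_comp_add_const]
      congr 1
      funext s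
      exact hp1 s
    have hρp : ∀ t, ρ (t + 2 * Real.pi) = ρ t := by
      intro t
      rw [hρ]
      simp only
      rw [hdp, hp]
    have hκp : ∀ t, κ (t + 2 * Real.pi) = κ t := by
      intro t
      rw [hκ]
      simp only
      rw [hp, show t + 2 * Real.pi + Real.pi = t + Real.pi + 2 * Real.pi by ring, hs_two_pi]
    have ic : ∀ ψ : ℝ, ∫ t in (0 : ℝ)..(2 * Real.pi), ρ t * cos (t - ψ) = 0 := by
      intro ψ
      have hfd : ∀ t, HasDerivAt (fun s => cos (s - ψ)) (-sin (t - ψ)) t := by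
        intro t
        exact (Real.hasDerivAt_cos (t - ψ)).comp_sub_const t ψ
      have hfc : Continuous (fun t => -sin (t - ψ)) := by fun_prop
      have e1 := pl_ibp hd hp hL hfd hfc (fun t => by
        rw [show t + 2 * Real.pi - ψ = t - ψ + 2 * Real.pi by ring, Real.cos_add_two_pi])
      rw [hρ]
      rw [e1]
      have hsd : ∀ t, HasDerivAt (fun s => h s * sin (s - ψ))
          (h1 t * sin (t - ψ) + h t * cos (t - ψ)) t := by
        intro t
        exact (hd t).mul ((Real.hasDerivAt_sin (t - ψ)).comp_sub_const t ψ)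
      have e2 := intervalIntegral.integral_eq_sub_of_hasDerivAt (a := 0) (b := 2 * Real.pi)
        (fun t _ => hsd t) (by
          apply Continuous.intervalIntegrable
          exact (hc1.mul (by fun_prop)).add (hhc.mul (by fun_prop)))
      have e3 : h (2 * Real.pi) = h 0 := by
        have := hp 0
        rwa [zero_add] at this
      have e4 : sin (2 * Real.pi - ψ) = sin (0 - ψ) := by
        rw [Real.sin_two_pi_sub, zero_sub, Real.sin_neg]
      rw [e3, e4, sub_self] at e2
      refine Eq.trans ?_ e2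
      apply intervalIntegral.integral_congr
      intro t _
      simp only
      ring
    have iρ2 : ∫ t in (0 : ℝ)..(2 * Real.pi), ρ t ≤ Real.pi * cos y := by
      have e1 := pl_ibp hd hp hL (f := fun _ => 1) (f1 := fun _ => 0)
        (fun t => hasDerivAt_const t 1) continuous_const (fun _ => rfl)
      simp only [mul_one, mul_zero, sub_zero] at e1
      rw [hρ, e1]
      have e2 : ∫ t in (0 : ℝ)..(2 * Real.pi), g t =
          2 * Real.pi - 2 * ∫ t in (0 : ℝ)..(2 * Real.pi), h t := by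
        rw [hg, intervalIntegral.integral_sub, intervalIntegral.integral_sub, per_shift hp Real.pi]
        · simp
          ring
        · exact continuous_const.intervalIntegrable _ _
        · exact hhc.intervalIntegrable _ _
        · exact (continuous_const.sub hhc).intervalIntegrable _ _
        · exact hhc2.intervalIntegrable _ _
      have e3 : ∫ t in (0 : ℝ)..(2 * Real.pi), g θ ≤ ∫ t in (0 : ℝ)..(2 * Real.pi), g t :=
        intervalIntegral.integral_mono (by positivity) (continuous_const.intervalIntegrable _ _)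
          (hgc.intervalIntegrable _ _) hmin
      rw [intervalIntegral.integral_const, smul_eq_mul, sub_zero] at e3
      rw [hcy]
      nlinarith
    have hRR := hR κ ρ y hy2 hy1 hκc hκ0 hκp hmeas hρp hρae hgap iρ2 ic
    have e5 : (1 : ℝ) - cos y = g θ := hq0.symm
    rw [e5] at hRR
    exact hRR
  -- the maximum
  obtain ⟨θ₁, hθ₁, hmax⟩ : ∃ θ₁ ∈ Icc (θ - Real.pi / 2) (θ + Real.pi / 2), ∀ t, g t ≤ g θ₁ := by
    obtain ⟨θ₁, h2, h3⟩ := (isCompact_Icc (a := θ - Real.pi / 2)
      (b := θ + Real.pi / 2)).exists_isMaxOn ⟨θ, by linarith, by linarith⟩ hgc.continuousOn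
    refine ⟨θ₁, h2, fun t => ?_⟩
    obtain ⟨s, hs', hst⟩ := Function.Periodic.exists_mem_Ico (f := g) (c := Real.pi) hgp hpi t
      (θ - Real.pi / 2)
    rw [hst]
    exact h3 ⟨hs'.1, by linarith [hs'.2]⟩
  obtain ⟨G, hG⟩ : ∃ G, G = g θ₁ := ⟨_, rfl⟩
  have hG0 : 0 ≤ G := by rw [hG]; exact hg0 _
  have hG1 : G < 1 := by rw [hG]; exact hgW _
  have hmain : G ^ 5 ≤ 320 * (W K - Real.pi) := by
    have hps := psi5 hy0 hy1.le
    rw [hJ] at hid2
    rcases le_total (11 / 20 * G) y with hc4 | hc4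
    · have h2 : (11 / 20 * G) ^ 5 ≤ y ^ 5 := pow_le_pow_left₀ (by positivity) hc4 5
      have h3 : (11 / 20 * G) ^ 5 = 161051 / 3200000 * G ^ 5 := by ring
      have h4 : 0 ≤ G ^ 5 := by positivity
      rw [h3] at h2
      linarith
    · have hyG : y ≤ G := by linarith
      have h3 : (9 / 20 * G) ^ 3 ≤ (G - y) ^ 3 := pow_le_pow_left₀ (by positivity) (by linarith) 3
      have h4 : (9 / 20 * G) ^ 3 = 729 / 8000 * G ^ 3 := by ring
      rw [h4] at h3
      have h5 : G ^ 5 ≤ G ^ 3 := by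
        apply pow_le_pow_of_le_one hG0 hG1.le
        norm_num
      have h6 : 0 ≤ y ^ 5 := by positivity
      have h7 : 0 ≤ G ^ 3 := by positivity
      rcases le_total θ θ₁ with h8 | h8
      · have Bp := hH2 (fun s => g (θ + s)) (fun t => g1 (θ + t)) y (θ₁ - θ) hy0 hy1 qp qpc
          (by simp only [add_zero]; exact hq0) (fun t _ _ => hup t) (by linarith)
          (by linarith [hθ₁.2]) (by simp only [add_sub_cancel]; rw [← hG]; exact hyG)
        simp only [add_sub_cancel] at Bp
        rw [← hG] at Bp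
        linarith
      · have Bm := hH2 (fun s => g (θ - s)) (fun t => -g1 (θ - t)) y (θ - θ₁) hy0 hy1 qm qmc
          (by simp only [sub_zero]; exact hq0) (fun t _ _ => by
            have := hup (-t)
            rw [Real.cos_neg] at this
            exact this) (by linarith)
          (by linarith [hθ₁.1]) (by simp only [sub_sub_cancel]; rw [← hG]; exact hyG)
        simp only [sub_sub_cancel] at Bm
        rw [← hG] at Bm
        linarith
  intro t
  have hwG : |hs K t + hs K (t + Real.pi) - 1| ≤ G := by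
    have e1 : g t = 1 - h t - h (t + Real.pi) := by rw [hg]
    have e2 := hadd t
    have e3 := hadd (t + Real.pi)
    rw [show t + Real.pi + Real.pi = t + 2 * Real.pi by ring, hs_two_pi] at e3
    have e4 := hlk t
    have e5 := hlk (t + Real.pi)
    have e6 := hmax t
    rw [← hG] at e6
    rw [abs_le]
    constructor <;> linarith
  calc |hs K t + hs K (t + Real.pi) - 1| ^ 5 ≤ G ^ 5 := pow_le_pow_left₀ (abs_nonneg _) hwG 5
    _ ≤ _ := hmain

end Pool.Agent.Y508.FP
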