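import Pool.Agent.Y508.FP.Stm

/-!
# Perimeter and centre of a plane polygon
-/

set_option autoImplicit false
open MeasureTheory Metric Set Filter Topology
open Real (sin cos)

namespace Pool.Agent.Y508.FP
open Pool.Agent.Y508

namespace PolyAux

/-- integral of `|cos|` over a period -/
theorem int_abs_cos (ψ : ℝ) : ∫ θ in (0 : ℝ)..(2 * Real.pi), |cos (θ - ψ)| = 4 := by
  have hper : Function.Periodic (fun θ : ℝ => |cos θ|) (2 * Real.pi) := by
    intro θ
    simp only [Real.cos_add_two_pi]
  rw [intervalIntegral.integral_comp_sub_right (fun θ => |cos θ|) ψ]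
  have h1 : (∫ x in (0 - ψ)..(2 * Real.pi - ψ), |cos x|) =
      ∫ x in (-(Real.pi / 2))..(-(Real.pi / 2) + 2 * Real.pi), |cos x| := by
    have e : 2 * Real.pi - ψ = (0 - ψ) + 2 * Real.pi := by ring
    rw [e]
    exact hper.intervalIntegral_add_eq (0 - ψ) (-(Real.pi / 2))
  rw [h1]
  have hint : ∀ a b : ℝ, IntervalIntegrable (fun θ : ℝ => |cos θ|) volume a b := fun a b =>
    (Real.continuous_cos.abs).intervalIntegrable a b
  rw [← intervalIntegral.integral_add_adjacent_intervals (hint (-(Real.pi / 2)) (Real.pi / 2))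
    (hint (Real.pi / 2) _)]
  have h2 : (∫ x in (-(Real.pi / 2))..(Real.pi / 2), |cos x|) = 2 := by
    have : (∫ x in (-(Real.pi / 2))..(Real.pi / 2), |cos x|) =
        ∫ x in (-(Real.pi / 2))..(Real.pi / 2), cos x := by
      refine intervalIntegral.integral_congr fun x hx => ?_
      rw [Set.uIcc_of_le (by linarith [Real.pi_pos])] at hx
      exact abs_of_nonneg (Real.cos_nonneg_of_neg_pi_div_two_le_of_le hx.1 hx.2)
    rw [this, integral_cos, Real.sin_neg, Real.sin_pi_div_two]
    norm_num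
  have h3 : (∫ x in (Real.pi / 2)..(-(Real.pi / 2) + 2 * Real.pi), |cos x|) = 2 := by
    have : (∫ x in (Real.pi / 2)..(-(Real.pi / 2) + 2 * Real.pi), |cos x|) =
        ∫ x in (Real.pi / 2)..(-(Real.pi / 2) + 2 * Real.pi), - cos x := by
      refine intervalIntegral.integral_congr fun x hx => ?_
      rw [Set.uIcc_of_le (by linarith [Real.pi_pos])] at hx
      have h4 : cos x ≤ 0 :=
        Real.cos_nonpos_of_pi_div_two_le_of_le hx.1 (by linarith [hx.2])
      exact abs_of_nonpos h4
    rw [this, intervalIntegral.integral_neg, integral_cos, Real.sin_pi_div_two,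
      Real.sin_add_two_pi, Real.sin_neg, Real.sin_pi_div_two]
    norm_num
  rw [h2, h3]
  norm_num

/-- integral of `|ip w θ|` over a period -/
theorem int_abs_ip (w : E2) : ∫ θ in (0 : ℝ)..(2 * Real.pi), |ip w θ| = 4 * ‖w‖ := by
  by_cases hw : w = 0
  · subst hw
    simp [ip]
  · obtain ⟨ψ, hψ⟩ := exists_pos_ev w hw
    have h1 : ∀ θ, |ip w θ| = ‖w‖ * |cos (θ - ψ)| := by
      intro θ
      have : ip w θ = ‖w‖ * cos (θ - ψ) := by
        conv_lhs => rw [hψ]
        rw [ip_smul, ip_ev]
      rw [this, abs_mul, abs_of_nonneg (norm_nonneg w)]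
    simp only [h1]
    rw [intervalIntegral.integral_const_mul, int_abs_cos]
    ring

/-- oscillation of a cyclic sequence -/
theorem osc {α : Type*} [PseudoMetricSpace α] (N : ℕ) (v : ℕ → α) (i j : ℕ) (hi : i ≤ N)
    (hj : j ≤ N) :
    2 * dist (v i) (v j) ≤ (∑ k ∈ Finset.range N, dist (v k) (v (k + 1))) + dist (v N) (v 0) := by
  wlog hij : i ≤ j generalizing i j with H
  · rw [dist_comm]
    exact H j i hj hi (by omega)
  have h1 := dist_le_Ico_sum_dist v hij
  have h2 := dist_le_range_sum_dist v i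
  have h3 := dist_le_Ico_sum_dist v hj
  have h4 : (∑ k ∈ Finset.range N, dist (v k) (v (k + 1))) =
      (∑ k ∈ Finset.range i, dist (v k) (v (k + 1))) +
        (∑ k ∈ Finset.Ico i j, dist (v k) (v (k + 1))) +
          ∑ k ∈ Finset.Ico j N, dist (v k) (v (k + 1)) := by
    rw [Finset.sum_range_add_sum_Ico _ hij, Finset.sum_range_add_sum_Ico _ hj]
  have h5 : dist (v i) (v j) ≤ dist (v i) (v 0) + dist (v 0) (v N) + dist (v N) (v j) :=
    dist_triangle4 _ _ _ _
  rw [dist_comm (v i) (v 0), dist_comm (v 0) (v N), dist_comm (v N) (v j)] at h5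
  linarith

theorem perim (n : ℕ) (z : ℕ → E2) (hn : 1 ≤ n) : W (z '' Iio n) ≤ len n z := by
  set K : Set E2 := z '' Iio n with hK
  have hKc : IsCompact K := ((Set.finite_Iio n).image z).isCompact
  have hKn : K.Nonempty := ⟨z 0, 0, mem_Iio.2 (by omega), rfl⟩
  have hc := cont_hs hKc
  have hi : ∀ a b : ℝ, IntervalIntegrable (hs K) volume a b := fun a b => hc.intervalIntegrable a b
  have hper : Function.Periodic (hs K) (2 * Real.pi) := fun θ => hs_two_pi K θ
  -- the width
  have hw : ∀ θ : ℝ, hs K θ + hs K (θ + Real.pi) ≤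
      (1 / 2) * ((∑ k ∈ Finset.range (n - 1), |ip (z k - z (k + 1)) θ|) +
        |ip (z (n - 1) - z 0) θ|) := by
    intro θ
    obtain ⟨x, ⟨i, hi1, rfl⟩, hx⟩ := exists_hs hKc hKn θ
    obtain ⟨y, ⟨j, hj1, rfl⟩, hy⟩ := exists_hs hKc hKn (θ + Real.pi)
    rw [mem_Iio] at hi1 hj1
    have h := osc (n - 1) (fun k => ip (z k) θ) i j (by omega) (by omega)
    simp only [Real.dist_eq, ← ip_sub] at h
    rw [hx, hy, ip_add_pi]
    have h2 := le_abs_self (ip (z i - z j) θ)
    have h3 := ip_sub (z i) (z j) θ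
    linarith
  have hcr : Continuous fun θ : ℝ => (1 / 2) * ((∑ k ∈ Finset.range (n - 1),
      |ip (z k - z (k + 1)) θ|) + |ip (z (n - 1) - z 0) θ|) := by
    refine continuous_const.mul (Continuous.add ?_ (cont_ip _).abs)
    exact continuous_finsetSum _ fun k _ => (cont_ip _).abs
  have h1 : (∫ θ in (0 : ℝ)..(2 * Real.pi), (hs K θ + hs K (θ + Real.pi))) ≤
      ∫ θ in (0 : ℝ)..(2 * Real.pi), (1 / 2) * ((∑ k ∈ Finset.range (n - 1),
        |ip (z k - z (k + 1)) θ|) + |ip (z (n - 1) - z 0) θ|) := by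
    refine intervalIntegral.integral_mono_on (by positivity) ?_ (hcr.intervalIntegrable _ _)
      fun θ _ => hw θ
    exact (hc.add (hc.comp (continuous_id.add continuous_const))).intervalIntegrable _ _
  have h2 : (∫ θ in (0 : ℝ)..(2 * Real.pi), (hs K θ + hs K (θ + Real.pi))) = 2 * W K := by
    have hc2 : Continuous fun θ : ℝ => hs K (θ + Real.pi) :=
      hc.comp (continuous_id.add continuous_const)
    rw [intervalIntegral.integral_add (hi _ _) (hc2.intervalIntegrable _ _),
      intervalIntegral.integral_comp_add_right (hs K) Real.pi]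
    have : (∫ x in (0 + Real.pi)..(2 * Real.pi + Real.pi), hs K x) =
        ∫ x in (0 : ℝ)..(0 + 2 * Real.pi), hs K x := by
      have e : 2 * Real.pi + Real.pi = (0 + Real.pi) + 2 * Real.pi := by ring
      rw [e]
      exact hper.intervalIntegral_add_eq (0 + Real.pi) 0
    rw [this, zero_add]
    unfold W
    ring
  have h3 : (∫ θ in (0 : ℝ)..(2 * Real.pi), (1 / 2) * ((∑ k ∈ Finset.range (n - 1),
      |ip (z k - z (k + 1)) θ|) + |ip (z (n - 1) - z 0) θ|)) = 2 * len n z := by
    rw [intervalIntegral.integral_const_mul, intervalIntegral.integral_add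
      ((continuous_finsetSum _ fun k _ => (cont_ip _).abs).intervalIntegrable _ _)
      ((cont_ip _).abs.intervalIntegrable _ _),
      intervalIntegral.integral_finsetSum fun k _ => (cont_ip _).abs.intervalIntegrable _ _]
    simp only [int_abs_ip]
    unfold len
    simp only [dist_eq_norm]
    rw [← Finset.mul_sum]
    ring
  rw [h2, h3] at h1
  linarith

theorem centre (n : ℕ) (z : ℕ → E2) (μ : ℝ) (hn : 1 ≤ n)
    (h1 : ∀ i, i + 1 < n → dist (z i) (z (i + 1)) ≤ μ) (h2 : dist (z (n - 1)) (z 0) ≤ μ) :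
    ∃ m : E2, ∀ i < n, dist (z i) m ≤ len n z / 4 + μ := by
  classical
  have hμ : 0 ≤ μ := dist_nonneg.trans h2
  obtain ⟨N, rfl⟩ : ∃ N, n = N + 1 := ⟨n - 1, by omega⟩
  rw [Nat.add_sub_cancel] at h2
  set S : ℕ → ℝ := fun b => ∑ i ∈ Finset.range b, dist (z i) (z (i + 1)) with hS
  have hlen : len (N + 1) z = S N + dist (z N) (z 0) := by
    unfold len
    rw [Nat.add_sub_cancel]
  have hS0 : S 0 = 0 := by simp [hS]
  have hlen0 : 0 ≤ len (N + 1) z := by
    rw [hlen]
    exact add_nonneg (Finset.sum_nonneg fun _ _ => dist_nonneg) dist_nonneg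
  set b := Nat.findGreatest (fun b => S b ≤ len (N + 1) z / 2) N with hb
  have hbN : b ≤ N := Nat.findGreatest_le N
  have hbS : S b ≤ len (N + 1) z / 2 :=
    Nat.findGreatest_spec (P := fun b => S b ≤ len (N + 1) z / 2) (Nat.zero_le N)
      (by rw [hS0]; linarith)
  have hIco : ∀ i j, i ≤ j → dist (z i) (z j) ≤ S j - S i := by
    intro i j hij
    have h3 := dist_le_Ico_sum_dist z hij
    rw [Finset.sum_Ico_eq_sub _ hij] at h3
    exact h3
  refine ⟨(1 / 2 : ℝ) • (z 0 + z b), fun i hi => ?_⟩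
  have hm : dist (z i) ((1 / 2 : ℝ) • (z 0 + z b)) ≤
      (dist (z i) (z 0) + dist (z i) (z b)) / 2 := by
    rw [dist_eq_norm, dist_eq_norm, dist_eq_norm]
    have e : z i - (1 / 2 : ℝ) • (z 0 + z b) =
        (1 / 2 : ℝ) • (z i - z 0) + (1 / 2 : ℝ) • (z i - z b) := by
      module
    rw [e]
    refine (norm_add_le _ _).trans (le_of_eq ?_)
    rw [norm_smul, norm_smul]
    norm_num
    ring
  have hsum : dist (z i) (z 0) + dist (z i) (z b) ≤ len (N + 1) z / 2 + μ := by
    rcases le_or_gt i b with hib | hib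
    · have h3 := hIco 0 i (Nat.zero_le _)
      have h4 := hIco i b hib
      rw [dist_comm (z i) (z 0)]
      linarith
    · have hbS1 : ¬ (S (b + 1) ≤ len (N + 1) z / 2) := by
        intro h3
        have h4 := Nat.le_findGreatest (P := fun b => S b ≤ len (N + 1) z / 2)
          (show b + 1 ≤ N by omega) h3
        omega
      have h5 : S (b + 1) = S b + dist (z b) (z (b + 1)) := by
        simp only [hS, Finset.sum_range_succ]
      have h6 := h1 b (by omega)
      have h7 := hIco b i hib.le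
      have h8 := hIco i N (by omega)
      have h9 : dist (z i) (z 0) ≤ dist (z i) (z N) + dist (z N) (z 0) := dist_triangle _ _ _
      rw [dist_comm (z i) (z b)]
      push Not at hbS1
      linarith
  linarith

end PolyAux

theorem poly : PolyStm := fun n z μ hn h1 h2 =>
  ⟨PolyAux.perim n z hn, PolyAux.centre n z μ hn h1 h2⟩

end Pool.Agent.Y508.FP
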