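import Pool.Agent.Y508.FP.Stm

/-!
The component orthogonal to a plane is constant (job FP-PYT, helper461).
-/

set_option autoImplicit false
open MeasureTheory Metric Set Filter Topology
open Real (sin cos)

namespace Pool.Agent.Y508.FP
open Pool.Agent.Y508

namespace Pyt

variable {d : ℕ} {e₁ e₂ : EuclideanSpace ℝ (Fin d)}

/-- the orthogonal component -/
noncomputable def QQ (e₁ e₂ v : EuclideanSpace ℝ (Fin d)) : EuclideanSpace ℝ (Fin d) :=
  v - ((inner ℝ e₁ v : ℝ) • e₁ + (inner ℝ e₂ v : ℝ) • e₂)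

/-- the plane component -/
noncomputable def PP (e₁ e₂ v : EuclideanSpace ℝ (Fin d)) : E2 := pt (inner ℝ e₁ v) (inner ℝ e₂ v)

theorem QQ_add (v w : EuclideanSpace ℝ (Fin d)) : QQ e₁ e₂ (v + w) = QQ e₁ e₂ v + QQ e₁ e₂ w := by
  unfold QQ
  rw [inner_add_right, inner_add_right, add_smul, add_smul]
  abel

theorem QQ_neg (v : EuclideanSpace ℝ (Fin d)) : QQ e₁ e₂ (-v) = - QQ e₁ e₂ v := by
  unfold QQ
  rw [inner_neg_right, inner_neg_right, neg_smul, neg_smul]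
  abel

theorem dist_PP (v w : EuclideanSpace ℝ (Fin d)) :
    dist (PP e₁ e₂ v) (PP e₁ e₂ w) ^ 2 = (inner ℝ e₁ (v - w)) ^ 2 + (inner ℝ e₂ (v - w)) ^ 2 := by
  rw [dist_eq_norm, norm_sq_E2]
  simp only [PP, PiLp.sub_apply, pt_zero, pt_one]
  rw [inner_sub_right, inner_sub_right]

theorem norm_QQ (h1 : ‖e₁‖ = 1) (h2 : ‖e₂‖ = 1) (h12 : inner ℝ e₁ e₂ = (0 : ℝ))
    (v : EuclideanSpace ℝ (Fin d)) :
    ‖QQ e₁ e₂ v‖ ^ 2 = ‖v‖ ^ 2 - ((inner ℝ e₁ v) ^ 2 + (inner ℝ e₂ v) ^ 2) := by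
  have e11 : inner ℝ e₁ e₁ = (1 : ℝ) := by rw [real_inner_self_eq_norm_sq, h1]; norm_num
  have e22 : inner ℝ e₂ e₂ = (1 : ℝ) := by rw [real_inner_self_eq_norm_sq, h2]; norm_num
  have e21 : inner ℝ e₂ e₁ = (0 : ℝ) := by rw [real_inner_comm]; exact h12
  unfold QQ
  rw [← real_inner_self_eq_norm_sq, ← real_inner_self_eq_norm_sq]
  simp only [inner_sub_left, inner_sub_right, inner_add_left, inner_add_right, inner_smul_left,
    inner_smul_right, e11, e22, e21, h12, real_inner_comm e₁ v, real_inner_comm e₂ v]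
  simp only [conj_trivial]
  ring

theorem key (h1 : ‖e₁‖ = 1) (h2 : ‖e₂‖ = 1) (h12 : inner ℝ e₁ e₂ = (0 : ℝ)) {c s : ℝ}
    (hcs : c ^ 2 + s ^ 2 = 1) (v w : EuclideanSpace ℝ (Fin d)) :
    c * dist (PP e₁ e₂ v) (PP e₁ e₂ w) + s * ‖QQ e₁ e₂ (v - w)‖ ≤ dist v w := by
  have a1 := dist_PP (e₁ := e₁) (e₂ := e₂) v w
  have a2 := norm_QQ h1 h2 h12 (v - w)
  rw [dist_eq_norm v w]
  set A := dist (PP e₁ e₂ v) (PP e₁ e₂ w)
  set B := ‖QQ e₁ e₂ (v - w)‖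
  have h3 : A ^ 2 + B ^ 2 = ‖v - w‖ ^ 2 := by rw [a1, a2]; ring
  apply le_of_sq_le_sq _ (norm_nonneg _)
  rw [← h3]
  nlinarith [sq_nonneg (c * B - s * A)]

theorem split (E : Type) [PseudoEMetricSpace E] (f : ℝ → E) {a b c : ℝ} (hab : a ≤ b)
    (hbc : b ≤ c) :
    eVariationOn f (Icc a b) + eVariationOn f (Icc b c) = eVariationOn f (Icc a c) := by
  have := eVariationOn.Icc_add_Icc f (s := univ) hab hbc (mem_univ b)
  simpa only [univ_inter] using this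

theorem piece (h1 : ‖e₁‖ = 1) (h2 : ‖e₂‖ = 1) (h12 : inner ℝ e₁ e₂ = (0 : ℝ)) {c q : ℝ}
    (hc : 0 ≤ c) (hq : 0 ≤ q) (hcs : c ^ 2 + q ^ 2 = 1) (γ : ℝ → EuclideanSpace ℝ (Fin d))
    {s t : ℝ} (hst : s ≤ t) :
    ENNReal.ofReal c * eVariationOn (fun u => PP e₁ e₂ (γ u)) (Icc s t) +
      ENNReal.ofReal (q * ‖QQ e₁ e₂ (γ t - γ s)‖) ≤ eVariationOn γ (Icc s t) := by
  have : Nonempty (ℕ × {u : ℕ → ℝ // Monotone u ∧ ∀ i, u i ∈ Icc s t}) :=
    ⟨(0, ⟨fun _ => s, monotone_const, fun _ => ⟨le_rfl, hst⟩⟩)⟩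
  rw [eVariationOn, ENNReal.mul_iSup, ENNReal.iSup_add]
  refine iSup_le ?_
  rintro ⟨n, u, hu, hus⟩
  simp only
  have hlow : edist (γ (u 0)) (γ s) + (∑ i ∈ Finset.range n, edist (γ (u (i + 1))) (γ (u i)) +
      edist (γ t) (γ (u n))) ≤ eVariationOn γ (Icc s t) := by
    rw [← split _ γ (hus 0).1 (hus 0).2, ← split _ γ (hu (Nat.zero_le n)) (hus n).2]
    refine add_le_add ?_ (add_le_add ?_ ?_)
    · exact eVariationOn.edist_le γ ⟨(hus 0).1, le_rfl⟩ ⟨le_rfl, (hus 0).1⟩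
    · exact eVariationOn.sum_le_of_monotoneOn_Iic (hu.monotoneOn _)
        fun i hi => ⟨hu (Nat.zero_le i), hu hi⟩
    · exact eVariationOn.edist_le γ ⟨(hus n).2, le_rfl⟩ ⟨le_rfl, (hus n).2⟩
  refine le_trans ?_ hlow
  set A := ∑ i ∈ Finset.range n, dist (PP e₁ e₂ (γ (u (i + 1)))) (PP e₁ e₂ (γ (u i))) with hA
  set B := ∑ i ∈ Finset.range n, dist (γ (u (i + 1))) (γ (u i)) with hB
  have hA0 : 0 ≤ A := Finset.sum_nonneg fun i _ => dist_nonneg
  have hB0 : 0 ≤ B := Finset.sum_nonneg fun i _ => dist_nonneg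
  have hAe : ∑ i ∈ Finset.range n, edist (PP e₁ e₂ (γ (u (i + 1)))) (PP e₁ e₂ (γ (u i))) =
      ENNReal.ofReal A := by
    rw [hA, ENNReal.ofReal_sum_of_nonneg fun i _ => dist_nonneg]
    exact Finset.sum_congr rfl fun i _ => edist_dist _ _
  have hBe : ∑ i ∈ Finset.range n, edist (γ (u (i + 1))) (γ (u i)) = ENNReal.ofReal B := by
    rw [hB, ENNReal.ofReal_sum_of_nonneg fun i _ => dist_nonneg]
    exact Finset.sum_congr rfl fun i _ => edist_dist _ _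
  have hleft : ENNReal.ofReal c * ENNReal.ofReal A +
      ENNReal.ofReal (q * ‖QQ e₁ e₂ (γ t - γ s)‖) =
      ENNReal.ofReal (c * A + q * ‖QQ e₁ e₂ (γ t - γ s)‖) := by
    rw [ENNReal.ofReal_add (mul_nonneg hc hA0) (mul_nonneg hq (norm_nonneg _)),
      ENNReal.ofReal_mul hc]
  have hright : edist (γ (u 0)) (γ s) + (ENNReal.ofReal B + edist (γ t) (γ (u n))) =
      ENNReal.ofReal (dist (γ (u 0)) (γ s) + (B + dist (γ t) (γ (u n)))) := by
    rw [ENNReal.ofReal_add dist_nonneg (add_nonneg hB0 dist_nonneg),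
      ENNReal.ofReal_add hB0 dist_nonneg, edist_dist, edist_dist]
  rw [hAe, hBe, hleft, hright]
  apply ENNReal.ofReal_le_ofReal
  have htel : ∀ n, ‖QQ e₁ e₂ (γ (u n) - γ (u 0))‖ ≤
      ∑ i ∈ Finset.range n, ‖QQ e₁ e₂ (γ (u (i + 1)) - γ (u i))‖ := by
    intro n
    induction n with
    | zero => simp [QQ]
    | succ n ih =>
      rw [Finset.sum_range_succ]
      have e : γ (u (n + 1)) - γ (u 0) = (γ (u n) - γ (u 0)) + (γ (u (n + 1)) - γ (u n)) := by abel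
      rw [e, QQ_add]
      exact (norm_add_le _ _).trans (add_le_add ih le_rfl)
  have htot : ‖QQ e₁ e₂ (γ t - γ s)‖ ≤ ‖QQ e₁ e₂ (γ (u 0) - γ s)‖ +
      (∑ i ∈ Finset.range n, ‖QQ e₁ e₂ (γ (u (i + 1)) - γ (u i))‖ +
        ‖QQ e₁ e₂ (γ t - γ (u n))‖) := by
    have e : γ t - γ s = (γ (u 0) - γ s) + ((γ (u n) - γ (u 0)) + (γ t - γ (u n))) := by abel
    rw [e, QQ_add, QQ_add]
    refine (norm_add_le _ _).trans (add_le_add le_rfl ((norm_add_le _ _).trans ?_))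
    exact add_le_add (htel n) le_rfl
  have k1 := key h1 h2 h12 hcs (γ (u 0)) (γ s)
  have k2 := key h1 h2 h12 hcs (γ t) (γ (u n))
  have k3 : c * A +
      q * ∑ i ∈ Finset.range n, ‖QQ e₁ e₂ (γ (u (i + 1)) - γ (u i))‖ ≤ B := by
    rw [hA, hB, Finset.mul_sum, Finset.mul_sum, ← Finset.sum_add_distrib]
    exact Finset.sum_le_sum fun i _ => key h1 h2 h12 hcs _ _
  have k4 := mul_le_mul_of_nonneg_left htot hq
  have n1 : 0 ≤ c * dist (PP e₁ e₂ (γ (u 0))) (PP e₁ e₂ (γ s)) := mul_nonneg hc dist_nonneg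
  have n2 : 0 ≤ c * dist (PP e₁ e₂ (γ t)) (PP e₁ e₂ (γ (u n))) := mul_nonneg hc dist_nonneg
  linarith

theorem main (h1 : ‖e₁‖ = 1) (h2 : ‖e₂‖ = 1) (h12 : inner ℝ e₁ e₂ = (0 : ℝ))
    (γ : ℝ → EuclideanSpace ℝ (Fin d)) (hfin : eVariationOn γ (Icc 0 1) ≠ ⊤)
    (hle : eVariationOn γ (Icc 0 1) ≤ eVariationOn (fun t => PP e₁ e₂ (γ t)) (Icc 0 1))
    {s t : ℝ} (hs : s ∈ Icc (0 : ℝ) 1) (ht : t ∈ Icc (0 : ℝ) 1) (hst : s ≤ t) :
    QQ e₁ e₂ (γ t - γ s) = 0 := by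
  set g : ℝ → E2 := fun t => PP e₁ e₂ (γ t) with hg
  have hlip : ∀ a b : ℝ, a ≤ b → eVariationOn g (Icc a b) ≤ eVariationOn γ (Icc a b) := by
    intro a b hab
    have := piece h1 h2 h12 (c := 1) (q := 0) (by norm_num) le_rfl (by norm_num) γ hab
    simpa using this
  have s1 := split _ γ hs.1 hst
  have s2 := split _ γ (hs.1.trans hst) ht.2
  have p1 := split _ g hs.1 hst
  have p2 := split _ g (hs.1.trans hst) ht.2
  have l1 := hlip 0 s hs.1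
  have l2 := hlip s t hst
  have l3 := hlip t 1 ht.2
  have hfin1 : eVariationOn γ (Icc 0 t) ≠ ⊤ := ne_top_of_le_ne_top hfin (s2 ▸ le_self_add)
  have fA : eVariationOn γ (Icc 0 s) ≠ ⊤ := ne_top_of_le_ne_top hfin1 (s1 ▸ le_self_add)
  have fB : eVariationOn γ (Icc s t) ≠ ⊤ := ne_top_of_le_ne_top hfin1 (s1 ▸ le_add_self)
  have fC : eVariationOn γ (Icc t 1) ≠ ⊤ := ne_top_of_le_ne_top hfin (s2 ▸ le_add_self)
  have hB : eVariationOn γ (Icc s t) ≤ eVariationOn g (Icc s t) := by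
    rw [← s2, ← s1, ← p2, ← p1] at hle
    have h3 : eVariationOn γ (Icc 0 s) + eVariationOn γ (Icc s t) + eVariationOn γ (Icc t 1) ≤
        eVariationOn γ (Icc 0 s) + eVariationOn g (Icc s t) + eVariationOn γ (Icc t 1) :=
      hle.trans (add_le_add (add_le_add l1 le_rfl) l3)
    exact (ENNReal.add_le_add_iff_left fA).mp ((ENNReal.add_le_add_iff_right fC).mp h3)
  have hBe : eVariationOn g (Icc s t) = eVariationOn γ (Icc s t) := le_antisymm l2 hB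
  set v := (eVariationOn γ (Icc s t)).toReal with hv
  set δ := ‖QQ e₁ e₂ (γ t - γ s)‖ with hδ
  have hv0 : 0 ≤ v := ENNReal.toReal_nonneg
  have hδ0 : 0 ≤ δ := norm_nonneg _
  have hm : ∀ m : ℝ, 0 < m → m ≤ 1 → δ ≤ m * v := by
    intro m hm0 hm1
    have hmm : 0 < 1 + m ^ 2 := by positivity
    have hc0 : 0 ≤ (1 - m ^ 2) / (1 + m ^ 2) := by
      apply div_nonneg _ hmm.le
      nlinarith
    have hq0 : 0 ≤ 2 * m / (1 + m ^ 2) := by positivity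
    have hcs : ((1 - m ^ 2) / (1 + m ^ 2)) ^ 2 + (2 * m / (1 + m ^ 2)) ^ 2 = 1 := by
      field_simp
      ring
    have h3 := piece h1 h2 h12 hc0 hq0 hcs γ hst
    rw [show (fun u => PP e₁ e₂ (γ u)) = g from rfl, hBe, ← ENNReal.ofReal_toReal fB, ← hv,
      ← ENNReal.ofReal_mul hc0, ← ENNReal.ofReal_add (by positivity) (by positivity)] at h3
    have h4 := (ENNReal.ofReal_le_ofReal_iff hv0).mp h3
    rw [← hδ] at h4
    have h5 : (1 - m ^ 2) / (1 + m ^ 2) * v + 2 * m / (1 + m ^ 2) * δ =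
        ((1 - m ^ 2) * v + 2 * m * δ) / (1 + m ^ 2) := by ring
    rw [h5, div_le_iff₀ hmm] at h4
    have h6 : 2 * m * δ ≤ 2 * m * (m * v) := by nlinarith
    exact le_of_mul_le_mul_left h6 (by positivity)
  have hδz : δ ≤ 0 := by
    by_contra hcon
    push Not at hcon
    have h7 := hm (min 1 (δ / (2 * (v + 1)))) (lt_min one_pos (by positivity)) (min_le_left _ _)
    have h8 : min 1 (δ / (2 * (v + 1))) * v ≤ δ / (2 * (v + 1)) * v :=
      mul_le_mul_of_nonneg_right (min_le_right _ _) hv0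
    have h9 : δ / (2 * (v + 1)) * v ≤ δ / 2 := by
      rw [div_mul_eq_mul_div, div_le_div_iff₀ (by positivity) (by positivity)]
      nlinarith
    linarith
  exact norm_eq_zero.mp (le_antisymm hδz hδ0)

end Pyt

theorem pyt : PytStm := by
  intro d γ e₁ e₂ h1 h2 h12 hfin hle s hs t ht
  have hQ : Pyt.QQ e₁ e₂ (γ t - γ s) = 0 := by
    rcases le_total s t with h | h
    · exact Pyt.main h1 h2 h12 γ hfin hle hs ht h
    · have h3 := Pyt.main h1 h2 h12 γ hfin hle ht hs h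
      have e : γ t - γ s = -(γ s - γ t) := by abel
      rw [e, Pyt.QQ_neg, h3, neg_zero]
  unfold Pyt.QQ at hQ
  exact sub_eq_zero.mp hQ

end Pool.Agent.Y508.FP
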