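import Pool.Agent.Y508.FP.Stm

/-!
# Closed curves of length `π`: end of the proof in the case of equality
-/

set_option autoImplicit false
open MeasureTheory Metric Set Filter Topology
open Real (sin cos)

namespace Pool.Agent.Y508.FP
open Pool.Agent.Y508

namespace Fn

theorem compact_hull {E : Type*} [NormedAddCommGroup E] [NormedSpace ℝ E]
    [FiniteDimensional ℝ E] {s : Set E} (hs : IsCompact s) : IsCompact (convexHull ℝ s) := by
  classical
  rcases s.eq_empty_or_nonempty with rfl | ⟨x0, hx0⟩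
  · rw [convexHull_empty]
    exact isCompact_empty
  obtain ⟨n, hn⟩ : ∃ n, n = Module.finrank ℝ E + 1 := ⟨_, rfl⟩
  have hK : IsCompact ((stdSimplex ℝ (Fin n)) ×ˢ (Set.pi Set.univ (fun _ : Fin n => s))) :=
    (isCompact_stdSimplex ℝ (Fin n)).prod (isCompact_univ_pi fun _ => hs)
  have hcont : Continuous (fun p : (Fin n → ℝ) × (Fin n → E) => ∑ i, p.1 i • p.2 i) := by
    refine continuous_finsetSum _ fun i _ => ?_
    exact ((continuous_apply i).comp continuous_fst).smul ((continuous_apply i).comp continuous_snd)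
  have heq : convexHull ℝ s = (fun p : (Fin n → ℝ) × (Fin n → E) => ∑ i, p.1 i • p.2 i) ''
      ((stdSimplex ℝ (Fin n)) ×ˢ (Set.pi Set.univ (fun _ : Fin n => s))) := by
    apply Set.Subset.antisymm
    · intro x hx
      obtain ⟨ι, hι, z, w, hz, hai, hw0, hw1, hwz⟩ := eq_pos_convex_span_of_mem_convexHull hx
      have hcard : Fintype.card ι ≤ Fintype.card (Fin n) := by
        have h1 := hai.card_le_finrank_succ
        have h2 := Submodule.finrank_le (vectorSpan ℝ (Set.range z))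
        rw [Fintype.card_fin, hn]
        omega
      obtain ⟨e⟩ := Function.Embedding.nonempty_of_card_le hcard
      refine ⟨(Function.extend e w 0, Function.extend e z (fun _ => x0)), ⟨⟨?_, ?_⟩, ?_⟩, ?_⟩
      · intro j
        show (0 : ℝ) ≤ Function.extend e w 0 j
        by_cases hj : ∃ i, e i = j
        · obtain ⟨i, rfl⟩ := hj
          rw [e.injective.extend_apply]
          exact (hw0 i).le
        · rw [Function.extend_apply' _ _ _ hj]
          exact le_rfl
      · rw [← hw1]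
        symm
        refine Fintype.sum_of_injective e e.injective _ _ ?_ ?_
        · intro j hj
          show Function.extend e w 0 j = 0
          rw [Function.extend_apply' _ _ _ hj]
          rfl
        · intro i
          show w i = Function.extend e w 0 (e i)
          rw [e.injective.extend_apply]
      · intro j _
        by_cases hj : ∃ i, e i = j
        · obtain ⟨i, rfl⟩ := hj
          show Function.extend e z (fun _ => x0) (e i) ∈ s
          rw [e.injective.extend_apply]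
          exact hz ⟨i, rfl⟩
        · show Function.extend e z (fun _ => x0) j ∈ s
          rw [Function.extend_apply' _ _ _ hj]
          exact hx0
      · rw [← hwz]
        symm
        refine Fintype.sum_of_injective e e.injective _ _ ?_ ?_
        · intro j hj
          show Function.extend e w 0 j • Function.extend e z (fun _ => x0) j = 0
          rw [Function.extend_apply' w _ _ hj]
          simp
        · intro i
          show w i • z i = Function.extend e w 0 (e i) • Function.extend e z (fun _ => x0) (e i)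
          rw [e.injective.extend_apply, e.injective.extend_apply]
    · rintro _ ⟨⟨w, z⟩, ⟨⟨hw0, hw1⟩, hz⟩, rfl⟩
      refine (convex_convexHull ℝ s).sum_mem (fun i _ => hw0 i) hw1 (fun i _ => ?_)
      exact subset_convexHull ℝ s (hz i (Set.mem_univ i))
  rw [heq]
  exact hK.image hcont

/-- the support function of the convex hull -/
theorem hs_hull {R : Set E2} (hR : IsCompact R) (hne : R.Nonempty) (θ : ℝ) :
    hs (convexHull ℝ R) θ = hs R θ := by
  apply le_antisymm
  · refine hs_le hne.convexHull fun x hx => ?_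
    have hc : Convex ℝ {x : E2 | ip x θ ≤ hs R θ} := by
      intro x hx y hy a b ha hb hab
      simp only [Set.mem_ofPred_eq] at hx hy ⊢
      rw [ip_add, ip_smul, ip_smul]
      have h1 := mul_le_mul_of_nonneg_left hx ha
      have h2 := mul_le_mul_of_nonneg_left hy hb
      have h3 : a * hs R θ + b * hs R θ = hs R θ := by rw [← add_mul, hab, one_mul]
      linarith
    exact convexHull_min (fun y hy => le_hs hR hy θ) hc hx
  · exact hs_mono (compact_hull hR) hne (subset_convexHull ℝ R) θ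

/-- a frontier point has a supporting direction -/
theorem exists_dir {K : Set E2} (hK : IsCompact K) (hc : Convex ℝ K) (hne : K.Nonempty) {x : E2}
    (hx : x ∈ frontier K) : ∃ θ : ℝ, ip x θ = hs K θ := by
  have hxK : x ∈ K := hK.isClosed.frontier_subset hx
  by_contra hcon
  push Not at hcon
  have hlt : ∀ θ, ip x θ < hs K θ := fun θ => lt_of_le_of_ne (le_hs hK hxK θ) (hcon θ)
  obtain ⟨θ₀, -, hθ₀⟩ := (isCompact_Icc (a := (0 : ℝ)) (b := 2 * Real.pi)).exists_isMinOn
    (nonempty_Icc.2 (by positivity)) ((cont_hs hK).sub (cont_ip x)).continuousOn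
  obtain ⟨ε, hε⟩ : ∃ ε, ε = hs K θ₀ - ip x θ₀ := ⟨_, rfl⟩
  have hεpos : 0 < ε := by rw [hε]; linarith [hlt θ₀]
  have hper : Function.Periodic (fun θ => hs K θ - ip x θ) (2 * Real.pi) := by
    intro θ
    show hs K (θ + 2 * Real.pi) - ip x (θ + 2 * Real.pi) = _
    rw [hs_two_pi, ip_two_pi]
  have hall : ∀ θ, ε ≤ hs K θ - ip x θ := by
    intro θ
    obtain ⟨t, ht, hte⟩ := hper.exists_mem_Ico₀ (by positivity : (0 : ℝ) < 2 * Real.pi) θ
    have h1 := isMinOn_iff.1 hθ₀ t ⟨ht.1, ht.2.le⟩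
    have h2 : hs K θ - ip x θ = hs K t - ip x t := hte
    rw [h2, hε]
    exact h1
  have hball : ball x ε ⊆ K := by
    intro z hz
    apply mem_of_ip_le hK hc hne
    intro θ
    have h1 := abs_ip_le (z - x) θ
    rw [mem_ball, dist_eq_norm] at hz
    rw [ip_sub] at h1
    have h2 := (abs_le.1 h1).2
    linarith [hall θ]
  exact hx.2 (mem_interior.2 ⟨ball x ε, hball, isOpen_ball, mem_ball_self hεpos⟩)

/-- `x - y` in direction `θ` of norm at most one -/
theorem eq_ev {x : E2} {θ : ℝ} (h1 : ip x θ = 1) (h2 : ‖x‖ ≤ 1) : x = ev θ := by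
  have h3 : ‖x - ev θ‖ ^ 2 ≤ 0 := by
    have h4 := norm_sq_E2 (x - ev θ)
    have h5 := norm_sq_E2 x
    have h6 : ‖x‖ ^ 2 ≤ 1 := by nlinarith [norm_nonneg x]
    have h7 := Real.sin_sq_add_cos_sq θ
    have h8 : (x - ev θ) 0 = x 0 - cos θ := rfl
    have h9 : (x - ev θ) 1 = x 1 - sin θ := rfl
    rw [h8, h9] at h4
    unfold ip at h1
    nlinarith
  have h4 : ‖x - ev θ‖ = 0 := by nlinarith [norm_nonneg (x - ev θ)]
  exact sub_eq_zero.1 (norm_eq_zero.1 h4)

/-- the integral of the width -/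
theorem two_W {K : Set E2} (hK : IsCompact K) :
    2 * W K = ∫ θ in (0 : ℝ)..(2 * Real.pi), (hs K θ + hs K (θ + Real.pi)) := by
  have hc := cont_hs hK
  have hc' : Continuous fun θ => hs K (θ + Real.pi) := hc.comp (continuous_add_const Real.pi)
  rw [intervalIntegral.integral_add (hc.intervalIntegrable _ _) (hc'.intervalIntegrable _ _)]
  have hper : Function.Periodic (hs K) (2 * Real.pi) := hs_two_pi K
  have h1 : (∫ θ in (0 : ℝ)..(2 * Real.pi), hs K (θ + Real.pi)) = W K := by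
    rw [intervalIntegral.integral_comp_add_right (hs K)]
    have := hper.intervalIntegral_add_eq (0 + Real.pi) 0
    unfold W
    rw [zero_add] at this ⊢
    rw [zero_add, add_comm (Real.pi) (2 * Real.pi)] at this
    exact this
  show 2 * W K = W K + _
  rw [h1]
  ring

/-- if the width is at least one and the perimeter at most `π` then the width is one -/
theorem width_one {K : Set E2} (hK : IsCompact K) (h1 : ∀ θ, 1 ≤ hs K θ + hs K (θ + Real.pi))
    (h2 : W K ≤ Real.pi) : W K = Real.pi ∧ ∀ θ, hs K θ + hs K (θ + Real.pi) = 1 := by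
  have hc := cont_hs hK
  have hc2 : Continuous fun θ => hs K θ + hs K (θ + Real.pi) :=
    hc.add (hc.comp (continuous_add_const Real.pi))
  have h3 := two_W hK
  have h4 : (∫ θ in (0 : ℝ)..(2 * Real.pi), (hs K θ + hs K (θ + Real.pi) - 1)) =
      2 * W K - 2 * Real.pi := by
    rw [intervalIntegral.integral_sub (hc2.intervalIntegrable _ _)
      (continuous_const.intervalIntegrable _ _), ← h3]
    simp
  have hpos : (0 : ℝ) < 2 * Real.pi := by positivity
  have h5 : ∀ c ∈ Icc (0 : ℝ) (2 * Real.pi), hs K c + hs K (c + Real.pi) - 1 = 0 := by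
    intro c hcc
    by_contra hne
    have h6 : 0 < hs K c + hs K (c + Real.pi) - 1 :=
      lt_of_le_of_ne (by linarith [h1 c]) (Ne.symm hne)
    have h7 := intervalIntegral.integral_pos hpos (hc2.sub continuous_const).continuousOn
      (fun x _ => by show 0 ≤ hs K x + hs K (x + Real.pi) - 1; linarith [h1 x]) ⟨c, hcc, h6⟩
    have h8 : (0 : ℝ) < ∫ θ in (0 : ℝ)..(2 * Real.pi), (hs K θ + hs K (θ + Real.pi) - 1) := h7
    rw [h4] at h8
    linarith
  constructor
  · have h6 : (∫ θ in (0 : ℝ)..(2 * Real.pi), (hs K θ + hs K (θ + Real.pi) - 1)) = 0 := by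
      rw [intervalIntegral.integral_congr (g := fun _ => (0 : ℝ))]
      · simp
      · intro θ hθ
        rw [uIcc_of_le hpos.le] at hθ
        exact h5 θ hθ
    rw [h4] at h6
    linarith
  · intro θ
    have hper : Function.Periodic (fun θ => hs K θ + hs K (θ + Real.pi)) (2 * Real.pi) := by
      intro θ
      show hs K (θ + 2 * Real.pi) + hs K (θ + 2 * Real.pi + Real.pi) = _
      rw [hs_two_pi, add_right_comm, hs_two_pi]
    obtain ⟨t, ht, hte⟩ := hper.exists_mem_Ico₀ hpos θ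
    have h6 : hs K θ + hs K (θ + Real.pi) = hs K t + hs K (t + Real.pi) := hte
    rw [h6]
    linarith [h5 t ⟨ht.1, ht.2.le⟩]

/-- width one: the diameter is at most one -/
theorem diam_le {K : Set E2} (hK : IsCompact K) (h1 : ∀ θ, hs K θ + hs K (θ + Real.pi) = 1)
    {p q : E2} (hp : p ∈ K) (hq : q ∈ K) : ‖p - q‖ ≤ 1 := by
  rcases eq_or_ne p q with rfl | hne
  · simp
  obtain ⟨θ, hθ⟩ := exists_pos_ev (p - q) (sub_ne_zero.2 hne)
  have h2 : ip (p - q) θ = ‖p - q‖ := by
    have : ip (p - q) θ = ip (‖p - q‖ • ev θ) θ := by rw [← hθ]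
    rw [this, ip_smul, ip_ev, sub_self, Real.cos_zero, mul_one]
  rw [ip_sub] at h2
  have h3 := le_hs hK hp θ
  have h4 := le_hs hK hq (θ + Real.pi)
  rw [ip_add_pi] at h4
  linarith [h1 θ]

/-- width one: the frontier is contained in every compact set with the hull `K` -/
theorem frontier_sub {R : Set E2} (hR : IsCompact R) (hne : R.Nonempty)
    (h1 : ∀ θ, hs (convexHull ℝ R) θ + hs (convexHull ℝ R) (θ + Real.pi) = 1) :
    frontier (convexHull ℝ R) ⊆ R := by
  intro x hx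
  have hK := compact_hull hR
  have hxK : x ∈ convexHull ℝ R := hK.isClosed.frontier_subset hx
  obtain ⟨θ, hθ⟩ := exists_dir hK (convex_convexHull ℝ R) hne.convexHull hx
  obtain ⟨y, hy, hye⟩ := exists_hs hR hne θ
  obtain ⟨x', hx', hxe'⟩ := exists_hs hK hne.convexHull (θ + Real.pi)
  rw [ip_add_pi] at hxe'
  have h2 := h1 θ
  rw [hxe'] at h2
  have e1 : x - x' = ev θ := eq_ev (by rw [ip_sub, hθ]; linarith) (diam_le hK h1 hxK hx')
  have e2 : y - x' = ev θ := by
    refine eq_ev ?_ (diam_le hK h1 (subset_convexHull ℝ R hy) hx')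
    rw [ip_sub, ← hye, ← hs_hull hR hne]
    linarith
  have : x = y := by
    have h3 := e1.trans e2.symm
    exact sub_left_injective h3
  rw [this]
  exact hy

/-- the plane of two orthonormal vectors -/
noncomputable def plane {d : ℕ} (e₁ e₂ : EuclideanSpace ℝ (Fin d)) (h1 : ‖e₁‖ = 1) (h2 : ‖e₂‖ = 1)
    (h3 : inner ℝ e₁ e₂ = (0 : ℝ)) : E2 →ₗᵢ[ℝ] EuclideanSpace ℝ (Fin d) where
  toFun z := z 0 • e₁ + z 1 • e₂
  map_add' x y := by
    simp only [PiLp.add_apply, add_smul]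
    abel
  map_smul' c x := by
    simp only [PiLp.smul_apply, smul_eq_mul, RingHom.id_apply, smul_add, smul_smul]
  norm_map' z := by
    show ‖z 0 • e₁ + z 1 • e₂‖ = ‖z‖
    have h4 : ‖z 0 • e₁ + z 1 • e₂‖ ^ 2 = ‖z‖ ^ 2 := by
      rw [norm_add_sq_real, norm_smul, norm_smul, h1, h2, real_inner_smul_left,
        real_inner_smul_right, h3, norm_sq_E2]
      simp
    exact (pow_left_inj₀ (norm_nonneg _) (norm_nonneg _) two_ne_zero).1 h4

/-- coordinates -/
noncomputable def co {d : ℕ} (e₁ e₂ x : EuclideanSpace ℝ (Fin d)) : E2 :=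
  pt (inner ℝ e₁ x) (inner ℝ e₂ x)

theorem co_sub {d : ℕ} (e₁ e₂ x y : EuclideanSpace ℝ (Fin d)) :
    co e₁ e₂ x - co e₁ e₂ y = co e₁ e₂ (x - y) := by
  ext i
  fin_cases i
  · show inner ℝ e₁ x - inner ℝ e₁ y = inner ℝ e₁ (x - y)
    rw [inner_sub_right]
  · show inner ℝ e₂ x - inner ℝ e₂ y = inner ℝ e₂ (x - y)
    rw [inner_sub_right]

theorem norm_co_le {d : ℕ} {e₁ e₂ : EuclideanSpace ℝ (Fin d)} (h1 : ‖e₁‖ = 1) (h2 : ‖e₂‖ = 1)
    (h3 : inner ℝ e₁ e₂ = (0 : ℝ)) (x : EuclideanSpace ℝ (Fin d)) : ‖co e₁ e₂ x‖ ≤ ‖x‖ := by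
  have h4 : ‖co e₁ e₂ x‖ ^ 2 = (inner ℝ e₁ x) ^ 2 + (inner ℝ e₂ x) ^ 2 := norm_sq_E2 _
  have h5 : 0 ≤ ‖x - ((inner ℝ e₁ x : ℝ) • e₁ + (inner ℝ e₂ x : ℝ) • e₂)‖ ^ 2 := sq_nonneg _
  have h6 : ‖(inner ℝ e₁ x : ℝ) • e₁ + (inner ℝ e₂ x : ℝ) • e₂‖ ^ 2 =
      (inner ℝ e₁ x) ^ 2 + (inner ℝ e₂ x) ^ 2 := by
    have := (plane e₁ e₂ h1 h2 h3).norm_map (co e₁ e₂ x)
    have h7 : ‖(inner ℝ e₁ x : ℝ) • e₁ + (inner ℝ e₂ x : ℝ) • e₂‖ = ‖co e₁ e₂ x‖ := this
    rw [h7, h4]
  rw [norm_sub_sq_real, h6, inner_add_right, real_inner_smul_right, real_inner_smul_right,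
    real_inner_comm e₁ x, real_inner_comm e₂ x] at h5
  have h7 : ‖co e₁ e₂ x‖ ^ 2 ≤ ‖x‖ ^ 2 := by
    rw [h4]
    nlinarith
  exact (pow_le_pow_iff_left₀ (norm_nonneg _) (norm_nonneg _) two_ne_zero).1 h7

theorem lip_co {d : ℕ} {e₁ e₂ : EuclideanSpace ℝ (Fin d)} (h1 : ‖e₁‖ = 1) (h2 : ‖e₂‖ = 1)
    (h3 : inner ℝ e₁ e₂ = (0 : ℝ)) : LipschitzWith 1 (co e₁ e₂) := by
  refine LipschitzWith.of_dist_le_mul fun x y => ?_
  rw [dist_eq_norm, dist_eq_norm, co_sub, NNReal.coe_one, one_mul]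
  exact norm_co_le h1 h2 h3 _

end Fn

open Fn in
theorem fin (h1 : CroStm) (h2 : Cro2Stm) (h3 : PytStm) : FinStm := by
  intro d γ e₁ e₂ hγ hclosed hvar hD
  obtain ⟨n1, n2, n12, hdirs⟩ := hD
  have hlip := lip_co n1 n2 n12
  obtain ⟨ζ, hζ⟩ : ∃ ζ : ℝ → E2, ζ = fun t => co e₁ e₂ (γ t) := ⟨_, rfl⟩
  have hζc : ContinuousOn ζ (Icc 0 1) := by
    rw [hζ]; exact hlip.continuous.comp_continuousOn hγ
  have hζ01 : ζ 0 = ζ 1 := by rw [hζ]; simp only [hclosed]
  have hζv : eVariationOn ζ (Icc 0 1) ≤ eVariationOn γ (Icc 0 1) := by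
    have := (hlip.lipschitzOnWith (s := univ)).comp_eVariationOn_le (g := γ) (s := Icc 0 1)
      (mapsTo_univ _ _)
    rw [hζ]
    simpa [Function.comp_def] using this
  have hR : IsCompact (ζ '' Icc 0 1) := isCompact_Icc.image_of_continuousOn hζc
  have hne : (ζ '' Icc (0 : ℝ) 1).Nonempty := (nonempty_Icc.2 zero_le_one).image _
  have hK := compact_hull hR
  have hKc := convex_convexHull ℝ (ζ '' Icc 0 1)
  have hKne := hne.convexHull (𝕜 := ℝ)
  have hwid : ∀ θ, 1 ≤ hs (ζ '' Icc 0 1) θ + hs (ζ '' Icc 0 1) (θ + Real.pi) := by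
    intro θ
    obtain ⟨p, ⟨s, hs', rfl⟩, q, ⟨t, ht, rfl⟩, hpq⟩ := hdirs θ
    have e1 : ζ s - ζ t = ev θ := by
      rw [hζ]
      show co e₁ e₂ (γ s) - co e₁ e₂ (γ t) = ev θ
      rw [co_sub, hpq]
      unfold co ev
      rw [inner_add_right, inner_add_right, real_inner_smul_right, real_inner_smul_right,
        real_inner_smul_right, real_inner_smul_right, real_inner_self_eq_norm_sq,
        real_inner_self_eq_norm_sq, n1, n2, n12, real_inner_comm, n12]
      simp
    have h4 := le_hs hR (mem_image_of_mem ζ hs') θ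
    have h5 := le_hs hR (mem_image_of_mem ζ ht) (θ + Real.pi)
    rw [ip_add_pi] at h5
    have h6 : ip (ζ s - ζ t) θ = 1 := by rw [e1, ip_ev, sub_self, Real.cos_zero]
    rw [ip_sub] at h6
    linarith
  have hWle : W (ζ '' Icc 0 1) ≤ Real.pi :=
    h1 ζ Real.pi Real.pi_pos.le hζc hζ01 (hζv.trans hvar.le)
  obtain ⟨hWpi, hw1⟩ := width_one hR hwid hWle
  have hw1' : ∀ θ, hs (convexHull ℝ (ζ '' Icc 0 1)) θ +
      hs (convexHull ℝ (ζ '' Icc 0 1)) (θ + Real.pi) = 1 := by
    intro θ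
    rw [hs_hull hR hne, hs_hull hR hne]
    exact hw1 θ
  have hfr := frontier_sub hR hne hw1'
  have hfr2 := h2 ζ hζc hζ01 (by rw [hWpi]; exact hζv.trans hvar.le) hfr
  have hRfr : ζ '' Icc 0 1 = frontier (convexHull ℝ (ζ '' Icc 0 1)) := subset_antisymm hfr2 hfr
  have hvt : eVariationOn ζ (Icc 0 1) ≠ ⊤ :=
    ne_top_of_le_ne_top (by rw [hvar]; exact ENNReal.ofReal_ne_top) hζv
  have hvle : eVariationOn γ (Icc 0 1) ≤ eVariationOn ζ (Icc 0 1) := by
    have h4 := h1 ζ (eVariationOn ζ (Icc 0 1)).toReal ENNReal.toReal_nonneg hζc hζ01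
      (by rw [ENNReal.ofReal_toReal hvt])
    rw [hWpi] at h4
    rw [hvar, ← ENNReal.ofReal_toReal hvt]
    exact ENNReal.ofReal_le_ofReal h4
  have hpyt := h3 d γ e₁ e₂ n1 n2 n12 (by rw [hvar]; exact ENNReal.ofReal_ne_top)
    (by rw [hζ] at hvle; exact hvle)
  obtain ⟨Q, hQ⟩ : ∃ Q, Q = γ 0 - ((inner ℝ e₁ (γ 0) : ℝ) • e₁ + (inner ℝ e₂ (γ 0) : ℝ) • e₂) :=
    ⟨_, rfl⟩
  have hrep : ∀ t ∈ Icc (0 : ℝ) 1, γ t = Q + plane e₁ e₂ n1 n2 n12 (ζ t) := by
    intro t ht
    have h4 := hpyt 0 (left_mem_Icc.2 zero_le_one) t ht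
    have h5 : plane e₁ e₂ n1 n2 n12 (ζ t) =
        (inner ℝ e₁ (γ t) : ℝ) • e₁ + (inner ℝ e₂ (γ t) : ℝ) • e₂ := by
      rw [hζ]; rfl
    rw [h5, hQ]
    rw [inner_sub_right, inner_sub_right, sub_smul, sub_smul] at h4
    have h6 : γ t = (γ t - γ 0) + γ 0 := by abel
    rw [h6]
    nth_rewrite 1 [h4]
    abel_nf
  refine ⟨(AffineIsometryEquiv.constVAdd ℝ _ Q).toAffineIsometry.comp
    (plane e₁ e₂ n1 n2 n12).toAffineIsometry, convexHull ℝ (ζ '' Icc 0 1), hK, hKc, ?_, ?_⟩
  · intro v hv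
    obtain ⟨θ, rfl⟩ := exists_ev v hv
    have h4 : ∀ x : E2, inner ℝ (ev θ) x = ip x θ := fun x => by
      rw [real_inner_comm, inner_ev]
    simp only [h4]
    have h5 : sInf ((fun x : E2 => ip x θ) '' convexHull ℝ (ζ '' Icc 0 1)) =
        - hs (convexHull ℝ (ζ '' Icc 0 1)) (θ + Real.pi) := by
      rw [Real.sInf_def]
      unfold hs
      congr 2
      ext r
      simp only [Set.mem_neg, mem_image, ip_add_pi]
      constructor
      · rintro ⟨x, hx, hxe⟩
        exact ⟨x, hx, by rw [hxe, neg_neg]⟩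
      · rintro ⟨x, hx, hxe⟩
        exact ⟨x, hx, by rw [← hxe, neg_neg]⟩
    rw [h5, sub_neg_eq_add]
    exact hw1' θ
  · rw [← hRfr, image_image]
    refine image_congr fun t ht => ?_
    rw [hrep t ht]
    rfl

end Pool.Agent.Y508.FP
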