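import Pool.Agent.Y508.FP.Stm2
import Pool.Agent.Y508.FP.Fn

/-!
The quantitative inequality for closed curves.
-/

set_option autoImplicit false
open MeasureTheory Metric Set Filter Topology
open Real (sin cos)

namespace Pool.Agent.Y508.FP
open Pool.Agent.Y508

/-- the diameter of a closed curve is at most one half of its length -/
theorem two_dist_le {E : Type*} [PseudoMetricSpace E] {γ : ℝ → E} {ℓ : ℝ} (hℓ : 0 ≤ ℓ)
    (h01 : γ 0 = γ 1) (hlen : eVariationOn γ (Icc 0 1) ≤ ENNReal.ofReal ℓ) :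
    ∀ s ∈ Icc (0 : ℝ) 1, ∀ t ∈ Icc (0 : ℝ) 1, 2 * dist (γ s) (γ t) ≤ ℓ := by
  have key : ∀ s t : ℝ, 0 ≤ s → s ≤ t → t ≤ 1 → 2 * dist (γ s) (γ t) ≤ ℓ := by
    intro s t h0 hst h1
    have e1 := eVariationOn.Icc_add_Icc γ (s := univ) h0 (hst.trans h1) (mem_univ s)
    have e2 := eVariationOn.Icc_add_Icc γ (s := univ) hst h1 (mem_univ t)
    simp only [univ_inter] at e1 e2
    have f1 : edist (γ 0) (γ s) ≤ eVariationOn γ (Icc 0 s) :=
      eVariationOn.edist_le γ ⟨le_refl _, h0⟩ ⟨h0, le_refl _⟩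
    have f2 : edist (γ s) (γ t) ≤ eVariationOn γ (Icc s t) :=
      eVariationOn.edist_le γ ⟨le_refl _, hst⟩ ⟨hst, le_refl _⟩
    have f3 : edist (γ t) (γ 1) ≤ eVariationOn γ (Icc t 1) :=
      eVariationOn.edist_le γ ⟨le_refl _, h1⟩ ⟨h1, le_refl _⟩
    have f4 : edist (γ 0) (γ s) + (edist (γ s) (γ t) + edist (γ t) (γ 1)) ≤ ENNReal.ofReal ℓ := by
      refine le_trans ?_ hlen
      rw [← e1, ← e2]
      exact add_le_add f1 (add_le_add f2 f3)
    rw [edist_dist, edist_dist, edist_dist, ← ENNReal.ofReal_add dist_nonneg dist_nonneg,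
      ← ENNReal.ofReal_add dist_nonneg (by positivity), ENNReal.ofReal_le_ofReal_iff hℓ] at f4
    have f5 := dist_triangle (γ s) (γ 0) (γ t)
    rw [dist_comm (γ s) (γ 0), h01, dist_comm (γ 1) (γ t)] at f5
    rw [h01] at f4
    linarith
  intro s hs t ht
  rcases le_total s t with h | h
  · exact key s t hs.1 h ht.2
  · rw [dist_comm]
    exact key t s ht.1 h hs.2

theorem quant (hA : Apx2Stm) (hL : Lim2Stm)
    (hP : ∀ K : Set E2, IsCompact K → Convex ℝ K → K.Nonempty →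
      (∃ (m : E2) (r : ℝ), r < 1 ∧ K ⊆ closedBall m r) →
      (∀ x ∈ frontier K, ∃ y ∈ K, 1 ≤ dist x y) →
      ∀ θ, |hs K θ + hs K (θ + Real.pi) - 1| ^ 5 ≤ 320 * (W K - Real.pi))
    (d : ℕ) (γ : ℝ → EuclideanSpace ℝ (Fin d)) (hc : ContinuousOn γ (Icc 0 1)) (h01 : γ 0 = γ 1)
    (hlen : eVariationOn γ (Icc 0 1) = ENNReal.ofReal Real.pi) (m : ℝ) (hm0 : 0 ≤ m) (hm1 : m ≤ 1)
    (hm : ∀ x ∈ γ '' Icc 0 1, ∃ y ∈ γ '' Icc 0 1, m ≤ dist x y) :
    ∀ x ∈ γ '' Icc 0 1, ∀ y ∈ γ '' Icc 0 1, m ≤ dist x y → m + ((dist x y - m) / 4) ^ 5 ≤ 1 := by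
  rintro _ ⟨s, hs', rfl⟩ _ ⟨t, ht', rfl⟩ hxy
  have hpi := Real.pi_pos
  have hpi2 := Real.pi_lt_d2
  have hdi := two_dist_le hpi.le h01 hlen.le s hs' t ht'
  rcases le_or_gt m (Real.pi / 4) with h4 | h4
  · have e1 : (dist (γ s) (γ t) - m) / 4 ≤ 2 / 5 := by linarith
    have e2 : ((dist (γ s) (γ t) - m) / 4) ^ 5 ≤ (2 / 5) ^ 5 :=
      pow_le_pow_left₀ (by linarith) e1 5
    have e3 : ((2 : ℝ) / 5) ^ 5 ≤ 1 / 90 := by norm_num
    linarith
  have hmp : 0 < m := by linarith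
  obtain ⟨γ', hγ'⟩ : ∃ γ' : ℝ → EuclideanSpace ℝ (Fin d), γ' = fun t => m⁻¹ • γ t := ⟨_, rfl⟩
  have hdist : ∀ a b, dist (γ' a) (γ' b) = dist (γ a) (γ b) / m := by
    intro a b
    rw [hγ', dist_smul₀, Real.norm_eq_abs, abs_of_pos (inv_pos.2 hmp)]
    field_simp
  have hlip : LipschitzWith (Real.toNNReal m⁻¹)
      (fun v : EuclideanSpace ℝ (Fin d) => m⁻¹ • v) := by
    apply LipschitzWith.of_dist_le_mul
    intro a b
    rw [dist_smul₀, Real.norm_eq_abs, abs_of_pos (inv_pos.2 hmp), Real.coe_toNNReal _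
      (inv_pos.2 hmp).le]
  have hlen2 : eVariationOn γ' (Icc 0 1) ≤ ENNReal.ofReal (Real.pi / m) := by
    have e1 := (hlip.lipschitzOnWith (s := univ)).comp_eVariationOn_le (f := fun v => m⁻¹ • v)
      (g := γ) (s := Icc 0 1) (mapsTo_univ _ _)
    have e2 : ((fun v : EuclideanSpace ℝ (Fin d) => m⁻¹ • v) ∘ γ) = γ' := by
      rw [hγ']
      rfl
    rw [e2] at e1
    refine e1.trans (le_of_eq ?_)
    rw [hlen, div_eq_inv_mul, ENNReal.ofReal_mul (inv_pos.2 hmp).le]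
    rfl
  have hc' : ContinuousOn γ' (Icc 0 1) := by
    rw [hγ']
    exact hc.const_smul (m⁻¹ : ℝ)
  have h01' : γ' 0 = γ' 1 := by
    rw [hγ']
    simp only [h01]
  have hfar : ∀ s ∈ Icc (0 : ℝ) 1, ∃ t ∈ Icc (0 : ℝ) 1, 1 ≤ dist (γ' s) (γ' t) := by
    intro a ha
    obtain ⟨_, ⟨b, hb, rfl⟩, h⟩ := hm _ ⟨a, ha, rfl⟩
    refine ⟨b, hb, ?_⟩
    rw [hdist, le_div_iff₀ hmp, one_mul]
    exact h
  have hCc : IsCompact (γ' '' Icc 0 1) := isCompact_Icc.image_of_continuousOn hc'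
  obtain ⟨T, c, hT, hsur⟩ := hL d (γ' '' Icc 0 1) (Real.pi / m) (by positivity) hCc
    (hA d γ' (Real.pi / m) (by positivity) hc' h01' hlen2 hfar)
  have hK : IsCompact (convexHull ℝ T) := Fn.compact_hull hT.cpt
  have h1 := hP (convexHull ℝ T) hK (convex_convexHull ℝ T) hT.ne.convexHull
    ⟨0, Real.pi / m / 4, by
      rw [div_div, div_lt_one (by positivity)]
      linarith, convexHull_min hT.bd (convex_closedBall _ _)⟩ (by
        intro x hx
        obtain ⟨q, hq, h3⟩ := hT.far x (hT.fr hx)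
        exact ⟨q, subset_convexHull ℝ T hq, h3.trans (hT.lip x (hT.fr hx) q hq)⟩)
  obtain ⟨p, hp, hps⟩ := hsur (γ' s) ⟨s, hs', rfl⟩
  obtain ⟨q, hq, hqt⟩ := hsur (γ' t) ⟨t, ht', rfl⟩
  have h2 : dist (γ s) (γ t) / m ≤ dist p q := by
    rw [← hdist, ← hps, ← hqt]
    exact hT.lip p hp q hq
  obtain ⟨θ, hθ⟩ : ∃ θ : ℝ, p - q = ‖p - q‖ • ev θ := by
    by_cases h0 : p - q = 0
    · exact ⟨0, by rw [h0, norm_zero, zero_smul]⟩
    · exact exists_pos_ev (p - q) h0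
  have h3 : ip (p - q) θ = dist p q := by
    rw [hθ, ip_smul, ip_ev, sub_self, Real.cos_zero, mul_one, dist_eq_norm]
  have h5 := le_hs hK (subset_convexHull ℝ T hp) θ
  have h6 := le_hs hK (subset_convexHull ℝ T hq) (θ + Real.pi)
  rw [ip_add_pi] at h6
  rw [ip_sub] at h3
  have h7 : dist (γ s) (γ t) / m - 1 ≤
      |hs (convexHull ℝ T) θ + hs (convexHull ℝ T) (θ + Real.pi) - 1| := by
    refine le_trans ?_ (le_abs_self _)
    linarith
  have h8 : 0 ≤ dist (γ s) (γ t) / m - 1 := by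
    have : 1 ≤ dist (γ s) (γ t) / m := by
      rw [le_div_iff₀ hmp, one_mul]
      exact hxy
    linarith
  have h9 := (pow_le_pow_left₀ h8 h7 5).trans (h1 θ)
  have h10 : (dist (γ s) (γ t) / m - 1) ^ 5 ≤ 320 * (Real.pi / m - Real.pi) := by
    have := hT.per
    linarith
  have h11 : (dist (γ s) (γ t) / m - 1) = (dist (γ s) (γ t) - m) / m := by
    field_simp
  rw [h11, div_pow, div_le_iff₀ (by positivity)] at h10
  have h12 : 320 * (Real.pi / m - Real.pi) * m ^ 5 = 320 * Real.pi * (m ^ 4 * (1 - m)) := by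
    field_simp
  rw [h12] at h10
  have h13 : m ^ 4 * (1 - m) ≤ 1 - m := by
    have : m ^ 4 ≤ 1 := pow_le_one₀ hm0 hm1
    nlinarith
  have h14 : 320 * Real.pi * (m ^ 4 * (1 - m)) ≤ 1024 * (1 - m) := by
    have h15 : 0 ≤ m ^ 4 * (1 - m) := mul_nonneg (by positivity) (by linarith)
    nlinarith
  have h16 : ((dist (γ s) (γ t) - m) / 4) ^ 5 = (dist (γ s) (γ t) - m) ^ 5 / 1024 := by
    ring
  rw [h16]
  have h17 := h10.trans h14
  linarith

end Pool.Agent.Y508.FP
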