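import Pool.Agent.Y508.FP.Stm

/-!
# The lower bound of the gap integral
-/

set_option autoImplicit false
open MeasureTheory Metric Set Filter Topology
open Real (sin cos)

namespace Pool.Agent.Y508.FP
open Pool.Agent.Y508

namespace RB

/-- concavity of the sine -/
theorem sin_conc {s y : ℝ} (hs : 0 ≤ s) (hsy : s ≤ y) (hy : 0 < y) (hy2 : y < Real.pi / 2) :
    s * sin y ≤ y * sin s := by
  have h0 : (0 : ℝ) ∈ Icc (0 : ℝ) Real.pi := ⟨le_rfl, Real.pi_pos.le⟩
  have h1 : y ∈ Icc (0 : ℝ) Real.pi := ⟨hy.le, by linarith [Real.pi_pos]⟩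
  have ha : (0 : ℝ) ≤ 1 - s / y := by rw [sub_nonneg, div_le_one hy]; exact hsy
  have hb : (0 : ℝ) ≤ s / y := div_nonneg hs hy.le
  have hab : 1 - s / y + s / y = 1 := by ring
  have h := strictConcaveOn_sin_Icc.concaveOn.2 h0 h1 ha hb hab
  simp only [Real.sin_zero, smul_eq_mul, mul_zero, zero_add] at h
  have h1 : s / y * y = s := div_mul_cancel₀ s hy.ne'
  rw [h1] at h
  have h2 : y * (s / y * sin y) ≤ y * sin s := mul_le_mul_of_nonneg_left h hy.le
  have h3 : y * (s / y * sin y) = s * sin y := by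
    field_simp
  rwa [h3] at h2

/-- `4 y ≤ π (2 - cos y)` on `[0, π / 2]` -/
theorem pi_bound {y : ℝ} (hy2 : y < Real.pi / 2) : 4 * y ≤ Real.pi * (2 - cos y) := by
  have hz : 0 < Real.pi / 2 - y := by linarith
  have h1 : cos y = sin (Real.pi / 2 - y) := (Real.sin_pi_div_two_sub y).symm
  have h2 : sin (Real.pi / 2 - y) ≤ Real.pi / 2 - y := Real.sin_le hz.le
  have h3 : Real.pi ≤ 4 := Real.pi_le_four
  have h4 : Real.pi * cos y ≤ 4 * (Real.pi / 2 - y) := by
    rw [h1]
    calc Real.pi * sin (Real.pi / 2 - y) ≤ Real.pi * (Real.pi / 2 - y) :=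
          mul_le_mul_of_nonneg_left h2 Real.pi_pos.le
      _ ≤ 4 * (Real.pi / 2 - y) := mul_le_mul_of_nonneg_right h3 hz.le
  linarith

/-- `y cos y ≤ sin y` -/
theorem ycos {y : ℝ} (hy : 0 < y) (hy2 : y < Real.pi / 2) : y * cos y ≤ sin y := by
  have h := (Real.lt_tan hy hy2).le
  have hc : 0 < cos y := Real.cos_pos_of_mem_Ioo ⟨by linarith, hy2⟩
  rw [Real.tan_eq_sin_div_cos, le_div_iff₀ hc] at h
  exact h

/-- the data of the statement -/
structure Dat (κ ρ : ℝ → ℝ) (y : ℝ) : Prop where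
  y0 : 0 < y
  y1 : y < Real.pi / 2
  cκ : Continuous κ
  κ0 : ∀ t, 0 ≤ κ t
  κp : ∀ t, κ (t + 2 * Real.pi) = κ t
  mρ : Measurable ρ
  ρp : ∀ t, ρ (t + 2 * Real.pi) = ρ t
  ρ01 : ∀ᵐ t, 0 ≤ ρ t ∧ ρ t ≤ 1
  gap : ∀ θ, κ θ ≠ 0 → ∃ a b : ℝ, a < θ ∧ θ < b ∧ b - a < Real.pi ∧ κ a = 0 ∧ κ b = 0 ∧
    (∀ φ ∈ Ioo a b, κ φ ≠ 0 ∧ ρ φ = 0) ∧
    ∀ φ ∈ Icc a b, κ φ ≤ 1 - cos (φ - a) ∧ κ φ ≤ 1 - cos (b - φ)
  ρi : (∫ t in (0 : ℝ)..(2 * Real.pi), ρ t) ≤ Real.pi * cos y
  ρc : ∀ ψ : ℝ, (∫ t in (0 : ℝ)..(2 * Real.pi), ρ t * cos (t - ψ)) = 0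

variable {κ ρ : ℝ → ℝ} {y : ℝ}

/-- the integrand -/
noncomputable def F1 (κ ρ : ℝ → ℝ) (y : ℝ) (t : ℝ) : ℝ := (1 - ρ t) * max 0 (1 - cos y - κ t)

theorem Dat.gaps (h : Dat κ ρ y) {a b : ℝ} (ha : κ a = 0) (hb : κ b = 0) (hab : a < b)
    (hn : ∀ t ∈ Ioo a b, κ t ≠ 0) :
    b - a < Real.pi ∧ (∀ φ ∈ Ioo a b, ρ φ = 0) ∧
      ∀ φ ∈ Icc a b, κ φ ≤ 1 - cos (φ - a) ∧ κ φ ≤ 1 - cos (b - φ) := by
  have hm : (a + b) / 2 ∈ Ioo a b := ⟨by linarith, by linarith⟩
  obtain ⟨a', b', h1, h2, h3, h4, h5, h6, h7⟩ := h.gap ((a + b) / 2) (hn _ hm)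
  have haa : a' = a := by
    rcases lt_trichotomy a' a with hlt | heq | hgt
    · exact absurd ha (h6 a ⟨hlt, by linarith [hm.1]⟩).1
    · exact heq
    · exact absurd h4 (hn a' ⟨hgt, by linarith [hm.2]⟩)
  have hbb : b' = b := by
    rcases lt_trichotomy b' b with hlt | heq | hgt
    · exact absurd h5 (hn b' ⟨by linarith [hm.1], hlt⟩)
    · exact heq
    · exact absurd hb (h6 b ⟨by linarith [hm.2], hgt⟩).1
  subst haa hbb
  exact ⟨h3, fun φ hφ => (h6 φ hφ).2, h7⟩

theorem Dat.iρ (h : Dat κ ρ y) (a b : ℝ) : IntervalIntegrable ρ volume a b := by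
  refine (intervalIntegrable_const (c := (1 : ℝ))).mono_fun' h.mρ.aestronglyMeasurable ?_
  refine ae_restrict_of_ae ?_
  filter_upwards [h.ρ01] with t ht
  rw [Real.norm_eq_abs, abs_of_nonneg ht.1]
  exact ht.2

theorem Dat.i1 (h : Dat κ ρ y) (a b : ℝ) : IntervalIntegrable (fun t => 1 - ρ t) volume a b :=
  intervalIntegrable_const.sub (h.iρ a b)

theorem Dat.iF (h : Dat κ ρ y) (a b : ℝ) : IntervalIntegrable (F1 κ ρ y) volume a b :=
  (h.i1 a b).mul_continuousOn
    ((continuous_const.max (continuous_const.sub h.cκ)).continuousOn)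

theorem Dat.ic (h : Dat κ ρ y) (m a b : ℝ) :
    IntervalIntegrable (fun t => (1 - ρ t) * cos (t - m)) volume a b :=
  (h.i1 a b).mul_continuousOn (by fun_prop)

theorem Dat.F0 (h : Dat κ ρ y) : ∀ᵐ t, 0 ≤ F1 κ ρ y t := by
  filter_upwards [h.ρ01] with t ht
  exact mul_nonneg (by linarith [ht.2]) (le_max_left _ _)

theorem Dat.Fn (h : Dat κ ρ y) {a b : ℝ} (hab : a ≤ b) : 0 ≤ ∫ t in a..b, F1 κ ρ y t :=
  intervalIntegral.integral_nonneg_of_ae hab h.F0

/-- the integral over a gap -/
theorem Dat.gapint (h : Dat κ ρ y) {a b s : ℝ} (ha : κ a = 0) (hb : κ b = 0) (hab : a < b)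
    (hn : ∀ t ∈ Ioo a b, κ t ≠ 0) (hs : 0 ≤ s) (hsb : s ≤ (b - a) / 2) :
    2 * (sin s - s * cos y) ≤ ∫ t in a..b, F1 κ ρ y t := by
  obtain ⟨-, h2, h3⟩ := h.gaps ha hb hab hn
  have e1 : ∫ t in a..(a + s), (cos (t - a) - cos y) = sin s - s * cos y := by
    rw [intervalIntegral.integral_sub (Continuous.intervalIntegrable (by fun_prop) _ _)
      intervalIntegrable_const, intervalIntegral.integral_comp_sub_right (fun t => cos t) a,
      integral_cos, intervalIntegral.integral_const]
    simp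
  have e2 : ∫ t in (b - s)..b, (cos (b - t) - cos y) = sin s - s * cos y := by
    rw [intervalIntegral.integral_sub (Continuous.intervalIntegrable (by fun_prop) _ _)
      intervalIntegrable_const, intervalIntegral.integral_comp_sub_left (fun t => cos t) b,
      integral_cos, intervalIntegral.integral_const]
    simp
  have g1 : sin s - s * cos y ≤ ∫ t in a..(a + s), F1 κ ρ y t := by
    rw [← e1]
    refine intervalIntegral.integral_mono_on_of_le_Ioo (by linarith)
      (Continuous.intervalIntegrable (by fun_prop) _ _) (h.iF _ _) ?_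
    intro t ht
    have h4 : ρ t = 0 := h2 t ⟨ht.1, by linarith [ht.2]⟩
    have h5 := (h3 t ⟨ht.1.le, by linarith [ht.2]⟩).1
    have h6 : F1 κ ρ y t = max 0 (1 - cos y - κ t) := by
      simp only [F1, h4]
      ring
    rw [h6]
    exact le_trans (by linarith) (le_max_right _ _)
  have g2 : sin s - s * cos y ≤ ∫ t in (b - s)..b, F1 κ ρ y t := by
    rw [← e2]
    refine intervalIntegral.integral_mono_on_of_le_Ioo (by linarith)
      (Continuous.intervalIntegrable (by fun_prop) _ _) (h.iF _ _) ?_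
    intro t ht
    have h4 : ρ t = 0 := h2 t ⟨by linarith [ht.1], ht.2⟩
    have h5 := (h3 t ⟨by linarith [ht.1], ht.2.le⟩).2
    have h6 : F1 κ ρ y t = max 0 (1 - cos y - κ t) := by
      simp only [F1, h4]
      ring
    rw [h6]
    exact le_trans (by linarith) (le_max_right _ _)
  have g3 : 0 ≤ ∫ t in (a + s)..(b - s), F1 κ ρ y t := h.Fn (by linarith)
  have e3 : ∫ t in a..b, F1 κ ρ y t = (∫ t in a..(a + s), F1 κ ρ y t) +
      (∫ t in (a + s)..(b - s), F1 κ ρ y t) + ∫ t in (b - s)..b, F1 κ ρ y t := by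
    rw [intervalIntegral.integral_add_adjacent_intervals (h.iF _ _) (h.iF _ _),
      intervalIntegral.integral_add_adjacent_intervals (h.iF _ _) (h.iF _ _)]
  rw [e3]
  linarith

/-- periodicity -/
theorem Dat.per (h : Dat κ ρ y) (a : ℝ) :
    ∫ t in (0 : ℝ)..(2 * Real.pi), F1 κ ρ y t = ∫ t in a..(a + 2 * Real.pi), F1 κ ρ y t := by
  have hp : Function.Periodic (F1 κ ρ y) (2 * Real.pi) := by
    intro t
    simp only [F1, h.κp, h.ρp]
  have := hp.intervalIntegral_add_eq 0 a
  rwa [zero_add] at this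

theorem Dat.perρ (h : Dat κ ρ y) (a : ℝ) :
    ∫ t in a..(a + 2 * Real.pi), ρ t ≤ Real.pi * cos y := by
  have hp : Function.Periodic ρ (2 * Real.pi) := h.ρp
  have := hp.intervalIntegral_add_eq 0 a
  rw [zero_add] at this
  rw [← this]
  exact h.ρi

theorem Dat.perc (h : Dat κ ρ y) (a m : ℝ) :
    ∫ t in a..(a + 2 * Real.pi), (1 - ρ t) * cos (t - m) = 0 := by
  have hp : Function.Periodic (fun t => (1 - ρ t) * cos (t - m)) (2 * Real.pi) := by
    intro t
    simp only [h.ρp]
    have : t + 2 * Real.pi - m = (t - m) + 2 * Real.pi := by ring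
    rw [this, Real.cos_add_two_pi]
  have e := hp.intervalIntegral_add_eq 0 a
  rw [zero_add] at e
  rw [← e]
  have e1 : (fun t => (1 - ρ t) * cos (t - m)) = fun t => cos (t - m) - ρ t * cos (t - m) := by
    funext t
    ring
  rw [e1, intervalIntegral.integral_sub (Continuous.intervalIntegrable (by fun_prop) _ _)
    ((h.iρ _ _).mul_continuousOn (by fun_prop)), h.ρc m,
    intervalIntegral.integral_comp_sub_right (fun t => cos t) m, integral_cos]
  have : 2 * Real.pi - m = (0 - m) + 2 * Real.pi := by ring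
  rw [this, Real.sin_add_two_pi]
  ring

end RB

open RB

theorem rb (hG : GapSumStm) : RStm := by
  intro κ ρ y y0 y1 cκ κ0 κp mρ ρp ρ01 gap ρi ρc
  have h : Dat κ ρ y := ⟨y0, y1, cκ, κ0, κp, mρ, ρp, ρ01, gap, ρi, ρc⟩
  change 4 * (sin y - y * cos y) ≤ ∫ t in (0 : ℝ)..(2 * Real.pi), F1 κ ρ y t
  have hpi := Real.pi_pos
  have hcl : IsClosed {t : ℝ | κ t = 0} := isClosed_eq cκ continuous_const
  obtain ⟨α, hα⟩ : ∃ α, κ α = 0 := by
    by_cases h0 : κ 0 = 0
    · exact ⟨0, h0⟩
    · obtain ⟨a, b, -, -, -, h4, -⟩ := gap 0 h0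
      exact ⟨a, h4⟩
  have hcy : 0 < cos y := Real.cos_pos_of_mem_Ioo ⟨by linarith, y1⟩
  have hsy : 0 < sin y := Real.sin_pos_of_pos_of_lt_pi y0 (by linarith)
  have hyc : y * cos y ≤ sin y := ycos y0 y1
  have hsly : sin y ≤ y := Real.sin_le y0.le
  by_cases hC : ∃ a b : ℝ, κ a = 0 ∧ κ b = 0 ∧ a < b ∧ (∀ t ∈ Ioo a b, κ t ≠ 0) ∧ 2 * y < b - a
  · -- a long gap
    obtain ⟨a, b, ha, hb, hab, hn, hlen⟩ := hC
    obtain ⟨hg1, hg2, -⟩ := h.gaps ha hb hab hn
    have ha2 : κ (a + 2 * Real.pi) = 0 := by rw [κp, ha]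
    have hba : b ≤ a + 2 * Real.pi := by linarith
    rw [h.per a, ← intervalIntegral.integral_add_adjacent_intervals (h.iF a b) (h.iF b _)]
    have q1 := h.gapint ha hb hab hn y0.le (by linarith)
    suffices hq : 2 * (sin y - y * cos y) ≤ ∫ t in b..(a + 2 * Real.pi), F1 κ ρ y t by linarith
    by_cases hD : ∃ a' b' : ℝ, κ a' = 0 ∧ κ b' = 0 ∧ a' < b' ∧ (∀ t ∈ Ioo a' b', κ t ≠ 0) ∧
        2 * y < b' - a' ∧ b ≤ a' ∧ b' ≤ a + 2 * Real.pi
    · obtain ⟨a', b', ha', hb', hab', hn', hlen', hba', hba''⟩ := hD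
      have q2 := h.gapint ha' hb' hab' hn' y0.le (by linarith)
      have q3 := h.Fn hba'
      have q4 := h.Fn hba''
      have e3 : ∫ t in b..(a + 2 * Real.pi), F1 κ ρ y t = (∫ t in b..a', F1 κ ρ y t) +
          (∫ t in a'..b', F1 κ ρ y t) + ∫ t in b'..(a + 2 * Real.pi), F1 κ ρ y t := by
        rw [intervalIntegral.integral_add_adjacent_intervals (h.iF _ _) (h.iF _ _),
          intervalIntegral.integral_add_adjacent_intervals (h.iF _ _) (h.iF _ _)]
      rw [e3]
      linarith
    · set la : ℝ := 1 - y * cos y / sin y with hla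
      have la0 : 0 ≤ la := by
        rw [hla, sub_nonneg, div_le_one hsy]
        exact hyc
      have lac : la ≤ 1 - cos y := by
        rw [hla]
        have : cos y ≤ y * cos y / sin y := by
          rw [le_div_iff₀ hsy]
          nlinarith
        linarith
      have las : la * sin y = sin y - y * cos y := by
        rw [hla]
        field_simp
      have lag : ∀ s, 0 ≤ s → s ≤ y → la * sin s ≤ sin s - s * cos y := by
        intro s hs0 hs1
        have h1 := sin_conc hs0 hs1 y0 y1
        have h2 : s * cos y ≤ y * cos y / sin y * sin s := by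
          rw [div_mul_eq_mul_div, le_div_iff₀ hsy]
          nlinarith
        rw [hla]
        linarith
      set m : ℝ := (a + b) / 2 with hm
      have key : 0 ≤ ∫ t in b..(a + 2 * Real.pi),
          (F1 κ ρ y t + la * ((1 - ρ t) * cos (t - m))) := by
        refine hG {t : ℝ | κ t = 0} _ b (a + 2 * Real.pi) hcl hb ha2 hba
          ((h.iF _ _).add ((h.ic m _ _).const_mul la)) ?_ ?_
        · filter_upwards [ρ01] with t ht hS _ _
          have hS' : κ t = 0 := hS
          simp only [F1, hS', sub_zero]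
          rw [max_eq_right (by linarith [Real.cos_le_one y])]
          have h1 : 0 ≤ 1 - ρ t := by linarith [ht.2]
          have h2 : 0 ≤ 1 - cos y + la * cos (t - m) := by
            nlinarith [Real.neg_one_le_cos (t - m)]
          nlinarith [mul_nonneg h1 h2]
        · intro a' b' ha' hb' hba' hab' hbb' hn'
          have hn'' : ∀ t ∈ Ioo a' b', κ t ≠ 0 := fun t ht => hn' t ht
          obtain ⟨hg1', hg2', -⟩ := h.gaps ha' hb' hab' hn''
          have hlen' : b' - a' ≤ 2 * y := by
            by_contra hcon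
            exact hD ⟨a', b', ha', hb', hab', hn'', not_le.1 hcon, hba', hbb'⟩
          rw [intervalIntegral.integral_add (h.iF _ _) ((h.ic m _ _).const_mul la),
            intervalIntegral.integral_const_mul]
          have q2 := h.gapint ha' hb' hab' hn'' (s := (b' - a') / 2) (by linarith) le_rfl
          have q3 := lag ((b' - a') / 2) (by linarith) (by linarith)
          have e4 : ∫ t in a'..b', (1 - ρ t) * cos (t - m) = ∫ t in a'..b', cos (t - m) := by
            refine intervalIntegral.integral_congr_ae ?_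
            have : ∀ᵐ t : ℝ, t ≠ b' := by
              simp [ae_iff, measure_singleton]
            filter_upwards [this] with t htb ht
            rw [uIoc_of_le hab'.le] at ht
            rw [hg2' t ⟨ht.1, lt_of_le_of_ne ht.2 htb⟩]
            ring
          have e5 : ∫ t in a'..b', cos (t - m) =
              2 * (sin ((b' - a') / 2) * cos ((a' + b') / 2 - m)) := by
            rw [intervalIntegral.integral_comp_sub_right (fun t => cos t) m, integral_cos]
            rw [Real.sin_sub_sin]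
            have i1 : (b' - m - (a' - m)) / 2 = (b' - a') / 2 := by ring
            have i2 : (b' - m + (a' - m)) / 2 = (a' + b') / 2 - m := by ring
            rw [i1, i2]
            ring
          rw [e4, e5]
          have hs0 : 0 ≤ sin ((b' - a') / 2) :=
            Real.sin_nonneg_of_nonneg_of_le_pi (by linarith) (by linarith)
          have hc1 := Real.neg_one_le_cos ((a' + b') / 2 - m)
          have h5 : 0 ≤ la * sin ((b' - a') / 2) := mul_nonneg la0 hs0
          nlinarith [mul_nonneg h5 (by linarith : (0 : ℝ) ≤ cos ((a' + b') / 2 - m) + 1)]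
      rw [intervalIntegral.integral_add (h.iF _ _) ((h.ic m _ _).const_mul la),
        intervalIntegral.integral_const_mul] at key
      have e6 := h.perc a m
      rw [← intervalIntegral.integral_add_adjacent_intervals (h.ic m a b) (h.ic m b _)] at e6
      have e7 : ∫ t in a..b, (1 - ρ t) * cos (t - m) = ∫ t in a..b, cos (t - m) := by
        refine intervalIntegral.integral_congr_ae ?_
        have : ∀ᵐ t : ℝ, t ≠ b := by
          simp [ae_iff, measure_singleton]
        filter_upwards [this] with t htb ht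
        rw [uIoc_of_le hab.le] at ht
        rw [hg2 t ⟨ht.1, lt_of_le_of_ne ht.2 htb⟩]
        ring
      have e8 : ∫ t in a..b, cos (t - m) = 2 * sin ((b - a) / 2) := by
        rw [intervalIntegral.integral_comp_sub_right (fun t => cos t) m, integral_cos]
        have i1 : b - m = (b - a) / 2 := by rw [hm]; ring
        have i2 : a - m = -((b - a) / 2) := by rw [hm]; ring
        rw [i1, i2, Real.sin_neg]
        ring
      have hmono : sin y ≤ sin ((b - a) / 2) :=
        Real.sin_le_sin_of_le_of_le_pi_div_two (by linarith) (by linarith) (by linarith)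
      rw [e7, e8] at e6
      have h9 : la * sin y ≤ la * sin ((b - a) / 2) := mul_le_mul_of_nonneg_left hmono la0
      have h10 : ∫ t in b..(a + 2 * Real.pi), (1 - ρ t) * cos (t - m) = -(2 * sin ((b - a) / 2)) := by
        linarith
      rw [h10] at key
      nlinarith
  · -- all gaps are short
    set l2 : ℝ := sin y / y - cos y with hl2
    have l0 : 0 ≤ l2 := by
      rw [hl2, sub_nonneg, le_div_iff₀ y0]
      linarith
    have lc : l2 ≤ 1 - cos y := by
      rw [hl2]
      have : sin y / y ≤ 1 := by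
        rw [div_le_one y0]
        exact hsly
      linarith
    have ly : l2 * y = sin y - y * cos y := by
      rw [hl2]
      field_simp
    have lg : ∀ s, 0 ≤ s → s ≤ y → l2 * s ≤ sin s - s * cos y := by
      intro s hs0 hs1
      have h1 := sin_conc hs0 hs1 y0 y1
      have h2 : sin y / y * s ≤ sin s := by
        rw [div_mul_eq_mul_div, div_le_iff₀ y0]
        nlinarith
      rw [hl2]
      linarith
    have hα2 : κ (α + 2 * Real.pi) = 0 := by rw [κp, hα]
    have key : 0 ≤ ∫ t in α..(α + 2 * Real.pi), (F1 κ ρ y t - l2 * (1 - ρ t)) := by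
      refine hG {t : ℝ | κ t = 0} _ α (α + 2 * Real.pi) hcl hα hα2 (by linarith)
        ((h.iF _ _).sub ((h.i1 _ _).const_mul l2)) ?_ ?_
      · filter_upwards [ρ01] with t ht hS _ _
        have hS' : κ t = 0 := hS
        simp only [F1, hS', sub_zero]
        rw [max_eq_right (by linarith [Real.cos_le_one y])]
        have h1 : 0 ≤ 1 - ρ t := by linarith [ht.2]
        nlinarith [mul_nonneg h1 (by linarith : (0 : ℝ) ≤ 1 - cos y - l2)]
      · intro a' b' ha' hb' hba' hab' hbb' hn'
        have hn'' : ∀ t ∈ Ioo a' b', κ t ≠ 0 := fun t ht => hn' t ht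
        obtain ⟨hg1', hg2', -⟩ := h.gaps ha' hb' hab' hn''
        have hlen' : b' - a' ≤ 2 * y := by
          by_contra hcon
          exact hC ⟨a', b', ha', hb', hab', hn'', not_le.1 hcon⟩
        rw [intervalIntegral.integral_sub (h.iF _ _) ((h.i1 _ _).const_mul l2),
          intervalIntegral.integral_const_mul]
        have q2 := h.gapint ha' hb' hab' hn'' (s := (b' - a') / 2) (by linarith) le_rfl
        have q3 := lg ((b' - a') / 2) (by linarith) (by linarith)
        have e4 : ∫ t in a'..b', (1 - ρ t) = ∫ t in a'..b', (1 : ℝ) := by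
          refine intervalIntegral.integral_congr_ae ?_
          have : ∀ᵐ t : ℝ, t ≠ b' := by
            simp [ae_iff, measure_singleton]
          filter_upwards [this] with t htb ht
          rw [uIoc_of_le hab'.le] at ht
          rw [hg2' t ⟨ht.1, lt_of_le_of_ne ht.2 htb⟩]
          ring
        rw [e4, intervalIntegral.integral_const, smul_eq_mul, mul_one]
        linarith
    rw [intervalIntegral.integral_sub (h.iF _ _) ((h.i1 _ _).const_mul l2),
      intervalIntegral.integral_const_mul,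
      intervalIntegral.integral_sub intervalIntegrable_const (h.iρ _ _),
      intervalIntegral.integral_const, smul_eq_mul, mul_one] at key
    rw [h.per α]
    have h11 := h.perρ α
    have h12 := pi_bound y1
    have h13 : l2 * (4 * y) ≤ l2 * (2 * Real.pi - ∫ t in α..(α + 2 * Real.pi), ρ t) :=
      mul_le_mul_of_nonneg_left (by linarith) l0
    have h14 : α + 2 * Real.pi - α = 2 * Real.pi := by ring
    rw [h14] at key
    linarith

end Pool.Agent.Y508.FP
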