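import Pool.Agent.Y508.FP.Stm

/-!
# Rigidity in the case of constant width (job FP-RIG, by helper564)
-/

set_option autoImplicit false
open MeasureTheory Metric Set Filter Topology
open Real (sin cos)

namespace Pool.Agent.Y508.FP
open Pool.Agent.Y508

namespace Rig

/-- support points -/
def Sp (K : Set E2) (θ : ℝ) (y : E2) : Prop := y ∈ K ∧ ip y θ = hs K θ

theorem ip_norm {v : E2} {θ : ℝ} (h : v = ‖v‖ • ev θ) : ip v θ = ‖v‖ := by
  have : ip v θ = ip (‖v‖ • ev θ) θ := by rw [← h]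
  rw [this, ip_smul, ip_ev, sub_self, Real.cos_zero, mul_one]

section body

variable {K : Set E2} (hK : IsCompact K) (hw : ∀ θ, hs K θ + hs K (θ + Real.pi) = 1)

include hK hw

theorem diam {p q : E2} (hp : p ∈ K) (hq : q ∈ K) : ‖p - q‖ ≤ 1 := by
  by_cases h : p - q = 0
  · rw [h, norm_zero]; exact zero_le_one
  obtain ⟨θ, hθ⟩ := exists_pos_ev (p - q) h
  have h1 := ip_norm hθ
  rw [ip_sub] at h1
  have h2 := le_hs hK hp θ
  have h3 := le_hs hK hq (θ + Real.pi)
  rw [ip_add_pi] at h3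
  have h4 := hw θ
  linarith

theorem sp_diff {θ : ℝ} {y y' : E2} (hy : Sp K θ y) (hy' : Sp K (θ + Real.pi) y') :
    y - y' = ev θ := by
  have h1 := diam hK hw hy.1 hy'.1
  have h2 : ip (y - y') θ = 1 := by
    have h3 := hy'.2
    rw [ip_add_pi] at h3
    rw [ip_sub, hy.2]
    linarith [hw θ]
  have h3 : ‖(y - y') - ev θ‖ ^ 2 ≤ 0 := by
    rw [norm_sub_sq_real, inner_ev, h2, norm_ev]
    nlinarith [norm_nonneg (y - y')]
  have h4 : ‖(y - y') - ev θ‖ = 0 := by
    have := norm_nonneg ((y - y') - ev θ)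
    nlinarith
  exact sub_eq_zero.1 (norm_eq_zero.1 h4)

theorem unit_diff {p q : E2} (hp : p ∈ K) (hq : q ∈ K) (h : 1 ≤ ‖p - q‖) :
    ∃ φ : ℝ, p - q = ev φ ∧ Sp K φ p ∧ Sp K (φ + Real.pi) q := by
  have h1 : ‖p - q‖ = 1 := le_antisymm (diam hK hw hp hq) h
  obtain ⟨φ, hφ⟩ := exists_ev (p - q) h1
  have h2 : ip (p - q) φ = 1 := by rw [hφ, ip_ev, sub_self, Real.cos_zero]
  rw [ip_sub] at h2
  have h3 := le_hs hK hp φ
  have h4 := le_hs hK hq (φ + Real.pi)
  have h5 := ip_add_pi q φ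
  have h6 := hw φ
  exact ⟨φ, hφ, ⟨hp, by linarith⟩, ⟨hq, by linarith⟩⟩

omit hw in
theorem sp_arc {a b ψ : ℝ} {y : E2} (ha : Sp K a y) (hb : Sp K b y) (h1 : a ≤ ψ) (h2 : ψ ≤ b)
    (h3 : b - a < Real.pi) : Sp K ψ y := by
  rcases h1.eq_or_lt with h | h
  · rw [← h]; exact ha
  refine ⟨ha.1, le_antisymm (le_hs hK ha.1 ψ) ?_⟩
  refine hs_le ⟨y, ha.1⟩ fun x hx => ?_
  have h4 := ip_arc (y - x) a b ψ
  have h5 : 0 < sin (b - a) := Real.sin_pos_of_pos_of_lt_pi (by linarith) h3
  have h6 : 0 ≤ sin (b - ψ) := Real.sin_nonneg_of_nonneg_of_le_pi (by linarith) (by linarith)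
  have h7 : 0 ≤ sin (ψ - a) := Real.sin_nonneg_of_nonneg_of_le_pi (by linarith) (by linarith)
  have h8 : 0 ≤ ip (y - x) a := by
    rw [ip_sub, ha.2]
    linarith [le_hs hK hx a]
  have h9 : 0 ≤ ip (y - x) b := by
    rw [ip_sub, hb.2]
    linarith [le_hs hK hx b]
  have h10 : 0 ≤ sin (b - a) * ip (y - x) ψ := by
    rw [h4]
    exact add_nonneg (mul_nonneg h6 h8) (mul_nonneg h7 h9)
  have h11 : 0 ≤ ip (y - x) ψ := by
    by_contra hcon
    push Not at hcon
    have := mul_neg_of_pos_of_neg h5 hcon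
    linarith
  rw [ip_sub] at h11
  linarith

end body

/-- the estimate of a vector in a cone -/
theorem cone {A : E2} {a b : ℝ} (hab : a < b) (hb : b - a < Real.pi) (h1 : ip A a ≤ 0)
    (h2 : 0 ≤ ip A b) : ‖A‖ * cos ((b - a) / 2) ≤ ip A ((a + b) / 2 + Real.pi / 2) := by
  obtain ⟨D, hD⟩ : ∃ D, D = (b - a) / 2 := ⟨_, rfl⟩
  obtain ⟨m, hm⟩ : ∃ m, m = (a + b) / 2 := ⟨_, rfl⟩
  obtain ⟨α, hα⟩ : ∃ α, α = ip A m := ⟨_, rfl⟩
  obtain ⟨β, hβ⟩ : ∃ β, β = ip A (m + Real.pi / 2) := ⟨_, rfl⟩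
  have hs0 : 0 < sin D := Real.sin_pos_of_pos_of_lt_pi (by rw [hD]; linarith) (by rw [hD]; linarith)
  have hc0 : 0 < cos D := Real.cos_pos_of_mem_Ioo ⟨by rw [hD]; linarith, by rw [hD]; linarith⟩
  have hβ' : β = -(A 0 * sin m) + A 1 * cos m := by
    rw [hβ]
    unfold ip
    rw [Real.cos_add_pi_div_two, Real.sin_add_pi_div_two]
    ring
  have hα' : α = A 0 * cos m + A 1 * sin m := hα
  have e1 : ip A a = α * cos D - β * sin D := by
    have : a = m - D := by rw [hm, hD]; ring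
    rw [this]
    unfold ip
    rw [Real.cos_sub, Real.sin_sub, hα', hβ']
    ring
  have e2 : ip A b = α * cos D + β * sin D := by
    have : b = m + D := by rw [hm, hD]; ring
    rw [this]
    unfold ip
    rw [Real.cos_add, Real.sin_add, hα', hβ']
    ring
  have e3 : ‖A‖ ^ 2 = α ^ 2 + β ^ 2 := by
    rw [norm_sq_E2, hα', hβ']
    have := Real.sin_sq_add_cos_sq m
    linear_combination (-(A 0 ^ 2) - A 1 ^ 2) * this
  rw [e1] at h1
  rw [e2] at h2
  have hβ0 : 0 ≤ β := by
    by_contra hcon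
    push Not at hcon
    have := mul_neg_of_neg_of_pos hcon hs0
    nlinarith
  have h3 : (α * cos D) ^ 2 ≤ (β * sin D) ^ 2 := by
    apply sq_le_sq'
    · linarith
    · linarith
  have h4 : (‖A‖ * cos D) ^ 2 ≤ β ^ 2 := by
    have := Real.sin_sq_add_cos_sq D
    calc (‖A‖ * cos D) ^ 2 = (α ^ 2 + β ^ 2) * cos D ^ 2 := by rw [mul_pow, e3]
      _ = (α * cos D) ^ 2 + β ^ 2 * cos D ^ 2 := by ring
      _ ≤ (β * sin D) ^ 2 + β ^ 2 * cos D ^ 2 := by linarith
      _ = β ^ 2 := by linear_combination β ^ 2 * this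
  rw [← hD, ← hm, ← hβ]
  exact le_of_sq_le_sq' h4 hβ0
where
  le_of_sq_le_sq' {x y : ℝ} (h : x ^ 2 ≤ y ^ 2) (hy : 0 ≤ y) : x ≤ y := by
    by_contra hcon
    push Not at hcon
    nlinarith

section pts

variable {K : Set E2} (hK : IsCompact K) (hw : ∀ θ, hs K θ + hs K (θ + Real.pi) = 1)
  {Y : ℝ → E2} (hY : ∀ θ, Sp K θ (Y θ))

include hK hw hY

theorem uniq {θ : ℝ} {y : E2} (hy : Sp K θ y) : y = Y θ := by
  have h1 := sp_diff hK hw hy (hY (θ + Real.pi))
  have h2 := sp_diff hK hw (hY θ) (hY (θ + Real.pi))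
  exact sub_left_injective (h1.trans h2.symm)

theorem per (θ : ℝ) : Y (θ + 2 * Real.pi) = Y θ := by
  apply uniq hK hw hY
  refine ⟨(hY _).1, ?_⟩
  have := (hY (θ + 2 * Real.pi)).2
  rwa [ip_two_pi, hs_two_pi] at this

theorem est {a b : ℝ} (hab : a < b) (hb : b - a < Real.pi) :
    (‖Y b - Y a‖ + ‖Y (a + Real.pi) - Y (b + Real.pi)‖) * cos ((b - a) / 2) ≤
      2 * sin ((b - a) / 2) := by
  have h1 := cone (A := Y b - Y a) hab hb
    (by rw [ip_sub, (hY a).2]; linarith [le_hs hK (hY b).1 a])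
    (by rw [ip_sub, (hY b).2]; linarith [le_hs hK (hY a).1 b])
  have h2 := cone (A := Y (a + Real.pi) - Y (b + Real.pi)) hab hb
    (by
      have e1 := (hY (a + Real.pi)).2
      have e2 := le_hs hK (hY (b + Real.pi)).1 (a + Real.pi)
      rw [← e1, ip_add_pi, ip_add_pi] at e2
      rw [ip_sub]
      linarith)
    (by
      have e1 := (hY (b + Real.pi)).2
      have e2 := le_hs hK (hY (a + Real.pi)).1 (b + Real.pi)
      rw [← e1, ip_add_pi, ip_add_pi] at e2
      rw [ip_sub]
      linarith)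
  have h3 : Y b - Y a + (Y (a + Real.pi) - Y (b + Real.pi)) = ev b - ev a := by
    rw [← sp_diff hK hw (hY a) (hY (a + Real.pi)), ← sp_diff hK hw (hY b) (hY (b + Real.pi))]
    abel
  have h4 : ip (Y b - Y a) ((a + b) / 2 + Real.pi / 2) +
      ip (Y (a + Real.pi) - Y (b + Real.pi)) ((a + b) / 2 + Real.pi / 2) =
      2 * sin ((b - a) / 2) := by
    rw [← ip_add, h3, ip_sub, ip_ev, ip_ev]
    have e1 : (a + b) / 2 + Real.pi / 2 - b = Real.pi / 2 - (b - a) / 2 := by ring
    have e2 : (a + b) / 2 + Real.pi / 2 - a = (b - a) / 2 + Real.pi / 2 := by ring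
    rw [e1, e2, Real.cos_pi_div_two_sub, Real.cos_add_pi_div_two]
    ring
  rw [add_mul]
  linarith

end pts

/-- Lipschitz estimate by subdivision -/
theorem subdiv {E : Type*} [NormedAddCommGroup E] {U : ℝ → E}
    (h : ∀ a b : ℝ, a < b → b - a < Real.pi →
      ‖U b - U a‖ * cos ((b - a) / 2) ≤ 2 * sin ((b - a) / 2)) :
    ∀ a b : ℝ, dist (U a) (U b) ≤ |a - b| := by
  have key : ∀ a b : ℝ, a < b → dist (U a) (U b) ≤ b - a := by
    intro a b hab
    have h1 : ∀ n : ℕ, 1 ≤ n → (b - a) / n < Real.pi →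
        dist (U a) (U b) * cos ((b - a) / (2 * n)) ≤
          (b - a) * (sin ((b - a) / (2 * n)) / ((b - a) / (2 * n))) := by
      intro n hn hlt
      have hn0 : (0 : ℝ) < n := by exact_mod_cast hn
      obtain ⟨δ, hδ⟩ : ∃ δ, δ = (b - a) / n := ⟨_, rfl⟩
      have hδ0 : 0 < δ := by rw [hδ]; exact div_pos (by linarith) hn0
      have e2 : (b - a) / (2 * n) = δ / 2 := by rw [hδ]; field_simp
      have hcos : 0 < cos (δ / 2) := Real.cos_pos_of_mem_Ioo ⟨by linarith [Real.pi_pos], by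
        rw [← hδ] at hlt; linarith⟩
      have h2 : dist (U (a + (0 : ℕ) * δ)) (U (a + (n : ℕ) * δ)) ≤
          ∑ i ∈ Finset.range n, dist (U (a + (i : ℕ) * δ)) (U (a + ((i + 1 : ℕ) : ℝ) * δ)) :=
        dist_le_range_sum_dist (fun i : ℕ => U (a + (i : ℝ) * δ)) n
      have h3 : ∀ i ∈ Finset.range n, dist (U (a + (i : ℕ) * δ)) (U (a + ((i + 1 : ℕ) : ℝ) * δ)) *
          cos (δ / 2) ≤ 2 * sin (δ / 2) := by
        intro i _
        have h4 := h (a + (i : ℕ) * δ) (a + ((i + 1 : ℕ) : ℝ) * δ) (by push_cast; linarith)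
          (by push_cast; rw [← hδ] at hlt; linarith)
        have e5 : a + ((i + 1 : ℕ) : ℝ) * δ - (a + (i : ℕ) * δ) = δ := by push_cast; ring
        rw [e5] at h4
        rw [dist_comm, dist_eq_norm]
        exact h4
      have e6 : a + ((0 : ℕ) : ℝ) * δ = a := by push_cast; ring
      have e7 : a + (n : ℝ) * δ = b := by rw [hδ]; field_simp; ring
      rw [e6, e7] at h2
      have h8 : dist (U a) (U b) * cos (δ / 2) ≤ n * (2 * sin (δ / 2)) := by
        calc dist (U a) (U b) * cos (δ / 2) ≤ (∑ i ∈ Finset.range n,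
              dist (U (a + (i : ℕ) * δ)) (U (a + ((i + 1 : ℕ) : ℝ) * δ))) * cos (δ / 2) := by
              gcongr
          _ = ∑ i ∈ Finset.range n, dist (U (a + (i : ℕ) * δ)) (U (a + ((i + 1 : ℕ) : ℝ) * δ)) *
              cos (δ / 2) := Finset.sum_mul _ _ _
          _ ≤ ∑ _i ∈ Finset.range n, 2 * sin (δ / 2) := Finset.sum_le_sum h3
          _ = n * (2 * sin (δ / 2)) := by rw [Finset.sum_const, Finset.card_range, nsmul_eq_mul]
      rw [e2]
      refine h8.trans (le_of_eq ?_)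
      have e9 : b - a = n * δ := by rw [hδ]; field_simp
      rw [e9]
      field_simp
    have t1 : Tendsto (fun n : ℕ => (b - a) / (2 * n)) atTop (𝓝 0) := by
      have := (tendsto_const_div_atTop_nhds_zero_nat (b - a)).const_mul (1 / 2 : ℝ)
      rw [mul_zero] at this
      refine this.congr fun n => ?_
      rcases Nat.eq_zero_or_pos n with h0 | h0
      · subst h0; simp
      · field_simp
    have t2 : Tendsto (fun n : ℕ => dist (U a) (U b) * cos ((b - a) / (2 * n))) atTop
        (𝓝 (dist (U a) (U b))) := by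
      have := ((Real.continuous_cos.tendsto 0).comp t1).const_mul (dist (U a) (U b))
      rwa [Real.cos_zero, mul_one] at this
    have t3 : Tendsto (fun n : ℕ => (b - a) * (sin ((b - a) / (2 * n)) / ((b - a) / (2 * n))))
        atTop (𝓝 (b - a)) := by
      have hne : ∀ᶠ n : ℕ in atTop, (b - a) / (2 * n) ∈ ({0}ᶜ : Set ℝ) := by
        filter_upwards [eventually_ge_atTop 1] with n hn
        have hn0 : (0 : ℝ) < n := by exact_mod_cast hn
        have : 0 < (b - a) / (2 * n) := div_pos (by linarith) (by positivity)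
        exact this.ne'
      have h4 : Tendsto (fun x : ℝ => sin x / x) (𝓝[≠] 0) (𝓝 1) := by
        have := (Real.hasDerivAt_sin 0)
        rw [hasDerivAt_iff_tendsto_slope] at this
        rw [Real.cos_zero] at this
        refine this.congr fun x => ?_
        rw [slope_def_field, Real.sin_zero, sub_zero, sub_zero]
      have h5 := (h4.comp (tendsto_nhdsWithin_iff.2 ⟨t1, hne⟩)).const_mul (b - a)
      rwa [mul_one] at h5
    refine le_of_tendsto_of_tendsto t2 t3 ?_
    have hlt : ∀ᶠ n : ℕ in atTop, (b - a) / n < Real.pi :=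
      (tendsto_const_div_atTop_nhds_zero_nat (b - a)).eventually (gt_mem_nhds Real.pi_pos)
    filter_upwards [eventually_ge_atTop 1, hlt] with n hn hl
    exact h1 n hn hl
  intro a b
  rcases lt_trichotomy a b with hab | hab | hab
  · rw [abs_sub_comm, abs_of_pos (by linarith)]
    exact key a b hab
  · rw [hab, dist_self, sub_self, abs_zero]
  · rw [dist_comm, abs_of_pos (by linarith)]
    exact key b a hab

/-- two functions which are constant on one side of every point -/
theorem sides {α : Type*} {f g : ℝ → α} {t e : ℝ} (he : 0 < e)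
    (hf : ∀ ψ, t - e < ψ → ψ < t + e → (∀ x, ψ ≤ x → x < t + e → f x = f ψ) ∨
      (∀ x, t - e < x → x ≤ ψ → f x = f ψ))
    (hg : ∀ ψ, t - e < ψ → ψ < t + e → (∀ x, ψ ≤ x → x < t + e → g x = g ψ) ∨
      (∀ x, t - e < x → x ≤ ψ → g x = g ψ)) :
    ∃ u v, t - e < u ∧ u < v ∧ v < t + e ∧ f u = f v ∧ g u = g v := by
  rcases hf t (by linarith) (by linarith) with h1 | h1 <;>
    rcases hg t (by linarith) (by linarith) with h2 | h2
  · exact ⟨t, t + e / 2, by linarith, by linarith, by linarith,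
      (h1 _ (by linarith) (by linarith)).symm, (h2 _ (by linarith) (by linarith)).symm⟩
  · rcases hg (t + e / 2) (by linarith) (by linarith) with h3 | h3
    · refine ⟨t + e / 2, t + 3 * e / 4, by linarith, by linarith, by linarith, ?_, ?_⟩
      · rw [h1 (t + e / 2) (by linarith) (by linarith), h1 (t + 3 * e / 4) (by linarith) (by linarith)]
      · exact (h3 _ (by linarith) (by linarith)).symm
    · refine ⟨t, t + e / 2, by linarith, by linarith, by linarith, ?_, ?_⟩
      · exact (h1 _ (by linarith) (by linarith)).symm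
      · exact h3 _ (by linarith) (by linarith)
  · rcases hg (t - e / 2) (by linarith) (by linarith) with h3 | h3
    · refine ⟨t - e / 2, t, by linarith, by linarith, by linarith, ?_, ?_⟩
      · exact h1 _ (by linarith) (by linarith)
      · exact (h3 _ (by linarith) (by linarith)).symm
    · refine ⟨t - 3 * e / 4, t - e / 2, by linarith, by linarith, by linarith, ?_, ?_⟩
      · rw [h1 (t - e / 2) (by linarith) (by linarith), h1 (t - 3 * e / 4) (by linarith) (by linarith)]
      · exact h3 _ (by linarith) (by linarith)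
  · exact ⟨t - e / 2, t, by linarith, by linarith, by linarith,
      h1 _ (by linarith) (by linarith), h2 _ (by linarith) (by linarith)⟩

/-- reduction of an angle -/
theorem red (x t : ℝ) : ∃ n : ℤ, |x + n * (2 * Real.pi) - t| ≤ Real.pi := by
  have hp : (0 : ℝ) < 2 * Real.pi := by linarith [Real.pi_pos]
  obtain ⟨n, hn, -⟩ := existsUnique_add_zsmul_mem_Ico hp x (t - Real.pi)
  refine ⟨n, ?_⟩
  rw [zsmul_eq_mul] at hn
  obtain ⟨h1, h2⟩ := hn
  rw [abs_le]
  constructor <;> linarith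

end Rig

open Rig

theorem rig (hGeo : GeoStm) : RigStm := by
  intro d C ℓ T c hT hw
  obtain ⟨K, hKd⟩ : ∃ K, K = convexHull ℝ T := ⟨_, rfl⟩
  rw [← hKd] at hw
  have hTK : T ⊆ K := by rw [hKd]; exact subset_convexHull ℝ T
  have hne : K.Nonempty := hT.ne.mono hTK
  have hfr : frontier K ⊆ T := by rw [hKd]; exact hT.fr
  have hK : IsCompact K := by
    refine Metric.isCompact_of_isClosed_isBounded ?_ ?_
    · rw [← closure_subset_iff_isClosed, closure_eq_interior_union_frontier]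
      exact union_subset interior_subset (hfr.trans hTK)
    · rw [hKd, isBounded_convexHull]
      exact hT.cpt.isBounded
  have hex : ∀ θ, ∃ y, Sp K θ y := by
    intro θ
    obtain ⟨x, hx, hxe⟩ := exists_hs hK hne θ
    exact ⟨x, hx, hxe.symm⟩
  choose Y hY using hex
  have hYT : ∀ θ, Y θ ∈ T := by
    intro θ
    apply hfr
    rw [hK.isClosed.frontier_eq]
    refine ⟨(hY θ).1, fun hint => ?_⟩
    obtain ⟨r, hr, hb⟩ := Metric.isOpen_iff.1 isOpen_interior _ hint
    have h1 : Y θ + (r / 2) • ev θ ∈ K := by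
      apply interior_subset
      apply hb
      rw [mem_ball, dist_eq_norm, add_sub_cancel_left, norm_smul, norm_ev, mul_one,
        Real.norm_eq_abs, abs_of_pos (by positivity)]
      linarith
    have h2 := le_hs hK h1 θ
    rw [ip_add, ip_smul, ip_ev, sub_self, Real.cos_zero, (hY θ).2] at h2
    linarith
  have hdiff : ∀ θ, Y θ - Y (θ + Real.pi) = ev θ := fun θ => sp_diff hK hw (hY θ) (hY _)
  have hun : ∀ {θ : ℝ} {y : E2}, Sp K θ y → y = Y θ := fun h => uniq hK hw hY h
  have hper : ∀ θ, Y (θ + 2 * Real.pi) = Y θ := per hK hw hY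
  obtain ⟨U, hU⟩ : ∃ U : ℝ → EuclideanSpace ℝ (Fin d), U = fun θ => c (Y θ) - c (Y (θ + Real.pi)) :=
    ⟨_, rfl⟩
  have hUpi : ∀ θ, U (θ + Real.pi) = -U θ := by
    intro θ
    rw [hU]
    show c (Y (θ + Real.pi)) - c (Y (θ + Real.pi + Real.pi)) = -(c (Y θ) - c (Y (θ + Real.pi)))
    have e1 : θ + Real.pi + Real.pi = θ + 2 * Real.pi := by ring
    rw [e1, hper]
    abel
  have hU1 : ∀ θ, ‖U θ‖ ≤ 1 := by
    intro θ
    rw [hU]
    show ‖c (Y θ) - c (Y (θ + Real.pi))‖ ≤ 1
    rw [← dist_eq_norm]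
    refine (hT.lip _ (hYT _) _ (hYT _)).trans ?_
    rw [dist_eq_norm, hdiff, norm_ev]
  have hUlip : ∀ a b : ℝ, dist (U a) (U b) ≤ |a - b| := by
    apply subdiv
    intro a b hab hb
    have hcos : 0 ≤ cos ((b - a) / 2) := (Real.cos_pos_of_mem_Ioo
      ⟨by linarith [Real.pi_pos], by linarith⟩).le
    refine le_trans ?_ (est hK hw hY hab hb)
    apply mul_le_mul_of_nonneg_right _ hcos
    rw [hU]
    show ‖c (Y b) - c (Y (b + Real.pi)) - (c (Y a) - c (Y (a + Real.pi)))‖ ≤ _
    have e1 : c (Y b) - c (Y (b + Real.pi)) - (c (Y a) - c (Y (a + Real.pi))) =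
        (c (Y b) - c (Y a)) + (c (Y (a + Real.pi)) - c (Y (b + Real.pi))) := by abel
    rw [e1]
    refine (norm_add_le _ _).trans ?_
    have h1 := hT.lip _ (hYT b) _ (hYT a)
    have h2 := hT.lip _ (hYT (a + Real.pi)) _ (hYT (b + Real.pi))
    rw [dist_eq_norm, dist_eq_norm] at h1 h2
    exact add_le_add h1 h2
  have hUc : Continuous U := by
    have : LipschitzWith 1 U := LipschitzWith.of_dist_le_mul fun a b => by
      rw [NNReal.coe_one, one_mul, Real.dist_eq]
      exact hUlip a b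
    exact this.continuous
  -- points of norm one
  have hfar : ∀ θ, ∃ φ, ‖U φ‖ = 1 ∧ Y φ = Y θ ∧ |φ - θ| < Real.pi := by
    intro θ
    obtain ⟨q, hq, hq1⟩ := hT.far (Y θ) (hYT θ)
    have h1 : dist (c (Y θ)) (c q) ≤ dist (Y θ) q := hT.lip _ (hYT θ) _ hq
    obtain ⟨φ, -, h3, h4⟩ := unit_diff hK hw (hTK (hYT θ)) (hTK hq)
      (by rw [← dist_eq_norm]; linarith)
    obtain ⟨n, hn⟩ := red φ θ
    have hYn : ∀ (m : ℤ) (x : ℝ), Y (x + m * (2 * Real.pi)) = Y x := by
      intro m x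
      have hP : Function.Periodic Y (2 * Real.pi) := hper
      exact hP.int_mul m x
    obtain ⟨φ', hφ'⟩ : ∃ φ', φ' = φ + n * (2 * Real.pi) := ⟨_, rfl⟩
    have e1 : Y φ' = Y θ := by rw [hφ', hYn]; exact (hun h3).symm
    have e2 : Y (φ' + Real.pi) = q := by
      have : φ' + Real.pi = (φ + Real.pi) + n * (2 * Real.pi) := by rw [hφ']; ring
      rw [this, hYn]
      exact (hun h4).symm
    refine ⟨φ', ?_, e1, ?_⟩
    · refine le_antisymm (hU1 _) ?_
      rw [hU]
      show 1 ≤ ‖c (Y φ') - c (Y (φ' + Real.pi))‖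
      rw [e1, e2, ← dist_eq_norm]
      exact hq1
    · rw [← hφ'] at hn
      refine lt_of_le_of_ne hn fun heq => ?_
      have hcase : φ' = θ + Real.pi ∨ θ = φ' + Real.pi := by
        rcases abs_eq Real.pi_pos.le |>.1 heq with h | h
        · left; linarith
        · right; linarith
      rcases hcase with h | h
      · have h5 := hdiff θ
        rw [← h, e1, sub_self] at h5
        have := norm_ev θ
        rw [← h5, norm_zero] at this
        exact zero_ne_one this
      · have h5 := hdiff φ'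
        rw [← h, e1, sub_self] at h5
        have := norm_ev φ'
        rw [← h5, norm_zero] at this
        exact zero_ne_one this
  have hconst : ∀ {a b : ℝ}, Y a = Y b → a ≤ b → b - a < Real.pi → ∀ x, a ≤ x → x ≤ b →
      Y x = Y a := by
    intro a b h1 _ h3 x h4 h5
    have hb : Sp K b (Y a) := by rw [h1]; exact hY b
    exact (hun (sp_arc hK (hY a) hb h4 h5 h3)).symm
  have hone : ∀ θ, ‖U θ‖ = 1 := by
    intro t
    by_contra hne1
    have hopen : IsOpen {x : ℝ | ‖U x‖ ≠ 1} := (isClosed_eq hUc.norm continuous_const).isOpen_compl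
    obtain ⟨e0, he0, hball⟩ := Metric.isOpen_iff.1 hopen t hne1
    obtain ⟨e, he, hee, hep⟩ : ∃ e : ℝ, 0 < e ∧ e ≤ e0 ∧ e ≤ 1 :=
      ⟨min e0 1, lt_min he0 one_pos, min_le_left _ _, min_le_right _ _⟩
    have hnot : ∀ x, t - e < x → x < t + e → ‖U x‖ ≠ 1 := by
      intro x h1 h2
      apply hball
      rw [mem_ball, Real.dist_eq, abs_lt]
      constructor <;> linarith
    have hside : ∀ s : ℝ, (∀ x, t - e < x → x < t + e → ‖U (x + s)‖ ≠ 1) →
        ∀ ψ, t - e < ψ → ψ < t + e → (∀ x, ψ ≤ x → x < t + e → Y (x + s) = Y (ψ + s)) ∨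
          (∀ x, t - e < x → x ≤ ψ → Y (x + s) = Y (ψ + s)) := by
      intro s hs1 ψ h1 h2
      obtain ⟨φ, hφ1, hφ2, hφ3⟩ := hfar (ψ + s)
      rw [abs_lt] at hφ3
      rcases le_total (ψ + s) φ with h | h
      · left
        have h3 : t + e ≤ φ - s := by
          by_contra hcon
          push Not at hcon
          have := hs1 (φ - s) (by linarith) hcon
          rw [sub_add_cancel] at this
          exact this hφ1
        intro x hx1 hx2
        exact hconst hφ2.symm h (by linarith) (x + s) (by linarith) (by linarith)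
      · right
        have h3 : φ - s ≤ t - e := by
          by_contra hcon
          push Not at hcon
          have := hs1 (φ - s) hcon (by linarith)
          rw [sub_add_cancel] at this
          exact this hφ1
        intro x hx1 hx2
        rw [hconst hφ2 h (by linarith) (x + s) (by linarith) (by linarith), hφ2]
    have hs0 := hside 0 (fun x h1 h2 => by rw [add_zero]; exact hnot x h1 h2)
    have hspi := hside Real.pi (fun x h1 h2 => by rw [hUpi, norm_neg]; exact hnot x h1 h2)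
    simp only [add_zero] at hs0
    obtain ⟨u, v, h1, h2, h3, h4, h5⟩ := sides (f := Y) (g := fun x => Y (x + Real.pi)) he hs0 hspi
    have h6 : ev u = ev v := by
      rw [← hdiff u, ← hdiff v, h4]
      show Y v - Y (u + Real.pi) = Y v - Y (v + Real.pi)
      have h5' : Y (u + Real.pi) = Y (v + Real.pi) := h5
      rw [h5']
    have h7 : ip (ev u) v = ip (ev v) v := by rw [h6]
    rw [ip_ev, ip_ev, sub_self, Real.cos_zero] at h7
    have h8 : v - u < 2 * Real.pi := by
      have := Real.pi_gt_three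
      linarith
    have h9 := (Real.cos_eq_one_iff_of_lt_of_lt (by linarith [Real.pi_pos]) h8).1 h7
    linarith
  obtain ⟨g1, g2⟩ := hGeo d U hone hUlip (by
    have := hUpi 0
    rwa [zero_add] at this)
  refine ⟨U 0, U (Real.pi / 2), hone 0, hone _, g1, ?_⟩
  have hC : ∀ θ, c (Y θ) ∈ C := fun θ => hT.mem _ (hYT θ)
  intro θ
  obtain ⟨n, hn⟩ := red θ Real.pi
  have hp := Real.pi_pos
  rw [abs_le] at hn
  obtain ⟨θ', hθ'⟩ : ∃ θ', θ' = θ + n * (2 * Real.pi) := ⟨_, rfl⟩
  have ec : cos θ' = cos θ := by rw [hθ']; exact Real.cos_add_int_mul_two_pi θ n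
  have es : sin θ' = sin θ := by rw [hθ']; exact Real.sin_add_int_mul_two_pi θ n
  rw [← hθ'] at hn
  rw [← ec, ← es]
  rcases le_total θ' Real.pi with h | h
  · refine ⟨_, hC θ', _, hC (θ' + Real.pi), ?_⟩
    rw [← g2 θ' ⟨by linarith, h⟩, hU]
  · refine ⟨_, hC (θ' - Real.pi + Real.pi), _, hC (θ' - Real.pi), ?_⟩
    have h1 := g2 (θ' - Real.pi) ⟨by linarith, by linarith⟩
    rw [Real.cos_sub_pi, Real.sin_sub_pi, neg_smul, neg_smul] at h1
    have h2 : U (θ' - Real.pi) = c (Y (θ' - Real.pi)) - c (Y (θ' - Real.pi + Real.pi)) := by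
      rw [hU]
    rw [h2] at h1
    have h3 : c (Y (θ' - Real.pi + Real.pi)) - c (Y (θ' - Real.pi)) =
        -(c (Y (θ' - Real.pi)) - c (Y (θ' - Real.pi + Real.pi))) := by abel
    rw [h3, h1]
    abel

end Pool.Agent.Y508.FP
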