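import Pool.Agent.Y508.FP.Stm

/-!
Support point map of the dual body (project FP; proof by helper907).
-/

set_option autoImplicit false
open MeasureTheory Metric Set Filter Topology
open Real (sin cos)

namespace Pool.Agent.Y508.FP
open Pool.Agent.Y508

namespace SupAux

theorem dual_closed (K : Set E2) : IsClosed (dual K) := by
  have h : dual K = ⋂ y ∈ K, closedBall y 1 := by
    ext x
    simp [dual]
  rw [h]
  exact isClosed_biInter fun y _ => isClosed_closedBall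

theorem dual_compact {K : Set E2} (hne : K.Nonempty) : IsCompact (dual K) := by
  obtain ⟨y, hy⟩ := hne
  refine Metric.isCompact_of_isClosed_isBounded (dual_closed K) ?_
  exact (isBounded_closedBall (x := y) (r := 1)).subset fun x hx => hx y hy

/-- inequality from a contact point -/
theorem ball_of_mem {K : Set E2} {x : E2} {φ : ℝ} (h : x - ev φ ∈ K) {z : E2}
    (hz : z ∈ dual K) : ‖z - x‖ ^ 2 + 2 * ip (z - x) φ ≤ 0 := by
  have h1 := hz _ h
  rw [dist_eq_norm] at h1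
  have h2 : z - (x - ev φ) = (z - x) + ev φ := by abel
  rw [h2] at h1
  have h3 : ‖(z - x) + ev φ‖ ^ 2 = ‖z - x‖ ^ 2 + 2 * ip (z - x) φ + 1 := by
    rw [norm_add_sq_real, inner_ev, norm_ev, one_pow]
  have h4 : ‖(z - x) + ev φ‖ ^ 2 ≤ 1 := by
    have := norm_nonneg ((z - x) + ev φ)
    nlinarith
  linarith

theorem cos_of_ev {φ φ' : ℝ} (h : ev φ' = ev φ) (ω : ℝ) : cos (φ' - ω) = cos (φ - ω) := by
  have h0 : cos φ' = cos φ := by
    have := congrArg (fun v : E2 => v 0) h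
    simpa using this
  have h1 : sin φ' = sin φ := by
    have := congrArg (fun v : E2 => v 1) h
    simpa using this
  rw [Real.cos_sub, Real.cos_sub, h0, h1]

/-- representatives of angles -/
theorem rep (φ ψ : ℝ) (h : 0 < cos (φ - ψ)) :
    ∃ φ' : ℝ, ev φ' = ev φ ∧ ψ - Real.pi / 2 < φ' ∧ φ' < ψ + Real.pi / 2 := by
  have hs : sin (Real.arcsin (sin (φ - ψ))) = sin (φ - ψ) :=
    Real.sin_arcsin (Real.neg_one_le_sin _) (Real.sin_le_one _)
  have hc : cos (Real.arcsin (sin (φ - ψ))) = cos (φ - ψ) := by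
    rw [Real.cos_arcsin]
    have : 1 - sin (φ - ψ) ^ 2 = cos (φ - ψ) ^ 2 := by
      have := Real.sin_sq_add_cos_sq (φ - ψ)
      linarith
    rw [this, Real.sqrt_sq h.le]
  have hlt : sin (φ - ψ) ^ 2 < 1 := by
    have := Real.sin_sq_add_cos_sq (φ - ψ)
    nlinarith
  have hlt' := abs_lt.1 ((sq_lt_one_iff_abs_lt_one _).1 hlt)
  refine ⟨ψ + Real.arcsin (sin (φ - ψ)), ?_, ?_, ?_⟩
  · have e1 : cos (ψ + Real.arcsin (sin (φ - ψ))) = cos φ := by
      rw [Real.cos_add, hs, hc, ← Real.cos_add]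
      congr 1
      ring
    have e2 : sin (ψ + Real.arcsin (sin (φ - ψ))) = sin φ := by
      rw [Real.sin_add, hs, hc, ← Real.sin_add]
      congr 1
      ring
    unfold ev
    rw [e1, e2]
  · have : -(Real.pi / 2) < Real.arcsin (sin (φ - ψ)) := by
      rw [Real.neg_pi_div_two_lt_arcsin]
      exact hlt'.1
    linarith
  · have : Real.arcsin (sin (φ - ψ)) < Real.pi / 2 := by
      rw [Real.arcsin_lt_pi_div_two]
      exact hlt'.2
    linarith

/-- a maximizer has contact points in all increasing directions -/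
theorem contact {K : Set E2} (hK : IsCompact K) {x : E2} (hx : x ∈ dual K) {θ : ℝ}
    (hmax : ∀ z ∈ dual K, ip z θ ≤ ip x θ) {ω : ℝ} (hω : 0 < cos (θ - ω)) :
    ∃ φ, x - ev φ ∈ K ∧ 0 ≤ cos (φ - ω) := by
  have h1 : ∀ n : ℕ, ∃ y ∈ K, 1 < dist (x + (1 / ((n : ℝ) + 1)) • ev ω) y := by
    intro n
    by_contra hcon
    push Not at hcon
    have h2 := hmax _ (show x + (1 / ((n : ℝ) + 1)) • ev ω ∈ dual K from hcon)
    rw [ip_add, ip_smul, ip_ev] at h2
    have h3 : 0 < 1 / ((n : ℝ) + 1) * cos (θ - ω) := by positivity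
    linarith
  choose y hy1 hy2 using h1
  obtain ⟨y0, hy0, σ, hσ, hlim⟩ := hK.tendsto_subseq hy1
  have ht0 : Tendsto (fun n : ℕ => 1 / ((σ n : ℝ) + 1)) atTop (𝓝 0) :=
    tendsto_one_div_add_atTop_nhds_zero_nat.comp hσ.tendsto_atTop
  have hx1 : Tendsto (fun n : ℕ => x + (1 / ((σ n : ℝ) + 1)) • ev ω) atTop (𝓝 x) := by
    have := (tendsto_const_nhds (x := x)).add (ht0.smul_const (ev ω))
    rwa [zero_smul, add_zero] at this
  have hd : Tendsto (fun n : ℕ => dist (x + (1 / ((σ n : ℝ) + 1)) • ev ω) (y (σ n))) atTop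
      (𝓝 (dist x y0)) := hx1.dist hlim
  have hd1 : 1 ≤ dist x y0 := ge_of_tendsto' hd fun n => (hy2 (σ n)).le
  have hd2 : dist x y0 = 1 := le_antisymm (hx y0 hy0) hd1
  rw [dist_eq_norm] at hd2
  obtain ⟨φ, hφ⟩ := exists_ev (x - y0) hd2
  refine ⟨φ, ?_, ?_⟩
  · rw [← hφ, sub_sub_cancel]
    exact hy0
  · have h3 : ∀ n : ℕ, -(1 / ((σ n : ℝ) + 1)) ≤ 2 * ip (x - y (σ n)) ω := by
      intro n
      obtain ⟨t, ht⟩ : ∃ t : ℝ, t = 1 / ((σ n : ℝ) + 1) := ⟨_, rfl⟩
      have ht' : 0 < t := by rw [ht]; positivity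
      have h4 := hy2 (σ n)
      rw [← ht, dist_eq_norm] at h4
      have h5 : x + t • ev ω - y (σ n) = (x - y (σ n)) + t • ev ω := by abel
      rw [h5] at h4
      have h6 : ‖(x - y (σ n)) + t • ev ω‖ ^ 2 =
          ‖x - y (σ n)‖ ^ 2 + 2 * (t * ip (x - y (σ n)) ω) + t ^ 2 := by
        rw [norm_add_sq_real, real_inner_smul_right, inner_ev, norm_smul, norm_ev, mul_one,
          Real.norm_eq_abs, sq_abs]
      have h7 : 1 < ‖(x - y (σ n)) + t • ev ω‖ ^ 2 := by nlinarith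
      have h8 : ‖x - y (σ n)‖ ^ 2 ≤ 1 := by
        have h9 := hx _ (hy1 (σ n))
        rw [dist_eq_norm] at h9
        have := norm_nonneg (x - y (σ n))
        nlinarith
      rw [← ht]
      have h10 : 0 < t * (2 * ip (x - y (σ n)) ω + t) := by nlinarith
      have h11 := (mul_pos_iff_of_pos_left ht').1 h10
      linarith
    have h4 : Tendsto (fun n : ℕ => 2 * ip (x - y (σ n)) ω) atTop (𝓝 (2 * ip (x - y0) ω)) :=
      (((cont_in ω).tendsto _).comp ((tendsto_const_nhds (x := x)).sub hlim)).const_mul 2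
    have h5 : -(0 : ℝ) ≤ 2 * ip (x - y0) ω := le_of_tendsto_of_tendsto' ht0.neg h4 h3
    rw [hφ, ip_ev] at h5
    have h6 : cos (φ - ω) = cos (ω - φ) := by
      rw [← Real.cos_neg, neg_sub]
    rw [h6]
    linarith

/-- the inequality holds between two contact directions -/
theorem ball_between {K : Set E2} {x : E2} {a b φ : ℝ} (ha : x - ev a ∈ K) (hb : x - ev b ∈ K)
    (hab : a < b) (hpi : b - a < Real.pi) (h1 : a ≤ φ) (h2 : φ ≤ b) {z : E2}
    (hz : z ∈ dual K) : ‖z - x‖ ^ 2 + 2 * ip (z - x) φ ≤ 0 := by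
  have e := ip_arc (z - x) a b φ
  have ea := ball_of_mem ha hz
  have eb := ball_of_mem hb hz
  have s0 : 0 < sin (b - a) := Real.sin_pos_of_pos_of_lt_pi (by linarith) hpi
  have s1 : 0 ≤ sin (b - φ) := Real.sin_nonneg_of_nonneg_of_le_pi (by linarith) (by linarith)
  have s2 : 0 ≤ sin (φ - a) := Real.sin_nonneg_of_nonneg_of_le_pi (by linarith) (by linarith)
  have s3 : sin (b - a) ≤ sin (b - φ) + sin (φ - a) := by
    have h3 : b - a = (b - φ) + (φ - a) := by ring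
    rw [h3, Real.sin_add]
    have c1 := Real.cos_le_one (b - φ)
    have c2 := Real.cos_le_one (φ - a)
    nlinarith
  have s4 : 0 ≤ ‖z - x‖ ^ 2 := sq_nonneg _
  have h5 : sin (b - a) * (‖z - x‖ ^ 2 + 2 * ip (z - x) φ) ≤ 0 := by
    have h6 := mul_le_mul_of_nonneg_left ea s1
    have h7 := mul_le_mul_of_nonneg_left eb s2
    have h8 := mul_le_mul_of_nonneg_right s3 s4
    nlinarith
  by_contra h9
  push Not at h9
  have := mul_pos s0 h9
  linarith

theorem gap_exists {K : Set E2} (hK : IsCompact K) {m : E2} {r : ℝ} (hr : r < 1)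
    (hm : K ⊆ closedBall m r) {x : E2} (hx : x ∈ dual K) {θ : ℝ}
    (hmax : ∀ z ∈ dual K, ip z θ ≤ ip x θ) (hA : x - ev θ ∉ K) :
    ∃ a b : ℝ, a < θ ∧ θ < b ∧ b - a < Real.pi ∧ x - ev a ∈ K ∧ x - ev b ∈ K ∧
      ∀ φ ∈ Ioo a b, x - ev φ ∉ K := by
  -- the centre
  have hmd : ∀ z, dist z m ≤ 1 - r → z ∈ dual K := by
    intro z hz y hy
    have h1 : dist y m ≤ r := hm hy
    have h2 := dist_triangle z m y
    rw [dist_comm m y] at h2
    linarith
  have hmm : m ∈ dual K := hmd m (by rw [dist_self]; linarith)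
  have hz : m + (1 - r) • ev θ ∈ dual K := by
    apply hmd
    rw [dist_eq_norm, add_sub_cancel_left, norm_smul, norm_ev, mul_one, Real.norm_eq_abs,
      abs_of_pos (by linarith)]
  have h1 := hmax _ hz
  rw [ip_add, ip_smul, ip_ev, sub_self, Real.cos_zero, mul_one] at h1
  have hxm : x - m ≠ 0 := by
    intro h
    rw [sub_eq_zero] at h
    rw [h] at h1
    linarith
  obtain ⟨ψ0, hψ0⟩ := exists_pos_ev (x - m) hxm
  have hρ : 0 < ‖x - m‖ := norm_pos_iff.2 hxm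
  have h2 : 0 < cos (ψ0 - θ) := by
    have h3 : ip (x - m) θ = ‖x - m‖ * cos (θ - ψ0) := by
      have : ip (x - m) θ = ip (‖x - m‖ • ev ψ0) θ := by rw [← hψ0]
      rw [this, ip_smul, ip_ev]
    have h4 : 0 < ip (x - m) θ := by
      rw [ip_sub]
      linarith
    rw [h3] at h4
    have h5 := (mul_pos_iff_of_pos_left hρ).1 h4
    rwa [← Real.cos_neg, neg_sub]
  obtain ⟨ψ, hψe, hψ1, hψ2⟩ := rep ψ0 θ h2
  rw [← hψe] at hψ0
  -- contact directions are close to `ψ`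
  have hcos : ∀ φ, x - ev φ ∈ K → 0 < cos (φ - ψ) := by
    intro φ hφ
    have h3 := ball_of_mem hφ hmm
    have h4 : m - x = -(x - m) := by abel
    rw [h4, norm_neg, ip_neg] at h3
    have h5 : ip (x - m) φ = ‖x - m‖ * cos (φ - ψ) := by
      have : ip (x - m) φ = ip (‖x - m‖ • ev ψ) φ := by rw [← hψ0]
      rw [this, ip_smul, ip_ev]
    rw [h5] at h3
    have h6 : 0 < ‖x - m‖ * cos (φ - ψ) := by
      have : 0 < ‖x - m‖ ^ 2 := by positivity
      linarith
    exact (mul_pos_iff_of_pos_left hρ).1 h6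
  set A : Set ℝ := Icc (ψ - Real.pi / 2) (ψ + Real.pi / 2) ∩ {φ | x - ev φ ∈ K} with hAdef
  have hAc : IsCompact A := by
    apply isCompact_Icc.inter_right
    exact hK.isClosed.preimage (continuous_const.sub cont_ev)
  have hrep : ∀ φ, x - ev φ ∈ K → ∃ φ' ∈ A, ev φ' = ev φ := by
    intro φ hφ
    obtain ⟨φ', h3, h4, h5⟩ := rep φ ψ (hcos φ hφ)
    refine ⟨φ', ⟨⟨h4.le, h5.le⟩, ?_⟩, h3⟩
    show x - ev φ' ∈ K
    rw [h3]
    exact hφ
  have hpi := Real.pi_pos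
  have hin : ∀ φ ∈ A, ψ - Real.pi / 2 < φ ∧ φ < ψ + Real.pi / 2 := by
    intro φ hφ
    have h3 := hcos φ hφ.2
    constructor
    · rcases hφ.1.1.lt_or_eq with h | h
      · exact h
      · exfalso
        rw [← h] at h3
        have h4 : ψ - Real.pi / 2 - ψ = -(Real.pi / 2) := by ring
        rw [h4, Real.cos_neg, Real.cos_pi_div_two] at h3
        exact lt_irrefl _ h3
    · rcases hφ.1.2.lt_or_eq with h | h
      · exact h
      · exfalso
        rw [h] at h3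
        have h4 : ψ + Real.pi / 2 - ψ = Real.pi / 2 := by ring
        rw [h4, Real.cos_pi_div_two] at h3
        exact lt_irrefl _ h3
  have hAne : A.Nonempty := by
    obtain ⟨φ, h3, -⟩ := contact hK hx hmax (ω := θ) (by rw [sub_self, Real.cos_zero]; norm_num)
    obtain ⟨φ', h4, -⟩ := hrep φ h3
    exact ⟨φ', h4⟩
  -- elements on both sides
  have hlow : ∃ φ ∈ A, φ ≤ θ := by
    obtain ⟨φ0, hφ0, hmin⟩ := hAc.exists_isLeast hAne
    refine ⟨φ0, hφ0, ?_⟩
    by_contra hlt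
    push Not at hlt
    have h3 := hin φ0 hφ0
    obtain ⟨ε, hε⟩ : ∃ ε : ℝ, ε = (φ0 - θ) / 2 := ⟨_, rfl⟩
    obtain ⟨φ, h4, h5⟩ := contact hK hx hmax (ω := θ - Real.pi / 2 + ε) (by
      have : θ - (θ - Real.pi / 2 + ε) = Real.pi / 2 - ε := by ring
      rw [this, Real.cos_pi_div_two_sub]
      exact Real.sin_pos_of_pos_of_lt_pi (by linarith) (by linarith))
    obtain ⟨φ', h6, h7⟩ := hrep φ h4
    rw [← cos_of_ev h7] at h5
    have h8 : φ0 ≤ φ' := hmin h6
    have h9 := hin φ' h6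
    have h10 : φ' - (θ - Real.pi / 2 + ε) = (φ' - θ - ε) + Real.pi / 2 := by ring
    rw [h10, Real.cos_add_pi_div_two] at h5
    have h11 : 0 < sin (φ' - θ - ε) :=
      Real.sin_pos_of_pos_of_lt_pi (by linarith) (by linarith)
    linarith
  have hhigh : ∃ φ ∈ A, θ ≤ φ := by
    obtain ⟨φ0, hφ0, hmax'⟩ := hAc.exists_isGreatest hAne
    refine ⟨φ0, hφ0, ?_⟩
    by_contra hlt
    push Not at hlt
    have h3 := hin φ0 hφ0
    obtain ⟨ε, hε⟩ : ∃ ε : ℝ, ε = (θ - φ0) / 2 := ⟨_, rfl⟩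
    obtain ⟨φ, h4, h5⟩ := contact hK hx hmax (ω := θ + Real.pi / 2 - ε) (by
      have : θ - (θ + Real.pi / 2 - ε) = -(Real.pi / 2 - ε) := by ring
      rw [this, Real.cos_neg, Real.cos_pi_div_two_sub]
      exact Real.sin_pos_of_pos_of_lt_pi (by linarith) (by linarith))
    obtain ⟨φ', h6, h7⟩ := hrep φ h4
    rw [← cos_of_ev h7] at h5
    have h8 : φ' ≤ φ0 := hmax' h6
    have h9 := hin φ' h6
    have h10 : φ' - (θ + Real.pi / 2 - ε) = -(Real.pi / 2 - (φ' - θ + ε)) := by ring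
    rw [h10, Real.cos_neg, Real.cos_pi_div_two_sub] at h5
    have h11 : 0 < sin (-(φ' - θ + ε)) :=
      Real.sin_pos_of_pos_of_lt_pi (by linarith) (by linarith)
    rw [Real.sin_neg] at h11
    linarith
  -- the gap
  obtain ⟨a, ha, hamax⟩ := (hAc.inter_right isClosed_Iic).exists_isGreatest
    (show (A ∩ Iic θ).Nonempty by
      obtain ⟨φ, h3, h4⟩ := hlow
      exact ⟨φ, h3, h4⟩)
  obtain ⟨b, hb, hbmin⟩ := (hAc.inter_right isClosed_Ici).exists_isLeast
    (show (A ∩ Ici θ).Nonempty by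
      obtain ⟨φ, h3, h4⟩ := hhigh
      exact ⟨φ, h3, h4⟩)
  have haθ : a < θ := by
    rcases (show a ≤ θ from ha.2).lt_or_eq with h | h
    · exact h
    · exact absurd (show x - ev θ ∈ K by rw [← h]; exact ha.1.2) hA
  have hbθ : θ < b := by
    rcases (show θ ≤ b from hb.2).lt_or_eq with h | h
    · exact h
    · exact absurd (show x - ev θ ∈ K by rw [h]; exact hb.1.2) hA
  have ha' := hin a ha.1
  have hb' := hin b hb.1
  refine ⟨a, b, haθ, hbθ, by linarith, ha.1.2, hb.1.2, ?_⟩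
  intro φ hφ hφK
  have hφA : φ ∈ A := ⟨⟨by linarith [hφ.1], by linarith [hφ.2]⟩, hφK⟩
  rcases le_total φ θ with h | h
  · exact absurd (hamax ⟨hφA, h⟩) (not_le.2 hφ.1)
  · exact absurd (hbmin ⟨hφA, h⟩) (not_le.2 hφ.2)

theorem unique {K : Set E2} {x x' : E2} {θ : ℝ} (hx : x ∈ dual K) (hx' : x' ∈ dual K)
    (h : ∀ z ∈ dual K, ‖z - x‖ ^ 2 + 2 * ip (z - x) θ ≤ 0)
    (h' : ∀ z ∈ dual K, ‖z - x'‖ ^ 2 + 2 * ip (z - x') θ ≤ 0) : x = x' := by
  have h1 := h x' hx'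
  have h2 := h' x hx
  rw [norm_sub_rev] at h1
  rw [ip_sub] at h1 h2
  have h3 : ‖x - x'‖ ^ 2 ≤ 0 := by linarith
  have h4 : ‖x - x'‖ = 0 := by
    have := sq_nonneg ‖x - x'‖
    exact pow_eq_zero_iff (two_ne_zero) |>.1 (le_antisymm h3 this)
  exact sub_eq_zero.1 (norm_eq_zero.1 h4)

end SupAux

open SupAux in
/-- **support point map of the dual body** -/
theorem sup : SupStm := by
  intro K hK _ hne hmr
  obtain ⟨m, r, hr, hm⟩ := hmr
  have hmm : m ∈ dual K := by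
    intro y hy
    have h1 : dist y m ≤ r := hm hy
    rw [dist_comm]
    linarith
  have hex : ∀ θ : ℝ, ∃ x ∈ dual K, ∀ z ∈ dual K, ‖z - x‖ ^ 2 + 2 * ip (z - x) θ ≤ 0 := by
    intro θ
    obtain ⟨x, hx, hmax⟩ := (dual_compact hne).exists_isMaxOn ⟨m, hmm⟩ (cont_in θ).continuousOn
    refine ⟨x, hx, ?_⟩
    have hmax' : ∀ z ∈ dual K, ip z θ ≤ ip x θ := fun z hz => hmax hz
    by_cases hA : x - ev θ ∈ K
    · exact fun z hz => ball_of_mem hA hz
    · obtain ⟨a, b, h1, h2, h3, h4, h5, -⟩ := gap_exists hK hr hm hx hmax' hA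
      exact fun z hz => ball_between h4 h5 (h1.trans h2) h3 h1.le h2.le hz
  choose x hx1 hx2 using hex
  have hmax : ∀ θ, ∀ z ∈ dual K, ip z θ ≤ ip (x θ) θ := by
    intro θ z hz
    have h1 := hx2 θ z hz
    rw [ip_sub] at h1
    have h2 := sq_nonneg ‖z - x θ‖
    linarith
  refine ⟨x, hx1, ?_, hx2, ?_⟩
  · intro θ
    refine unique (hx1 _) (hx1 _) (θ := θ) ?_ (hx2 θ)
    intro z hz
    have h1 := hx2 (θ + 2 * Real.pi) z hz
    rwa [ip_two_pi] at h1
  · intro θ hA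
    obtain ⟨a, b, h1, h2, h3, h4, h5, h6⟩ := gap_exists hK hr hm (hx1 θ) (hmax θ) hA
    refine ⟨a, b, h1, h2, h3, ?_, h4, h5, h6⟩
    intro φ hφ
    exact unique (hx1 φ) (hx1 θ) (hx2 φ)
      (fun z hz => ball_between h4 h5 (h1.trans h2) h3 hφ.1 hφ.2 hz)

end Pool.Agent.Y508.FP
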