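import Pool.Agent.Y508.FP.Main
import Pool.Agent.Y508.FP.Plane2
import Pool.Agent.Y508.FP.Quant
import Pool.Agent.Y508.FP.Sup
import Pool.Agent.Y508.FP.Half
import Pool.Agent.Y508.FP.RB
import Pool.Agent.Y508.FP.Poly
import Pool.Agent.Y508.FP.Lm
import Pool.Agent.Y508.FP.Geo
import Pool.Agent.Y508.FP.Rig
import Pool.Agent.Y508.FP.Cro
import Pool.Agent.Y508.FP.Cro2
import Pool.Agent.Y508.FP.Iff
import Pool.Agent.Y508.FP.Pln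
import Pool.Agent.Y508.FP.Pyt
import Pool.Agent.Y302.FP.Cal
import Pool.Agent.Y302.FP.GapSum
import Pool.Agent.Y344.FP.Maj
import Pool.Agent.Y508.FP.Ap2

/-!
Assembly of the parts, up to the statements `AltStm`, `Half2Stm`, `Lim2Stm`.
-/

set_option autoImplicit false
open MeasureTheory Metric Set Filter Topology
open Real (sin cos)

namespace Pool.Agent.Y508.FP
open Pool.Agent.Y508

theorem apxOf (h : ∀ (d : ℕ) (γ : ℝ → EuclideanSpace ℝ (Fin d)) (ℓ : ℝ), 0 ≤ ℓ →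
    ContinuousOn γ (Icc 0 1) → γ 0 = γ 1 → eVariationOn γ (Icc 0 1) ≤ ENNReal.ofReal ℓ →
    (∀ s ∈ Icc (0 : ℝ) 1, ∃ t ∈ Icc (0 : ℝ) 1, 1 ≤ dist (γ s) (γ t)) →
    ∀ ε > 0, ∃ (n : ℕ) (z : ℕ → E2) (w : ℕ → EuclideanSpace ℝ (Fin d)),
      Apx d (γ '' Icc 0 1) ℓ ε n z w ∧ ∀ v ∈ γ '' Icc 0 1, ∃ i < n, dist v (w i) ≤ ε) :
    ApxStm := by
  intro d γ ℓ h0 h1 h2 h3 h4 ε hε
  obtain ⟨n, z, w, h5, -⟩ := h d γ ℓ h0 h1 h2 h3 h4 ε hε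
  exact ⟨n, z, w, h5⟩

theorem mainA (hAlt : AltStm) : MainStm :=
  mainAux (apxOf (apx2 (Pool.Agent.Y344.FP.maj hAlt) pln poly)) lim
    (plane sup Pool.Agent.Y302.FP.cal half half0 (rb Pool.Agent.Y302.FP.gapsum))
    (rig geo) (fin (cro poly) cro2 pyt) ifs cwb_diam (fun _ h => Fn.compact_hull h)

theorem quantA (hAlt : AltStm) (hH2 : Half2Stm) (hL2 : Lim2Stm)
    (d : ℕ) (γ : ℝ → EuclideanSpace ℝ (Fin d)) (hc : ContinuousOn γ (Icc 0 1)) (h01 : γ 0 = γ 1)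
    (hlen : eVariationOn γ (Icc 0 1) = ENNReal.ofReal Real.pi) (m : ℝ) (hm0 : 0 ≤ m)
    (hm1 : m ≤ 1) (hm : ∀ x ∈ γ '' Icc 0 1, ∃ y ∈ γ '' Icc 0 1, m ≤ dist x y) :
    ∀ x ∈ γ '' Icc 0 1, ∀ y ∈ γ '' Icc 0 1, m ≤ dist x y → m + ((dist x y - m) / 4) ^ 5 ≤ 1 :=
  quant (apx2 (Pool.Agent.Y344.FP.maj hAlt) pln poly) hL2
    (plane2 sup Pool.Agent.Y302.FP.cal half hH2 (rb Pool.Agent.Y302.FP.gapsum))
    d γ hc h01 hlen m hm0 hm1 hm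

end Pool.Agent.Y508.FP
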