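import Pool.Agent.Y508.FP.Stm

/-!
Assembly of the main theorem from its parts.
-/

set_option autoImplicit false
open MeasureTheory Metric Set Filter Topology
open Real (sin cos)

namespace Pool.Agent.Y508.FP
open Pool.Agent.Y508

theorem mainAux (hApx : ApxStm) (hLim : LimStm) (hPl : PlaneStm) (hRig : RigStm) (hFin : FinStm)
    (hIf : IfStm)
    (hDiam : ∀ (d : ℕ) (C : Set (EuclideanSpace ℝ (Fin d))), CWB d C →
      ∀ x ∈ C, ∀ y ∈ C, dist x y ≤ 1)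
    (hHull : ∀ T : Set E2, IsCompact T → IsCompact (convexHull ℝ T)) : MainStm := by
  intro d γ hc h01 hlen
  have hpi := Real.pi_pos
  have hCc : IsCompact (γ '' Icc 0 1) := isCompact_Icc.image_of_continuousOn hc
  have core : (∀ x ∈ γ '' Icc 0 1, ∃ y ∈ γ '' Icc 0 1, 1 ≤ dist x y) →
      CWB d (γ '' Icc 0 1) := by
    intro H
    have Hγ : ∀ s ∈ Icc (0 : ℝ) 1, ∃ t ∈ Icc (0 : ℝ) 1, 1 ≤ dist (γ s) (γ t) := by
      intro s hs
      obtain ⟨_, ⟨t, ht, rfl⟩, h1⟩ := H _ ⟨s, hs, rfl⟩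
      exact ⟨t, ht, h1⟩
    obtain ⟨T, c, hT⟩ := hLim d (γ '' Icc 0 1) Real.pi hpi.le hCc
      (hApx d γ Real.pi hpi.le hc h01 hlen.le Hγ)
    obtain ⟨h1, h2⟩ := hPl (convexHull ℝ T) (hHull T hT.cpt) (convex_convexHull ℝ T)
      hT.ne.convexHull ⟨0, Real.pi / 4, by linarith [Real.pi_lt_four],
        convexHull_min hT.bd (convex_closedBall _ _)⟩ (by
        intro x hx
        obtain ⟨q, hq, h3⟩ := hT.far x (hT.fr hx)
        exact ⟨q, subset_convexHull ℝ T hq, h3.trans (hT.lip x (hT.fr hx) q hq)⟩)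
    have hW : W (convexHull ℝ T) = Real.pi := le_antisymm hT.per h1
    obtain ⟨e1, e2, hD⟩ := hRig d (γ '' Icc 0 1) Real.pi T c hT (h2 hW)
    exact hFin d γ e1 e2 hc h01 hlen hD
  refine ⟨?_, core, hIf d _⟩
  by_contra hcon
  push Not at hcon
  have h1 := hDiam d _ (core fun x hx => by
    obtain ⟨y, hy, h2⟩ := hcon x hx
    exact ⟨y, hy, h2.le⟩)
  have h0 : γ 0 ∈ γ '' Icc 0 1 := ⟨0, by simp, rfl⟩
  obtain ⟨y, hy, h2⟩ := hcon _ h0
  exact absurd (h1 _ h0 y hy) (not_le.2 h2)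

end Pool.Agent.Y508.FP
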