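import Pool.Agent.Y508.FP.Stm

/-!
Plane theorem: the analytic identities.
-/

set_option autoImplicit false
open MeasureTheory Metric Set Filter Topology
open Real (sin cos)

namespace Pool.Agent.Y508.FP
open Pool.Agent.Y508

theorem per_deriv {h h1 : ℝ → ℝ} (hd : ∀ t, HasDerivAt h (h1 t) t) {T : ℝ}
    (hp : ∀ t, h (t + T) = h t) (t : ℝ) : h1 (t + T) = h1 t := by
  have h2 : HasDerivAt (fun s => h (s + T)) (h1 (t + T)) t := (hd (t + T)).comp_add_const t T
  have h3 : (fun s => h (s + T)) = h := funext hp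
  rw [h3] at h2
  exact h2.unique (hd t)

theorem ac_of_deriv {f f1 : ℝ → ℝ} (hf : ∀ t, HasDerivAt f (f1 t) t) (hfc : Continuous f1) (a b : ℝ) :
    AbsolutelyContinuousOnInterval f a b := by
  have h1 : ContDiff ℝ 1 f := by
    rw [contDiff_one_iff_deriv]
    refine ⟨fun t => (hf t).differentiableAt, ?_⟩
    have : deriv f = f1 := funext fun t => (hf t).deriv
    rw [this]
    exact hfc
  exact h1.contDiffOn.absolutelyContinuousOnInterval

theorem pl_ibp {h h1 f f1 : ℝ → ℝ} (hd : ∀ t, HasDerivAt h (h1 t) t)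
    (hp : ∀ t, h (t + 2 * Real.pi) = h t) {C : NNReal} (hL : LipschitzWith C h1)
    (hf : ∀ t, HasDerivAt f (f1 t) t) (hfc : Continuous f1) (hfp : ∀ t, f (t + 2 * Real.pi) = f t) :
    ∫ t in (0 : ℝ)..(2 * Real.pi), (deriv h1 t + h t) * f t =
      ∫ t in (0 : ℝ)..(2 * Real.pi), (h t * f t - h1 t * f1 t) := by
  have hac : AbsolutelyContinuousOnInterval h1 0 (2 * Real.pi) :=
    (hL.lipschitzOnWith (s := uIcc 0 (2 * Real.pi))).absolutelyContinuousOnInterval
  have hfa := ac_of_deriv hf hfc 0 (2 * Real.pi)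
  have h2 := AbsolutelyContinuousOnInterval.integral_deriv_mul_eq_sub hac hfa
  have hd1 : deriv f = f1 := funext fun t => (hf t).deriv
  have h3 : h1 (2 * Real.pi) = h1 0 := by
    have := per_deriv hd hp 0
    rwa [zero_add] at this
  have h4 : f (2 * Real.pi) = f 0 := by
    have := hfp 0
    rwa [zero_add] at this
  rw [h3, h4, sub_self, hd1] at h2
  have hhc : Continuous h := continuous_iff_continuousAt.2 fun t => (hd t).continuousAt
  have hfc0 : Continuous f := continuous_iff_continuousAt.2 fun t => (hf t).continuousAt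
  have i1 : IntervalIntegrable (fun t => deriv h1 t * f t) volume 0 (2 * Real.pi) :=
    hac.intervalIntegrable_deriv.mul_continuousOn hfc0.continuousOn
  have i2 : IntervalIntegrable (fun t => h1 t * f1 t) volume 0 (2 * Real.pi) :=
    (hL.continuous.mul hfc).intervalIntegrable _ _
  have i3 : IntervalIntegrable (fun t => h t * f t) volume 0 (2 * Real.pi) :=
    (hhc.mul hfc0).intervalIntegrable _ _
  rw [intervalIntegral.integral_add i1 i2] at h2
  rw [intervalIntegral.integral_sub i3 i2]
  have h5 : (fun t => (deriv h1 t + h t) * f t) = fun t => deriv h1 t * f t + h t * f t := by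
    funext t
    ring
  rw [h5, intervalIntegral.integral_add i1 i3]
  linarith

/-- shift of a periodic integral -/
theorem per_shift {f : ℝ → ℝ} (hf : ∀ t, f (t + 2 * Real.pi) = f t) (s : ℝ) :
    ∫ t in (0 : ℝ)..(2 * Real.pi), f (t + s) = ∫ t in (0 : ℝ)..(2 * Real.pi), f t := by
  rw [intervalIntegral.integral_comp_add_right (fun t => f t) s, zero_add]
  have h1 : Function.Periodic f (2 * Real.pi) := hf
  have := h1.intervalIntegral_add_eq s 0
  rw [zero_add] at this
  rw [add_comm (2 * Real.pi) s]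
  exact this

theorem per_two {f : ℝ → ℝ} (hf : ∀ t, f (t + Real.pi) = f t) (hfc : Continuous f) (s : ℝ) :
    ∫ t in (0 : ℝ)..(2 * Real.pi), f t = 2 * ∫ t in (s - Real.pi / 2)..(s + Real.pi / 2), f t := by
  have h1 : Function.Periodic f Real.pi := hf
  have h2 := h1.intervalIntegral_add_eq (s - Real.pi / 2) 0
  have h3 := h1.intervalIntegral_add_eq Real.pi 0
  rw [show s - Real.pi / 2 + Real.pi = s + Real.pi / 2 by ring, zero_add] at h2
  rw [zero_add] at h3
  rw [h2, ← intervalIntegral.integral_add_adjacent_intervals (hfc.intervalIntegrable 0 Real.pi)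
    (hfc.intervalIntegrable Real.pi (2 * Real.pi)), show 2 * Real.pi = Real.pi + Real.pi by ring, h3]
  ring

/-- the main identity -/
theorem pl_ident {h h1 k : ℝ → ℝ} (hd : ∀ t, HasDerivAt h (h1 t) t)
    (hp : ∀ t, h (t + 2 * Real.pi) = h t) {C : NNReal} (hL : LipschitzWith C h1)
    (hk : Continuous k) (hkp : ∀ t, k (t + 2 * Real.pi) = k t) :
    (∫ t in (0 : ℝ)..(2 * Real.pi), k t) - Real.pi =
      (∫ t in (0 : ℝ)..(2 * Real.pi), ((k (t + Real.pi) - h (t + Real.pi)) -
        (deriv h1 t + h t) * (1 - h t - h (t + Real.pi)))) +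
      1 / 2 * ∫ t in (0 : ℝ)..(2 * Real.pi), ((-h1 t - h1 (t + Real.pi)) ^ 2 -
        (1 - h t - h (t + Real.pi)) ^ 2) := by
  have hhc : Continuous h := continuous_iff_continuousAt.2 fun t => (hd t).continuousAt
  have hpi : Continuous (fun t : ℝ => t + Real.pi) := continuous_id.add continuous_const
  have hhc2 : Continuous (fun t => h (t + Real.pi)) := hhc.comp hpi
  have hc1 : Continuous h1 := hL.continuous
  have hc2 : Continuous (fun t => h1 (t + Real.pi)) := hc1.comp hpi
  have hp1 := per_deriv hd hp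
  set g : ℝ → ℝ := fun t => 1 - h t - h (t + Real.pi) with hg
  set g1 : ℝ → ℝ := fun t => -h1 t - h1 (t + Real.pi) with hg1
  have hgd : ∀ t, HasDerivAt g (g1 t) t := by
    intro t
    have h2 : HasDerivAt (fun s => h (s + Real.pi)) (h1 (t + Real.pi)) t :=
      (hd (t + Real.pi)).comp_add_const t Real.pi
    have h3 := ((hasDerivAt_const t (1 : ℝ)).sub (hd t)).sub h2
    have e : g1 t = 0 - h1 t - h1 (t + Real.pi) := by
      show -h1 t - h1 (t + Real.pi) = 0 - h1 t - h1 (t + Real.pi)
      ring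
    rw [e]
    exact h3
  have hgc : Continuous g := (continuous_const.sub hhc).sub hhc2
  have hg1c : Continuous g1 := hc1.neg.sub hc2
  have hsh : ∀ t, h (t + Real.pi + Real.pi) = h t := by
    intro t
    rw [add_assoc, ← two_mul, hp]
  have hsh1 : ∀ t, h1 (t + Real.pi + Real.pi) = h1 t := by
    intro t
    rw [add_assoc, ← two_mul, hp1]
  have hgp : ∀ t, g (t + Real.pi) = g t := by
    intro t
    simp only [hg]
    rw [hsh]
    ring
  have hg1p : ∀ t, g1 (t + Real.pi) = g1 t := by
    intro t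
    simp only [hg1]
    rw [hsh1]
    ring
  have hgp2 : ∀ t, g (t + 2 * Real.pi) = g t := by
    intro t
    rw [two_mul, ← add_assoc, hgp, hgp]
  have hg1p2 : ∀ t, g1 (t + 2 * Real.pi) = g1 t := by
    intro t
    rw [two_mul, ← add_assoc, hg1p, hg1p]
  have e1 := pl_ibp hd hp hL hgd hg1c hgp2
  -- symmetrization
  have e2 : ∫ t in (0 : ℝ)..(2 * Real.pi), (h (t + Real.pi) * g t - h1 (t + Real.pi) * g1 t) =
      ∫ t in (0 : ℝ)..(2 * Real.pi), (h t * g t - h1 t * g1 t) := by
    have := per_shift (f := fun t => h t * g t - h1 t * g1 t)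
      (fun t => by simp only [hp, hp1, hgp2, hg1p2]) Real.pi
    simp only [hgp, hg1p] at this
    exact this
  have e3 : (∫ t in (0 : ℝ)..(2 * Real.pi), (h (t + Real.pi) * g t - h1 (t + Real.pi) * g1 t)) +
      (∫ t in (0 : ℝ)..(2 * Real.pi), (h t * g t - h1 t * g1 t)) =
      (∫ t in (0 : ℝ)..(2 * Real.pi), g t) +
        ∫ t in (0 : ℝ)..(2 * Real.pi), (g1 t ^ 2 - g t ^ 2) := by
    rw [← intervalIntegral.integral_add, ← intervalIntegral.integral_add]
    · apply intervalIntegral.integral_congr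
      intro t _
      simp only [hg, hg1]
      ring
    · exact hgc.intervalIntegrable _ _
    · exact ((hg1c.pow 2).sub (hgc.pow 2)).intervalIntegrable _ _
    · exact ((hhc2.mul hgc).sub (hc2.mul hg1c)).intervalIntegrable _ _
    · exact ((hhc.mul hgc).sub (hc1.mul hg1c)).intervalIntegrable _ _
  have e4 : ∫ t in (0 : ℝ)..(2 * Real.pi), h (t + Real.pi) = ∫ t in (0 : ℝ)..(2 * Real.pi), h t :=
    per_shift hp Real.pi
  have e5 : ∫ t in (0 : ℝ)..(2 * Real.pi), k (t + Real.pi) = ∫ t in (0 : ℝ)..(2 * Real.pi), k t :=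
    per_shift hkp Real.pi
  have e6 : ∫ t in (0 : ℝ)..(2 * Real.pi), g t =
      2 * Real.pi - 2 * ∫ t in (0 : ℝ)..(2 * Real.pi), h t := by
    simp only [hg]
    rw [intervalIntegral.integral_sub, intervalIntegral.integral_sub, e4]
    · simp
      ring
    · exact continuous_const.intervalIntegrable _ _
    · exact hhc.intervalIntegrable _ _
    · exact (continuous_const.sub hhc).intervalIntegrable _ _
    · exact hhc2.intervalIntegrable _ _
  have hac : AbsolutelyContinuousOnInterval h1 0 (2 * Real.pi) :=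
    (hL.lipschitzOnWith (s := uIcc 0 (2 * Real.pi))).absolutelyContinuousOnInterval
  have i1 : IntervalIntegrable (fun t => (deriv h1 t + h t) * g t) volume 0 (2 * Real.pi) :=
    (hac.intervalIntegrable_deriv.add (hhc.intervalIntegrable _ _)).mul_continuousOn
      hgc.continuousOn
  have hkc2 : Continuous (fun t => k (t + Real.pi)) := hk.comp hpi
  have i2 : IntervalIntegrable (fun t => k (t + Real.pi) - h (t + Real.pi)) volume 0
      (2 * Real.pi) := (hkc2.sub hhc2).intervalIntegrable _ _
  rw [intervalIntegral.integral_sub i2 i1, e1, intervalIntegral.integral_sub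
    (hkc2.intervalIntegrable _ _) (hhc2.intervalIntegrable _ _), e4, e5]
  linarith

end Pool.Agent.Y508.FP
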