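import Pool.Agent.Y508.FP.PlA

/-!
Plane theorem: geometry of the dual body.
-/

set_option autoImplicit false
open MeasureTheory Metric Set Filter Topology
open Real (sin cos)

namespace Pool.Agent.Y508.FP
open Pool.Agent.Y508

theorem dual_sub {K : Set E2} (hK : IsCompact K) (hc : Convex ℝ K) (hne : K.Nonempty)
    (H : ∀ x ∈ frontier K, ∃ y ∈ K, 1 ≤ dist x y) : dual K ⊆ K := by
  intro z hz
  by_contra hzK
  obtain ⟨p, hp, hmin⟩ := exists_norm_eq_iInf_of_complete_convex hne hK.isComplete hc z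
  have hle := (norm_eq_iInf_iff_real_inner_le_zero hc hp).1 hmin
  have hzp : z - p ≠ 0 := fun h => hzK ((sub_eq_zero.1 h) ▸ hp)
  have hpos : 0 < ‖z - p‖ := norm_pos_iff.2 hzp
  have hfr : p ∈ frontier K := by
    rw [frontier, hK.isClosed.closure_eq]
    refine ⟨hp, fun hi => ?_⟩
    obtain ⟨r, hr, hb⟩ := Metric.mem_nhds_iff.1 (mem_interior_iff_mem_nhds.1 hi)
    have h1 : p + (r / 2 / ‖z - p‖) • (z - p) ∈ K := by
      apply hb
      rw [mem_ball, dist_eq_norm, add_sub_cancel_left, norm_smul, Real.norm_eq_abs,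
        abs_of_pos (by positivity), div_mul_cancel₀ _ hpos.ne']
      linarith
    have h2 := hle _ h1
    rw [add_sub_cancel_left, inner_smul_right, real_inner_self_eq_norm_sq] at h2
    have h3 : 0 < r / 2 / ‖z - p‖ * ‖z - p‖ ^ 2 := by positivity
    linarith
  obtain ⟨y, hy, h1⟩ := H p hfr
  have h2 : ‖z - y‖ ≤ 1 := by
    rw [← dist_eq_norm]
    exact hz y hy
  rw [dist_eq_norm] at h1
  have h3 := hle y hy
  have h4 : ‖z - y‖ ^ 2 = ‖z - p‖ ^ 2 - 2 * inner ℝ (z - p) (y - p) + ‖y - p‖ ^ 2 := by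
    rw [← norm_sub_sq_real]
    congr 2
    abel
  have h5 : ‖y - p‖ = ‖p - y‖ := norm_sub_rev _ _
  have h6 : ‖z - y‖ ^ 2 ≤ 1 := by nlinarith [norm_nonneg (z - y)]
  have h7 : 1 ≤ ‖p - y‖ ^ 2 := by nlinarith [norm_nonneg (p - y)]
  have h8 : 0 < ‖z - p‖ ^ 2 := by positivity
  rw [h5] at h4
  linarith

theorem sup_le {K : Set E2} {x : ℝ → E2} (hx : Sup K x) (θ : ℝ) {z : E2} (hz : z ∈ dual K) :
    ip z θ ≤ ip (x θ) θ := by
  have h := hx.ball θ z hz
  rw [ip_sub] at h
  nlinarith [sq_nonneg ‖z - x θ‖]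

theorem sup_per {K : Set E2} {x : ℝ → E2} (hx : Sup K x) (θ : ℝ) :
    ip (x (θ + 2 * Real.pi)) (θ + 2 * Real.pi) = ip (x θ) θ := by
  rw [hx.per, ip_two_pi]

theorem sup_add {K : Set E2} (hne : K.Nonempty) {x : ℝ → E2} (hx : Sup K x)
    (θ : ℝ) : ip (x θ) θ + hs K (θ + Real.pi) ≤ 1 := by
  have h1 : hs K (θ + Real.pi) ≤ 1 - ip (x θ) θ := by
    refine hs_le hne fun y hy => ?_
    rw [ip_add_pi]
    have h2 := hx.mem θ y hy
    rw [dist_eq_norm] at h2
    have h3 := abs_ip_le (x θ - y) θ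
    rw [ip_sub] at h3
    have h4 := le_abs_self (ip (x θ) θ - ip y θ)
    linarith
  linarith

theorem kap_iff {K : Set E2} (hK : IsCompact K) (hne : K.Nonempty) {x : ℝ → E2} (hx : Sup K x)
    (θ : ℝ) : 1 - ip (x θ) θ - hs K (θ + Real.pi) = 0 ↔ x θ - ev θ ∈ K := by
  constructor
  · intro h
    obtain ⟨y, hy, hye⟩ := exists_hs hK hne (θ + Real.pi)
    rw [ip_add_pi] at hye
    have h2 := hx.mem θ y hy
    rw [dist_eq_norm] at h2
    have h3 : ip (x θ - y) θ = 1 := by
      rw [ip_sub]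
      linarith
    have h4 : ‖(x θ - y) - ev θ‖ ^ 2 ≤ 0 := by
      rw [norm_sub_sq_real, inner_ev, norm_ev, h3]
      nlinarith [norm_nonneg (x θ - y)]
    have h5 : (x θ - y) - ev θ = 0 := by
      have : ‖(x θ - y) - ev θ‖ = 0 := by
        have := sq_nonneg ‖(x θ - y) - ev θ‖
        exact pow_eq_zero_iff (two_ne_zero) |>.1 (le_antisymm h4 this)
      exact norm_eq_zero.1 this
    have h6 : x θ - ev θ = y := by
      have : x θ - ev θ - y = 0 := by
        rw [← h5]
        abel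
      exact sub_eq_zero.1 this
    rw [h6]
    exact hy
  · intro h
    have h1 := le_hs hK h (θ + Real.pi)
    rw [ip_add_pi, ip_sub, ip_ev, sub_self, Real.cos_zero] at h1
    have h2 := sup_add hne hx θ
    linarith

/-- the gap property in terms of `κ` and `ρ` -/
theorem kap_gap {K : Set E2} (hK : IsCompact K) (hne : K.Nonempty) {x : ℝ → E2} (hx : Sup K x)
    (θ : ℝ) (h0 : 1 - ip (x θ) θ - hs K (θ + Real.pi) ≠ 0) :
    ∃ a b : ℝ, a < θ ∧ θ < b ∧ b - a < Real.pi ∧
      1 - ip (x a) a - hs K (a + Real.pi) = 0 ∧ 1 - ip (x b) b - hs K (b + Real.pi) = 0 ∧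
      (∀ φ ∈ Ioo a b, 1 - ip (x φ) φ - hs K (φ + Real.pi) ≠ 0 ∧
        deriv (fun t => ip (x t) (t + Real.pi / 2)) φ + ip (x φ) φ = 0) ∧
      ∀ φ ∈ Icc a b, 1 - ip (x φ) φ - hs K (φ + Real.pi) ≤ 1 - cos (φ - a) ∧
        1 - ip (x φ) φ - hs K (φ + Real.pi) ≤ 1 - cos (b - φ) := by
  have h1 : x θ - ev θ ∉ K := fun h => h0 ((kap_iff hK hne hx θ).2 h)
  obtain ⟨a, b, ha, hb, hab, hcon, hKa, hKb, hno⟩ := hx.gap θ h1
  have hxa : x a = x θ := hcon a ⟨le_refl _, (ha.trans hb).le⟩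
  have hxb : x b = x θ := hcon b ⟨(ha.trans hb).le, le_refl _⟩
  refine ⟨a, b, ha, hb, hab, (kap_iff hK hne hx a).2 (by rwa [hxa]),
    (kap_iff hK hne hx b).2 (by rwa [hxb]), ?_, ?_⟩
  · intro φ hφ
    have hxφ : x φ = x θ := hcon φ ⟨hφ.1.le, hφ.2.le⟩
    refine ⟨fun h => ?_, ?_⟩
    · have := (kap_iff hK hne hx φ).1 h
      rw [hxφ] at this
      exact hno φ hφ this
    · have h2 : (fun t => ip (x t) (t + Real.pi / 2)) =ᶠ[𝓝 φ]
          (fun t => ip (x θ) (t + Real.pi / 2)) := by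
        filter_upwards [Ioo_mem_nhds hφ.1 hφ.2] with t ht
        rw [hcon t ⟨ht.1.le, ht.2.le⟩]
      rw [h2.deriv_eq, hxφ]
      have h3 : HasDerivAt (fun t => ip (x θ) (t + Real.pi / 2)) (-ip (x θ) φ) φ := by
        have h4 : (fun t : ℝ => ip (x θ) (t + Real.pi / 2)) =
            fun t => (x θ) 1 * cos t - (x θ) 0 * sin t := by
          funext t
          simp only [ip, Real.cos_add_pi_div_two, Real.sin_add_pi_div_two]
          ring
        rw [h4]
        have h5 := ((Real.hasDerivAt_cos φ).const_mul ((x θ) 1)).sub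
          ((Real.hasDerivAt_sin φ).const_mul ((x θ) 0))
        have e : -ip (x θ) φ = (x θ) 1 * -sin φ - (x θ) 0 * cos φ := by
          unfold ip
          ring
        rw [e]
        exact h5
      rw [h3.deriv]
      ring
  · intro φ hφ
    have hxφ : x φ = x θ := hcon φ hφ
    have h2 := le_hs hK hKa (φ + Real.pi)
    have h3 := le_hs hK hKb (φ + Real.pi)
    rw [ip_add_pi, ip_sub, ip_ev] at h2 h3
    rw [hxφ]
    have h4 : cos (b - φ) = cos (φ - b) := by rw [← Real.cos_neg]; ring_nf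
    rw [h4]
    constructor <;> linarith

theorem psi_pos {y : ℝ} (h0 : 0 < y) (h1 : y < Real.pi / 2) :
    0 < 4 * (sin y - y * cos y) - 2 * (y - sin y * cos y) := by
  set f : ℝ → ℝ := fun t => 4 * (sin t - t * cos t) - 2 * (t - sin t * cos t) with hf
  have hd : ∀ t, HasDerivAt f (4 * sin t * (t - sin t)) t := by
    intro t
    have e1 := Real.hasDerivAt_sin t
    have e2 := Real.hasDerivAt_cos t
    have e3 := (e1.sub ((hasDerivAt_id t).mul e2)).const_mul 4
    have e4 := ((hasDerivAt_id t).sub (e1.mul e2)).const_mul 2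
    have e5 := e3.sub e4
    have e : 4 * sin t * (t - sin t) = 4 * (cos t - (1 * cos t + id t * -sin t)) -
        2 * (1 - (cos t * cos t + sin t * -sin t)) := by
      have := Real.sin_sq_add_cos_sq t
      simp only [id]
      linear_combination (-2) * this
    rw [e]
    exact e5
  have hmono : StrictMonoOn f (Icc 0 (Real.pi / 2)) := by
    apply strictMonoOn_of_deriv_pos (convex_Icc _ _)
    · exact (continuous_iff_continuousAt.2 fun t => (hd t).continuousAt).continuousOn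
    · intro t ht
      rw [interior_Icc] at ht
      rw [(hd t).deriv]
      have h2 : 0 < sin t := Real.sin_pos_of_pos_of_lt_pi ht.1 (by linarith [ht.2, Real.pi_pos])
      have h3 : sin t < t := Real.sin_lt ht.1
      have h4 : 0 < t - sin t := by linarith
      positivity
  have h2 := hmono ⟨le_refl _, by positivity⟩ ⟨h0.le, h1.le⟩ h0
  have h3 : f 0 = 0 := by simp [hf]
  rw [h3] at h2
  exact h2

end Pool.Agent.Y508.FP
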