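import Pool.Agent.Y508.FP.PlB

/-!
The theorem for plane convex bodies.
-/

set_option autoImplicit false
open MeasureTheory Metric Set Filter Topology
open Real (sin cos)

namespace Pool.Agent.Y508.FP
open Pool.Agent.Y508

theorem ip_rot (v : E2) (θ t : ℝ) :
    ip v (θ + t) = cos t * ip v θ + sin t * ip v (θ + Real.pi / 2) := by
  unfold ip
  rw [Real.cos_add, Real.sin_add, Real.cos_add_pi_div_two, Real.sin_add_pi_div_two]
  ring

theorem plane (hS : SupStm) (hC : CalStm) (hH : HalfStm) (hH0 : Half0Stm) (hR : RStm) :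
    PlaneStm := by
  intro K hK hc hne hball H
  obtain ⟨x, hx⟩ := hS K hK hc hne hball
  obtain ⟨m, r, hr, hKm⟩ := hball
  have hDK := dual_sub hK hc hne H
  obtain ⟨-, hder, ⟨C, hL⟩, hρd⟩ := hC K x hx
  have hpi := Real.pi_pos
  obtain ⟨h, hh⟩ : ∃ h : ℝ → ℝ, h = fun t => ip (x t) t := ⟨_, rfl⟩
  obtain ⟨h1, hh1⟩ : ∃ h1 : ℝ → ℝ, h1 = fun t => ip (x t) (t + Real.pi / 2) := ⟨_, rfl⟩
  have hd : ∀ t, HasDerivAt h (h1 t) t := by
    intro t
    rw [hh, hh1]
    exact hder t
  rw [← hh1] at hL
  have hp : ∀ t, h (t + 2 * Real.pi) = h t := by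
    intro t
    rw [hh]
    exact sup_per hx t
  have hp1 := per_deriv hd hp
  have hkc := cont_hs hK
  have hhc : Continuous h := continuous_iff_continuousAt.2 fun t => (hd t).continuousAt
  have hpc : Continuous (fun t : ℝ => t + Real.pi) := continuous_id.add continuous_const
  have hhc2 : Continuous (fun t => h (t + Real.pi)) := hhc.comp hpc
  have hc1 : Continuous h1 := hL.continuous
  have hc2 : Continuous (fun t => h1 (t + Real.pi)) := hc1.comp hpc
  have hkc2 : Continuous (fun t => hs K (t + Real.pi)) := hkc.comp hpc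
  -- the defect of the width
  obtain ⟨g, hg⟩ : ∃ g : ℝ → ℝ, g = fun t => 1 - h t - h (t + Real.pi) := ⟨_, rfl⟩
  obtain ⟨g1, hg1⟩ : ∃ g1 : ℝ → ℝ, g1 = fun t => -h1 t - h1 (t + Real.pi) := ⟨_, rfl⟩
  have hgd : ∀ t, HasDerivAt g (g1 t) t := by
    intro t
    have h2 : HasDerivAt (fun s => h (s + Real.pi)) (h1 (t + Real.pi)) t :=
      (hd (t + Real.pi)).comp_add_const t Real.pi
    have h3 := ((hasDerivAt_const t (1 : ℝ)).sub (hd t)).sub h2
    have e : g1 t = 0 - h1 t - h1 (t + Real.pi) := by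
      rw [hg1]
      ring
    rw [e, hg]
    exact h3
  have hgc : Continuous g := continuous_iff_continuousAt.2 fun t => (hgd t).continuousAt
  have hg1c : Continuous g1 := by
    rw [hg1]
    exact hc1.neg.sub hc2
  have hgp : ∀ t, g (t + Real.pi) = g t := by
    intro t
    rw [hg]
    simp only
    rw [show t + Real.pi + Real.pi = t + 2 * Real.pi by ring, hp]
    ring
  have hg1p : ∀ t, g1 (t + Real.pi) = g1 t := per_deriv hgd hgp
  have hin : ∀ t, x t ∈ K := fun t => hDK (hx.mem t)
  have hlk : ∀ t, h t ≤ hs K t := by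
    intro t
    rw [hh]
    exact le_hs hK (hin t) t
  have hadd : ∀ t, h t + hs K (t + Real.pi) ≤ 1 := by
    intro t
    rw [hh]
    exact sup_add hne hx t
  have hg0 : ∀ t, 0 ≤ g t := by
    intro t
    rw [hg]
    simp only
    linarith [hadd t, hlk (t + Real.pi)]
  have hgW : ∀ t, g t < 1 := by
    intro t
    have e1 : ∀ s, ip m s + (1 - r) ≤ h s := by
      intro s
      have h2 : m + (1 - r) • ev s ∈ dual K := by
        intro y hy
        rw [dist_eq_norm]
        have h3 : ‖y - m‖ ≤ r := by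
          rw [← dist_eq_norm]
          exact hKm hy
        calc ‖m + (1 - r) • ev s - y‖ = ‖(m - y) + (1 - r) • ev s‖ := by
              congr 1
              abel
          _ ≤ ‖m - y‖ + ‖(1 - r) • ev s‖ := norm_add_le _ _
          _ ≤ 1 := by
              rw [norm_smul, norm_ev, Real.norm_eq_abs, abs_of_pos (by linarith), norm_sub_rev]
              linarith
      have h4 := sup_le hx s h2
      rw [ip_add, ip_smul, ip_ev, sub_self, Real.cos_zero, mul_one] at h4
      rw [hh]
      exact h4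
    have h5 := e1 t
    have h6 := e1 (t + Real.pi)
    rw [ip_add_pi] at h6
    rw [hg]
    simp only
    linarith
  -- the minimum
  have hg2p : ∀ t, g (t + 2 * Real.pi) = g t := by
    intro t
    rw [two_mul, ← add_assoc, hgp, hgp]
  obtain ⟨θ, hmin⟩ : ∃ θ, ∀ t, g θ ≤ g t := by
    obtain ⟨θ, -, hθ⟩ := (isCompact_Icc (a := (0 : ℝ)) (b := Real.pi)).exists_isMinOn
      ⟨0, le_refl _, hpi.le⟩ hgc.continuousOn
    refine ⟨θ, fun t => ?_⟩
    obtain ⟨s, hs', hst⟩ := Function.Periodic.exists_mem_Ico₀ (f := g) (c := Real.pi) hgp hpi t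
    rw [hst]
    exact hθ ⟨hs'.1, hs'.2.le⟩
  have hgθ : g1 θ = 0 := by
    have h2 : IsLocalMin g θ := Filter.Eventually.of_forall hmin
    exact h2.hasDerivAt_eq_zero (hgd θ)
  obtain ⟨y, hy⟩ : ∃ y, y = Real.arccos (1 - g θ) := ⟨_, rfl⟩
  have hcy : cos y = 1 - g θ := by
    rw [hy, Real.cos_arccos]
    · linarith [hgW θ]
    · linarith [hg0 θ]
  have hy0 : 0 ≤ y := by
    rw [hy]
    exact Real.arccos_nonneg _
  have hy1 : y < Real.pi / 2 := by
    rw [hy]
    exact Real.arccos_lt_pi_div_two.2 (by linarith [hgW θ])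
  have hup : ∀ t, g (θ + t) ≤ 1 - cos y * cos t := by
    intro t
    have h2 := sup_le hx (θ + t) (hx.mem θ)
    have h3 := sup_le hx (θ + Real.pi + t) (hx.mem (θ + Real.pi))
    rw [ip_rot] at h2 h3
    have h4 : h1 θ + h1 (θ + Real.pi) = 0 := by
      have := hgθ
      rw [hg1] at this
      simp only at this
      linarith
    have h5 : h θ + h (θ + Real.pi) = cos y := by
      rw [hcy, hg]
      ring
    have h6 : g (θ + t) = 1 - h (θ + t) - h (θ + Real.pi + t) := by
      rw [hg]
      simp only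
      rw [show θ + t + Real.pi = θ + Real.pi + t by ring]
    have e1 : ip (x (θ + t)) (θ + t) = h (θ + t) := by rw [hh]
    have e2 : ip (x (θ + Real.pi + t)) (θ + Real.pi + t) = h (θ + Real.pi + t) := by rw [hh]
    have e3 : ip (x θ) θ = h θ := by rw [hh]
    have e4 : ip (x θ) (θ + Real.pi / 2) = h1 θ := by rw [hh1]
    have e5 : ip (x (θ + Real.pi)) (θ + Real.pi) = h (θ + Real.pi) := by rw [hh]
    have e6 : ip (x (θ + Real.pi)) (θ + Real.pi + Real.pi / 2) = h1 (θ + Real.pi) := by rw [hh1]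
    rw [e1, e3, e4] at h2
    rw [e2, e5, e6] at h3
    rw [h6, ← h5]
    have h7 : sin t * h1 θ + sin t * h1 (θ + Real.pi) = 0 := by rw [← mul_add, h4, mul_zero]
    linarith
  -- the two halves
  have qp : ∀ t, HasDerivAt (fun s => g (θ + s)) (g1 (θ + t)) t := fun t =>
    (hgd (θ + t)).comp_const_add θ t
  have qm : ∀ t, HasDerivAt (fun s => g (θ - s)) (-g1 (θ - t)) t := fun t =>
    (hgd (θ - t)).comp_const_sub θ t
  have qpc : Continuous (fun t => g1 (θ + t)) := hg1c.comp (continuous_const.add continuous_id)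
  have qmc : Continuous (fun t => -g1 (θ - t)) :=
    (hg1c.comp (continuous_const.sub continuous_id)).neg
  have hq0 : g θ = 1 - cos y := by rw [hcy]; ring
  have Ap := hH (fun s => g (θ + s)) (fun t => g1 (θ + t)) y hy0 hy1 qp qpc
    (by simp only [add_zero]; exact hq0) (fun t _ _ => hup t)
  have Am := hH (fun s => g (θ - s)) (fun t => -g1 (θ - t)) y hy0 hy1 qm qmc
    (by simp only [sub_zero]; exact hq0) (fun t _ _ => by
      have := hup (-t)
      rw [Real.cos_neg] at this
      exact this)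
  obtain ⟨F, hF⟩ : ∃ F : ℝ → ℝ, F = fun t => g1 t ^ 2 - g t ^ 2 := ⟨_, rfl⟩
  have hFc : Continuous F := by
    rw [hF]
    exact (hg1c.pow 2).sub (hgc.pow 2)
  have hFp : ∀ t, F (t + Real.pi) = F t := by
    intro t
    rw [hF]
    simp only [hgp, hg1p]
  have Ip : ∫ t in (0 : ℝ)..(Real.pi / 2), (g1 (θ + t) ^ 2 - g (θ + t) ^ 2) =
      ∫ t in θ..(θ + Real.pi / 2), F t := by
    have := intervalIntegral.integral_comp_add_left (a := 0) (b := Real.pi / 2) F θ
    rw [add_zero] at this
    rw [← this, hF]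
  have Im : ∫ t in (0 : ℝ)..(Real.pi / 2), ((-g1 (θ - t)) ^ 2 - g (θ - t) ^ 2) =
      ∫ t in (θ - Real.pi / 2)..θ, F t := by
    have := intervalIntegral.integral_comp_sub_left (a := 0) (b := Real.pi / 2) F θ
    rw [sub_zero] at this
    rw [← this, hF]
    simp only [neg_sq]
  have hJ : 1 / 2 * ∫ t in (0 : ℝ)..(2 * Real.pi), F t =
      (∫ t in (0 : ℝ)..(Real.pi / 2), ((-g1 (θ - t)) ^ 2 - g (θ - t) ^ 2)) +
      ∫ t in (0 : ℝ)..(Real.pi / 2), (g1 (θ + t) ^ 2 - g (θ + t) ^ 2) := by
    rw [Ip, Im, intervalIntegral.integral_add_adjacent_intervals (hFc.intervalIntegrable _ _)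
      (hFc.intervalIntegrable _ _), per_two hFp hFc θ]
    ring
  -- the curvature
  obtain ⟨ρ, hρ⟩ : ∃ ρ : ℝ → ℝ, ρ = fun t => deriv h1 t + h t := ⟨_, rfl⟩
  obtain ⟨κ, hκ⟩ : ∃ κ : ℝ → ℝ, κ = fun t => 1 - h t - hs K (t + Real.pi) := ⟨_, rfl⟩
  have hκ0 : ∀ t, 0 ≤ κ t := by
    intro t
    rw [hκ]
    simp only
    linarith [hadd t]
  have hκc : Continuous κ := by
    rw [hκ]
    exact (continuous_const.sub hhc).sub hkc2
  have hρae : ∀ᵐ t, 0 ≤ ρ t ∧ ρ t ≤ 1 := by
    filter_upwards [hL.ae_differentiableAt_real] with t ht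
    have h2 := hρd t (by rw [← hh1]; exact ht)
    rw [hρ]
    simp only
    rw [hh1, hh]
    exact h2
  have hgap : ∀ s, κ s ≠ 0 → ∃ a b : ℝ, a < s ∧ s < b ∧ b - a < Real.pi ∧ κ a = 0 ∧ κ b = 0 ∧
      (∀ φ ∈ Ioo a b, κ φ ≠ 0 ∧ ρ φ = 0) ∧
      ∀ φ ∈ Icc a b, κ φ ≤ 1 - cos (φ - a) ∧ κ φ ≤ 1 - cos (b - φ) := by
    intro s hs0
    rw [hκ, hh] at hs0
    rw [hκ, hρ, hh1, hh]
    exact kap_gap hK hne hx s hs0
  have hac : AbsolutelyContinuousOnInterval h1 0 (2 * Real.pi) :=
    (hL.lipschitzOnWith (s := uIcc 0 (2 * Real.pi))).absolutelyContinuousOnInterval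
  have iρ : IntervalIntegrable ρ volume 0 (2 * Real.pi) := by
    rw [hρ]
    exact hac.intervalIntegrable_deriv.add (hhc.intervalIntegrable _ _)
  have hid := pl_ident hd hp hL hkc (hs_two_pi K)
  have hid2 : W K - Real.pi = (∫ t in (0 : ℝ)..(2 * Real.pi), ((hs K (t + Real.pi) -
      h (t + Real.pi)) - ρ t * g t)) + 1 / 2 * ∫ t in (0 : ℝ)..(2 * Real.pi), F t := by
    rw [hF, hg, hg1, hρ]
    exact hid
  have hE : ∫ t in (0 : ℝ)..(2 * Real.pi), (1 - ρ t) * max 0 (g θ - κ t) ≤
      ∫ t in (0 : ℝ)..(2 * Real.pi), ((hs K (t + Real.pi) - h (t + Real.pi)) - ρ t * g t) := by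
    apply intervalIntegral.integral_mono_ae (by positivity)
    · exact ((continuous_const.intervalIntegrable _ _).sub iρ).mul_continuousOn
        (continuous_const.max (continuous_const.sub hκc)).continuousOn
    · exact ((hkc2.sub hhc2).intervalIntegrable _ _).sub (iρ.mul_continuousOn hgc.continuousOn)
    · filter_upwards [hρae] with t ht
      have e1 : hs K (t + Real.pi) - h (t + Real.pi) = g t - κ t := by
        rw [hg, hκ]
        ring
      rw [e1]
      by_cases h0 : κ t = 0
      · rw [h0, sub_zero, sub_zero, max_eq_right (hg0 θ)]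
        nlinarith [hmin t, hg0 t, hg0 θ, ht.1, ht.2]
      · obtain ⟨a, b, ha, hb, -, -, -, hab, -⟩ := hgap t h0
        rw [(hab t ⟨ha, hb⟩).2, sub_zero, one_mul, zero_mul, sub_zero]
        apply max_le
        · rw [← e1]
          linarith [hlk (t + Real.pi)]
        · linarith [hmin t]
  have hE0 : 0 ≤ ∫ t in (0 : ℝ)..(2 * Real.pi), (1 - ρ t) * max 0 (g θ - κ t) := by
    apply intervalIntegral.integral_nonneg_of_ae (by positivity)
    filter_upwards [hρae] with t ht
    exact mul_nonneg (by linarith [ht.2]) (le_max_left _ _)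
  -- the case `y > 0`
  have hpos : 0 < y → Real.pi < W K := by
    intro hy2
    have hmeas : Measurable ρ := by
      rw [hρ]
      exact (measurable_deriv h1).add hhc.measurable
    have hdp : ∀ t, deriv h1 (t + 2 * Real.pi) = deriv h1 t := by
      intro t
      rw [← deriv_comp_add_const]
      congr 1
      funext s
      exact hp1 s
    have hρp : ∀ t, ρ (t + 2 * Real.pi) = ρ t := by
      intro t
      rw [hρ]
      simp only
      rw [hdp, hp]
    have hκp : ∀ t, κ (t + 2 * Real.pi) = κ t := by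
      intro t
      rw [hκ]
      simp only
      rw [hp, show t + 2 * Real.pi + Real.pi = t + Real.pi + 2 * Real.pi by ring, hs_two_pi]
    have ic : ∀ ψ : ℝ, ∫ t in (0 : ℝ)..(2 * Real.pi), ρ t * cos (t - ψ) = 0 := by
      intro ψ
      have hfd : ∀ t, HasDerivAt (fun s => cos (s - ψ)) (-sin (t - ψ)) t := by
        intro t
        exact (Real.hasDerivAt_cos (t - ψ)).comp_sub_const t ψ
      have hfc : Continuous (fun t => -sin (t - ψ)) := by fun_prop
      have e1 := pl_ibp hd hp hL hfd hfc (fun t => by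
        rw [show t + 2 * Real.pi - ψ = t - ψ + 2 * Real.pi by ring, Real.cos_add_two_pi])
      rw [hρ]
      rw [e1]
      have hsd : ∀ t, HasDerivAt (fun s => h s * sin (s - ψ))
          (h1 t * sin (t - ψ) + h t * cos (t - ψ)) t := by
        intro t
        exact (hd t).mul ((Real.hasDerivAt_sin (t - ψ)).comp_sub_const t ψ)
      have e2 := intervalIntegral.integral_eq_sub_of_hasDerivAt (a := 0) (b := 2 * Real.pi)
        (fun t _ => hsd t) (by
          apply Continuous.intervalIntegrable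
          exact (hc1.mul (by fun_prop)).add (hhc.mul (by fun_prop)))
      have e3 : h (2 * Real.pi) = h 0 := by
        have := hp 0
        rwa [zero_add] at this
      have e4 : sin (2 * Real.pi - ψ) = sin (0 - ψ) := by
        rw [Real.sin_two_pi_sub, zero_sub, Real.sin_neg]
      rw [e3, e4, sub_self] at e2
      refine Eq.trans ?_ e2
      apply intervalIntegral.integral_congr
      intro t _
      simp only
      ring
    have iρ2 : ∫ t in (0 : ℝ)..(2 * Real.pi), ρ t ≤ Real.pi * cos y := by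
      have e1 := pl_ibp hd hp hL (f := fun _ => 1) (f1 := fun _ => 0)
        (fun t => hasDerivAt_const t 1) continuous_const (fun _ => rfl)
      simp only [mul_one, mul_zero, sub_zero] at e1
      rw [hρ, e1]
      have e2 : ∫ t in (0 : ℝ)..(2 * Real.pi), g t =
          2 * Real.pi - 2 * ∫ t in (0 : ℝ)..(2 * Real.pi), h t := by
        rw [hg, intervalIntegral.integral_sub, intervalIntegral.integral_sub, per_shift hp Real.pi]
        · simp
          ring
        · exact continuous_const.intervalIntegrable _ _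
        · exact hhc.intervalIntegrable _ _
        · exact (continuous_const.sub hhc).intervalIntegrable _ _
        · exact hhc2.intervalIntegrable _ _
      have e3 : ∫ t in (0 : ℝ)..(2 * Real.pi), g θ ≤ ∫ t in (0 : ℝ)..(2 * Real.pi), g t :=
        intervalIntegral.integral_mono (by positivity) (continuous_const.intervalIntegrable _ _)
          (hgc.intervalIntegrable _ _) hmin
      rw [intervalIntegral.integral_const, smul_eq_mul, sub_zero] at e3
      rw [hcy]
      nlinarith
    have hRR := hR κ ρ y hy2 hy1 hκc hκ0 hκp hmeas hρp hρae hgap iρ2 ic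
    have e5 : (1 : ℝ) - cos y = g θ := hq0.symm
    rw [e5] at hRR
    have hps := psi_pos hy2 hy1
    rw [hJ] at hid2
    linarith
  have hW0 : 0 ≤ y := hy0
  constructor
  · rcases hy0.lt_or_eq with h2 | h2
    · exact (hpos h2).le
    · rw [← h2, Real.sin_zero, zero_mul, sub_zero, neg_zero] at Ap Am
      rw [hJ] at hid2
      linarith
  · intro hW
    have hy2 : y = 0 := by
      by_contra h2
      have h3 : 0 < y := lt_of_le_of_ne hy0 (Ne.symm h2)
      have := hpos h3
      rw [hW] at this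
      exact lt_irrefl _ this
    rw [hy2, Real.sin_zero, zero_mul, sub_zero, neg_zero] at Ap Am
    have hg00 : g θ = 0 := by
      rw [hq0, hy2, Real.cos_zero, sub_self]
    rw [hJ, hW, sub_self] at hid2
    have hA1 : ∫ t in (0 : ℝ)..(Real.pi / 2), (g1 (θ + t) ^ 2 - g (θ + t) ^ 2) ≤ 0 := by
      linarith
    have hA2 : ∫ t in (0 : ℝ)..(Real.pi / 2), ((-g1 (θ - t)) ^ 2 - g (θ - t) ^ 2) ≤ 0 := by
      linarith
    have z1 := hH0 (fun s => g (θ + s)) (fun t => g1 (θ + t)) qp qpc
      (by simp only [add_zero]; exact hg00) (by simp only [add_zero]; exact hgθ) hA1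
    have z2 := hH0 (fun s => g (θ - s)) (fun t => -g1 (θ - t)) qm qmc
      (by simp only [sub_zero]; exact hg00) (by simp only [sub_zero]; rw [hgθ, neg_zero]) hA2
    have hz : ∀ t, g t = 0 := by
      intro t
      obtain ⟨s, hs', hst⟩ := Function.Periodic.exists_mem_Ico (f := g) (c := Real.pi) hgp hpi t
        (θ - Real.pi / 2)
      rw [hst]
      rcases le_total θ s with h2 | h2
      · have := z1 (s - θ) (by linarith) (by linarith [hs'.2])
        simp only [add_sub_cancel] at this
        exact this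
      · have := z2 (θ - s) (by linarith) (by linarith [hs'.1])
        simp only [sub_sub_cancel] at this
        exact this
    intro t
    have e1 := hz t
    rw [hg] at e1
    simp only at e1
    have e2 := hadd t
    have e3 := hadd (t + Real.pi)
    rw [show t + Real.pi + Real.pi = t + 2 * Real.pi by ring, hs_two_pi] at e3
    have e4 := hlk t
    have e5 := hlk (t + Real.pi)
    linarith

end Pool.Agent.Y508.FP
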