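import Pool.Agent.Y508.FP.Stm

/-!
Polygons without alternation are plane polygons (job FP-PLN, helper461).
-/

set_option autoImplicit false
open MeasureTheory Metric Set Filter Topology
open Real (sin cos)

namespace Pool.Agent.Y508.FP
open Pool.Agent.Y508

namespace Pln

/-- a functional with prescribed values on a linearly independent family -/
theorem exists_vec {N : ℕ} {κ : Type} [Fintype κ] (w : κ → EuclideanSpace ℝ (Fin N))
    (hw : LinearIndependent ℝ w) (val : κ → ℝ) :
    ∃ e : EuclideanSpace ℝ (Fin N), ∀ k, inner ℝ e (w k) = val k := by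
  set b := Module.Basis.span hw with hb
  obtain ⟨φ, hφ⟩ := LinearMap.exists_extend (b.constr ℝ val)
  refine ⟨(InnerProductSpace.toDual ℝ (EuclideanSpace ℝ (Fin N))).symm
    (LinearMap.toContinuousLinearMap φ), fun k => ?_⟩
  rw [InnerProductSpace.toDual_symm_apply]
  have h1 : ((b k : Submodule.span ℝ (Set.range w)) : EuclideanSpace ℝ (Fin N)) = w k := by
    rw [hb, Module.Basis.span_apply]
  have h2 : φ (w k) = (b.constr ℝ val) (b k) := by
    rw [← hφ, LinearMap.comp_apply, Submodule.subtype_apply, h1]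
  rw [Module.Basis.constr_basis] at h2
  exact h2

/-- coordinates on a subspace of dimension at most two -/
theorem exists_coords {N : ℕ} (V : Submodule ℝ (EuclideanSpace ℝ (Fin N)))
    (hV : Module.finrank ℝ V ≤ 2) :
    ∃ b₀ b₁ : EuclideanSpace ℝ (Fin N), ∀ v ∈ V,
      ‖v‖ ^ 2 = (inner ℝ b₀ v) ^ 2 + (inner ℝ b₁ v) ^ 2 := by
  obtain ⟨k, b, hk⟩ : ∃ k, ∃ _ : OrthonormalBasis (Fin k) ℝ V, k ≤ 2 :=
    ⟨_, stdOrthonormalBasis ℝ V, hV⟩
  have hsum : ∀ v : V, ‖v‖ ^ 2 = ∑ i, (inner ℝ (b i) v) ^ 2 := by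
    intro v
    have := b.sum_sq_norm_inner_right v
    rw [← this]
    refine Finset.sum_congr rfl fun i _ => ?_
    rw [Real.norm_eq_abs, sq_abs]
  interval_cases k
  · refine ⟨0, 0, fun v hv => ?_⟩
    have := hsum ⟨v, hv⟩
    simp only [Finset.univ_eq_empty, Finset.sum_empty, Submodule.coe_norm] at this
    simp [this]
  · refine ⟨(b 0 : V), 0, fun v hv => ?_⟩
    have := hsum ⟨v, hv⟩
    simp only [Fin.sum_univ_one, Submodule.coe_norm, Submodule.coe_inner] at this
    rw [this]; simp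
  · refine ⟨(b 0 : V), (b 1 : V), fun v hv => ?_⟩
    have := hsum ⟨v, hv⟩
    simp only [Fin.sum_univ_two, Submodule.coe_norm, Submodule.coe_inner] at this
    exact this

end Pln

theorem pln : PlnStm := by
  intro n N y hy
  rcases Nat.eq_zero_or_pos n with h0 | h0
  · subst h0
    exact ⟨fun _ => 0, fun e a b c d t _ _ _ hd => absurd hd (Nat.not_lt_zero _),
      fun i hi => absurd hi (Nat.not_lt_zero _)⟩
  set w : Fin n → EuclideanSpace ℝ (Fin N) := fun i => y i - y 0 with hw
  have hfr : Module.finrank ℝ (Submodule.span ℝ (Set.range w)) ≤ 2 := by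
    obtain ⟨κ, a, ha, hsp, hli⟩ := exists_linearIndependent' ℝ w
    have : Finite κ := Finite.of_injective a ha
    have : Fintype κ := Fintype.ofFinite κ
    rw [← hsp, finrank_span_eq_card hli]
    by_contra hcon
    push Not at hcon
    -- three indices in increasing order
    set S : Finset (Fin n) := Finset.univ.image a with hS
    have hcard : S.card = Fintype.card κ := by
      rw [hS, Finset.card_image_of_injective _ ha, Finset.card_univ]
    have h3 : 2 < S.card := by omega
    set f := S.orderEmbOfFin rfl with hf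
    have hSm : ∀ x ∈ S, ∃ k, a k = x := by
      intro x hx
      rw [hS, Finset.mem_image] at hx
      obtain ⟨k, _, hk⟩ := hx
      exact ⟨k, hk⟩
    have hfm : ∀ i, ∃ k, a k = f i := fun i => hSm _ (Finset.orderEmbOfFin_mem S rfl i)
    obtain ⟨k1, hk1⟩ := hfm ⟨0, by omega⟩
    obtain ⟨k2, hk2⟩ := hfm ⟨1, by omega⟩
    obtain ⟨k3, hk3⟩ := hfm ⟨2, by omega⟩
    have l12 : f ⟨0, by omega⟩ < f ⟨1, by omega⟩ := f.strictMono (by simp [Fin.lt_def])
    have l23 : f ⟨1, by omega⟩ < f ⟨2, by omega⟩ := f.strictMono (by simp [Fin.lt_def])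
    have hne12 : k2 ≠ k1 := by
      rintro rfl; rw [hk1] at hk2; exact l12.ne hk2
    have hne23 : k2 ≠ k3 := by
      rintro rfl; rw [hk2] at hk3; exact l23.ne hk3
    classical
    obtain ⟨e, he⟩ := Pln.exists_vec (w ∘ a) hli (fun k => if k = k2 then 0 else 1)
    have hv1 : inner ℝ e (w (a k1)) = (1 : ℝ) := by
      have := he k1; rw [if_neg (Ne.symm hne12)] at this; exact this
    have hv2 : inner ℝ e (w (a k2)) = (0 : ℝ) := by
      have := he k2; rw [if_pos rfl] at this; exact this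
    have hv3 : inner ℝ e (w (a k3)) = (1 : ℝ) := by
      have := he k3; rw [if_neg (Ne.symm hne23)] at this; exact this
    simp only [hw, inner_sub_right] at hv1 hv2 hv3
    have hb0 : 0 < ((a k1 : Fin n) : ℕ) := by
      rcases Nat.eq_zero_or_pos ((a k1 : Fin n) : ℕ) with h | h
      · rw [h] at hv1; simp at hv1
      · exact h
    have hbc : ((a k1 : Fin n) : ℕ) < ((a k2 : Fin n) : ℕ) := by
      rw [hk1, hk2]; exact l12
    have hcd : ((a k2 : Fin n) : ℕ) < ((a k3 : Fin n) : ℕ) := by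
      rw [hk2, hk3]; exact l23
    exact hy e 0 (a k1) (a k2) (a k3) (inner ℝ e (y 0) + 1 / 2) hb0 hbc hcd (a k3).2
      (by linarith) (by linarith) (by linarith) (by linarith)
  obtain ⟨b₀, b₁, hb⟩ := Pln.exists_coords _ hfr
  refine ⟨fun i => pt (inner ℝ b₀ (y i - y 0)) (inner ℝ b₁ (y i - y 0)), ?_, ?_⟩
  · intro e a b c d t hab hbc hcd hdn h1 h2 h3 h4
    have key : ∀ i, inner ℝ e (pt (inner ℝ b₀ (y i - y 0)) (inner ℝ b₁ (y i - y 0))) =
        inner ℝ (e 0 • b₀ + e 1 • b₁) (y i) - inner ℝ (e 0 • b₀ + e 1 • b₁) (y 0) := by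
      intro i
      rw [inner_E2, pt_zero, pt_one, ← inner_sub_right, inner_add_left, real_inner_smul_left,
        real_inner_smul_left]
    rw [key] at h1 h2 h3 h4
    exact hy (e 0 • b₀ + e 1 • b₁) a b c d (t + inner ℝ (e 0 • b₀ + e 1 • b₁) (y 0)) hab hbc hcd hdn
      (by linarith) (by linarith) (by linarith) (by linarith)
  · intro i hi j hj
    have hmem : y i - y j ∈ Submodule.span ℝ (Set.range w) := by
      have e : y i - y j = w ⟨i, hi⟩ - w ⟨j, hj⟩ := by simp [hw]
      rw [e]
      exact Submodule.sub_mem _ (Submodule.subset_span ⟨_, rfl⟩) (Submodule.subset_span ⟨_, rfl⟩)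
    have h1 := hb _ hmem
    have h2 : dist (pt (inner ℝ b₀ (y i - y 0)) (inner ℝ b₁ (y i - y 0)))
        (pt (inner ℝ b₀ (y j - y 0)) (inner ℝ b₁ (y j - y 0))) ^ 2 = dist (y i) (y j) ^ 2 := by
      rw [dist_eq_norm, dist_eq_norm, h1, norm_sq_E2]
      simp only [PiLp.sub_apply, pt_zero, pt_one]
      rw [← inner_sub_right, ← inner_sub_right]
      have e : y i - y 0 - (y j - y 0) = y i - y j := by abel
      rw [e]
    exact (sq_eq_sq₀ dist_nonneg dist_nonneg).mp h2

end Pool.Agent.Y508.FP
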