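import Pool.Agent.Y508.Basic

/-!
# Farthest points on closed curves of length `π`: statements of the parts

`E2` is the plane, `ev θ` the unit vector of direction `θ`, `ip x θ` the scalar product of `x` and `ev θ`,
`hs K` the support function of `K`, `W K` its integral over a period (the perimeter of a convex body `K`);
these definitions are in `Pool/Agent/Y508/Basic.lean`.
-/

set_option autoImplicit false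
open MeasureTheory Metric Set Filter Topology
open Real (sin cos)

namespace Pool.Agent.Y508.FP
open Pool.Agent.Y508

/-! ### part A: plane convex bodies -/

/-- points at distance at most one from all the points of `K` -/
def dual (K : Set E2) : Set E2 := {x | ∀ y ∈ K, dist x y ≤ 1}

/-- support point map of the dual body -/
structure Sup (K : Set E2) (x : ℝ → E2) : Prop where
  mem : ∀ θ, x θ ∈ dual K
  per : ∀ θ, x (θ + 2 * Real.pi) = x θ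
  ball : ∀ θ, ∀ z ∈ dual K, ‖z - x θ‖ ^ 2 + 2 * ip (z - x θ) θ ≤ 0
  gap : ∀ θ, x θ - ev θ ∉ K → ∃ a b : ℝ, a < θ ∧ θ < b ∧ b - a < Real.pi ∧ (∀ φ ∈ Icc a b, x φ = x θ) ∧
    x θ - ev a ∈ K ∧ x θ - ev b ∈ K ∧ ∀ φ ∈ Ioo a b, x θ - ev φ ∉ K

def SupStm : Prop := ∀ K : Set E2, IsCompact K → Convex ℝ K → K.Nonempty →
  (∃ (m : E2) (r : ℝ), r < 1 ∧ K ⊆ closedBall m r) → ∃ x, Sup K x

def CalStm : Prop := ∀ (K : Set E2) (x : ℝ → E2), Sup K x →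
  (∀ θ φ : ℝ, ‖x θ - x φ‖ ≤ |θ - φ|) ∧
  (∀ θ : ℝ, HasDerivAt (fun t => ip (x t) t) (ip (x θ) (θ + Real.pi / 2)) θ) ∧
  (∃ C : NNReal, LipschitzWith C (fun t => ip (x t) (t + Real.pi / 2))) ∧
  ∀ θ : ℝ, DifferentiableAt ℝ (fun t => ip (x t) (t + Real.pi / 2)) θ →
    0 ≤ deriv (fun t => ip (x t) (t + Real.pi / 2)) θ + ip (x θ) θ ∧
      deriv (fun t => ip (x t) (t + Real.pi / 2)) θ + ip (x θ) θ ≤ 1

def HalfStm : Prop := ∀ (q q' : ℝ → ℝ) (y : ℝ), 0 ≤ y → y < Real.pi / 2 → (∀ t, HasDerivAt q (q' t) t) →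
  Continuous q' → q 0 = 1 - cos y → (∀ t, 0 ≤ t → t ≤ y → q t ≤ 1 - cos y * cos t) →
  -(y - sin y * cos y) ≤ ∫ t in (0 : ℝ)..(Real.pi / 2), (q' t ^ 2 - q t ^ 2)

def Half0Stm : Prop := ∀ q q' : ℝ → ℝ, (∀ t, HasDerivAt q (q' t) t) → Continuous q' → q 0 = 0 →
  q' 0 = 0 → (∫ t in (0 : ℝ)..(Real.pi / 2), (q' t ^ 2 - q t ^ 2)) ≤ 0 → ∀ t, 0 ≤ t → t ≤ Real.pi / 2 → q t = 0

def GapSumStm : Prop := ∀ (S : Set ℝ) (F : ℝ → ℝ) (α β : ℝ), IsClosed S → α ∈ S → β ∈ S → α ≤ β →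
  IntervalIntegrable F volume α β → (∀ᵐ t, t ∈ S → α ≤ t → t ≤ β → 0 ≤ F t) →
  (∀ a b : ℝ, a ∈ S → b ∈ S → α ≤ a → a < b → b ≤ β → (∀ t ∈ Ioo a b, t ∉ S) →
    0 ≤ ∫ t in a..b, F t) → 0 ≤ ∫ t in α..β, F t

def RStm : Prop := ∀ (κ ρ : ℝ → ℝ) (y : ℝ), 0 < y → y < Real.pi / 2 → Continuous κ → (∀ t, 0 ≤ κ t) →
  (∀ t, κ (t + 2 * Real.pi) = κ t) → Measurable ρ → (∀ t, ρ (t + 2 * Real.pi) = ρ t) →
  (∀ᵐ t, 0 ≤ ρ t ∧ ρ t ≤ 1) →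
  (∀ θ, κ θ ≠ 0 → ∃ a b : ℝ, a < θ ∧ θ < b ∧ b - a < Real.pi ∧ κ a = 0 ∧ κ b = 0 ∧
    (∀ φ ∈ Ioo a b, κ φ ≠ 0 ∧ ρ φ = 0) ∧
    ∀ φ ∈ Icc a b, κ φ ≤ 1 - cos (φ - a) ∧ κ φ ≤ 1 - cos (b - φ)) →
  (∫ t in (0 : ℝ)..(2 * Real.pi), ρ t) ≤ Real.pi * cos y →
  (∀ ψ : ℝ, (∫ t in (0 : ℝ)..(2 * Real.pi), ρ t * cos (t - ψ)) = 0) →
  4 * (sin y - y * cos y) ≤ ∫ t in (0 : ℝ)..(2 * Real.pi), (1 - ρ t) * max 0 (1 - cos y - κ t)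

/-- plane convex bodies: every boundary point has a point of the body at distance `≥ 1` -/
def PlaneStm : Prop := ∀ K : Set E2, IsCompact K → Convex ℝ K → K.Nonempty →
  (∃ (m : E2) (r : ℝ), r < 1 ∧ K ⊆ closedBall m r) → (∀ x ∈ frontier K, ∃ y ∈ K, 1 ≤ dist x y) →
  Real.pi ≤ W K ∧ (W K = Real.pi → ∀ θ, hs K θ + hs K (θ + Real.pi) = 1)

/-! ### part B: from closed curves to plane convex bodies -/

/-- a cyclic sequence with four alternating values has a first order deformation -/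
def AltStm : Prop := ∀ (n : ℕ) (v : ℕ → ℝ) (a b c d : ℕ), a < b → b < c → c < d → d < n →
  v a < v b → v c < v b → v c < v d → v a < v d →
  ∃ (f g : ℕ → ℝ) (C : ℝ), 0 ≤ C ∧
    (∀ i, i + 1 < n → (f (i + 1) - f i) ^ 2 = (v (i + 1) - v i) * (g (i + 1) - g i) ∧
      |g (i + 1) - g i| ≤ C * |v (i + 1) - v i|) ∧
    (f 0 - f (n - 1)) ^ 2 = (v 0 - v (n - 1)) * (g 0 - g (n - 1)) ∧
    |g 0 - g (n - 1)| ≤ C * |v 0 - v (n - 1)| ∧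
    (∀ i < n, ∀ j < n, (v i - v j) * (g i - g j) ≤ (f i - f j) ^ 2) ∧
    ∃ i j, i + 1 < j ∧ j < n ∧ ¬ (i = 0 ∧ j + 1 = n) ∧ (v i - v j) * (g i - g j) < (f i - f j) ^ 2

/-- no linear functional has four alternating values on the cyclic sequence `y 0, …, y (n - 1)` -/
def NoAlt {N : ℕ} (n : ℕ) (y : ℕ → EuclideanSpace ℝ (Fin N)) : Prop :=
  ∀ (e : EuclideanSpace ℝ (Fin N)) (a b c d : ℕ) (t : ℝ), a < b → b < c → c < d → d < n →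
    inner ℝ e (y a) < t → t < inner ℝ e (y b) → inner ℝ e (y c) < t → t < inner ℝ e (y d) → False

/-- majorization of a closed polygon -/
def MajStm : Prop := ∀ (n N : ℕ), 1 ≤ n → n ≤ N → ∀ (x : ℕ → EuclideanSpace ℝ (Fin N)) (η : ℝ), 0 < η →
  ∃ y : ℕ → EuclideanSpace ℝ (Fin N), NoAlt n y ∧
    (∀ i, i + 1 < n → dist (y i) (y (i + 1)) ≤ dist (x i) (x (i + 1))) ∧
    dist (y (n - 1)) (y 0) ≤ dist (x (n - 1)) (x 0) ∧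
    ∀ i j, i + 1 < j → j < n → ¬ (i = 0 ∧ j + 1 = n) →
      dist (x i) (x j) ^ 2 - η ≤ dist (y i) (y j) ^ 2

/-- polygons without alternation are plane polygons -/
def PlnStm : Prop := ∀ (n N : ℕ) (y : ℕ → EuclideanSpace ℝ (Fin N)), NoAlt n y →
  ∃ z : ℕ → E2, NoAlt n z ∧ ∀ i < n, ∀ j < n, dist (z i) (z j) = dist (y i) (y j)

/-- length of a closed polygon -/
noncomputable def len {N : ℕ} (n : ℕ) (z : ℕ → EuclideanSpace ℝ (Fin N)) : ℝ :=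
  (∑ i ∈ Finset.range (n - 1), dist (z i) (z (i + 1))) + dist (z (n - 1)) (z 0)

def PolyStm : Prop := ∀ (n : ℕ) (z : ℕ → E2) (μ : ℝ), 1 ≤ n →
  (∀ i, i + 1 < n → dist (z i) (z (i + 1)) ≤ μ) → dist (z (n - 1)) (z 0) ≤ μ →
  W (z '' Iio n) ≤ len n z ∧ ∃ m : E2, ∀ i < n, dist (z i) m ≤ len n z / 4 + μ

/-- approximation with error `ε` of a closed curve `C` of length at most `ℓ`, all of whose points have
farthest points at distance `≥ 1`, by a plane polygon -/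
structure Apx (d : ℕ) (C : Set (EuclideanSpace ℝ (Fin d))) (ℓ ε : ℝ) (n : ℕ) (z : ℕ → E2)
    (w : ℕ → EuclideanSpace ℝ (Fin d)) : Prop where
  pos : 1 ≤ n
  noalt : NoAlt n z
  mem : ∀ i < n, w i ∈ C
  edge : ∀ i, i + 1 < n → dist (z i) (z (i + 1)) ≤ ε
  edge0 : dist (z (n - 1)) (z 0) ≤ ε
  lip : ∀ i < n, ∀ j < n, dist (w i) (w j) ≤ dist (z i) (z j) + ε
  far : ∀ i < n, ∃ j < n, 1 - ε ≤ dist (w i) (w j)
  per : W (z '' Iio n) ≤ ℓ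
  bd : ∀ i < n, z i ∈ closedBall (0 : E2) (ℓ / 4 + ε)

def ApxStm : Prop := ∀ (d : ℕ) (γ : ℝ → EuclideanSpace ℝ (Fin d)) (ℓ : ℝ), 0 ≤ ℓ →
  ContinuousOn γ (Icc 0 1) → γ 0 = γ 1 → eVariationOn γ (Icc 0 1) ≤ ENNReal.ofReal ℓ →
  (∀ s ∈ Icc (0 : ℝ) 1, ∃ t ∈ Icc (0 : ℝ) 1, 1 ≤ dist (γ s) (γ t)) →
  ∀ ε > 0, ∃ (n : ℕ) (z : ℕ → E2) (w : ℕ → EuclideanSpace ℝ (Fin d)),
    Apx d (γ '' Icc 0 1) ℓ ε n z w

/-- the limit object: `T` carries a map `c` to `C` which does not increase distances -/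
structure Lim (d : ℕ) (C : Set (EuclideanSpace ℝ (Fin d))) (ℓ : ℝ) (T : Set E2)
    (c : E2 → EuclideanSpace ℝ (Fin d)) : Prop where
  cpt : IsCompact T
  ne : T.Nonempty
  fr : frontier (convexHull ℝ T) ⊆ T
  lip : ∀ p ∈ T, ∀ q ∈ T, dist (c p) (c q) ≤ dist p q
  far : ∀ p ∈ T, ∃ q ∈ T, 1 ≤ dist (c p) (c q)
  mem : ∀ p ∈ T, c p ∈ C
  bd : T ⊆ closedBall (0 : E2) (ℓ / 4)
  per : W (convexHull ℝ T) ≤ ℓ

def LimStm : Prop := ∀ (d : ℕ) (C : Set (EuclideanSpace ℝ (Fin d))) (ℓ : ℝ), 0 ≤ ℓ → IsCompact C →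
  (∀ ε > 0, ∃ (n : ℕ) (z : ℕ → E2) (w : ℕ → EuclideanSpace ℝ (Fin d)), Apx d C ℓ ε n z w) →
  ∃ (T : Set E2) (c : E2 → EuclideanSpace ℝ (Fin d)), Lim d C ℓ T c

/-! ### part C: the case of equality -/

def GeoStm : Prop := ∀ (d : ℕ) (f : ℝ → EuclideanSpace ℝ (Fin d)), (∀ θ, ‖f θ‖ = 1) →
  (∀ θ φ : ℝ, dist (f θ) (f φ) ≤ |θ - φ|) → f Real.pi = -f 0 →
  inner ℝ (f 0) (f (Real.pi / 2)) = 0 ∧
    ∀ θ ∈ Icc (0 : ℝ) Real.pi, f θ = cos θ • f 0 + sin θ • f (Real.pi / 2)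

/-- all unit vectors of a plane are differences of two points of `C` -/
def Dirs (d : ℕ) (C : Set (EuclideanSpace ℝ (Fin d))) (e₁ e₂ : EuclideanSpace ℝ (Fin d)) : Prop :=
  ‖e₁‖ = 1 ∧ ‖e₂‖ = 1 ∧ inner ℝ e₁ e₂ = 0 ∧
    ∀ θ : ℝ, ∃ p ∈ C, ∃ q ∈ C, p - q = cos θ • e₁ + sin θ • e₂

def RigStm : Prop := ∀ (d : ℕ) (C : Set (EuclideanSpace ℝ (Fin d))) (ℓ : ℝ) (T : Set E2)
  (c : E2 → EuclideanSpace ℝ (Fin d)), Lim d C ℓ T c →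
  (∀ θ, hs (convexHull ℝ T) θ + hs (convexHull ℝ T) (θ + Real.pi) = 1) → ∃ e₁ e₂, Dirs d C e₁ e₂

def CroStm : Prop := ∀ (ζ : ℝ → E2) (ℓ : ℝ), 0 ≤ ℓ → ContinuousOn ζ (Icc 0 1) → ζ 0 = ζ 1 →
  eVariationOn ζ (Icc 0 1) ≤ ENNReal.ofReal ℓ → W (ζ '' Icc 0 1) ≤ ℓ

def Cro2Stm : Prop := ∀ ζ : ℝ → E2, ContinuousOn ζ (Icc 0 1) → ζ 0 = ζ 1 →
  eVariationOn ζ (Icc 0 1) ≤ ENNReal.ofReal (W (ζ '' Icc 0 1)) →
  frontier (convexHull ℝ (ζ '' Icc 0 1)) ⊆ ζ '' Icc 0 1 →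
  ζ '' Icc 0 1 ⊆ frontier (convexHull ℝ (ζ '' Icc 0 1))

def PytStm : Prop := ∀ (d : ℕ) (γ : ℝ → EuclideanSpace ℝ (Fin d)) (e₁ e₂ : EuclideanSpace ℝ (Fin d)),
  ‖e₁‖ = 1 → ‖e₂‖ = 1 → inner ℝ e₁ e₂ = (0 : ℝ) →
  eVariationOn γ (Icc 0 1) ≠ ⊤ →
  eVariationOn γ (Icc 0 1) ≤
    eVariationOn (fun t => pt (inner ℝ e₁ (γ t)) (inner ℝ e₂ (γ t))) (Icc 0 1) →
  ∀ s ∈ Icc (0 : ℝ) 1, ∀ t ∈ Icc (0 : ℝ) 1,
    γ t - γ s = (inner ℝ e₁ (γ t - γ s) : ℝ) • e₁ + (inner ℝ e₂ (γ t - γ s) : ℝ) • e₂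

/-- `C` is the relative boundary of a plane convex body of constant width one -/
def CWB (d : ℕ) (C : Set (EuclideanSpace ℝ (Fin d))) : Prop :=
  ∃ (ι : EuclideanSpace ℝ (Fin 2) →ᵃⁱ[ℝ] EuclideanSpace ℝ (Fin d)) (K : Set (EuclideanSpace ℝ (Fin 2))),
    IsCompact K ∧ Convex ℝ K ∧
    (∀ v : EuclideanSpace ℝ (Fin 2), ‖v‖ = 1 →
      sSup ((fun x => inner ℝ v x) '' K) - sInf ((fun x => inner ℝ v x) '' K) = (1 : ℝ)) ∧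
    C = ι '' frontier K

def FinStm : Prop := ∀ (d : ℕ) (γ : ℝ → EuclideanSpace ℝ (Fin d)) (e₁ e₂ : EuclideanSpace ℝ (Fin d)),
  ContinuousOn γ (Icc 0 1) → γ 0 = γ 1 → eVariationOn γ (Icc 0 1) = ENNReal.ofReal Real.pi →
  Dirs d (γ '' Icc 0 1) e₁ e₂ → CWB d (γ '' Icc 0 1)

def IfStm : Prop := ∀ (d : ℕ) (C : Set (EuclideanSpace ℝ (Fin d))), CWB d C →
  ∀ x ∈ C, ∃ y ∈ C, 1 ≤ dist x y

/-- the main theorem -/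
def MainStm : Prop := ∀ (d : ℕ) (γ : ℝ → EuclideanSpace ℝ (Fin d)), ContinuousOn γ (Icc 0 1) →
  γ 0 = γ 1 → eVariationOn γ (Icc 0 1) = ENNReal.ofReal Real.pi →
  (∃ x ∈ γ '' Icc 0 1, ∀ y ∈ γ '' Icc 0 1, dist x y ≤ 1) ∧
  ((∀ x ∈ γ '' Icc 0 1, ∃ y ∈ γ '' Icc 0 1, 1 ≤ dist x y) ↔ CWB d (γ '' Icc 0 1))

end Pool.Agent.Y508.FP
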